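import Mathlib

/-! Definitions for the thin-flat chain (right angles, `MP_bf60a1_an`). -/

namespace Pool.Agent.P.MP_bf60a1_an.RA

open MeasureTheory

/-- open `r`-neighbourhood of a linear subspace -/
def nb {F : Type*} [NormedAddCommGroup F] [NormedSpace ℝ F] (V : Submodule ℝ F) (r : ℝ) : Set F :=
  {z | ∃ v ∈ V, ‖z - v‖ < r}

/-- span of a tuple -/
def sp {F : Type*} [AddCommGroup F] [Module ℝ F] {j : ℕ} (u : Fin j → F) : Submodule ℝ F :=
  Submodule.span ℝ (Set.range u)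

/-- the tuple is a star of the graph `G` centred at its last entry -/
def adm {F : Type*} (G : Set (F × F)) {j : ℕ} (u : Fin (j + 1) → F) : Prop :=
  ∀ i : Fin j, (u (Fin.last j), u i.castSucc) ∈ G

/-- `S μ G j p`: admissible `(j+1)`-tuples whose span is `δ^p`-heavy at scale `δ` have measure at
most a power of `δ`. -/
def S {D : ℕ} (μ : Measure (EuclideanSpace ℝ (Fin D)))
    (G : Set (EuclideanSpace ℝ (Fin D) × EuclideanSpace ℝ (Fin D))) (j : ℕ) (p : ℝ) : Prop :=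
  ∃ η > (0 : ℝ), ∃ δ₀ > (0 : ℝ), ∀ δ : ℝ, 0 < δ → δ < δ₀ →
    Measure.pi (fun _ : Fin (j + 1) => μ)
      {u | adm G u ∧ ENNReal.ofReal (δ ^ p) < μ (nb (sp u) δ)} ≤ ENNReal.ofReal (δ ^ η)

end Pool.Agent.P.MP_bf60a1_an.RA
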