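import Mathlib
import Pool.Agent.P.MP_bf60a1_an.RA.Defs

namespace Pool.Agent.P.MP_bf60a1_an.RA

open MeasureTheory Metric Set

theorem aff_tail (n : ℕ) : ∃ T : EuclideanSpace ℝ (Fin (n + 1)) →ₗ[ℝ] EuclideanSpace ℝ (Fin n),
    (∀ v, ‖v‖ ^ 2 = (v 0) ^ 2 + ‖T v‖ ^ 2) ∧ ∀ (a : ℝ) (z : EuclideanSpace ℝ (Fin n)),
      ∃ v : EuclideanSpace ℝ (Fin (n + 1)), v 0 = a ∧ T v = z := by
  refine ⟨{ toFun := fun v => WithLp.toLp 2 (fun i : Fin n => v i.succ)
            map_add' := fun v w => by ext i; simp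
            map_smul' := fun c v => by ext i; simp }, fun v => ?_, fun a z => ?_⟩
  · simp only [EuclideanSpace.norm_sq_eq, Fin.sum_univ_succ, LinearMap.coe_mk, AddHom.coe_mk,
      Real.norm_eq_abs, sq_abs]
  · refine ⟨WithLp.toLp 2 (Fin.cons a (fun i => z i) : Fin (n + 1) → ℝ), by simp, ?_⟩
    ext i; simp

theorem aff_nb_open {F : Type*} [NormedAddCommGroup F] [NormedSpace ℝ F] (V : Submodule ℝ F)
    (r : ℝ) : IsOpen (nb V r) := by
  have : nb V r = ⋃ v ∈ V, ball v r := by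
    ext z; simp [nb, dist_eq_norm]
  rw [this]
  exact isOpen_biUnion fun v _ => isOpen_ball

/-- covering a bounded part of a subspace by a grid -/
theorem aff_grid {n m : ℕ} (U : Submodule ℝ (EuclideanSpace ℝ (Fin n)))
    (hU : Module.finrank ℝ U ≤ m) {ρ r : ℝ} (hρ : 0 ≤ ρ) (hr : 0 < r) (hr1 : r ≤ 1) :
    ∃ P : Finset (EuclideanSpace ℝ (Fin n)), (P.card : ℝ) ≤ ((2 * ρ + 5) / r) ^ m ∧
      ∀ u ∈ U, ‖u‖ ≤ ρ → ∃ q ∈ P, ‖u - q‖ ≤ m * r := by
  classical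
  let b := stdOrthonormalBasis ℝ U
  obtain ⟨N, hN1, hN2⟩ : ∃ N : ℕ, ρ / r + 1 ≤ N ∧ (N : ℝ) ≤ ρ / r + 2 := by
    refine ⟨⌈ρ / r⌉₊ + 1, ?_, ?_⟩
    · push_cast; linarith [Nat.le_ceil (ρ / r)]
    · push_cast; linarith [Nat.ceil_lt_add_one (div_nonneg hρ hr.le)]
  refine ⟨(Fintype.piFinset fun _ : Fin (Module.finrank ℝ U) => Finset.Icc (-(N : ℤ)) N).image
    (fun f => ∑ i, ((f i : ℝ) * r) • (b i : EuclideanSpace ℝ (Fin n))), ?_, fun u hu hn => ?_⟩
  · have h1 : ((Finset.Icc (-(N : ℤ)) N).card : ℝ) = 2 * N + 1 := by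
      rw [Int.card_Icc]
      have : ((N : ℤ) + 1 - -(N : ℤ)).toNat = 2 * N + 1 := by omega
      rw [this]; push_cast; ring
    have h2 : (2 * N + 1 : ℝ) ≤ (2 * ρ + 5) / r := by
      have : (5 : ℝ) ≤ 5 / r := by rw [le_div_iff₀ hr]; linarith
      have e : (2 * ρ + 5) / r = 2 * (ρ / r) + 5 / r := by ring
      linarith
    have h3 : (1 : ℝ) ≤ (2 * ρ + 5) / r := le_trans (by have : (0 : ℝ) ≤ N := N.cast_nonneg; linarith) h2
    calc _ ≤ (((Fintype.piFinset fun _ : Fin (Module.finrank ℝ U) =>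
          Finset.Icc (-(N : ℤ)) N).card : ℕ) : ℝ) := by exact_mod_cast Finset.card_image_le
      _ = (2 * N + 1 : ℝ) ^ Module.finrank ℝ U := by
          rw [Fintype.card_piFinset, Finset.prod_const, Finset.card_univ, Fintype.card_fin]
          push_cast; rw [h1]
      _ ≤ ((2 * ρ + 5) / r) ^ Module.finrank ℝ U := by gcongr
      _ ≤ _ := pow_le_pow_right₀ h3 hU
  · let c : Fin (Module.finrank ℝ U) → ℝ := fun i => inner ℝ (b i) (⟨u, hu⟩ : U)
    have hc : ∀ i, |c i| ≤ ρ := fun i => by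
      have h := abs_real_inner_le_norm (b i) (⟨u, hu⟩ : U)
      rw [b.orthonormal.1 i, one_mul] at h
      exact h.trans hn
    have hsum : u = ∑ i, c i • (b i : EuclideanSpace ℝ (Fin n)) := by
      have h := congrArg (fun x : U => (x : EuclideanSpace ℝ (Fin n))) (b.sum_repr' ⟨u, hu⟩)
      simp only [AddSubmonoidClass.coe_finsetSum, SetLike.val_smul] at h
      exact h.symm
    refine ⟨_, Finset.mem_image.2 ⟨fun i => ⌊c i / r⌋, ?_, rfl⟩, ?_⟩
    · rw [Fintype.mem_piFinset]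
      intro i
      have h1 : |c i / r| ≤ ρ / r := by
        rw [abs_div, abs_of_pos hr]; exact div_le_div_of_nonneg_right (hc i) hr.le
      have h2 := abs_le.1 h1
      rw [Finset.mem_Icc]
      constructor
      · rw [Int.le_floor]; push_cast; linarith [h2.1]
      · have : ((⌊c i / r⌋ : ℤ) : ℝ) ≤ (N : ℤ) := by
          push_cast; linarith [Int.floor_le (c i / r), h2.2]
        exact_mod_cast this
    · conv_lhs => rw [hsum]
      rw [← Finset.sum_sub_distrib]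
      refine (norm_sum_le _ _).trans ?_
      calc _ ≤ ∑ _i : Fin (Module.finrank ℝ U), r := by
            refine Finset.sum_le_sum fun i _ => ?_
            rw [← sub_smul, norm_smul]
            have : ‖(b i : EuclideanSpace ℝ (Fin n))‖ = 1 := b.orthonormal.1 i
            rw [this, mul_one, Real.norm_eq_abs, abs_le]
            have h1 := Int.floor_le (c i / r)
            have h2 := Int.lt_floor_add_one (c i / r)
            rw [le_div_iff₀ hr] at h1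
            rw [div_lt_iff₀ hr] at h2
            constructor <;> nlinarith
        _ = (Module.finrank ℝ U : ℝ) * r := by simp
        _ ≤ m * r := by gcongr

/-- measure of a bounded tube around an affine subspace of dimension at most `m` -/
theorem aff_tube {n m : ℕ} (μ : Measure (EuclideanSpace ℝ (Fin n))) {s C ρ K : ℝ} (hC : 0 ≤ C)
    (hρ : 0 ≤ ρ) (hK : 0 < K)
    (hF : ∀ x r, 0 < r → μ (ball x r) ≤ ENNReal.ofReal (C * r ^ s))
    (U : Submodule ℝ (EuclideanSpace ℝ (Fin n))) (hU : Module.finrank ℝ U ≤ m)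
    (a : EuclideanSpace ℝ (Fin n)) {r : ℝ} (hr : 0 < r) (hr1 : r ≤ 1)
    (A : Set (EuclideanSpace ℝ (Fin n)))
    (hA : ∀ z ∈ A, ∃ u ∈ U, ‖u‖ ≤ ρ ∧ ‖z - a - u‖ < K * r) :
    μ A ≤ ENNReal.ofReal ((2 * ρ + 5) ^ m * C * (K + m) ^ s * r ^ (s - m)) := by
  obtain ⟨P, hP, hcov⟩ := aff_grid U hU hρ hr hr1
  have hsub : A ⊆ ⋃ q ∈ P, ball (a + q) ((K + m) * r) := by
    intro z hz
    obtain ⟨u, hu, hn, hz'⟩ := hA z hz
    obtain ⟨q, hq, hq'⟩ := hcov u hu hn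
    refine mem_biUnion hq ?_
    rw [mem_ball, dist_eq_norm]
    have : z - (a + q) = (z - a - u) + (u - q) := by abel
    rw [this]
    have := norm_add_le (z - a - u) (u - q)
    linarith
  have hKm : 0 < K + m := by positivity
  calc μ A ≤ ∑ q ∈ P, μ (ball (a + q) ((K + m) * r)) :=
        (measure_mono hsub).trans (measure_biUnion_finset_le _ _)
    _ ≤ ∑ _q ∈ P, ENNReal.ofReal (C * ((K + m) * r) ^ s) :=
        Finset.sum_le_sum fun q _ => hF _ _ (by positivity)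
    _ = ENNReal.ofReal (P.card * (C * ((K + m) * r) ^ s)) := by
        rw [Finset.sum_const, nsmul_eq_mul, ENNReal.ofReal_mul (Nat.cast_nonneg _),
          ENNReal.ofReal_natCast]
    _ ≤ _ := by
        refine ENNReal.ofReal_le_ofReal ?_
        calc (P.card : ℝ) * (C * ((K + m) * r) ^ s)
            ≤ ((2 * ρ + 5) / r) ^ m * (C * ((K + m) * r) ^ s) := by gcongr
          _ = _ := by
            rw [Real.mul_rpow hKm.le hr.le, Real.rpow_sub hr, Real.rpow_natCast, div_pow]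
            field_simp

section lift
variable {n : ℕ} {T : EuclideanSpace ℝ (Fin (n + 1)) →ₗ[ℝ] EuclideanSpace ℝ (Fin n)}

theorem aff_rank {m : ℕ} (W : Submodule ℝ (EuclideanSpace ℝ (Fin (n + 1))))
    (hW : Module.finrank ℝ W ≤ m + 1) {w₀ : EuclideanSpace ℝ (Fin (n + 1))} (hw : w₀ ∈ W)
    (h0 : w₀ 0 ≠ 0) : ∃ U : Submodule ℝ (EuclideanSpace ℝ (Fin n)), Module.finrank ℝ U ≤ m ∧
      ∀ w ∈ W, w 0 = 0 → T w ∈ U := by
  let π : EuclideanSpace ℝ (Fin (n + 1)) →ₗ[ℝ] ℝ :=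
    { toFun := fun v => v 0, map_add' := fun v w => by simp, map_smul' := fun c v => by simp }
  refine ⟨(W ⊓ LinearMap.ker π).map T, ?_, fun w hw h => ⟨w, ⟨hw, h⟩, rfl⟩⟩
  have h1 : W ⊓ LinearMap.ker π < W :=
    lt_of_le_of_ne inf_le_left fun h => h0 (show w₀ ∈ W ⊓ LinearMap.ker π by rw [h]; exact hw).2
  have h2 := Submodule.finrank_lt_finrank_of_lt h1
  have h3 := Submodule.finrank_map_le T (W ⊓ LinearMap.ker π)
  omega

theorem aff_slab (hT : ∀ v, ‖v‖ ^ 2 = (v 0) ^ 2 + ‖T v‖ ^ 2)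
    (μ : Measure (EuclideanSpace ℝ (Fin n))) [IsProbabilityMeasure μ] {R s C c : ℝ} (hC : 0 ≤ C)
    (hR0 : 0 ≤ R) (hc : 0 < c) (hc1 : c ≤ 1) (hR : μ (ball 0 R)ᶜ = 0)
    (hF : ∀ x r, 0 < r → μ (ball x r) ≤ ENNReal.ofReal (C * r ^ s))
    {ι : EuclideanSpace ℝ (Fin n) → EuclideanSpace ℝ (Fin (n + 1))} (h0 : ∀ z, ι z 0 = c)
    (h1 : ∀ z, T (ι z) = c • z) {m : ℕ} (hm : (m : ℝ) ≤ s) : ∃ C' : ℝ, 0 ≤ C' ∧
    ∀ W : Submodule ℝ (EuclideanSpace ℝ (Fin (n + 1))), Module.finrank ℝ W ≤ m + 1 → ∀ r, 0 < r →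
      μ (ι ⁻¹' nb W r) ≤ ENNReal.ofReal (C' * r ^ (s - m)) := by
  have hT0 : ∀ v : EuclideanSpace ℝ (Fin (n + 1)), |v 0| ≤ ‖v‖ := fun v =>
    abs_le_of_sq_le_sq (by rw [hT v]; nlinarith [sq_nonneg ‖T v‖]) (norm_nonneg _)
  have hT1 : ∀ v : EuclideanSpace ℝ (Fin (n + 1)), ‖T v‖ ≤ ‖v‖ := fun v =>
    (abs_le_of_sq_le_sq' (by rw [hT v]; nlinarith [sq_nonneg (v 0)]) (norm_nonneg _)).2
  obtain ⟨K, hK⟩ : ∃ K : ℝ, K = (2 * R + 2) / c := ⟨_, rfl⟩
  have hK0 : 0 < K := by rw [hK]; positivity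
  have hsm : 0 ≤ s - m := by linarith
  refine ⟨max ((2 * (4 * R + 2) + 5) ^ m * C * (K + m) ^ s) (((c / 2) ^ (s - m))⁻¹),
    le_max_of_le_right (by positivity), fun W hW r hr => ?_⟩
  rcases le_or_gt r (c / 2) with hrc | hrc
  swap
  · refine prob_le_one.trans ?_
    rw [← ENNReal.ofReal_one]
    refine ENNReal.ofReal_le_ofReal ?_
    have h2 : (c / 2) ^ (s - m) ≤ r ^ (s - m) := Real.rpow_le_rpow (by positivity) hrc.le hsm
    have h3 : 0 < (c / 2) ^ (s - m) := by positivity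
    calc (1 : ℝ) = ((c / 2) ^ (s - m))⁻¹ * (c / 2) ^ (s - m) := by field_simp
      _ ≤ _ := mul_le_mul (le_max_right _ _) h2 h3.le (le_max_of_le_right (by positivity))
  have hle : μ (ι ⁻¹' nb W r) ≤ μ (ι ⁻¹' nb W r ∩ ball 0 R) := by
    refine (measure_le_inter_add_sdiff μ _ (ball 0 R)).trans ?_
    rw [measure_mono_null (sdiff_subset_compl _ _) hR, add_zero]
  refine hle.trans ?_
  rcases (ι ⁻¹' nb W r ∩ ball 0 R).eq_empty_or_nonempty with he | ⟨z₀, ⟨w₀, hw₀, hz₀⟩, hz₀R⟩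
  · rw [he]; simp
  rw [mem_ball_zero_iff] at hz₀R
  have e0 : ∀ z w, ‖ι z - w‖ < r → |c - w 0| < r := fun z w h => by
    have := hT0 (ι z - w)
    rw [PiLp.sub_apply, h0] at this
    linarith
  have e1 : ∀ z w, ‖ι z - w‖ < r → ‖c • z - T w‖ < r := fun z w h => by
    have := hT1 (ι z - w)
    rw [map_sub, h1] at this
    linarith
  have hw0 : c / 2 < w₀ 0 := by linarith [(abs_lt.1 (e0 _ _ hz₀)).2]
  have hw0' : 0 < w₀ 0 := by linarith
  obtain ⟨U, hU, hUW⟩ := aff_rank (T := T) W hW hw₀ hw0'.ne'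
  obtain ⟨a, ha⟩ : ∃ a, a = (w₀ 0)⁻¹ • T w₀ := ⟨_, rfl⟩
  have haT : T w₀ = w₀ 0 • a := by rw [ha, smul_smul, mul_inv_cancel₀ hw0'.ne', one_smul]
  have han : ‖a‖ ≤ 2 * R + 1 := by
    have h2 : ‖T w₀‖ ≤ c * R + c / 2 := by
      have h3 := e1 _ _ hz₀
      have h4 : ‖T w₀‖ ≤ ‖c • z₀‖ + ‖c • z₀ - T w₀‖ := by
        have := norm_sub_le (c • z₀) (c • z₀ - T w₀)
        rwa [sub_sub_cancel] at this
      rw [norm_smul, Real.norm_eq_abs, abs_of_pos hc] at h4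
      nlinarith
    rw [haT, norm_smul, Real.norm_eq_abs, abs_of_pos hw0'] at h2
    by_contra hcon
    push Not at hcon
    nlinarith [mul_nonneg hc.le hR0, mul_lt_mul_of_pos_left hcon hw0']
  refine (aff_tube μ hC (by positivity : 0 ≤ 4 * R + 2) hK0 hF U hU a hr (by linarith) _ ?_).trans
    (ENNReal.ofReal_le_ofReal (mul_le_mul_of_nonneg_right (le_max_left _ _) (by positivity)))
  rintro z ⟨⟨w, hw, hz⟩, hzR⟩
  rw [mem_ball_zero_iff] at hzR
  have hu : T (w - (w 0 / w₀ 0) • w₀) ∈ U := by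
    refine hUW _ (W.sub_mem hw (W.smul_mem _ hw₀)) ?_
    rw [PiLp.sub_apply, PiLp.smul_apply, smul_eq_mul]; field_simp; ring
  have hu' : T (w - (w 0 / w₀ 0) • w₀) = T w - w 0 • a := by
    rw [map_sub, map_smul, haT, smul_smul]; congr 2; field_simp
  rw [hu'] at hu
  have key : ‖z - a - c⁻¹ • (T w - w 0 • a)‖ < K * r := by
    have h2 : z - a - c⁻¹ • (T w - w 0 • a) = c⁻¹ • ((c • z - T w) - (c - w 0) • a) := by
      simp only [smul_sub, sub_smul, smul_smul, inv_mul_cancel₀ hc.ne', one_smul]; abel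
    rw [h2, norm_smul, Real.norm_eq_abs, abs_of_pos (inv_pos.2 hc), hK]
    have h3 := norm_sub_le (c • z - T w) ((c - w 0) • a)
    rw [norm_smul, Real.norm_eq_abs] at h3
    have h4 := e0 _ _ hz
    have h5 := e1 _ _ hz
    have h6 : |c - w 0| * ‖a‖ ≤ r * (2 * R + 1) :=
      mul_le_mul h4.le han (norm_nonneg _) hr.le
    have h7 : (2 * R + 2) / c * r = c⁻¹ * (r + r * (2 * R + 1)) := by field_simp; ring
    rw [h7]
    exact mul_lt_mul_of_pos_left (by linarith) (inv_pos.2 hc)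
  refine ⟨_, U.smul_mem c⁻¹ hu, ?_, key⟩
  have h2 : K * r ≤ R + 1 := by
    calc K * r ≤ K * (c / 2) := by gcongr
      _ = R + 1 := by rw [hK]; field_simp
  have h3 : c⁻¹ • (T w - w 0 • a) = z - a - (z - a - c⁻¹ • (T w - w 0 • a)) := by abel
  rw [h3]
  have h4 := norm_sub_le (z - a) (z - a - c⁻¹ • (T w - w 0 • a))
  have h5 := norm_sub_le z a
  linarith

end lift

/-- the statement of `thin_lin` in dimension `D` -/
def ThinLin (D : ℕ) : Prop :=
  ∀ (μ : Measure (EuclideanSpace ℝ (Fin D))) [IsProbabilityMeasure μ],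
    (∀ᵐ z ∂μ, ‖z‖ ≤ 1) → ∀ k : ℕ, 1 ≤ k → ∀ s σ C : ℝ, 0 < σ →
    (∀ (u : EuclideanSpace ℝ (Fin D)) (r : ℝ), 0 < r →
      μ (nb (Submodule.span ℝ {u}) r) ≤ ENNReal.ofReal (C * r ^ s)) →
    (∀ W : Submodule ℝ (EuclideanSpace ℝ (Fin D)), Module.finrank ℝ W ≤ k → ∀ r, 0 < r →
      μ (nb W r) ≤ ENNReal.ofReal (C * r ^ σ)) →
    (∀ V : Submodule ℝ (EuclideanSpace ℝ (Fin D)), Module.finrank ℝ V ≤ k + 1 →
      μ V = 0) → ∀ p : ℝ, 0 ≤ p → p < s → p < k →
    ∃ (G : Set (EuclideanSpace ℝ (Fin D) × EuclideanSpace ℝ (Fin D))) (C' : ℝ),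
      MeasurableSet G ∧ (μ.prod μ) G ≠ 0 ∧ ∀ x y, (x, y) ∈ G → ∀ r, 0 < r →
        μ (nb (Submodule.span ℝ {x, y}) r) ≤ ENNReal.ofReal (C' * r ^ p)


theorem thin_main_of {n k : ℕ} (H : ThinLin (n + 1)) (hk : 1 ≤ k) (μ : Measure (EuclideanSpace ℝ (Fin n)))
    [IsProbabilityMeasure μ] {R s C : ℝ} (hR : μ (ball 0 R)ᶜ = 0) (hs : (k : ℝ) - 1 < s)
    (hF : ∀ x r, 0 < r → μ (ball x r) ≤ ENNReal.ofReal (C * r ^ s))
    (hnull : ∀ V : AffineSubspace ℝ (EuclideanSpace ℝ (Fin n)),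
      Module.finrank ℝ V.direction ≤ k → μ V = 0) {p : ℝ} (hp : 0 ≤ p) (hps : p < s) (hpk : p < k) :
    ∃ (G : Set (EuclideanSpace ℝ (Fin n) × EuclideanSpace ℝ (Fin n))) (C' : ℝ),
      MeasurableSet G ∧ (μ.prod μ) G ≠ 0 ∧ ∀ x y, (x, y) ∈ G → ∀ δ : ℝ, 0 < δ →
        μ {z | ∃ t : ℝ, dist z (x + t • (y - x)) < δ} ≤ ENNReal.ofReal (C' * δ ^ p) := by
  obtain ⟨T, hT, hsurj⟩ := aff_tail n
  obtain ⟨R', hR0, hRR⟩ : ∃ R' : ℝ, 0 ≤ R' ∧ R ≤ R' := ⟨|R|, abs_nonneg R, le_abs_self R⟩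
  have hR' : μ (ball 0 R')ᶜ = 0 :=
    measure_mono_null (compl_subset_compl.2 (ball_subset_ball hRR)) hR
  obtain ⟨c, hcdef⟩ : ∃ c : ℝ, c = (1 + R')⁻¹ := ⟨_, rfl⟩
  have hc : 0 < c := by rw [hcdef]; positivity
  have hcR : c * (1 + R') = 1 := by rw [hcdef]; field_simp
  have hc1 : c ≤ 1 := by nlinarith [mul_nonneg hc.le hR0]
  choose ι h0 h1 using fun z : EuclideanSpace ℝ (Fin n) => hsurj c (c • z)
  have hF' : ∀ x r, 0 < r → μ (ball x r) ≤ ENNReal.ofReal (max C 0 * r ^ s) := fun x r hr =>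
    (hF x r hr).trans (ENNReal.ofReal_le_ofReal
      (mul_le_mul_of_nonneg_right (le_max_left _ _) (by positivity)))
  have hzero : ∀ v : EuclideanSpace ℝ (Fin (n + 1)), v 0 = 0 → ‖v‖ = ‖T v‖ := fun v h => by
    have := hT v
    rw [h, zero_pow two_ne_zero, zero_add] at this
    exact (pow_left_inj₀ (norm_nonneg _) (norm_nonneg _) two_ne_zero).1 this
  have hdist : ∀ z z', ‖ι z - ι z'‖ ≤ ‖z - z'‖ := fun z z' => by
    rw [hzero _ (by rw [PiLp.sub_apply, h0, h0, sub_self]), map_sub, h1, h1, ← smul_sub, norm_smul,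
      Real.norm_eq_abs, abs_of_pos hc]
    exact mul_le_of_le_one_left (norm_nonneg _) hc1
  have hcont : Continuous ι :=
    (LipschitzWith.of_dist_le_mul (K := 1) fun z z' => by
      simpa [dist_eq_norm] using hdist z z').continuous
  have hι : Measurable ι := hcont.measurable
  have : IsProbabilityMeasure (μ.map ι) := Measure.isProbabilityMeasure_map hι.aemeasurable
  have hs0 : 0 ≤ s := by linarith
  obtain ⟨C₀, hC₀, H₀⟩ := aff_slab hT μ (le_max_right C 0) hR0 hc hc1 hR' hF' h0 h1 (m := 0)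
    (by simpa using hs0)
  obtain ⟨m, rfl⟩ : ∃ m, k = m + 1 := ⟨k - 1, by omega⟩
  have hms : (m : ℝ) < s := by push_cast at hs; linarith
  obtain ⟨C₁, hC₁, H₁⟩ := aff_slab hT μ (le_max_right C 0) hR0 hc hc1 hR' hF' h0 h1 hms.le
  have hnb : ∀ W r, (μ.map ι) (nb W r) = μ (ι ⁻¹' nb W r) := fun W r =>
    Measure.map_apply hι (aff_nb_open W r).measurableSet
  refine (H (μ.map ι) ?_ (m + 1) hk s (s - m) (max C₀ C₁) (by linarith) ?_ ?_ ?_ p hp hps
    hpk).elim ?_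
  rotate_right
  · rintro G ⟨C', hG, hpos, hthin⟩
    refine ⟨Prod.map ι ι ⁻¹' G, C', (hι.prodMap hι) hG, ?_, fun x y hxy δ hδ => ?_⟩
    · rwa [Measure.map_prod_map _ _ hι hι, Measure.map_apply (hι.prodMap hι) hG] at hpos
    · refine le_trans (measure_mono ?_) ((hnb _ _).symm.le.trans (hthin (ι x) (ι y) hxy δ hδ))
      rintro z ⟨t, ht⟩
      refine ⟨ι (x + t • (y - x)), ?_, (hdist _ _).trans_lt (by rwa [dist_eq_norm] at ht)⟩
      have e : ι (x + t • (y - x)) = (1 - t) • ι x + t • ι y := by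
        rw [← sub_eq_zero, ← norm_eq_zero, hzero, norm_eq_zero]
        · rw [map_sub, map_add, map_smul, map_smul, h1, h1, h1]
          module
        · simp only [PiLp.sub_apply, PiLp.add_apply, PiLp.smul_apply, h0, smul_eq_mul]; ring
      rw [e]
      exact Submodule.add_mem _ (Submodule.smul_mem _ _ (Submodule.subset_span (by simp)))
        (Submodule.smul_mem _ _ (Submodule.subset_span (by simp)))
  · rw [ae_map_iff hι.aemeasurable (isClosed_le continuous_norm continuous_const).measurableSet]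
    have : ∀ᵐ z ∂μ, z ∈ ball 0 R' := hR'
    filter_upwards [this] with z hz
    rw [mem_ball_zero_iff] at hz
    refine (abs_le_of_sq_le_sq' ?_ zero_le_one).2
    rw [hT, h0, h1, norm_smul, Real.norm_eq_abs, abs_of_pos hc]
    have h2 : c * ‖z‖ ≤ c * R' := by gcongr
    have h3 : 0 ≤ c * ‖z‖ := by positivity
    nlinarith [mul_nonneg hc.le (mul_nonneg hc.le hR0)]
  · intro u r hr
    rw [hnb]
    refine (H₀ _ ?_ r hr).trans (ENNReal.ofReal_le_ofReal ?_)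
    · simpa using finrank_span_le_card (R := ℝ) ({u} : Set _)
    · rw [Nat.cast_zero, sub_zero]
      exact mul_le_mul_of_nonneg_right (le_max_left _ _) (by positivity)
  · intro W hW r hr
    rw [hnb]
    exact (H₁ W hW r hr).trans (ENNReal.ofReal_le_ofReal
      (mul_le_mul_of_nonneg_right (le_max_right _ _) (by positivity)))
  · intro V hV
    rw [Measure.map_apply hι V.closed_of_finiteDimensional.measurableSet]
    rcases (ι ⁻¹' (V : Set _)).eq_empty_or_nonempty with he | ⟨z₀, hz₀⟩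
    · rw [he, measure_empty]
    obtain ⟨U, hU, hUV⟩ := aff_rank (T := T) V hV hz₀ (by rw [h0]; exact hc.ne')
    refine measure_mono_null (fun z hz => ?_)
      (hnull (AffineSubspace.mk' z₀ U) (by rwa [AffineSubspace.direction_mk']))
    rw [SetLike.mem_coe, AffineSubspace.mem_mk', vsub_eq_sub]
    have h2 := hUV _ (V.sub_mem hz hz₀) (by rw [PiLp.sub_apply, h0, h0, sub_self])
    rw [map_sub, h1, h1, ← smul_sub] at h2
    have h3 := U.smul_mem c⁻¹ h2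
    rwa [smul_smul, inv_mul_cancel₀ hc.ne', one_smul] at h3

end Pool.Agent.P.MP_bf60a1_an.RA
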