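import Pool.Agent.P.MP_bf60a1_an.RA.Tuple

/-! All scales from one scale (`light`), and no concentration near the smaller flat (`near`). -/

namespace Pool.Agent.P.MP_bf60a1_an.RA

open MeasureTheory Set Filter Topology

variable {D : ℕ} {μ : Measure (EuclideanSpace ℝ (Fin D))} [IsProbabilityMeasure μ]
  {G : Set (EuclideanSpace ℝ (Fin D) × EuclideanSpace ℝ (Fin D))}

lemma exists_steps (p : ℝ) {κ : ℝ} (hκ : 0 < κ) : ∃ M : ℕ, 0 < M ∧ p / M ≤ κ := by
  obtain ⟨M, hM⟩ := exists_nat_ge (p / κ)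
  refine ⟨M + 1, M.succ_pos, ?_⟩
  rw [div_le_iff₀ hκ] at hM
  rw [div_le_iff₀ (by positivity)]
  push_cast
  nlinarith

theorem light (hG : MeasurableSet G) {j : ℕ} {p : ℝ} (hp : 0 ≤ p) (h : S μ G j p) {κ : ℝ}
    (hκ : 0 < κ) : ∃ η > (0 : ℝ), ∃ δ₀ > (0 : ℝ), ∀ δ : ℝ, 0 < δ → δ < δ₀ →
      ∃ Bad : Set (Fin (j + 1) → EuclideanSpace ℝ (Fin D)), MeasurableSet Bad ∧
      Measure.pi (fun _ : Fin (j + 1) => μ) Bad ≤ ENNReal.ofReal (δ ^ η) ∧
      ∀ u, adm G u → u ∉ Bad → ∀ r, δ ≤ r →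
        μ (nb (sp u) r) ≤ ENNReal.ofReal (δ ^ (-κ) * r ^ p) := by
  obtain ⟨η, hη, h⟩ := h
  rw [small_iff] at h
  obtain ⟨M, hM, hpM⟩ := exists_steps p hκ
  have hM' : (0 : ℝ) < M := Nat.cast_pos.2 hM
  have hηM : 0 < η / M := div_pos hη hM'
  refine ⟨η / M / 2, half_pos hηM, small_iff.2 ?_⟩
  have h1 := (eventually_all_finset (Finset.range M)).2 fun i _ =>
    (tendsto_rpow_small (a := ((i + 1 : ℕ) : ℝ) / M) (by positivity)).eventually h
  filter_upwards [h1, small_pos_lt_one, small_const M (half_lt_self hηM)] with δ h1 h2 h3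
  refine ⟨⋃ i ∈ Finset.range M, {u | adm G u ∧ ENNReal.ofReal ((δ ^ (((i + 1 : ℕ) : ℝ) / M)) ^ p) <
    μ (nb (sp u) (δ ^ (((i + 1 : ℕ) : ℝ) / M)))}, ?_, ?_, fun u hu hB r hr => ?_⟩
  · exact Finset.measurableSet_biUnion _ fun i _ => (measurableSet_adm hG j).inter
      (measurableSet_lt measurable_const (measurable_nb μ measurable_id _))
  · refine (measure_biUnion_finset_le _ _).trans ((Finset.sum_le_card_nsmul _ _
      (ENNReal.ofReal (δ ^ (η / M))) fun i hi => (h1 i hi).trans ?_).trans ?_)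
    · rw [← Real.rpow_mul h2.1.le]
      refine ENNReal.ofReal_le_ofReal (Real.rpow_le_rpow_of_exponent_ge h2.1 h2.2.le ?_)
      rw [div_mul_eq_mul_div]
      gcongr
      push_cast
      nlinarith [Nat.cast_nonneg (α := ℝ) i]
    · rw [Finset.card_range, ← ENNReal.ofReal_nsmul, nsmul_eq_mul]
      exact ENNReal.ofReal_le_ofReal h3
  have ex : ∃ i : ℕ, δ ^ (((i + 1 : ℕ) : ℝ) / M) ≤ r :=
    ⟨M - 1, by rwa [Nat.sub_add_cancel hM, div_self hM'.ne', Real.rpow_one]⟩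
  have k1 : μ (nb (sp u) r) ≤ ENNReal.ofReal ((δ ^ ((Nat.find ex : ℝ) / M)) ^ p) := by
    rcases hi : Nat.find ex with _ | i
    · simpa using prob_le_one
    · have a : i < Nat.find ex := by omega
      have b : Nat.find ex ≤ M - 1 := Nat.find_min' ex
        (by rwa [Nat.sub_add_cancel hM, div_self hM'.ne', Real.rpow_one])
      refine (measure_mono (nb_mono le_rfl (not_le.1 (Nat.find_min ex a)).le)).trans ?_
      refine not_lt.1 fun k => hB (mem_biUnion (Finset.mem_coe.2 (Finset.mem_range.2 ?_)) ⟨hu, k⟩)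
      omega
  refine k1.trans (ENNReal.ofReal_le_ofReal (le_trans ?_ (mul_le_mul_of_nonneg_left
    (Real.rpow_le_rpow (Real.rpow_nonneg h2.1.le _) (Nat.find_spec ex) hp)
    (Real.rpow_nonneg h2.1.le _))))
  rw [← Real.rpow_mul h2.1.le, ← Real.rpow_mul h2.1.le, ← Real.rpow_add h2.1]
  refine Real.rpow_le_rpow_of_exponent_ge h2.1 h2.2.le ?_
  push_cast
  rw [add_div, add_mul, one_div_mul_eq_div]
  linarith

/-- the estimate for a fixed smaller flat -/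
lemma near_fibre {V : Submodule ℝ (EuclideanSpace ℝ (Fin D))}
    {W : EuclideanSpace ℝ (Fin D) → Submodule ℝ (EuclideanSpace ℝ (Fin D))}
    {Y : Set (EuclideanSpace ℝ (Fin D))} {δ κ k p g : ℝ} {M : ℕ} (hM : 0 < M) (h0 : 0 < δ)
    (h1 : δ < 1) (h2 : 2 * δ ^ (1 / M : ℝ) ≤ 1) (hκ0 : 0 ≤ κ) (hκ : κ ≤ 1) (hk : 0 ≤ k) (hkp : k ≤ p)
    (hg : 0 ≤ g) (hW : ∀ y z, z ∈ W y ↔ ∃ b : ℝ, ∃ v ∈ V, z = b • y + v)
    (hm : MeasurableSet {q : EuclideanSpace ℝ (Fin D) × EuclideanSpace ℝ (Fin D) |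
      q.1 ∈ Y ∧ q.2 ∈ nb (W q.1) δ ∩ nb V (δ ^ κ)})
    (hY : ∀ y ∈ Y, ‖y‖ ≤ 1 ∧ ∀ r, δ ≤ r →
      μ (nb (W y) r) ≤ ENNReal.ofReal (δ ^ (-k) * r ^ (p - k)))
    (hV : ∀ r, δ ≤ r → μ (nb V r) ≤ ENNReal.ofReal (δ ^ (-k) * r ^ (p + g))) :
    μ.prod μ {q | q.1 ∈ Y ∧ q.2 ∈ nb (W q.1) δ ∩ nb V (δ ^ κ)} ≤
      ENNReal.ofReal (M * 4 ^ p * δ ^ (p + g * κ - 3 * k - p / M)) := by
  classical
  have hM' : (0 : ℝ) < M := Nat.cast_pos.2 hM
  have pw := fun a => Real.rpow_pos_of_pos h0 a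
  have mo : ∀ {a b : ℝ}, b ≤ a → δ ^ a ≤ δ ^ b := fun h =>
    Real.rpow_le_rpow_of_exponent_ge h0 h1.le h
  set c : ℕ → ENNReal := fun i =>
    ENNReal.ofReal (δ ^ (-k) * (4 * δ / δ ^ (((i + 1 : ℕ) : ℝ) / M)) ^ (p - k)) with hc
  rw [Measure.prod_apply_symm hm]
  refine (lintegral_mono (g := fun z => ∑ i ∈ Finset.range M,
    (nb V (δ ^ max κ (i / M))).indicator (fun _ => c i) z) fun z => ?_).trans ?_
  · by_cases hz : z ∈ nb V (δ ^ κ)
    swap
    · refine le_of_eq_of_le (measure_mono_null (fun y hy => hz hy.2.2) measure_empty) zero_le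
    set i := Nat.findGreatest (fun i : ℕ => i = 0 ∨ z ∈ nb V (δ ^ ((i : ℝ) / M))) (M - 1) with hi
    have i1 : i ≤ M - 1 := Nat.findGreatest_le _
    have i2 : i = 0 ∨ z ∈ nb V (δ ^ ((i : ℝ) / M)) :=
      Nat.findGreatest_spec (P := fun i : ℕ => i = 0 ∨ z ∈ nb V (δ ^ ((i : ℝ) / M)))
        (Nat.zero_le _) (Or.inl rfl)
    have i3 : z ∈ nb V (δ ^ max κ (i / M)) := by
      rcases max_cases κ (i / M) with h | h
      · rwa [h.1]
      · rw [h.1]
        refine i2.elim (fun e => absurd h.2 ?_) id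
        rw [e]
        simpa using hκ0
    refine le_trans ?_ (Finset.single_le_sum (f := fun i : ℕ =>
      (nb V (δ ^ max κ (i / M))).indicator (fun _ => c i) z) (fun _ _ => zero_le)
      (Finset.mem_range.2 (show i < M by omega)))
    simp only [indicator_of_mem i3, hc]
    rcases i1.eq_or_lt with e | e
    · rw [e, Nat.sub_add_cancel hM, div_self hM'.ne', Real.rpow_one, mul_div_assoc, div_self h0.ne',
        mul_one]
      refine prob_le_one.trans (ENNReal.one_le_ofReal.2 (one_le_mul_of_one_le_of_one_le ?_ ?_))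
      · exact Real.one_le_rpow_of_pos_of_le_one_of_nonpos h0 h1.le (by linarith)
      · exact Real.one_le_rpow (by norm_num) (by linarith)
    have i4 : z ∉ nb V (δ ^ (((i + 1 : ℕ) : ℝ) / M)) := fun h =>
      Nat.findGreatest_is_greatest (P := fun i : ℕ => i = 0 ∨ z ∈ nb V (δ ^ ((i : ℝ) / M)))
        (Nat.lt_succ_self i) e (Or.inr h)
    have i5 : 2 * δ ≤ δ ^ (((i + 1 : ℕ) : ℝ) / M) := by
      have a : ((i + 1 + 1 : ℕ) : ℝ) ≤ M := Nat.cast_le.2 (by omega)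
      have b : δ ^ (1 : ℝ) ≤ δ ^ (1 / M + ((i + 1 : ℕ) : ℝ) / M) := mo (by
        rw [← add_div, div_le_one hM']
        push_cast at a ⊢
        linarith)
      rw [Real.rpow_one, Real.rpow_add h0] at b
      nlinarith [pw (((i + 1 : ℕ) : ℝ) / M)]
    rcases eq_empty_or_nonempty ((fun y => (y, z)) ⁻¹'
      {q | q.1 ∈ Y ∧ q.2 ∈ nb (W q.1) δ ∩ nb V (δ ^ κ)}) with h | ⟨y₁, h⟩
    · rw [h, measure_empty]
      exact zero_le
    refine le_trans (measure_mono fun y hy => ?_) ((hY y₁ h.1).2 _ ?_)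
    · obtain ⟨_, hw, a⟩ := hy.2.1
      obtain ⟨b, v, hv, rfl⟩ := (hW _ _).1 hw
      exact exchange (hY y hy.1).1 hv a i4 i5
        (fun v hv => (hW _ _).2 ⟨0, v, hv, by simp⟩) h.2.1
    · rw [le_div_iff₀ (pw _)]
      have := Real.rpow_le_one h0.le h1.le (z := ((i + 1 : ℕ) : ℝ) / M) (by positivity)
      nlinarith
  rw [lintegral_finsetSum _ fun i _ => measurable_const.indicator (isOpen_nb _ _).measurableSet]
  refine (Finset.sum_le_card_nsmul _ _ (ENNReal.ofReal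
    (4 ^ p * δ ^ (p + g * κ - 3 * k - p / M))) fun i hi => ?_).trans ?_
  swap
  · rw [Finset.card_range, ← ENNReal.ofReal_nsmul, nsmul_eq_mul, mul_assoc]
  have a : (i : ℝ) / M ≤ 1 := (div_le_one hM').2 (Nat.cast_le.2 (Finset.mem_range.1 hi).le)
  rw [lintegral_indicator_const (isOpen_nb _ _).measurableSet]
  refine (mul_le_mul_right (hV _ (by simpa using mo (max_le hκ a))) _).trans ?_
  rw [hc, ← ENNReal.ofReal_mul (by positivity)]
  refine ENNReal.ofReal_le_ofReal ?_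
  have e : 4 * δ / δ ^ (((i + 1 : ℕ) : ℝ) / M) = 4 * δ ^ (1 - ((i + 1 : ℕ) : ℝ) / M) := by
    rw [Real.rpow_sub h0, Real.rpow_one, mul_div_assoc]
  have e2 : ∀ A a b c d : ℝ, δ ^ a * (A * δ ^ b) * (δ ^ c * δ ^ d) = A * δ ^ (a + b + c + d) :=
    fun A a b c d => by
      rw [Real.rpow_add h0, Real.rpow_add h0, Real.rpow_add h0]
      ring
  rw [e, Real.mul_rpow (by norm_num) (pw _).le, ← Real.rpow_mul h0.le, ← Real.rpow_mul h0.le, e2]
  refine mul_le_mul (Real.rpow_le_rpow_of_exponent_le (by norm_num) (by linarith)) (mo ?_)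
    (pw _).le (by positivity)
  have b := mul_le_mul_of_nonneg_left (le_max_left κ (i / M)) hg
  have d := mul_le_mul_of_nonneg_left (le_max_right κ (i / M)) (hk.trans hkp)
  have f : 0 ≤ k * (((i + 1 : ℕ) : ℝ) / M) := by positivity
  have f2 : p * (((i + 1 : ℕ) : ℝ) / M) = p * (i / M) + p / M := by
    push_cast
    ring
  nlinarith

theorem near (hμ : ∀ᵐ z ∂μ, ‖z‖ ≤ 1) (hG : MeasurableSet G) {j : ℕ} {p p₁ : ℝ} (hp : 0 < p)
    (hpp : p < p₁) (h₁ : S μ G j p₁) (h : ∀ v < p, S μ G (j + 1) v) {κ : ℝ} (hκ : 0 < κ) :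
    ∃ ε > (0 : ℝ), ∃ η > (0 : ℝ), ∃ δ₀ > (0 : ℝ), ∀ δ : ℝ, 0 < δ → δ < δ₀ →
      Measure.pi (fun _ : Fin (j + 2) => μ) {u | adm G u ∧ ENNReal.ofReal (δ ^ (p + ε)) <
        μ (nb (sp u) δ ∩ nb (sp (Fin.removeNth 1 u)) (δ ^ κ))} ≤ ENNReal.ofReal (δ ^ η) := by
  obtain ⟨g, hg, rfl⟩ : ∃ g > 0, p₁ = p + g := ⟨p₁ - p, sub_pos.2 hpp, by ring⟩
  obtain ⟨κ', k0, k1, k2⟩ : ∃ κ' > 0, κ' ≤ 1 ∧ κ' ≤ κ :=
    ⟨min 1 κ, lt_min one_pos hκ, min_le_left _ _, min_le_right _ _⟩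
  obtain ⟨ε, hε, e8⟩ : ∃ ε > 0, g * κ' = 8 * ε := ⟨g * κ' / 8, by positivity, by ring⟩
  obtain ⟨k, hk, hkp, hkε⟩ : ∃ k > 0, k ≤ p ∧ k ≤ ε :=
    ⟨min p ε, lt_min hp hε, min_le_left _ _, min_le_right _ _⟩
  obtain ⟨M, hM, hpM⟩ := exists_steps p hε
  obtain ⟨η₁, hη₁, l1⟩ := light hG (by linarith) h₁ hk
  obtain ⟨η₂, hη₂, l2⟩ := light hG (sub_nonneg.2 hkp) (h (p - k) (by linarith)) hk
  rw [small_iff] at l1 l2
  obtain ⟨η, hη, n1, n2, n3⟩ : ∃ η > 0, η < η₁ ∧ η < η₂ ∧ η < ε :=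
    ⟨min η₁ (min η₂ ε) / 2, by positivity, by linarith [min_le_left η₁ (min η₂ ε)],
      by linarith [min_le_right η₁ (min η₂ ε), min_le_left η₂ ε],
      by linarith [min_le_right η₁ (min η₂ ε), min_le_right η₂ ε]⟩
  refine ⟨ε, hε, η, hη, small_iff.2 ?_⟩
  filter_upwards [l1, l2, small_pos_lt_one, small_const 2 (a := 1 / M) (b := 0) (by positivity),
    small_const 3 n1, small_const 3 n2, small_const (3 * (M * 4 ^ p)) n3]
    with δ ⟨B₁, b1, b2, b3⟩ ⟨B₂, c1, c2, c3⟩ ⟨h0, h1⟩ s0 s1 s2 s3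
  rw [Real.rpow_zero] at s0
  have pw := fun a => Real.rpow_pos_of_pos h0 a
  have mo : ∀ {a b : ℝ}, b ≤ a → δ ^ a ≤ δ ^ b := fun h =>
    Real.rpow_le_rpow_of_exponent_ge h0 h1.le h
  have mr := mp_removeNth μ (m := j + 1) 1
  set E : Set (Fin (j + 2) → EuclideanSpace ℝ (Fin D)) := {u | (adm G u ∧ u ∉ B₂ ∧ ‖u 1‖ ≤ 1) ∧
    Fin.removeNth 1 u ∉ B₁ ∧ ENNReal.ofReal (δ ^ (p + ε)) ≤
      μ (nb (sp u) δ ∩ nb (sp (Fin.removeNth 1 u)) (δ ^ κ'))} with hE
  have mY : MeasurableSet {u : Fin (j + 2) → EuclideanSpace ℝ (Fin D) |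
      adm G u ∧ u ∉ B₂ ∧ ‖u 1‖ ≤ 1} := (measurableSet_adm hG _).inter
    (c1.compl.inter (measurableSet_le (measurable_pi_apply 1).norm measurable_const))
  have mE : MeasurableSet E := mY.inter ((mr.measurable b1.compl).inter (measurableSet_le
    measurable_const (measurable_nb_inter μ measurable_id mr.measurable _ _)))
  have a1 : Measure.pi (fun _ : Fin (j + 2) => μ) E ≤ ENNReal.ofReal (M * 4 ^ p * δ ^ ε) := by
    rw [pi_insertNth μ 1 mE]
    refine (lintegral_mono (g := fun _ => ENNReal.ofReal (M * 4 ^ p * δ ^ ε)) fun t => ?_).trans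
      (by simp)
    rcases eq_empty_or_nonempty {y | (Fin.insertNth 1 y t : Fin (j + 2) → _) ∈ E} with e | ⟨y₀, e⟩
    · simp only [e, measure_empty, zero_le]
    have ht : adm G t ∧ t ∉ B₁ := by
      have := And.intro (adm_removeNth_one e.1.1) e.2.1
      rwa [Fin.removeNth_insertNth] at this
    have mi : Measurable fun y => (Fin.insertNth 1 y t : Fin (j + 2) → EuclideanSpace ℝ (Fin D)) :=
      (mp_insertNth μ 1).measurable.comp measurable_prodMk_right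
    have hm := (measurable_fst (mi mY)).inter ((measurableSet_nb (mi.comp measurable_fst)
      measurable_snd δ).inter (measurable_snd (isOpen_nb (sp t) (δ ^ κ')).measurableSet))
    have f := near_fibre (μ := μ) (V := sp t) (g := g)
      (W := fun y => sp (Fin.insertNth 1 y t : Fin (j + 2) → _)) hM h0 h1 s0 k0.le k1 hk.le hkp
      hg.le (fun _ _ => mem_sp_insertNth) hm (fun y hy => ⟨by simpa using hy.2.2,
        c3 _ hy.1 hy.2.1⟩) (b3 t ht.1 ht.2)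
    have q := (mul_meas_ge_le_lintegral (μ := μ) (measurable_measure_prodMk_left (ν := μ) hm)
      (ENNReal.ofReal (δ ^ (p + ε)))).trans ((Measure.prod_apply hm).symm.trans_le f)
    have p0 : ENNReal.ofReal (δ ^ (p + ε)) ≠ 0 := (ENNReal.ofReal_pos.2 (pw _)).ne'
    refine (ENNReal.mul_le_mul_iff_right p0 ENNReal.ofReal_ne_top).1 ?_
    refine le_trans (mul_le_mul_right (measure_mono fun y hy => ?_) _) (q.trans ?_)
    · have := hy.2.2
      rw [Fin.removeNth_insertNth] at this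
      exact this.trans (measure_mono fun z hz => ⟨hy.1, hz⟩)
    · rw [← ENNReal.ofReal_mul (pw _).le, mul_left_comm, ← Real.rpow_add h0]
      exact ENNReal.ofReal_le_ofReal (mul_le_mul_of_nonneg_left (mo (by linarith)) (by positivity))
  have a2 : Measure.pi (fun _ : Fin (j + 2) => μ) (Fin.removeNth 1 ⁻¹' B₁) ≤
      ENNReal.ofReal (δ ^ η₁) := (mr.measure_preimage b1.nullMeasurableSet).trans_le b2
  refine (measure_mono_ae (t := (E ∪ Fin.removeNth 1 ⁻¹' B₁) ∪ B₂) ?_).trans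
    ((measure_union_le _ _).trans ((add_le_add ((measure_union_le _ _).trans (add_le_add a1 a2))
      c2).trans ?_))
  · filter_upwards [ae_pi μ hμ] with u hu h
    by_cases d1 : u ∈ B₂
    · exact Or.inr d1
    by_cases d2 : Fin.removeNth 1 u ∈ B₁
    · exact Or.inl (Or.inr d2)
    exact Or.inl (Or.inl ⟨⟨h.1, d1, hu 1⟩, d2, h.2.le.trans
      (measure_mono (inter_subset_inter_right _ (nb_mono le_rfl (mo k2))))⟩)
  · rw [← ENNReal.ofReal_add (by positivity) (pw _).le,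
      ← ENNReal.ofReal_add (by positivity) (pw _).le]
    exact ENNReal.ofReal_le_ofReal (by linarith)

end Pool.Agent.P.MP_bf60a1_an.RA
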