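import Pool.Agent.P.MP_bf60a1_an.RA.ConcCore
import Pool.Agent.P.MP_bf60a1_an.RA.Near

set_option autoImplicit false

namespace Pool.Agent.P.MP_bf60a1_an.RA

open MeasureTheory

variable {D : ℕ} {μ : Measure (EuclideanSpace ℝ (Fin D))} [IsProbabilityMeasure μ]
  {G : Set (EuclideanSpace ℝ (Fin D) × EuclideanSpace ℝ (Fin D))}

theorem conc (hμ : ∀ᵐ z ∂μ, ‖z‖ ≤ 1) (hG : MeasurableSet G) {j : ℕ} {p p₁ p₂ : ℝ} (hp : 0 < p)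
    (hpp : p < p₁) (hp₂ : 0 ≤ p₂) (hc : 2 * p < p₁ + p₂) (h₁ : S μ G j p₁)
    (h : ∀ v < p, S μ G (j + 1) v) (h₂ : S μ G (j + 2) p₂) :
    ∃ p' > p, S μ G (j + 1) p' :=
  Cc.conc_aux hμ hG hp hpp hc h₁ (h _ (by linarith))
    (fun _ hκ => light hG (by linarith) h₁ hκ) (fun _ hκ => light hG hp₂ h₂ hκ)
    (fun _ hκ => near hμ hG hp hpp h₁ h hκ)

end Pool.Agent.P.MP_bf60a1_an.RA
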