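import Mathlib
import Pool.Agent.P.MP_bf60a1_an.RA.Defs

/-! Geometry and measurability lemmas for the step `fstep`. -/

namespace Pool.Agent.P.MP_bf60a1_an.RA.FS

open MeasureTheory Set

variable {D : ℕ}

theorem norm_proj_lt (W : Submodule ℝ (EuclideanSpace ℝ (Fin D))) (a : EuclideanSpace ℝ (Fin D))
    (r : ℝ) : ‖Wᗮ.starProjection a‖ < r ↔ ∃ v ∈ W, ‖a - v‖ < r := by
  constructor
  · intro h
    refine ⟨W.starProjection a, W.starProjection_apply_mem a, ?_⟩
    rwa [Submodule.starProjection_orthogonal_val] at h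
  · rintro ⟨v, hv, h⟩
    have h0 : Wᗮ.starProjection v = 0 := by
      rw [Submodule.starProjection_orthogonal_val, Submodule.starProjection_eq_self_iff.2 hv,
        sub_self]
    have h1 : Wᗮ.starProjection a = Wᗮ.starProjection (a - v) := by
      rw [map_sub, h0, sub_zero]
    rw [h1]
    exact lt_of_le_of_lt (Submodule.norm_starProjection_apply_le _ _) h

theorem mem_sp_cons {j : ℕ} (y : EuclideanSpace ℝ (Fin D)) (w : Fin j → EuclideanSpace ℝ (Fin D))
    (v : EuclideanSpace ℝ (Fin D)) :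
    v ∈ sp (Fin.cons y w : Fin (j + 1) → EuclideanSpace ℝ (Fin D)) ↔
      ∃ t : ℝ, ∃ v' ∈ sp w, v = t • y + v' := by
  unfold sp
  rw [Fin.range_cons, Submodule.mem_span_insert]

theorem nb_cons {j : ℕ} (y : EuclideanSpace ℝ (Fin D)) (w : Fin j → EuclideanSpace ℝ (Fin D))
    (r : ℝ) (z : EuclideanSpace ℝ (Fin D)) :
    z ∈ nb (sp (Fin.cons y w : Fin (j + 1) → EuclideanSpace ℝ (Fin D))) r ↔
      ∃ t : ℝ, ‖(sp w)ᗮ.starProjection z - t • (sp w)ᗮ.starProjection y‖ < r := by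
  constructor
  · rintro ⟨v, hv, h⟩
    obtain ⟨t, v', hv', rfl⟩ := (mem_sp_cons y w v).1 hv
    refine ⟨t, ?_⟩
    rw [← map_smul, ← map_sub, norm_proj_lt]
    exact ⟨v', hv', by rwa [sub_sub]⟩
  · rintro ⟨t, h⟩
    rw [← map_smul, ← map_sub, norm_proj_lt] at h
    obtain ⟨v', hv', h⟩ := h
    exact ⟨t • y + v', (mem_sp_cons y w _).2 ⟨t, v', hv', rfl⟩, by rwa [← sub_sub]⟩

theorem nb_cons_cons {j : ℕ} (x y : EuclideanSpace ℝ (Fin D))
    (w : Fin j → EuclideanSpace ℝ (Fin D)) (r : ℝ) (z : EuclideanSpace ℝ (Fin D)) :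
    z ∈ nb (sp (Fin.cons x (Fin.cons y w) : Fin (j + 2) → EuclideanSpace ℝ (Fin D))) r ↔
      ∃ t t' : ℝ, ‖(sp w)ᗮ.starProjection z - t • (sp w)ᗮ.starProjection x
        - t' • (sp w)ᗮ.starProjection y‖ < r := by
  constructor
  · rintro ⟨v, hv, h⟩
    obtain ⟨t, v', hv', rfl⟩ := (mem_sp_cons x _ v).1 hv
    obtain ⟨t', v'', hv'', rfl⟩ := (mem_sp_cons y w v').1 hv'
    refine ⟨t, t', ?_⟩
    rw [← map_smul, ← map_smul, ← map_sub, ← map_sub, norm_proj_lt]
    refine ⟨v'', hv'', ?_⟩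
    have : z - t • x - t' • y - v'' = z - (t • x + (t' • y + v'')) := by abel
    rwa [this]
  · rintro ⟨t, t', h⟩
    rw [← map_smul, ← map_smul, ← map_sub, ← map_sub, norm_proj_lt] at h
    obtain ⟨v'', hv'', h⟩ := h
    refine ⟨t • x + (t' • y + v''), (mem_sp_cons x _ _).2
      ⟨t, t' • y + v'', (mem_sp_cons y w _).2 ⟨t', v'', hv'', rfl⟩, rfl⟩, ?_⟩
    have : z - t • x - t' • y - v'' = z - (t • x + (t' • y + v'')) := by abel
    rwa [← this]

theorem isOpen_nb {m : ℕ} (r : ℝ) :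
    IsOpen {q : (Fin m → EuclideanSpace ℝ (Fin D)) × EuclideanSpace ℝ (Fin D) |
      q.2 ∈ nb (sp q.1) r} := by
  have : {q : (Fin m → EuclideanSpace ℝ (Fin D)) × EuclideanSpace ℝ (Fin D) |
      q.2 ∈ nb (sp q.1) r} = ⋃ c : Fin m → ℝ, {q | ‖q.2 - ∑ i, c i • q.1 i‖ < r} := by
    ext q
    simp only [nb, sp, mem_ofPred_eq, mem_iUnion, Submodule.mem_span_range_iff_exists_fun]
    constructor
    · rintro ⟨v, ⟨c, rfl⟩, h⟩
      exact ⟨c, h⟩
    · rintro ⟨c, h⟩
      exact ⟨_, ⟨c, rfl⟩, h⟩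
  rw [this]
  refine isOpen_iUnion fun c => isOpen_lt ?_ continuous_const
  fun_prop

theorem meas_nb {X : Type*} [MeasurableSpace X] {m : ℕ}
    {f : X → Fin m → EuclideanSpace ℝ (Fin D)} {g : X → EuclideanSpace ℝ (Fin D)}
    (hf : Measurable f) (hg : Measurable g) (r : ℝ) :
    MeasurableSet {q | g q ∈ nb (sp (f q)) r} :=
  (hf.prodMk hg) (isOpen_nb (D := D) (m := m) r).measurableSet

theorem meas_adm {G : Set (EuclideanSpace ℝ (Fin D) × EuclideanSpace ℝ (Fin D))}
    (hG : MeasurableSet G) {j : ℕ} :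
    MeasurableSet {u : Fin (j + 1) → EuclideanSpace ℝ (Fin D) | adm G u} := by
  have : {u : Fin (j + 1) → EuclideanSpace ℝ (Fin D) | adm G u} =
      ⋂ i : Fin j, (fun u => (u (Fin.last j), u i.castSucc)) ⁻¹' G := by
    ext u
    simp [adm]
  rw [this]
  exact MeasurableSet.iInter fun i =>
    ((measurable_pi_apply _).prodMk (measurable_pi_apply _)) hG

theorem adm_tail {F : Type*} {G : Set (F × F)} {j : ℕ} {u : Fin (j + 2) → F} (h : adm G u) :
    adm G (Fin.tail u) := by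
  intro i
  have := h i.succ
  rw [← Fin.succ_castSucc, ← Fin.succ_last] at this
  exact this

theorem mp_cons {F : Type*} [MeasurableSpace F] (μ : Measure F) [IsProbabilityMeasure μ] (m : ℕ) :
    MeasurePreserving (fun p : F × (Fin m → F) => (Fin.cons p.1 p.2 : Fin (m + 1) → F))
      (μ.prod (Measure.pi fun _ : Fin m => μ)) (Measure.pi fun _ : Fin (m + 1) => μ) := by
  have h := (measurePreserving_piFinSuccAbove (fun _ : Fin (m + 1) => μ) 0).symm
  have e : (fun p : F × (Fin m → F) => (Fin.cons p.1 p.2 : Fin (m + 1) → F)) =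
      (MeasurableEquiv.piFinSuccAbove (fun _ : Fin (m + 1) => F) 0).symm := by
    funext p
    simp [MeasurableEquiv.piFinSuccAbove_symm_apply, Fin.insertNthEquiv, Fin.insertNth_zero']
  rw [e]
  exact h

theorem meas_tail {F : Type*} [MeasurableSpace F] {m : ℕ} :
    Measurable (fun u : Fin (m + 1) → F => Fin.tail u) :=
  measurable_pi_lambda _ fun _ => measurable_pi_apply _

theorem meas_remove {F : Type*} [MeasurableSpace F] {m : ℕ} (i : Fin (m + 1)) :
    Measurable (fun u : Fin (m + 1) → F => Fin.removeNth i u) :=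
  measurable_pi_lambda _ fun _ => measurable_pi_apply _

theorem remove_one {F : Type*} {j : ℕ} (x y : F) (w : Fin j → F) :
    Fin.removeNth (α := fun _ => F) 1 (Fin.cons x (Fin.cons y w) : Fin (j + 2) → F) =
      (Fin.cons x w : Fin (j + 1) → F) := by
  funext i
  refine Fin.cases ?_ (fun i => ?_) i
  · simp [Fin.removeNth]
  · simp [Fin.removeNth]

/-- a set of tuples whose tail lies in `A` -/
theorem pi_tail {F : Type*} [MeasurableSpace F] (μ : Measure F) [IsProbabilityMeasure μ] {m : ℕ}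
    {A : Set (Fin m → F)} (hA : MeasurableSet A) :
    Measure.pi (fun _ : Fin (m + 1) => μ) {u | Fin.tail u ∈ A} =
      Measure.pi (fun _ : Fin m => μ) A := by
  have hm : MeasurableSet {u : Fin (m + 1) → F | Fin.tail u ∈ A} := meas_tail hA
  rw [← (mp_cons μ m).measure_preimage hm.nullMeasurableSet]
  have : (fun p : F × (Fin m → F) => (Fin.cons p.1 p.2 : Fin (m + 1) → F)) ⁻¹'
      {u | Fin.tail u ∈ A} = univ ×ˢ A := by
    ext p
    simp
  rw [this, Measure.prod_prod, measure_univ, one_mul]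

/-- Fubini over the tail -/
theorem pi_le_of_tail {F : Type*} [MeasurableSpace F] (μ : Measure F) [IsProbabilityMeasure μ]
    {m : ℕ} {A : Set (Fin (m + 1) → F)} (hA : MeasurableSet A) {c : ENNReal}
    (h : ∀ w : Fin m → F, μ {x | (Fin.cons x w : Fin (m + 1) → F) ∈ A} ≤ c) :
    Measure.pi (fun _ : Fin (m + 1) => μ) A ≤ c := by
  rw [← (mp_cons μ m).measure_preimage hA.nullMeasurableSet,
    Measure.prod_apply_symm ((mp_cons μ m).measurable hA)]
  calc _ ≤ ∫⁻ _ : Fin m → F, c ∂(Measure.pi fun _ : Fin m => μ) := lintegral_mono fun w => h w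
    _ = c := by simp

/-- Fubini over the second tail -/
theorem pi_le_of_tail₂ {F : Type*} [MeasurableSpace F] (μ : Measure F) [IsProbabilityMeasure μ]
    {m : ℕ} {A : Set (Fin (m + 2) → F)} (hA : MeasurableSet A) {c : ENNReal}
    (h : ∀ w : Fin m → F,
      (μ.prod μ) {p | (Fin.cons p.1 (Fin.cons p.2 w) : Fin (m + 2) → F) ∈ A} ≤ c) :
    Measure.pi (fun _ : Fin (m + 2) => μ) A ≤ c := by
  have h1 := (mp_cons μ (m + 1)).comp
    (((MeasurePreserving.id μ).prod (mp_cons μ m)).comp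
      (measurePreserving_prodAssoc μ μ (Measure.pi fun _ : Fin m => μ)))
  rw [← h1.measure_preimage hA.nullMeasurableSet, Measure.prod_apply_symm (h1.measurable hA)]
  calc _ ≤ ∫⁻ _ : Fin m → F, c ∂(Measure.pi fun _ : Fin m => μ) := lintegral_mono fun w => h w
    _ = c := by simp

theorem small_pow {a c : ℝ} (ha : 0 < a) (hc : 0 < c) :
    ∃ δ₀ > (0 : ℝ), ∀ δ : ℝ, 0 < δ → δ < δ₀ → δ ^ a ≤ c := by
  refine ⟨c ^ a⁻¹, Real.rpow_pos_of_pos hc _, fun δ h0 h1 => ?_⟩
  calc δ ^ a ≤ (c ^ a⁻¹) ^ a := Real.rpow_le_rpow h0.le h1.le ha.le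
    _ = c := Real.rpow_inv_rpow hc.le ha.ne'

end Pool.Agent.P.MP_bf60a1_an.RA.FS
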