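import Pool.Agent.P.MP_bf60a1_an.RA.Ent2

/-! Entropic Ruzsa calculus for dilates of a lattice valued variable. -/

namespace Pool.Agent.P.MP_bf60a1_an.RA

open Finset Real

namespace FP

variable {Ω Ω' Ω'' α β γ : Type*} [Fintype Ω] [Fintype Ω'] [Fintype Ω''] (P : FP Ω) {d : ℕ}

theorem MP.id : MP P P fun ω => ω := fun _ => rfl
theorem E_comm3 (P' : FP Ω') (P'' : FP Ω'') (g : Ω → Ω' → Ω'' → ℝ) :
    (P.E fun a => P'.E fun b => P''.E fun c => g a b c) =
      P''.E fun c => P.E fun a => P'.E fun b => g a b c := by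
  rw [← P.E_comm P'']
  exact P.E_congr fun a _ => P'.E_comm P'' _
theorem Law.map {P : FP Ω} {P' : FP Ω'} {V' : Ω' → β} {V : Ω → β} (h : Law P' V' P V)
    (g : β → γ) : Law P' (fun ω => g (V' ω)) P fun ω => g (V ω) := fun f => h fun v => f (g v)
theorem Law.prod {Ω₁ Ω₂ : Type*} [Fintype Ω₁] [Fintype Ω₂] {P : FP Ω} {P' : FP Ω'} {Q : FP Ω₁}
    {Q' : FP Ω₂} {V' : Ω' → β} {V : Ω → β} {W' : Ω₂ → γ} {W : Ω₁ → γ} (h : Law P' V' P V)
    (h' : Law Q' W' Q W) :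
    Law (P'.prod Q') (fun x => (V' x.1, W' x.2)) (P.prod Q) fun x => (V x.1, W x.2) := fun f => by
  simp only [E_prod]
  rw [← h fun v => Q.E fun y => f (v, W y)]
  exact P'.E_congr fun ω _ => h' fun w => f (V' ω, w)

/-- entropy of `⌊A - R⌋` with `R` independent -/
noncomputable def HS (A : Ω → Fin d → ℤ) (P' : FP Ω') (R : Ω' → Fin d → ℝ) : ℝ :=
  (P.prod P').H fun x => fl (cz (A x.1) - R x.2)
/-- the cost of the dilation `s` -/
noncomputable def D (A : Ω → Fin d → ℤ) (s : ℝ) : ℝ :=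
  (P.HS A P fun ω => s • cz (A ω)) - P.H A

variable (A : Ω → Fin d → ℤ)

theorem le_HS (P' : FP Ω') (R : Ω' → Fin d → ℝ) : P.H A ≤ P.HS A P' R := by
  have h1 := (P.prod P').H_pair_le (fun x => fl (cz (A x.1) - R x.2)) fun x => x.2
  have h2 : ((P.prod P').H fun x => (A x.1, x.2)) ≤
      (P.prod P').H fun x => (fl (cz (A x.1) - R x.2), x.2) :=
    H_mono _ fun x y _ _ h => by
      simp only [Prod.mk.injEq, fl_cz_sub] at h ⊢
      obtain ⟨h, h'⟩ := h
      rw [h'] at h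
      exact ⟨add_right_cancel h, h'⟩
  rw [P.H_prod P' A fun ω => ω] at h2
  rw [(P.prod_snd P').H fun ω => ω] at h1
  unfold HS; linarith
theorem D_nonneg (s : ℝ) : 0 ≤ P.D A s := sub_nonneg.2 (P.le_HS A _ _)
theorem D_one : P.D A 1 = ((P.prod P).H fun x => A x.1 - A x.2) - P.H A := by
  simp only [D, HS, one_smul, ← cz_sub, fl_cz]

/-- Kaimanovich–Vershik -/
theorem KV (P' : FP Ω') (P'' : FP Ω'') (R : Ω' → Fin d → ℝ) (R' : Ω'' → Fin d → ℝ) :
    (P.HS A (P'.prod P'') fun x => R x.1 + R' x.2) + P.H A ≤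
      P.HS A P' R + P.HS A P'' R' + 2 * (d * log 5) := by
  set Q := P.prod (P'.prod P'')
  have h := Q.sub_H (fun x => (A x.1, x.2)) (fun x => fl (cz (A x.1) - (R x.2.1 + R' x.2.2)))
    (fun x => (fl (cz (A x.1) - R x.2.1), x.2.2)) fun x => (fl (cz (A x.1) - R' x.2.2), x.2.1)
  have m1 : MP Q (P.prod P') fun x => (x.1, x.2.1) := (MP.id P).prod (P'.prod_fst P'')
  have m2 : MP Q (P.prod P'') fun x => (x.1, x.2.2) := (MP.id P).prod (P'.prod_snd P'')
  have m3 : MP Q P' fun x => x.2.1 := (P'.prod_fst P'').comp (P.prod_snd _)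
  have m4 : MP Q P'' fun x => x.2.2 := (P'.prod_snd P'').comp (P.prod_snd _)
  have h1 := Q.H_pair_le (fun x => fl (cz (A x.1) - R x.2.1)) fun x => x.2.2
  have h2 := Q.H_pair_le (fun x => fl (cz (A x.1) - R' x.2.2)) fun x => x.2.1
  rw [m1.H fun x => fl (cz (A x.1) - R x.2), m4.H fun ω => ω] at h1
  rw [m2.H fun x => fl (cz (A x.1) - R' x.2), m3.H fun ω => ω] at h2
  have h3 : (Q.H fun x => (A x.1, x.2)) = P.H A + ((P'.H fun ω => ω) + P''.H fun ω => ω) := by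
    rw [P.H_prod (P'.prod P'') A fun ω => ω, ← P'.H_prod P'']
  have h4 : (Q.Hc (fun x => fl (cz (A x.1) - (R x.2.1 + R' x.2.2)))
      fun x => (fl (cz (A x.1) - R x.2.1), x.2.2)) ≤ d * log (2 * (1 + 1) + 1) :=
    Q.Hc_le_close' fun x y _ _ h => norm_fl_sub (by
      simp only [Prod.mk.injEq] at h
      have := norm_sub_of_fl h.1
      rw [h.2]
      exact le_trans (le_of_eq (congrArg _ (by abel))) this)
  have h5 : (Q.Hc (fun x => fl (cz (A x.1) - (R x.2.1 + R' x.2.2)))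
      fun x => (fl (cz (A x.1) - R' x.2.2), x.2.1)) ≤ d * log (2 * (1 + 1) + 1) :=
    Q.Hc_le_close' fun x y _ _ h => norm_fl_sub (by
      simp only [Prod.mk.injEq] at h
      have := norm_sub_of_fl h.1
      rw [h.2]
      exact le_trans (le_of_eq (congrArg _ (by abel))) this)
  have h6 : (Q.Hc (fun x => (A x.1, x.2)) fun x => ((fl (cz (A x.1) - R x.2.1), x.2.2),
      (fl (cz (A x.1) - R' x.2.2), x.2.1))) ≤ 0 := Q.Hc_nonpos fun x y _ _ h => by
    simp only [Prod.mk.injEq, fl_cz_sub] at h ⊢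
    obtain ⟨⟨h1, h2⟩, -, h3⟩ := h
    rw [h3] at h1
    exact ⟨add_right_cancel h1, Prod.ext h3 h2⟩
  norm_num at h4 h5
  unfold HS; linarith

theorem H_two : ((P.prod P).H fun x => (A x.1, A x.2)) = 2 * P.H A := by
  rw [P.H_prod P A A]; ring

theorem D_add (s t : ℝ) :
    P.D A (s + t) ≤ P.D A s + P.D A t + P.D A 1 + 3 * (d * log 7) := by
  set Q := P.prod (P.prod P)
  have h := Q.sub_H (fun x => (A x.1, A x.2.1, A x.2.2))
    (fun x => fl (cz (A x.1) - (s + t) • cz (A x.2.1)))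
    (fun x => (fl (cz (A x.1) - (s • cz (A x.2.1) + (1 : ℝ) • cz (A x.2.2))),
      fl (cz (A x.2.2) - t • cz (A x.2.1)))) fun x => (A x.1, A x.2.1)
  have m1 : MP Q (P.prod P) fun x => (x.1, x.2.1) := (MP.id P).prod (P.prod_fst P)
  have m2 : MP Q (P.prod P) fun x => x.2.swap := (P.prod_swap P).comp (P.prod_snd _)
  have h1 := Q.H_pair_le (fun x => fl (cz (A x.1) - (s • cz (A x.2.1) + (1 : ℝ) • cz (A x.2.2))))
    fun x => fl (cz (A x.2.2) - t • cz (A x.2.1))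
  have h2 := P.KV A P P (fun ω => s • cz (A ω)) fun ω => (1 : ℝ) • cz (A ω)
  have h3 := m2.H fun x => fl (cz (A x.1) - t • cz (A x.2))
  have h4 := m1.H fun x => fl (cz (A x.1) - (s + t) • cz (A x.2))
  have h5 := m1.H fun x => (A x.1, A x.2)
  have h6 := P.H_prod (P.prod P) A fun x => (A x.1, A x.2)
  have h7 := P.H_two A
  have h8 : (Q.Hc (fun x => fl (cz (A x.1) - (s + t) • cz (A x.2.1)))
      fun x => (fl (cz (A x.1) - (s • cz (A x.2.1) + (1 : ℝ) • cz (A x.2.2))),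
      fl (cz (A x.2.2) - t • cz (A x.2.1)))) ≤ d * log (2 * (1 + 1 + 1) + 1) :=
    Q.Hc_le_close' fun x y _ _ h => norm_fl_sub (by
      simp only [Prod.mk.injEq] at h
      refine le_trans (le_of_eq (congrArg _ ?_)) (norm_add_le_of_le (norm_sub_of_fl h.1)
        (norm_sub_of_fl h.2))
      simp only [add_smul, one_smul]; abel)
  have h9 : (Q.Hc (fun x => fl (cz (A x.1) - (s + t) • cz (A x.2.1)))
      fun x => (A x.1, A x.2.1)) ≤ 0 := Q.Hc_nonpos fun x y _ _ h => by simp_all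
  have h10 : (Q.Hc (fun x => (A x.1, A x.2.1, A x.2.2))
      fun x => ((fl (cz (A x.1) - (s • cz (A x.2.1) + (1 : ℝ) • cz (A x.2.2))),
      fl (cz (A x.2.2) - t • cz (A x.2.1))), (A x.1, A x.2.1))) ≤ 0 :=
    Q.Hc_nonpos fun x y _ _ h => by
      simp only [Prod.mk.injEq, fl_cz_sub] at h ⊢
      obtain ⟨⟨-, h1⟩, h2, h3⟩ := h
      rw [h3] at h1
      exact ⟨h2, h3, add_right_cancel h1⟩
  have h11 : (d : ℝ) * log 5 ≤ d * log 7 := by gcongr; norm_num
  norm_num only at h8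
  simp only [Prod.fst_swap, Prod.snd_swap] at h3
  unfold D HS at *; linarith

theorem D_mul (s t : ℝ) :
    P.D A (s * t) ≤ P.D A s + P.D A t + d * log (2 * |s| + 5) := by
  set Q := P.prod (P.prod P)
  have h := Q.sub_H (fun x => (A x.1, A x.2.1, A x.2.2))
    (fun x => fl (cz (A x.1) - (s * t) • cz (A x.2.2)))
    (fun x => (fl (cz (A x.1) - s • cz (A x.2.1)),
      fl (cz (A x.2.1) - t • cz (A x.2.2)))) fun x => (A x.1, A x.2.2)
  have m1 : MP Q (P.prod P) fun x => (x.1, x.2.1) := (MP.id P).prod (P.prod_fst P)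
  have m2 : MP Q (P.prod P) fun x => (x.1, x.2.2) := (MP.id P).prod (P.prod_snd P)
  have h1 := Q.H_pair_le (fun x => fl (cz (A x.1) - s • cz (A x.2.1)))
    fun x => fl (cz (A x.2.1) - t • cz (A x.2.2))
  have h2 := m1.H fun x => fl (cz (A x.1) - s • cz (A x.2))
  have h3 := (P.prod_snd (P.prod P)).H fun x => fl (cz (A x.1) - t • cz (A x.2))
  have h4 := m2.H fun x => fl (cz (A x.1) - (s * t) • cz (A x.2))
  have h5 := m2.H fun x => (A x.1, A x.2)
  have h6 := P.H_prod (P.prod P) A fun x => (A x.1, A x.2)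
  have h7 := P.H_two A
  have h8 : (Q.Hc (fun x => fl (cz (A x.1) - (s * t) • cz (A x.2.2)))
      fun x => (fl (cz (A x.1) - s • cz (A x.2.1)),
      fl (cz (A x.2.1) - t • cz (A x.2.2)))) ≤ d * log (2 * (1 + |s| + 1) + 1) :=
    Q.Hc_le_close' fun x y _ _ h => norm_fl_sub (by
      simp only [Prod.mk.injEq] at h
      have := norm_smul_le s (cz (A y.2.1) - t • cz (A y.2.2) - (cz (A x.2.1) - t • cz (A x.2.2)))
      refine le_trans (le_of_eq (congrArg _ ?_)) (norm_add_le_of_le (norm_sub_of_fl h.1)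
        (this.trans (mul_le_of_le_one_right (abs_nonneg s) (norm_sub_of_fl h.2))))
      simp only [mul_smul, smul_sub]; abel)
  have h9 : (Q.Hc (fun x => fl (cz (A x.1) - (s * t) • cz (A x.2.2)))
      fun x => (A x.1, A x.2.2)) ≤ 0 := Q.Hc_nonpos fun x y _ _ h => by simp_all
  have h10 : (Q.Hc (fun x => (A x.1, A x.2.1, A x.2.2))
      fun x => ((fl (cz (A x.1) - s • cz (A x.2.1)),
      fl (cz (A x.2.1) - t • cz (A x.2.2))), (A x.1, A x.2.2))) ≤ 0 :=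
    Q.Hc_nonpos fun x y _ _ h => by
      simp only [Prod.mk.injEq, fl_cz_sub] at h ⊢
      obtain ⟨⟨-, h1⟩, h2, h3⟩ := h
      rw [h3] at h1
      exact ⟨h2, add_right_cancel h1, h3⟩
  rw [show 2 * (1 + |s| + 1) + 1 = 2 * |s| + 5 by ring] at h8
  unfold D HS at *; linarith

theorem D_inv {s : ℝ} (hs : s ≠ 0) : P.D A s⁻¹ ≤ P.D A s + d * log (2 * |s|⁻¹ + 3) := by
  have h := (P.prod P).H_le_add (fun x => fl (cz (A x.1) - s⁻¹ • cz (A x.2)))
    fun x => fl (cz (A x.2) - s • cz (A x.1))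
  have h1 := (P.prod_swap P).H fun x => fl (cz (A x.1) - s • cz (A x.2))
  have h2 : ((P.prod P).Hc (fun x => fl (cz (A x.1) - s⁻¹ • cz (A x.2)))
      fun x => fl (cz (A x.2) - s • cz (A x.1))) ≤ d * log (2 * (|s|⁻¹ + 1) + 1) :=
    Hc_le_close' _ fun x y _ _ h => norm_fl_sub (by
      have := norm_smul_le (-s⁻¹) (cz (A y.2) - s • cz (A y.1) - (cz (A x.2) - s • cz (A x.1)))
      rw [norm_neg, norm_inv, norm_eq_abs] at this
      refine le_trans (le_of_eq (congrArg _ ?_))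
        (this.trans (mul_le_of_le_one_right (by positivity) (norm_sub_of_fl h)))
      simp only [smul_sub, neg_smul, smul_smul, neg_mul, inv_mul_cancel₀ hs, one_smul]; abel)
  rw [show 2 * (|s|⁻¹ + 1) + 1 = 2 * |s|⁻¹ + 3 by ring] at h2
  simp only [Prod.fst_swap, Prod.snd_swap] at h1
  unfold D HS at *; linarith

theorem D_neg_one : P.D A (-1) ≤ 3 * P.D A 1 + 4 * (d * log 5) := by
  set Q := (P.prod P).prod (P.prod P)
  have h := Q.sub_H (fun x => ((A x.1.1, A x.1.2), A x.2.1 - A x.2.2))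
    (fun x => fl (cz (A x.1.1) - (-1 : ℝ) • cz (A x.1.2)))
    (fun x => (fl (cz (A x.2.1) - ((1 : ℝ) • cz (A x.1.1) + (1 : ℝ) • cz (A x.2.2))),
      fl (cz (A x.2.2) - ((1 : ℝ) • cz (A x.1.2) + (1 : ℝ) • cz (A x.2.1)))))
    fun x => (A x.1.1, A x.1.2)
  have m1 : MP Q (P.prod (P.prod P)) fun x => (x.2.1, x.1.1, x.2.2) := fun f => by
    simp only [Q, E_prod, E_const]; exact P.E_comm P _
  have m2 : MP Q (P.prod (P.prod P)) fun x => (x.2.2, x.1.2, x.2.1) := fun f => by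
    simp only [Q, E_prod, E_const]; exact P.E_comm3 P P _
  have h1 := Q.H_pair_le
    (fun x => fl (cz (A x.2.1) - ((1 : ℝ) • cz (A x.1.1) + (1 : ℝ) • cz (A x.2.2))))
    fun x => fl (cz (A x.2.2) - ((1 : ℝ) • cz (A x.1.2) + (1 : ℝ) • cz (A x.2.1)))
  have h2 := P.KV A P P (fun ω => (1 : ℝ) • cz (A ω)) fun ω => (1 : ℝ) • cz (A ω)
  have h3 := m1.H fun x => fl (cz (A x.1) - ((1 : ℝ) • cz (A x.2.1) + (1 : ℝ) • cz (A x.2.2)))
  have h4 := m2.H fun x => fl (cz (A x.1) - ((1 : ℝ) • cz (A x.2.1) + (1 : ℝ) • cz (A x.2.2)))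
  have h5 := ((P.prod P).prod_fst (P.prod P)).H fun x => (A x.1, A x.2)
  have h5' := ((P.prod P).prod_fst (P.prod P)).H fun x => fl (cz (A x.1) - (-1 : ℝ) • cz (A x.2))
  have h6 := (P.prod P).H_prod (P.prod P) (fun x => (A x.1, A x.2)) fun x => A x.1 - A x.2
  have h7 := P.H_two A
  have h7' := P.D_one A
  have h8 : (Q.Hc (fun x => fl (cz (A x.1.1) - (-1 : ℝ) • cz (A x.1.2)))
      fun x => (fl (cz (A x.2.1) - ((1 : ℝ) • cz (A x.1.1) + (1 : ℝ) • cz (A x.2.2))),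
      fl (cz (A x.2.2) - ((1 : ℝ) • cz (A x.1.2) + (1 : ℝ) • cz (A x.2.1))))) ≤ 0 :=
    Q.Hc_nonpos fun x y _ _ h => by
      simp only [Prod.mk.injEq, one_smul, neg_smul, sub_neg_eq_add, ← cz_add, ← cz_sub,
        fl_cz] at h ⊢
      linear_combination - h.1 - h.2
  have h9 : (Q.Hc (fun x => fl (cz (A x.1.1) - (-1 : ℝ) • cz (A x.1.2)))
      fun x => (A x.1.1, A x.1.2)) ≤ 0 := Q.Hc_nonpos fun x y _ _ h => by simp_all
  have h10 : (Q.Hc (fun x => ((A x.1.1, A x.1.2), A x.2.1 - A x.2.2))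
      fun x => ((fl (cz (A x.2.1) - ((1 : ℝ) • cz (A x.1.1) + (1 : ℝ) • cz (A x.2.2))),
      fl (cz (A x.2.2) - ((1 : ℝ) • cz (A x.1.2) + (1 : ℝ) • cz (A x.2.1)))),
      (A x.1.1, A x.1.2))) ≤ 0 :=
    Q.Hc_nonpos fun x y _ _ h => by
      simp only [Prod.mk.injEq, one_smul, ← cz_add, ← cz_sub, fl_cz] at h ⊢
      exact ⟨h.2, by linear_combination h.1.1 + h.2.1⟩
  unfold D HS at *; linarith

theorem D_le_of_close {M t : ℝ} (ht : |t| ≤ 1)
    (h : ∀ ω ω', 0 < P.p ω → 0 < P.p ω' → ‖cz (A ω') - cz (A ω)‖ ≤ M) :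
    P.D A t ≤ d * log (4 * M + 3) := by
  have h1 : P.HS A P (fun ω => t • cz (A ω)) ≤ d * log (2 * (M + M + 1) + 1) :=
    H_le_close _ fun x y hx hy => norm_fl_sub (by
      have h2 := h _ _ (prod_pos _ hx).1 (prod_pos _ hy).1
      have h3 := h _ _ (prod_pos _ hx).2 (prod_pos _ hy).2
      have := (norm_smul_le t (cz (A y.2) - cz (A x.2))).trans
        ((mul_le_of_le_one_left (norm_nonneg _) ht).trans h3)
      refine le_trans (le_of_eq (congrArg _ ?_)) (norm_sub_le_of_le h2 this)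
      simp only [smul_sub]; abel)
  rw [show 2 * (M + M + 1) + 1 = 4 * M + 3 by ring] at h1
  unfold D; linarith [P.H_nonneg A]

/-- a weakly dependent good coupling and small doubling give a small cost -/
theorem weak_strong (P' : FP Ω') {A₀ A₁ : Ω' → Fin d → ℤ} (h₀ : Law P' A₀ P A)
    (h₁ : Law P' A₁ P A) (V : Ω' → β) (σ : β → ℝ) :
    (P'.E fun ω => P.D A (σ (V ω))) ≤ 2 * P.D A 1 +
      P'.Hc (fun ω => fl (cz (A₀ ω) - σ (V ω) • cz (A₁ ω))) V -
      P'.Hc (fun ω => (A₀ ω, A₁ ω)) V + P.H A + d * log 5 := by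
  set Q := P'.prod (P.prod P)
  have h := Q.sub_c (fun x => ((A₀ x.1, A₁ x.1), A x.2.1, A x.2.2))
    (fun x => fl (cz (A x.2.1) - σ (V x.1) • cz (A x.2.2)))
    (fun x => (fl (cz (A₀ x.1) - σ (V x.1) • cz (A₁ x.1)), A₀ x.1 - A x.2.1, A₁ x.1 - A x.2.2))
    (fun x => (A x.2.1, A x.2.2)) fun x => V x.1
  have h1 := P'.Hc_prod_eq (P.prod P) V fun v x => fl (cz (A x.1) - σ v • cz (A x.2))
  have h2 : (P'.E fun ω => P.D A (σ (V ω))) =
      (P'.E fun ω => (P.prod P).H fun x => fl (cz (A x.1) - σ (V ω) • cz (A x.2))) - P.H A := by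
    simp only [D, HS, E_sub, E_const]
  have h3 := Q.Hc_pair_le (fun x => fl (cz (A₀ x.1) - σ (V x.1) • cz (A₁ x.1)))
    (fun x => (A₀ x.1 - A x.2.1, A₁ x.1 - A x.2.2)) fun x => V x.1
  have h4 := (Q.Hc_le_H (fun x => (A₀ x.1 - A x.2.1, A₁ x.1 - A x.2.2)) fun x => V x.1).trans
    (Q.H_pair_le _ _)
  have h5 := (P'.prod_fst (P.prod P)).Hc (fun ω => fl (cz (A₀ ω) - σ (V ω) • cz (A₁ ω))) V
  have h6 := ((MP.id P').prod (P.prod_fst P)).H fun x => A₀ x.1 - A x.2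
  have h7 := ((MP.id P').prod (P.prod_snd P)).H fun x => A₁ x.1 - A x.2
  have h8 := ((h₀.prod (Law.rfl (P := P) (V := A))).map fun x => x.1 - x.2).H
  have h9 := ((h₁.prod (Law.rfl (P := P) (V := A))).map fun x => x.1 - x.2).H
  have h10 := P.D_one A
  have h11 := Q.Hc_le_H (fun x => (A x.2.1, A x.2.2)) fun x => V x.1
  have h12 := (P'.prod_snd (P.prod P)).H fun x => (A x.1, A x.2)
  have h13 := P.H_two A
  have h14 : (Q.Hc (fun x => fl (cz (A x.2.1) - σ (V x.1) • cz (A x.2.2))) fun x =>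
      ((fl (cz (A₀ x.1) - σ (V x.1) • cz (A₁ x.1)), A₀ x.1 - A x.2.1, A₁ x.1 - A x.2.2), V x.1))
      ≤ d * log (2 * (1 + 1) + 1) :=
    Q.Hc_le_close' fun x y _ _ h => norm_fl_sub (by
      simp only [Prod.mk.injEq] at h
      obtain ⟨⟨a1, a2, a3⟩, a4⟩ := h
      have b2 := congrArg cz a2
      have b3 := congrArg cz a3
      rw [cz_sub, cz_sub, sub_eq_iff_eq_add] at b2 b3
      refine le_trans (le_of_eq (congrArg _ ?_)) (norm_sub_of_fl a1)
      rw [a4, b2, b3]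
      simp only [smul_sub, smul_add]; abel)
  have h15 : (Q.Hc (fun x => fl (cz (A x.2.1) - σ (V x.1) • cz (A x.2.2))) fun x =>
      ((A x.2.1, A x.2.2), V x.1)) ≤ 0 := Q.Hc_nonpos fun x y _ _ h => by simp_all
  have h16 : (Q.Hc (fun x => ((A₀ x.1, A₁ x.1), A x.2.1, A x.2.2)) fun x =>
      ((fl (cz (A₀ x.1) - σ (V x.1) • cz (A₁ x.1)), A₀ x.1 - A x.2.1, A₁ x.1 - A x.2.2),
      (A x.2.1, A x.2.2), V x.1)) ≤ 0 := Q.Hc_nonpos fun x y _ _ h => by
    simp only [Prod.mk.injEq] at h ⊢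
    obtain ⟨⟨-, a2, a3⟩, ⟨a4, a5⟩, -⟩ := h
    exact ⟨⟨by linear_combination a2 + a4, by linear_combination a3 + a5⟩, a4, a5⟩
  have h17 : P'.Hc (fun ω => (A₀ ω, A₁ ω)) V + 2 * P.H A ≤
      Q.Hc (fun x => ((A₀ x.1, A₁ x.1), A x.2.1, A x.2.2)) fun x => V x.1 := by
    have e1 := P'.H_prod (P.prod P) (fun ω => ((A₀ ω, A₁ ω), V ω)) fun x => (A x.1, A x.2)
    have e2 : (Q.H fun x => (((A₀ x.1, A₁ x.1), V x.1), A x.2.1, A x.2.2)) ≤
        Q.H fun x => (((A₀ x.1, A₁ x.1), A x.2.1, A x.2.2), V x.1) :=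
      Q.H_mono fun _ _ _ _ h => by simp_all
    have e3 := (P'.prod_fst (P.prod P)).H V
    unfold Hc; linarith
  norm_num only at h14
  linarith

theorem HS_pi_le (k : ℕ) (s : Fin k → ℝ) :
    (P.HS A (P.pi k) fun x => ∑ i, s i • cz (A (x i))) ≤
      P.H A + ∑ i, P.D A (s i) + k * (2 * (d * log 5)) := by
  induction k with
  | zero =>
    simp only [HS, univ_eq_empty, sum_empty, sub_zero, fl_cz, (P.prod_fst _).H A]
    simp
  | succ k ih =>
    have h1 := ((MP.id P).prod (P.pi_cons k)).H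
      fun x => fl (cz (A x.1) - ∑ i, s i • cz (A (x.2 i)))
    have h2 := P.KV A P (P.pi k) (fun ω => s 0 • cz (A ω))
      fun x => ∑ i, s (Fin.succ i) • cz (A (x i))
    have h3 := ih fun i => s i.succ
    simp only [Fin.sum_univ_succ, Fin.cons_zero, Fin.cons_succ] at h1 ⊢
    push_cast
    unfold D HS at *; linarith

end FP

end Pool.Agent.P.MP_bf60a1_an.RA
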