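import Pool.Agent.P.MP_bf60a1_an.RA.Tube
import Pool.Agent.P.MP_bf60a1_an.RA.Ruzsa

/-! The entropy gain from small dilation costs. -/

namespace Pool.Agent.P.MP_bf60a1_an.RA

open Finset Real RA.FP

section abstr
variable {Ω Ω' α β γ : Type*} [Fintype Ω] [Fintype Ω']

/-- collisions in a reference measure bound the conditional entropy from below -/
theorem gain_collision (P : FP Ω) (P' : FP Ω') (Z : Ω → α) (R : Ω → β) (U : Ω → γ)
    (hZR : P.Det Z R) (Z₁ Z₂ : Ω' → α) (s : Ω' → Prop) {g₁ g₂ : Ω → ℝ}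
    (h₁ : ∀ ω, 0 < P.p ω → 0 < g₁ ω) (h₂ : ∀ ω, 0 < P.p ω → 0 < g₂ ω)
    (h : ∀ ω ω', 0 < P.p ω → 0 < P.p ω' → R ω = R ω' →
      g₁ ω * g₂ ω' ≤ P'.pr fun y => Z₁ y = Z ω ∧ Z₂ y = Z ω')
    (hs : ∀ ω ω' y, 0 < P.p ω → 0 < P.p ω' → 0 < P'.p y → U ω = U ω' → Z₁ y = Z ω →
      Z₂ y = Z ω' → s y) :
    0 < P'.pr s ∧
    (P.E fun ω => log (g₁ ω)) + (P.E fun ω => log (g₂ ω)) + 2 * P.H Z - P.H R - P.Hc U Z -
      P.Hc U R ≤ log (P'.pr s) := by
  constructor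
  · obtain ⟨ω, hω⟩ := P.exists_pos
    exact ((mul_pos (h₁ ω hω) (h₂ ω hω)).trans_le (h ω ω hω hω rfl)).trans_le
      (P'.pr_mono fun y hy' hy => hs ω ω y hω hω hy' rfl hy.1 hy.2)
  set V := fun ω => (U ω, R ω) with hV
  have a1 := (P.cpy V).gibbs (fun y => (Z y.1, Z y.2)) (g := fun y => g₁ y.1 * g₂ y.2)
    (S := P'.pr s)
    (fun y hy => mul_pos (h₁ _ ((P.cpy_fst V).pos hy)) (h₂ _ ((P.cpy_snd V).pos hy))) (by
      refine le_trans (E_mono _ fun y hy => ?_) ((P.cpy V).E_cross P' (fun y => (Z y.1, Z y.2))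
        (fun y => (Z₁ y, Z₂ y)) (f := fun y => ind (s y)) fun _ _ => ind_nonneg _)
      have e := P.cpy_eq hy
      simp only [hV, Prod.mk.injEq] at e
      refine div_le_div_of_nonneg_right ((h _ _ ((P.cpy_fst V).pos hy) ((P.cpy_snd V).pos hy)
        e.2.symm).trans (P'.E_mono fun x hx' => ?_)) (cl_nonneg _ _ _)
      rw [← ind_and]
      exact ind_mono fun hx => ⟨by rw [hx.1, hx.2], hs _ _ x ((P.cpy_fst V).pos hy)
        ((P.cpy_snd V).pos hy) hx' e.1.symm hx.1 hx.2⟩)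
  have a2 : ((P.cpy V).E fun y => log (g₁ y.1 * g₂ y.2)) =
      (P.E fun ω => log (g₁ ω)) + P.E fun ω => log (g₂ ω) := by
    rw [← P.cpy_fst V fun ω => log (g₁ ω), ← P.cpy_snd V fun ω => log (g₂ ω), ← E_add]
    exact E_congr _ fun y hy => log_mul (h₁ _ ((P.cpy_fst V).pos hy)).ne'
      (h₂ _ ((P.cpy_snd V).pos hy)).ne'
  have a3 := P.H_cpy V Z Z
  have a4 : P.H Z ≤ P.H fun x => (Z x, V x) := P.H_mono fun _ _ _ _ h => congrArg Prod.fst h
  have a5 := (P.cpy V).H_le_add (fun y => (Z y.1, Z y.2, V y.1)) fun y => (Z y.1, Z y.2)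
  have a6 : (P.cpy V).Hc (fun y => (Z y.1, Z y.2, V y.1)) (fun y => (Z y.1, Z y.2)) ≤
      (P.cpy V).Hc (fun y => U y.1) fun y => Z y.1 :=
    Hc_mono _ (fun x y hx hy h => by
      simp only [hV, Prod.mk.injEq] at h ⊢
      exact ⟨h.2.1, h.2.2, h.1, hZR _ _ ((P.cpy_fst V).pos hx) ((P.cpy_fst V).pos hy) h.2.1⟩)
      fun _ _ _ _ h => congrArg Prod.fst h
  rw [(P.cpy_fst V).Hc U Z] at a6
  have a7 : P.Hc U R = P.H V - P.H R := rfl
  linarith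

theorem gain_cv_pr (P : FP Ω) {Q : Ω → γ} {ω : Ω} (hω : 0 < P.p ω) (t : Ω → Prop)
    (ht : ∀ x, 0 < P.p x → t x → Q x = Q ω) : (P.cv Q (Q ω)).pr t = P.pr t / P.cl Q ω := by
  rw [P.pr_cv hω, P.pr_congr fun x hx => and_iff_left_of_imp (ht x hx)]

theorem gain_cv_cl (P : FP Ω) {R : Ω → β} {Q : Ω → γ} (hRQ : P.Det R Q) {ω x : Ω}
    (hω : 0 < P.p ω) (hx : 0 < P.p x) (hq : Q x = Q ω) :
    (P.cv Q (Q ω)).cl R x = P.cl R x / P.cl Q ω :=
  gain_cv_pr P hω _ fun _ hy h => (hRQ _ _ hy hx h).trans hq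

theorem gain_ref (P : FP Ω) {X : Ω → α} {R : Ω → β} {Q : Ω → γ} (hXR : P.Det X R)
    (hRQ : P.Det R Q) {ω x x' : Ω} (hω : 0 < P.p ω) (hx : 0 < P.p x) (hx' : 0 < P.p x')
    (hq : Q x = Q ω) (hr : R x = R x') :
    P.cl X x / P.cl Q x * (P.cl X x' / P.cl R x') ≤
      ((P.cv Q (Q ω)).cpy R).pr fun y => X y.1 = X x ∧ X y.2 = X x' := by
  have hq' : Q x' = Q ω := (hRQ _ _ hx' hx hr.symm).trans hq
  have h1 : 0 < (P.cv Q (Q ω)).p x' := P.pos_cond hx' hq'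
  have h2 := pr_glue (P := P.cv Q (Q ω)) (P' := P.cv Q (Q ω)) (V := R) (V' := R)
    (fun y => X y = X x) (fun y => X y = X x') h1
  refine le_trans (le_of_eq ?_) (h2.ge.trans (pr_mono _ fun y _ hy => ⟨hy.1, hy.2.1⟩))
  have h3 : P.cl Q x = P.cl Q ω := by unfold cl; rw [hq]
  have h4 := P.cl_pos Q hω
  have h5 := P.cl_pos R hx'
  have e1 : (P.pr fun y => X y = X x ∧ R y = R x') = P.cl X x :=
    P.pr_congr fun y hy => and_iff_left_of_imp fun h => (hXR _ _ hy hx h).trans hr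
  have e2 : (P.pr fun y => X y = X x' ∧ R y = R x') = P.cl X x' :=
    P.pr_congr fun y hy => and_iff_left_of_imp fun h => hXR _ _ hy hx' h
  rw [gain_cv_pr P hω _ fun y hy h => (hRQ _ _ hy hx' h.2).trans hq',
    gain_cv_pr P hω _ fun y hy h => (hRQ _ _ hy hx' h.2).trans hq',
    gain_cv_cl P hRQ hω hx' hq', e1, e2, h3]
  field_simp

theorem gain_cv_cpy (P : FP Ω) {R : Ω → β} {Q : Ω → γ} (hRQ : P.Det R Q) (f : Ω × Ω → ℝ) :
    (P.E fun ω => ((P.cv Q (Q ω)).cpy R).E f) = (P.cpy R).E f := by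
  rw [cpy, E_glue, ← P.tower Q fun _ ω' => (P.cv R (R ω')).E fun ω => f (ω', ω)]
  refine P.E_congr fun ω hω => ?_
  rw [cpy, E_glue]
  refine E_congr _ fun x hx => ?_
  have h1 := P.cv_pos hx
  have h2 := P.cv_eq hω hx
  rw [E_cv _ hx, P.E_cv h1, P.E_cv hω, gain_cv_cl P hRQ hω h1 h2,
    div_div_div_cancel_right₀ (P.cl_pos Q hω).ne']
  congr 1
  refine P.E_congr fun y hy => ?_
  by_cases h : R y = R x
  · rw [ind_pos ((hRQ _ _ hy h1 h).trans h2), one_mul]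
  · rw [ind_neg h, zero_mul, mul_zero]

theorem gain_chain (P : FP Ω) (U : ℕ → Ω → α) (R : ℕ → Ω → β) {c : ℝ} (M : ℕ)
    (h₁ : ∀ i < M, P.Hc (U i) (U (i + 1)) ≤ c) (h₂ : ∀ i < M, P.Hc (U i) (R i) ≤ c) :
    ∑ i ∈ range M, (P.Hc (U (i + 1)) (R i) - 2 * c) ≤ P.H (U M) := by
  induction M with
  | zero => simpa using P.H_nonneg _
  | succ M ih =>
    have a1 := ih (fun i hi => h₁ i (by omega)) fun i hi => h₂ i (by omega)
    have a2 := h₁ M (by omega)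
    have a3 := h₂ M (by omega)
    have a4 := P.Hc_le_add (U (M + 1)) (U M) (R M)
    have a5 : P.Hc (U (M + 1)) (fun ω => (U M ω, R M ω)) ≤ P.Hc (U (M + 1)) (U M) :=
      P.Hc_mono_right _ fun _ _ _ _ h => congrArg Prod.fst h
    have a6 : (P.H fun ω => (U (M + 1) ω, U M ω)) ≤ P.H fun ω => (U M ω, U (M + 1) ω) :=
      P.H_mono fun _ _ _ _ h => by simp_all
    rw [sum_range_succ]
    unfold Hc at *
    linarith

/-- the terms that do not involve collisions -/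
noncomputable def gT (P Pw : FP Ω) (R' : Ω → α) (R : Ω → β) : ℝ :=
  2 * ((Pw.E fun x => log (P.cl R' x / P.cl R x)) + Pw.H R' - Pw.H R)

theorem gain_log (P : FP Ω) (X : Ω → α) (S : Ω → β) :
    (P.E fun x => log (P.cl X x / P.cl S x)) = P.H S - P.H X := by
  rw [H, H, ← E_sub]
  refine P.E_congr fun x hx => ?_
  rw [log_div (P.cl_pos _ hx).ne' (P.cl_pos _ hx).ne']; ring

theorem gain_T {ν : Type*} (P : FP Ω) {X : Ω → α} (R : ℕ → Ω → β) {V : Ω → ν} (M : ℕ)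
    (hXR : P.Det X (R M)) (hVQ : P.Det V (R 0)) {e : ℝ} (he : P.Hc X (R 0) - P.Hc X V ≤ e) :
    -(2 * e) ≤ ∑ i ∈ range M, P.E fun ω => gT P (P.cv V (V ω)) (R (i + 1)) (R i) := by
  have a0 : ∀ i, (P.E fun ω => gT P (P.cv V (V ω)) (R (i + 1)) (R i)) =
      2 * (P.Hc (R (i + 1)) V - P.H (R (i + 1))) - 2 * (P.Hc (R i) V - P.H (R i)) := fun i => by
    simp only [gT]
    rw [E_mul_left, E_sub, E_add, E_H_cv, E_H_cv,
      P.tower V fun _ x => log (P.cl (R (i + 1)) x / P.cl (R i) x), gain_log]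
    ring
  simp only [a0]
  rw [sum_range_sub fun i => 2 * (P.Hc (R i) V - P.H (R i))]
  have a1 := P.Hc_mono_right V hXR
  have a2 : P.H X ≤ P.H fun ω => (X ω, R 0 ω) := P.H_mono fun _ _ _ _ h => congrArg Prod.fst h
  have a3 := P.Hc_nonpos hVQ
  have a4 : (P.H fun ω => (V ω, R M ω)) ≤ P.H fun ω => (R M ω, V ω) :=
    P.H_mono fun _ _ _ _ h => by simp_all
  have a5 : (P.H fun ω => (X ω, V ω)) ≤ P.H fun ω => (V ω, X ω) :=
    P.H_mono fun _ _ _ _ h => by simp_all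
  unfold Hc at *
  linarith

/-- the reference pair: choose a class under `Pw`, then two points of it under `P` -/
noncomputable def gR (P Pw : FP Ω) (R : Ω → β) : FP (Ω × Ω × Ω) :=
  Pw.bind fun x => (P.cv R (R x)).cpy R

theorem gR_pos {P Pw : FP Ω} {R : Ω → β} {y : Ω × Ω × Ω} (hy : 0 < (gR P Pw R).p y) :
    0 < P.p y.2.1 ∧ 0 < P.p y.2.2 ∧ R y.2.1 = R y.2.2 :=
  have h := (Pw.bind_pos hy).2
  ⟨P.cv_pos ((cpy_fst _ _).pos h), P.cv_pos ((cpy_snd _ _).pos h), (cpy_eq _ h).symm⟩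

theorem gR_ref {P Pw : FP Ω} {R' : Ω → α} {R : Ω → β} (hR : P.Det R' R)
    (hp : ∀ x, 0 < Pw.p x → 0 < P.p x) {x x' : Ω} (hx : 0 < P.p x) (hx' : 0 < P.p x')
    (hr : R x = R x') :
    Pw.cl R x * (P.cl R' x / P.cl R x) * (P.cl R' x' / P.cl R x') ≤
      (gR P Pw R).pr fun y => R' y.2.1 = R' x ∧ R' y.2.2 = R' x' := by
  rw [pr, gR, E_bind, mul_assoc, cl, pr, ← E_mul_right]
  refine Pw.E_mono fun ω hω => ?_
  by_cases h : R ω = R x
  · rw [ind_pos h, one_mul]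
    exact gain_ref P hR (fun _ _ _ _ h => h) (hp ω hω) hx hx' h.symm hr
  · rw [ind_neg h, zero_mul]
    exact pr_nonneg _ _

theorem gain_E_log (P : FP Ω) (k : ℕ) {φ : Ω → ℝ} (hφ : ∀ x, 0 < P.p x → 0 < φ x) :
    ((P.prod (P.pi (k + 1))).E fun x => log (φ x.1 * ∏ j, φ (x.2 j))) =
      (k + 2) * P.E fun x => log (φ x) := by
  rw [E_congr _ (g := fun x => log (φ x.1) + log (∏ j, φ (x.2 j))) fun x hx =>
    log_mul (hφ _ (prod_pos _ hx).1).ne'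
      (Finset.prod_pos fun j _ => hφ _ (P.pi_pos (prod_pos _ hx).2 j)).ne', E_add,
    P.prod_fst _ fun x => log (φ x), P.prod_snd (P.pi (k + 1)) fun x => log (∏ j, φ (x j)),
    P.E_pi_log _ hφ]
  push_cast; ring

theorem gain_H (P : FP Ω) (k : ℕ) (X : Ω → α) :
    ((P.prod (P.pi (k + 1))).H fun x => (X x.1, fun j => X (x.2 j))) = (k + 2) * P.H X := by
  rw [P.H_prod (P.pi (k + 1)) X fun x j => X (x j), H_pi]
  push_cast; ring

theorem gain_frost (P : FP Ω) {d : ℕ} (R : Ω → β) (u : Ω → Fin d → ℝ) {l v : ℝ} (hl : 0 < l)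
    (hv : 0 ≤ v) (x : Fin d → ℝ) {r : ℝ} (hr : l ≤ r) :
    ((P.cpy R).pr fun y => ‖u y.1 - u y.2 - x‖ ≤ r) ≤
      5 ^ d * ((P.cpy R).E fun y => (max l ‖u y.1 - u y.2‖) ^ (-v)) * r ^ v := by
  have h0 := hl.trans_le hr
  refine (P.autocorr R u x h0).trans ?_
  rw [mul_assoc]
  refine mul_le_mul_of_nonneg_left ?_ (by positivity)
  rw [← E_mul_right]
  refine E_mono _ fun y _ => ?_
  have h1 : 0 < max l ‖u y.1 - u y.2‖ := lt_max_of_lt_left hl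
  by_cases h : ‖u y.1 - u y.2‖ ≤ r
  · rw [ind_pos h, rpow_neg h1.le, inv_mul_eq_div, one_le_div (rpow_pos_of_pos h1 _)]
    exact rpow_le_rpow h1.le (max_le hr h) hv
  · rw [ind_neg h]; positivity

theorem gain_one_le (P : FP Ω) (d : ℕ) (η : Ω → ℝ) {l v : ℝ} (hl : 0 < l) (hl1 : l ≤ 1)
    (hv : 0 ≤ v) (h : ∀ y, 0 < P.p y → η y ≤ 1) :
    1 ≤ 5 ^ d * P.E fun y => (max l (η y)) ^ (-v) :=
  one_le_mul_of_one_le_of_one_le (one_le_pow₀ (by norm_num)) (P.le_E fun y hy =>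
    one_le_rpow_of_pos_of_le_one_of_nonpos (lt_max_of_lt_left hl) (max_le hl1 (h y hy))
      (neg_nonpos.2 hv))

end abstr

/-- the rounded linear combination -/
noncomputable def gU {d k : ℕ} (S : ℝ) (s : Fin k → ℝ) (z₀ : Fin d → ℝ)
    (z : Fin k → Fin d → ℝ) : Fin d → ℤ := fl (S • (z₀ - ∑ j, s j • z j))

theorem gain_comb {d k : ℕ} (S : ℝ) (s : Fin k → ℝ) (z₀ z₀' : Fin d → ℝ)
    (z z' : Fin k → Fin d → ℝ) :
    S • (z₀ - ∑ j, s j • z j) - S • (z₀' - ∑ j, s j • z' j) =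
      (S • z₀ - S • z₀') - ∑ j, s j • (S • z j - S • z' j) := by
  simp only [smul_sub, sum_sub_distrib, smul_sum, smul_comm S]
  abel

theorem gain_norm {d k : ℕ} {s : Fin k → ℝ} {w : Fin k → Fin d → ℝ} {c M : ℝ}
    (hs : ∀ j, |s j| ≤ c) (hw : ∀ j, ‖w j‖ ≤ M) : ‖∑ j, s j • w j‖ ≤ k * (c * M) := by
  refine (norm_sum_le _ _).trans ((sum_le_sum fun j _ => ?_).trans_eq
    (by rw [sum_const, card_univ, Fintype.card_fin, nsmul_eq_mul]))
  rw [norm_smul]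
  exact mul_le_mul (hs j) (hw j) (norm_nonneg _) ((abs_nonneg _).trans (hs j))

theorem gain_step (k : ℕ) : ∃ C : ℝ, 1 ≤ C ∧ ∀ {Ω α β : Type} [Fintype Ω] {d : ℕ} (P Pw : FP Ω)
    (R' : Ω → α) (R : Ω → β) (z : Ω → Fin d → ℝ) (S : ℝ) (B J : ℕ) [NeZero B]
    (sel : Fin (B ^ J) → ℝ) (v γ' : ℝ), 0 ≤ γ' → k + γ' ≤ v → v + γ' ≤ k + 1 → 0 < S →
    P.Det R' R → (∀ x, 0 < Pw.p x → 0 < P.p x) →
    (∀ x x', R x = R x' → ‖(S / 3) • z x - (S / 3) • z x'‖ ≤ 1) →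
    (∀ x x', R' x = R' x' → ‖(S * (B : ℝ) ^ J) • z x - (S * (B : ℝ) ^ J) • z x'‖ ≤ 3) →
    (∀ t, |sel t - ((t : ℕ) : ℝ) / (B : ℝ) ^ J| ≤ ((B : ℝ) ^ J)⁻¹) → (∀ t, |sel t| ≤ 2) →
    (v + γ') * J * log B - (k + 2) * log (C * (5 ^ d * Pw.E fun x =>
        ((P.cv R (R x)).cpy R).E fun y => (max ((B : ℝ) ^ J)⁻¹
          ‖(S / 3) • z y.1 - (S / 3) • z y.2‖) ^ (-v)) * (J + 2) * B) +
      (k + 2) * gT P Pw R' R - d * log (12 * k + 21) ≤
    ((FP.unif (B ^ J)).pi (k + 1)).E fun τ => (Pw.prod (Pw.pi (k + 1))).Hc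
      (fun x => gU (S * (B : ℝ) ^ J) (fun j => sel (τ j)) (z x.1) fun j => z (x.2 j))
      fun x => (R x.1, fun j => R (x.2 j)) := by
  obtain ⟨C, hC1, hC⟩ := gain_coll k (5 * k + 8)
  refine ⟨C, hC1, ?_⟩
  intro Ω α β _ d P Pw R' R z S B J _ sel v γ' hγ hv1 hv2 hS hRR hp hz hz' hsel hs2
  have hB : (1 : ℝ) ≤ B := by exact_mod_cast NeZero.one_le
  have hBJ : (1 : ℝ) ≤ (B : ℝ) ^ J := one_le_pow₀ hB
  have hl : 0 < ((B : ℝ) ^ J)⁻¹ := by positivity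
  have hv : 0 ≤ v := by have : (0 : ℝ) ≤ k := Nat.cast_nonneg k; linarith
  set Rf := gR P Pw R with hRf
  set η : Ω × Ω × Ω → Fin d → ℝ := fun y => (S / 3) • z y.2.1 - (S / 3) • z y.2.2 with hη
  have hη1 : ∀ y, 0 < Rf.p y → ‖η y‖ ≤ 1 := fun y hy => hz _ _ (gR_pos hy).2.2
  set A := 5 ^ d * Pw.E fun x => ((P.cv R (R x)).cpy R).E fun y => (max ((B : ℝ) ^ J)⁻¹
    ‖(S / 3) • z y.1 - (S / 3) • z y.2‖) ^ (-v) with hA
  have hA1 : 1 ≤ A := by
    have := gain_one_le Rf d (fun y => ‖η y‖) hl (inv_le_one_of_one_le₀ hBJ) hv hη1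
    rwa [hRf, gR, E_bind] at this
  have h1 := hC (Fin d → ℝ) (Ω × Ω × Ω) Rf η B J v γ' A hγ hv1 hv2 hA1 hη1 fun x ρ hρ => by
    rw [pr, hRf, gR, E_bind, hA, ← E_mul_left, ← E_mul_right]
    exact Pw.E_mono fun ω _ => gain_frost _ _ (fun x => (S / 3) • z x) hl hv x hρ
  have hφ2 : ∀ x, 0 < Pw.p x → 0 < P.cl R' x / P.cl R x := fun x hx =>
    div_pos (P.cl_pos _ (hp x hx)) (P.cl_pos _ (hp x hx))
  have hφ1 : ∀ x, 0 < Pw.p x → 0 < Pw.cl R x * (P.cl R' x / P.cl R x) := fun x hx =>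
    mul_pos (Pw.cl_pos _ hx) (hφ2 x hx)
  have h2 := fun τ : Fin (k + 1) → Fin (B ^ J) => gain_collision (Pw.prod (Pw.pi (k + 1)))
    (Rf.prod (Rf.pi (k + 1))) (fun x => (R' x.1, fun j => R' (x.2 j)))
    (fun x => (R x.1, fun j => R (x.2 j)))
    (fun x => gU (S * (B : ℝ) ^ J) (fun j => sel (τ j)) (z x.1) fun j => z (x.2 j))
    (fun x x' hx hx' e => by
      simp only [Prod.mk.injEq, funext_iff] at e ⊢
      exact ⟨hRR _ _ (hp _ (prod_pos _ hx).1) (hp _ (prod_pos _ hx').1) e.1, fun j =>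
        hRR _ _ (hp _ (Pw.pi_pos (prod_pos _ hx).2 j)) (hp _ (Pw.pi_pos (prod_pos _ hx').2 j))
          (e.2 j)⟩)
    (fun y => (R' y.1.2.1, fun j => R' (y.2 j).2.1)) (fun y => (R' y.1.2.2, fun j => R' (y.2 j).2.2))
    (fun x => ‖η x.1 - ∑ i, (((τ i : ℕ) : ℝ) / (B : ℝ) ^ J) • η (x.2 i)‖ ≤
      (5 * k + 8) * ((B : ℝ) ^ J)⁻¹)
    (g₁ := fun x => Pw.cl R x.1 * (P.cl R' x.1 / P.cl R x.1) *
      ∏ j, Pw.cl R (x.2 j) * (P.cl R' (x.2 j) / P.cl R (x.2 j)))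
    (g₂ := fun x => P.cl R' x.1 / P.cl R x.1 * ∏ j, P.cl R' (x.2 j) / P.cl R (x.2 j))
    (fun x hx => mul_pos (hφ1 _ (prod_pos _ hx).1)
      (Finset.prod_pos fun j _ => hφ1 _ (Pw.pi_pos (prod_pos _ hx).2 j)))
    (fun x hx => mul_pos (hφ2 _ (prod_pos _ hx).1)
      (Finset.prod_pos fun j _ => hφ2 _ (Pw.pi_pos (prod_pos _ hx).2 j)))
    (fun x x' hx hx' hr => by
      simp only [Prod.mk.injEq, funext_iff] at hr ⊢
      have e1 := Rf.pr_prod (Rf.pi (k + 1)) (fun w => R' w.2.1 = R' x.1 ∧ R' w.2.2 = R' x'.1)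
        fun w => ∀ j, R' (w j).2.1 = R' (x.2 j) ∧ R' (w j).2.2 = R' (x'.2 j)
      rw [Rf.pr_pi (k + 1) fun j w => R' w.2.1 = R' (x.2 j) ∧ R' w.2.2 = R' (x'.2 j)] at e1
      refine le_trans ?_ (e1.ge.trans (pr_mono _ fun y _ hy =>
        ⟨⟨hy.1.1, fun j => (hy.2 j).1⟩, hy.1.2, fun j => (hy.2 j).2⟩))
      rw [mul_mul_mul_comm, ← prod_mul_distrib]
      have p1 := fun j => Pw.pi_pos (prod_pos _ hx).2 j
      have p2 := fun j => Pw.pi_pos (prod_pos _ hx').2 j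
      exact mul_le_mul (gR_ref hRR hp (hp _ (prod_pos _ hx).1) (hp _ (prod_pos _ hx').1) hr.1)
        (prod_le_prod (fun j _ => (mul_pos (hφ1 _ (p1 j)) (hφ2 _ (p2 j))).le)
          fun j _ => gR_ref hRR hp (hp _ (p1 j)) (hp _ (p2 j)) (hr.2 j))
        (prod_nonneg fun j _ => (mul_pos (hφ1 _ (p1 j)) (hφ2 _ (p2 j))).le) (pr_nonneg _ _))
    (fun x x' y _ _ hy he e1 e2 => by
      simp only [Prod.mk.injEq, funext_iff] at e1 e2
      have a1 := norm_sub_of_fl he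
      rw [gain_comb] at a1
      have a0 : ∀ (w : Ω × Ω × Ω) u u', R' w.2.1 = R' u → R' w.2.2 = R' u' →
          ‖(3 * (B : ℝ) ^ J) • η w -
            ((S * (B : ℝ) ^ J) • z u - (S * (B : ℝ) ^ J) • z u')‖ ≤ 3 + 3 := fun w u u' b1 b2 => by
        have a2 : (3 * (B : ℝ) ^ J) • η w =
            (S * (B : ℝ) ^ J) • z w.2.1 - (S * (B : ℝ) ^ J) • z w.2.2 := by
          simp only [hη, smul_sub, smul_smul]
          congr 2 <;> ring
        rw [a2]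
        exact le_trans (le_of_eq (congrArg _ (by abel)))
          (norm_sub_le_of_le (hz' _ _ b1) (hz' _ _ b2))
      have a6 := norm_sub_le_of_le (norm_add_le_of_le a1 (a0 _ _ _ e1.1 e2.1))
        (gain_norm (fun j => hs2 (τ j)) fun j => a0 _ _ _ (e1.2 j) (e2.2 j))
      have a7 : ‖(3 * (B : ℝ) ^ J) • (η y.1 - ∑ j, sel (τ j) • η (y.2 j))‖ ≤
          1 + (3 + 3) + ((k + 1 : ℕ) : ℝ) * (2 * (3 + 3)) := by
        refine le_trans (le_of_eq (congrArg _ ?_)) a6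
        simp only [smul_sub (sel _), sum_sub_distrib, smul_sub (3 * (B : ℝ) ^ J), smul_sum,
          smul_comm (3 * (B : ℝ) ^ J)]
        abel
      rw [norm_smul, norm_of_nonneg (by positivity), ← le_div_iff₀' (by positivity)] at a7
      have a3 : ‖∑ j, (sel (τ j) - ((τ j : ℕ) : ℝ) / (B : ℝ) ^ J) • η (y.2 j)‖ ≤
          ((k + 1 : ℕ) : ℝ) * (((B : ℝ) ^ J)⁻¹ * 1) :=
        gain_norm (fun j => hsel _) fun j => hη1 _ (Rf.pi_pos (prod_pos _ hy).2 j)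
      have a5 : η y.1 - ∑ j, (((τ j : ℕ) : ℝ) / (B : ℝ) ^ J) • η (y.2 j) =
          (η y.1 - ∑ j, sel (τ j) • η (y.2 j)) +
            ∑ j, (sel (τ j) - ((τ j : ℕ) : ℝ) / (B : ℝ) ^ J) • η (y.2 j) := by
        simp only [sub_smul, sum_sub_distrib]; abel
      rw [a5]
      refine (norm_add_le_of_le a7 a3).trans ?_
      rw [div_mul_eq_div_div, div_eq_mul_inv _ ((B : ℝ) ^ J)]
      push_cast
      linarith)
  have h5 : (Pw.E fun x => log (Pw.cl R x * (P.cl R' x / P.cl R x))) =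
      (Pw.E fun x => log (P.cl R' x / P.cl R x)) - Pw.H R := by
    rw [H, ← E_sub]
    refine Pw.E_congr fun x hx => ?_
    rw [log_mul (Pw.cl_pos _ hx).ne' (hφ2 x hx).ne']; ring
  simp only [gain_E_log Pw k hφ1, gain_E_log Pw k hφ2, gain_H Pw k R', gain_H Pw k R, h5] at h2
  have h3 := ((FP.unif (B ^ J)).pi (k + 1)).E_log_le (fun τ _ => (h2 τ).1) h1
  have h6 : ∀ τ : Fin (k + 1) → Fin (B ^ J), (Pw.prod (Pw.pi (k + 1))).Hc
      (fun x => gU (S * (B : ℝ) ^ J) (fun j => sel (τ j)) (z x.1) fun j => z (x.2 j))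
      (fun x => (R' x.1, fun j => R' (x.2 j))) ≤ d * log (12 * k + 21) := fun τ =>
    (Hc_le_close' _ (M := 3 + ((k + 1 : ℕ) : ℝ) * (2 * 3) + 1)
      fun x y _ _ e => norm_fl_sub (by
        simp only [Prod.mk.injEq, funext_iff] at e
        rw [gain_comb]
        exact norm_sub_le_of_le (hz' _ _ e.1)
          (gain_norm (fun j => hs2 _) fun j => hz' _ _ (e.2 j)))).trans
      (le_of_eq (by push_cast; congr 2; ring))
  have h4 := ((FP.unif (B ^ J)).pi (k + 1)).E_mono fun τ _ =>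
    (sub_le_sub_right (sub_le_sub_left (h6 τ) _) _).trans (h2 τ).2
  rw [E_sub, E_const] at h4
  rw [log_mul (by positivity) (by positivity), log_pow, log_rpow hl, log_inv, log_pow] at h3
  simp only [gT]
  push_cast at h3
  linarith

/-- projection along the slope `a` -/
def gz {d : ℕ} (a : Fin d → ℝ) (x : (Fin d → ℝ) × ℝ) : Fin d → ℝ := x.1 - x.2 • a

theorem gz_sub {d : ℕ} (a : Fin d → ℝ) (S : ℝ) (x y : (Fin d → ℝ) × ℝ) :
    S • gz a x - S • gz a y = gz a (S • (x - y)) := by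
  simp only [gz, Prod.smul_fst, Prod.smul_snd, Prod.fst_sub, Prod.snd_sub, smul_sub, sub_smul,
    smul_eq_mul, mul_smul]
  abel

theorem gz_smul {d : ℕ} (a : Fin d → ℝ) (S : ℝ) (x : (Fin d → ℝ) × ℝ) :
    gz a (S • x) = S • gz a x := by
  simp only [gz, Prod.smul_fst, Prod.smul_snd, smul_sub, smul_eq_mul, mul_smul]

theorem norm_gz {d : ℕ} {a : Fin d → ℝ} (ha : ‖a‖ ≤ 2) (x : (Fin d → ℝ) × ℝ) :
    ‖gz a x‖ ≤ 3 * ‖x‖ := by
  refine (norm_sub_le _ _).trans ?_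
  rw [norm_smul]
  have h1 := norm_fst_le x
  have h2 := mul_le_mul (norm_snd_le x) ha (norm_nonneg _) (norm_nonneg _)
  linarith

theorem norm_smul_cell {d B j : ℕ} (hB : 0 < B) {x y : (Fin d → ℝ) × ℝ}
    (h : cell B j x = cell B j y) : ‖((B : ℝ) ^ j) • (x - y)‖ ≤ 1 := by
  have h0 : 0 < (B : ℝ) ^ j := by positivity
  rw [norm_smul, norm_of_nonneg h0.le, ← le_div_iff₀' h0, one_div]
  exact cell_near hB h

theorem gain_pot {Ω : Type*} [Fintype Ω] {d : ℕ} {P : FP Ω} {X : Ω → (Fin d → ℝ) × ℝ}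
    {a b : Ω → Fin d → ℝ} {q : (Fin d → ℝ) × (Fin d → ℝ) → ℝ} {B N : ℕ} {Nn : ℕ → ℝ} {v K : ℝ}
    (h : Good P X a b q B N Nn v K) (hB : 0 < B) (hK : 0 ≤ K) (hv : 0 ≤ v) (hNn : ∀ j, 1 ≤ Nn j)
    {μ m J : ℕ} (hμ : μ ≤ m) (hm : m + J ≤ N) {Ξ : ℝ}
    (hΞ : ∀ j ≤ J, Nn m * ((B : ℝ) ^ j) ^ v ≤ Ξ * Nn (m + j)) (aV : Ω → Fin d → ℝ)
    (haV : ∀ ω, 0 < P.p ω → ‖aV ω - a ω‖ ≤ ((B : ℝ) ^ J)⁻¹) :
    (P.E fun ω => ((P.cv (fun x => cell B μ (X x)) (cell B μ (X ω))).cpy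
      fun x => cell B m (X x)).E fun y => (max ((B : ℝ) ^ J)⁻¹
        ‖((B : ℝ) ^ m / 3) • gz (aV ω) (X y.1) - ((B : ℝ) ^ m / 3) • gz (aV ω) (X y.2)‖) ^ (-v)) ≤
      1 + (J + 1) * (K * 8 ^ v) * (B : ℝ) ^ v *
        (1 + (J + 1) * (7 ^ (d + 1) * K * Ξ) * (B : ℝ) ^ v) := by
  have hB1 : (1 : ℝ) ≤ B := by exact_mod_cast hB
  have hl : 0 < ((B : ℝ) ^ J)⁻¹ := by positivity
  have hl1 : ((B : ℝ) ^ J)⁻¹ ≤ 1 := inv_le_one_of_one_le₀ (one_le_pow₀ hB1)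
  set Q := fun x => cell B μ (X x) with hQ
  set R := fun x => cell B m (X x) with hR
  have hRQ : P.Det R Q := fun _ _ _ _ e => cell_eq_of_le hB hμ e
  have a1 := (P.cpy R).E_layer hB1 J hv (fun y => ‖((B : ℝ) ^ m) • (X y.1 - X y.2)‖)
    (A := 7 ^ (d + 1) * K * Ξ) fun j hj => le_trans (pr_mono _ fun y _ hy => by
      have h0 : 0 < (B : ℝ) ^ m := by positivity
      rw [norm_smul, norm_of_nonneg h0.le, ← le_div_iff₀' h0] at hy
      refine hy.trans ?_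
      rw [pow_add, mul_inv, div_eq_mul_inv, mul_comm]
      have : 0 < ((B : ℝ) ^ m)⁻¹ * ((B : ℝ) ^ j)⁻¹ := by positivity
      linarith) (h.pot hB hK hNn hm hΞ hj)
  rw [← P.tower Q fun c ω => ((P.cv Q c).cpy R).E fun y => (max ((B : ℝ) ^ J)⁻¹
    ‖((B : ℝ) ^ m / 3) • gz (aV ω) (X y.1) - ((B : ℝ) ^ m / 3) • gz (aV ω) (X y.2)‖) ^ (-v)]
  refine le_trans (P.E_mono (g := fun ω => ((P.cv Q (Q ω)).cpy R).E fun y =>
    1 + (J + 1) * (K * 8 ^ v) * (B : ℝ) ^ v *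
      (max ((B : ℝ) ^ J)⁻¹ ‖((B : ℝ) ^ m) • (X y.1 - X y.2)‖) ^ (-v)) fun ω hω => ?_) ?_
  · rw [E_comm]
    refine E_mono _ fun y hy => ?_
    set ξ := ((B : ℝ) ^ m) • (X y.1 - X y.2) with hξ
    have hξ1 : ‖ξ‖ ≤ 1 := norm_smul_cell hB (cpy_eq _ hy).symm
    have hρ0 : 0 < max ((B : ℝ) ^ J)⁻¹ ‖ξ‖ := lt_max_of_lt_left hl
    have hρ1 : max ((B : ℝ) ^ J)⁻¹ ‖ξ‖ ≤ 1 := max_le hl1 hξ1
    refine ((P.cv Q (Q ω)).E_layer hB1 J hv _
      (A := K * 8 ^ v * (max ((B : ℝ) ^ J)⁻¹ ‖ξ‖) ^ (-v)) fun j hj => ?_).trans (le_of_eq (by ring))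
    have hj0 : 0 < ((B : ℝ) ^ j)⁻¹ := by positivity
    have hjJ : ((B : ℝ) ^ J)⁻¹ ≤ ((B : ℝ) ^ j)⁻¹ :=
      inv_anti₀ (by positivity) (pow_le_pow_right₀ hB1 hj)
    obtain ⟨a₀, ha₀⟩ := slope_ball ξ (ε := 4 * ((B : ℝ) ^ j)⁻¹) hl (by linarith)
    have b1 := h.slope' (fun x => cell B μ x = cell B μ (X ω)) a₀
      (r := 2 * (4 * ((B : ℝ) ^ j)⁻¹) / max ((B : ℝ) ^ J)⁻¹ ‖ξ‖) (by
        have : ((B : ℝ) ^ N)⁻¹ ≤ ((B : ℝ) ^ J)⁻¹ :=
          inv_anti₀ (by positivity) (pow_le_pow_right₀ hB1 (by omega))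
        refine le_trans (by linarith) (le_div_self (by positivity) hρ0 hρ1))
    rw [P.pr_cv hω, div_le_iff₀ (P.cl_pos Q hω)]
    refine (P.pr_mono fun x hx hx' => ⟨ha₀ _ (h.geo x hx).2.1 ?_, hx'.2⟩).trans
      (b1.trans (le_of_eq ?_))
    swap
    · have c1 := hx'.1
      rw [gz_sub, div_eq_inv_mul, mul_smul, gz_smul, norm_smul, ← hξ] at c1
      have c2 : ξ.1 - ξ.2 • a x = gz (aV x) ξ + ξ.2 • (aV x - a x) := by
        simp only [gz, smul_sub]; abel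
      have c3 : ‖ξ.2 • (aV x - a x)‖ ≤ 1 * ((B : ℝ) ^ J)⁻¹ := by
        rw [norm_smul]
        exact mul_le_mul ((norm_snd_le ξ).trans hξ1) (haV x hx) (norm_nonneg _) zero_le_one
      rw [c2]
      refine (norm_add_le _ _).trans ?_
      norm_num at c1
      linarith
    · rw [div_rpow (by positivity) hρ0.le, ← mul_assoc, mul_rpow (by norm_num) hj0.le,
        rpow_neg hρ0.le]
      norm_num only
      unfold cl
      ring
  · rw [gain_cv_cpy P hRQ, E_add, E_const, E_mul_left]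
    gcongr

theorem gain_upper {Ω : Type*} [Fintype Ω] {d : ℕ} (P : FP Ω) (k : ℕ) (A : Ω → Fin d → ℤ)
    (z : Ω → Fin d → ℝ) (S : ℝ) (s : Fin k → ℝ) {c : ℝ} (hs : ∀ j, |s j| ≤ 2)
    (hc : ∀ j, P.D A (s j) ≤ c)
    (h : ∀ x x', 0 < P.p x → 0 < P.p x' → ‖cz (A x') - cz (A x) - S • (z x' - z x)‖ ≤ 10) :
    ((P.prod (P.pi k)).H fun x => gU S s (z x.1) fun j => z (x.2 j)) ≤
      P.H A + k * c + k * (2 * (d * log 5)) + d * log (40 * k + 25) := by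
  have a1 := (P.prod (P.pi k)).H_le_add (fun x => gU S s (z x.1) fun j => z (x.2 j))
    fun x => fl (cz (A x.1) - ∑ j, s j • cz (A (x.2 j)))
  have a2 := P.HS_pi_le A k s
  have a3 : ∑ j, P.D A (s j) ≤ k * c := (sum_le_sum fun j _ => hc j).trans_eq
    (by rw [sum_const, card_univ, Fintype.card_fin, nsmul_eq_mul])
  have a4 : ((P.prod (P.pi k)).Hc (fun x => gU S s (z x.1) fun j => z (x.2 j))
      fun x => fl (cz (A x.1) - ∑ j, s j • cz (A (x.2 j)))) ≤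
      d * log (2 * (1 + 10 + k * (2 * 10) + 1) + 1) :=
    Hc_le_close' _ fun x y hx hy e => norm_fl_sub (by
      have b1 := norm_sub_of_fl e
      have b2 := h _ _ (prod_pos _ hx).1 (prod_pos _ hy).1
      have b3 := gain_norm hs fun j => h _ _ (P.pi_pos (prod_pos _ hx).2 j)
        (P.pi_pos (prod_pos _ hy).2 j)
      refine le_trans (le_of_eq (congrArg _ ?_)) (norm_add_le_of_le (norm_sub_le_of_le b1 b2) b3)
      simp only [smul_sub, sum_sub_distrib, smul_sum, smul_comm S]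
      abel)
  rw [show 2 * (1 + 10 + (k : ℝ) * (2 * 10) + 1) + 1 = 40 * k + 25 by ring] at a4
  unfold HS at a2
  linarith

theorem gain_bound {d k : ℕ} {B J C K Ξ v : ℝ} (hB : 8 ≤ B) (hJ0 : 0 ≤ J) (hJ : J + 2 ≤ B)
    (hC : C ≤ B) (hK : 1 ≤ K) (hΞ : 1 ≤ Ξ) (hv0 : 0 ≤ v) (hv : v ≤ k + 1) :
    C * (5 ^ d * (1 + (J + 1) * (K * 8 ^ v) * B ^ v *
        (1 + (J + 1) * (7 ^ (d + 1) * K * Ξ) * B ^ v))) * (J + 2) * B ≤
      K ^ 2 * Ξ * B ^ (2 * d + 3 * k + 9) := by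
  have hB1 : 1 ≤ B := by linarith
  have h1 : B ^ v ≤ B ^ (k + 1) := by
    rw [← rpow_natCast]; exact rpow_le_rpow_of_exponent_le hB1 (by push_cast; exact hv)
  have h2 : (8 : ℝ) ^ v ≤ B ^ (k + 1) := (rpow_le_rpow (by norm_num) hB hv0).trans h1
  have h3 : (7 : ℝ) ^ (d + 1) ≤ B ^ (d + 1) := pow_le_pow_left₀ (by norm_num) (by linarith) _
  have h4 : (5 : ℝ) ^ d ≤ B ^ d := pow_le_pow_left₀ (by norm_num) (by linarith) _
  have key : ∀ x : ℝ, 1 ≤ x → 1 + (J + 1) * x ≤ B * x := fun x hx => by nlinarith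
  have h5 : 1 + (J + 1) * (7 ^ (d + 1) * K * Ξ) * B ^ v ≤
      B * (B ^ (d + 1) * K * Ξ * B ^ (k + 1)) := by
    refine le_trans ?_ (key _ (one_le_mul_of_one_le_of_one_le (one_le_mul_of_one_le_of_one_le
      (one_le_mul_of_one_le_of_one_le (one_le_pow₀ hB1) hK) hΞ) (one_le_pow₀ hB1)))
    rw [mul_assoc (J + 1)]
    gcongr
  have h6 : 1 ≤ B * (B ^ (d + 1) * K * Ξ * B ^ (k + 1)) :=
    le_trans (le_add_of_nonneg_right (by positivity)) h5
  have h7 : 1 + (J + 1) * (K * 8 ^ v) * B ^ v * (1 + (J + 1) * (7 ^ (d + 1) * K * Ξ) * B ^ v) ≤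
      B * (K * B ^ (k + 1) * B ^ (k + 1) * (B * (B ^ (d + 1) * K * Ξ * B ^ (k + 1)))) := by
    refine le_trans ?_ (key _ (one_le_mul_of_one_le_of_one_le (one_le_mul_of_one_le_of_one_le
      (one_le_mul_of_one_le_of_one_le hK (one_le_pow₀ hB1)) (one_le_pow₀ hB1)) h6))
    rw [mul_assoc (J + 1), mul_assoc (J + 1)]
    gcongr
  calc _ ≤ B * (B ^ d * (B * (K * B ^ (k + 1) * B ^ (k + 1) *
        (B * (B ^ (d + 1) * K * Ξ * B ^ (k + 1)))))) * B * B := by gcongr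
    _ = _ := by ring

theorem gain (d k : ℕ) : ∃ (C : ℝ) (B₀ : ℕ), 0 ≤ C ∧ ∀ {Ω ν : Type} [Fintype Ω] (P : FP Ω)
    (X : Ω → (Fin d → ℝ) × ℝ) (a b : Ω → Fin d → ℝ) (q : (Fin d → ℝ) × (Fin d → ℝ) → ℝ)
    (B N : ℕ) (Nn : ℕ → ℝ) (v K : ℝ) (μ J Mw : ℕ) (γ Ξ e : ℝ) (V : Ω → ν)
    (aT : ν → Fin d → ℝ) (A : Ω → Fin d → ℤ) (cost : ν → ℝ),
    Good P X a b q B N Nn v K → B₀ ≤ B → N + 2 ≤ B → 1 ≤ K → (∀ j, 1 ≤ Nn j) → 1 ≤ Ξ →
    0 ≤ γ → k + γ ≤ v → v + γ ≤ k + 1 → μ + Mw * J ≤ N →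
    (∀ i < Mw, ∀ j ≤ J, Nn (μ + i * J) * ((B : ℝ) ^ j) ^ v ≤ Ξ * Nn (μ + i * J + j)) →
    P.Det V (fun ω => cell B μ (X ω)) →
    (∀ ω, 0 < P.p ω → ‖aT (V ω) - a ω‖ ≤ ((B : ℝ) ^ J)⁻¹) →
    (∀ ω ω', 0 < P.p ω → 0 < P.p ω' → V ω' = V ω →
      ‖cz (A ω') - cz (A ω) - ((B : ℝ) ^ (μ + Mw * J)) •
        (((X ω').1 - (X ω').2 • aT (V ω)) - ((X ω).1 - (X ω).2 • aT (V ω)))‖ ≤ 10) →
    P.Hc X (fun ω => cell B μ (X ω)) - P.Hc X V ≤ e →
    (∀ ω, 0 < P.p ω → ∀ t : ℝ, 0 ≤ t → t ≤ 1 → ∃ s, |s - t| ≤ ((B : ℝ) ^ J)⁻¹ ∧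
      (P.cv V (V ω)).D A s ≤ cost (V ω)) →
    (v + γ) * (Mw * J) * log B ≤ P.Hc A V + (k + 1) * (P.E fun ω => cost (V ω)) +
      2 * (k + 2) * e + (Mw + 1) * ((k + 2) * (2 * log K + log Ξ) + C * log B) := by
  obtain ⟨C, hC1, hC⟩ := gain_step k
  refine ⟨(k + 2) * (2 * d + 3 * k + 9) + 3 * d + (d + 2 * d * (k + 1)), ⌈C⌉₊ + (40 * k + 65),
    by positivity, ?_⟩
  intro Ω ν _ P X a b q B N Nn v K μ J Mw γ Ξ e V aT A cost h hB hN hK hNn hΞ1 hγ hv1 hv2 hM hΞ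
    hVQ haT hA he hcost
  have hB0 : 0 < B := by omega
  have : NeZero B := ⟨hB0.ne'⟩
  have hk0 : (0 : ℝ) ≤ k := Nat.cast_nonneg k
  have hBC : C ≤ B := (Nat.le_ceil C).trans (by exact_mod_cast (by omega : ⌈C⌉₊ ≤ B))
  have hBk : 40 * (k : ℝ) + 65 ≤ B := by exact_mod_cast (by omega : 40 * k + 65 ≤ B)
  have hB1 : (1 : ℝ) ≤ B := by linarith
  have hl1 : ((B : ℝ) ^ J)⁻¹ ≤ 1 := inv_le_one_of_one_le₀ (one_le_pow₀ hB1)
  have hv : 0 ≤ v := by linarith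
  have hlog : ∀ x : ℝ, 0 < x → x ≤ B → d * log x ≤ d * log B := fun x h0 h1 =>
    mul_le_mul_of_nonneg_left (log_le_log h0 h1) (Nat.cast_nonneg d)
  set R : ℕ → Ω → (Fin d → ℤ) × ℤ := fun i x => cell B (μ + i * J) (X x) with hR
  set g : ℕ → ν → Ω → ℝ := fun i w x => ((P.cv (R i) (R i x)).cpy (R i)).E fun y =>
    (max ((B : ℝ) ^ J)⁻¹ ‖((B : ℝ) ^ (μ + i * J) / 3) • gz (aT w) (X y.1) -
      ((B : ℝ) ^ (μ + i * J) / 3) • gz (aT w) (X y.2)‖) ^ (-v) with hg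
  set f : ℕ → Ω → ℝ := fun i ω => C * (5 ^ d * (P.cv V (V ω)).E (g i (V ω))) * (J + 2) * B
    with hf
  have point : ∀ ω, 0 < P.p ω → (v + γ) * (Mw * J) * log B ≤
      (P.cv V (V ω)).H A + (k + 1) * cost (V ω) + (d + 2 * d * (k + 1)) * log B +
      ∑ i ∈ range Mw, ((k + 2) * log (f i ω) - (k + 2) * gT P (P.cv V (V ω)) (R (i + 1)) (R i) +
        3 * (d * log B)) := by
    intro ω hω
    set Pw := P.cv V (V ω) with hPw
    have hp : ∀ x, 0 < Pw.p x → 0 < P.p x := fun x hx => P.cv_pos hx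
    have hV : ∀ x, 0 < Pw.p x → V x = V ω := fun x hx => P.cv_eq hω hx
    have ha2 : ‖aT (V ω)‖ ≤ 2 := by
      have b1 := norm_add_le_of_le (haT ω hω) (h.geo ω hω).2.1
      rw [sub_add_cancel] at b1
      linarith
    have ht : ∀ t : Fin (B ^ J), 0 ≤ ((t : ℕ) : ℝ) / (B : ℝ) ^ J ∧
        ((t : ℕ) : ℝ) / (B : ℝ) ^ J ≤ 1 := fun t =>
      ⟨by positivity, (div_le_one (by positivity)).2 (by exact_mod_cast t.2.le)⟩
    choose sel hsel hD using fun t : Fin (B ^ J) => hcost ω hω _ (ht t).1 (ht t).2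
    have hs2 : ∀ t, |sel t| ≤ 2 := fun t => by
      have b1 := abs_le.1 (hsel t)
      rw [abs_le]
      constructor <;> linarith [(ht t).1, (ht t).2]
    have hz : ∀ i x x', cell B i x = cell B i x' →
        ‖((B : ℝ) ^ i) • gz (aT (V ω)) x - ((B : ℝ) ^ i) • gz (aT (V ω)) x'‖ ≤ 3 := by
      intro i x x' e
      rw [gz_sub]
      linarith [norm_gz ha2 (((B : ℝ) ^ i) • (x - x')), norm_smul_cell hB0 e]
    have step := fun i => hC P Pw (R (i + 1)) (R i) (fun x => gz (aT (V ω)) (X x))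
      ((B : ℝ) ^ (μ + i * J)) B J sel v γ hγ hv1 hv2 (by positivity)
      (fun _ _ _ _ e => cell_eq_of_le hB0 (by rw [add_mul]; omega) e) hp
      (fun x x' e => by
        have b1 := hz _ _ _ e
        rw [div_eq_inv_mul, mul_smul, mul_smul, ← smul_sub, norm_smul]
        norm_num
        linarith)
      (fun x x' e => by
        have b1 := hz _ _ _ e
        rwa [add_mul, one_mul, ← add_assoc, pow_add] at b1) hsel hs2
    have chain : ∀ τ : Fin (k + 1) → Fin (B ^ J), ∑ i ∈ range Mw, ((Pw.prod (Pw.pi (k + 1))).Hc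
        (fun x => gU ((B : ℝ) ^ (μ + i * J) * (B : ℝ) ^ J) (fun j => sel (τ j))
          (gz (aT (V ω)) (X x.1)) fun j => gz (aT (V ω)) (X (x.2 j)))
        (fun x => (R i x.1, fun j => R i (x.2 j))) - 2 * (d * log B)) ≤
        Pw.H A + (k + 1) * cost (V ω) + (d + 2 * d * (k + 1)) * log B := by
      intro τ
      have b1 := gain_chain (Pw.prod (Pw.pi (k + 1)))
        (fun i x => gU ((B : ℝ) ^ (μ + i * J)) (fun j => sel (τ j))
          (gz (aT (V ω)) (X x.1)) fun j => gz (aT (V ω)) (X (x.2 j)))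
        (fun i x => (R i x.1, fun j => R i (x.2 j)))
        (c := d * log B) Mw
        (fun i _ => (Hc_le_close' _ (M := 1 + 1) fun x y _ _ e => norm_fl_sub (by
          have c1 := norm_sub_of_fl e
          rw [← smul_sub, norm_smul, norm_of_nonneg (by positivity)] at c1 ⊢
          refine le_trans (mul_le_mul_of_nonneg_right
            (pow_le_pow_right₀ hB1 (by rw [add_mul]; omega)) (norm_nonneg _)) c1)).trans
          (hlog _ (by norm_num) (by linarith)))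
        (fun i _ => (Hc_le_close' _ (M := 3 + ((k + 1 : ℕ) : ℝ) * (2 * 3) + 1)
          fun x y _ _ e => norm_fl_sub (by
            simp only [Prod.mk.injEq, funext_iff] at e
            rw [gain_comb]
            exact norm_sub_le_of_le (hz _ _ _ e.1)
              (gain_norm (fun j => hs2 _) fun j => hz _ _ _ (e.2 j)))).trans
          (hlog _ (by positivity) (by push_cast; linarith)))
      have b2 := gain_upper Pw (k + 1) A (fun x => gz (aT (V ω)) (X x)) ((B : ℝ) ^ (μ + Mw * J))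
        (fun j => sel (τ j)) (fun j => hs2 _) (fun j => hD _) fun x x' hx hx' => by
          have := hA x x' (hp x hx) (hp x' hx') ((hV x' hx').trans (hV x hx).symm)
          rwa [hV x hx] at this
      have b3 := hlog 5 (by norm_num) (by linarith)
      have b4 := hlog (40 * ((k + 1 : ℕ) : ℝ) + 25) (by positivity) (by push_cast; linarith)
      have b5 := mul_le_mul_of_nonneg_left b3 (show 0 ≤ (k : ℝ) + 1 by linarith)
      simp only [add_mul, one_mul, ← add_assoc, pow_add (B : ℝ) _ J] at b1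
      push_cast at b2 b4
      linarith
    have b1 := ((FP.unif (B ^ J)).pi (k + 1)).E_le fun τ _ => chain τ
    rw [E_sum] at b1
    simp only [E_sub, E_const] at b1
    have b5 := hlog (12 * k + 21) (by positivity) (by linarith)
    have b2 := sum_le_sum fun i (_ : i ∈ range Mw) =>
      sub_le_sub_right ((sub_le_sub_left b5 _).trans (step i)) (2 * (d * log B))
    have b3 : (v + γ) * (Mw * J) * log B = ∑ _i ∈ range Mw, (v + γ) * J * log B := by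
      rw [sum_const, card_range, nsmul_eq_mul]; ring
    have b4 := b2.trans b1
    simp only [sum_add_distrib, sum_sub_distrib, ← mul_sum] at b4 ⊢
    rw [b3]
    simp only [← mul_sum]
    linarith
  have a1 := P.le_E point
  simp only [E_add, E_sum, E_sub, E_mul_left, E_const, E_H_cv] at a1
  have hK0 := log_nonneg hK
  have hΞ0 := log_nonneg hΞ1
  have hL0 := log_nonneg hB1
  have a2 : ∀ i ∈ range Mw, (P.E fun ω => log (f i ω)) ≤
      2 * log K + log Ξ + (2 * d + 3 * k + 9) * log B := by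
    intro i hi
    have hi' := mem_range.1 hi
    have hm : μ + i * J + J ≤ N := by
      have : (i + 1) * J ≤ Mw * J := Nat.mul_le_mul_right _ hi'
      rw [add_mul] at this
      omega
    have c2 := gain_pot h hB0 (by linarith) hv hNn le_rfl hm (hΞ i hi') (fun ω => aT (V ω)) haT
    have c3 := P.E_log_le (f := f i) (S := K ^ 2 * Ξ * (B : ℝ) ^ (2 * d + 3 * k + 9))
      (fun ω _ => by
        have : 0 < (P.cv V (V ω)).E (g i (V ω)) := E_pos _ fun _ _ => E_pos _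
          fun _ _ => rpow_pos_of_pos (lt_max_of_lt_left (by positivity)) _
        simp only [hf]
        positivity)
      (by
        simp only [hf, E_mul_right, E_mul_left]
        rw [P.tower V (g i)]
        refine le_trans ?_ (gain_bound (d := d) (k := k) (J := J) (v := v) (by linarith)
          (Nat.cast_nonneg J) (by exact_mod_cast (by omega : J + 2 ≤ B)) hBC hK hΞ1 hv
          (by linarith))
        gcongr)
    rw [log_mul (by positivity) (by positivity), log_mul (by positivity) (by positivity),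
      log_pow, log_pow] at c3
    push_cast at c3
    exact c3
  have a3 := mul_le_mul_of_nonneg_left (sum_le_sum a2) (show 0 ≤ (k : ℝ) + 2 by linarith)
  have a7 := mul_le_mul_of_nonneg_left (gain_T P (X := X) R (V := V) Mw
    (fun _ _ _ _ e => by simp only [hR, e]) (by simpa [hR] using hVQ) (e := e)
    (by simpa [hR] using he)) (show 0 ≤ (k : ℝ) + 2 by linarith)
  simp only [sum_add_distrib, sum_sub_distrib, ← mul_sum, sum_const, card_range,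
    nsmul_eq_mul] at a1 a3
  have a4 : 0 ≤ ((k : ℝ) + 2) * (2 * log K + log Ξ) := by positivity
  have a5 : 0 ≤ (((k : ℝ) + 2) * (2 * d + 3 * k + 9) + 3 * d) * log B := by positivity
  have a6 : 0 ≤ (Mw : ℝ) * ((d + 2 * d * (k + 1)) * log B) := by positivity
  linarith

end Pool.Agent.P.MP_bf60a1_an.RA
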