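import Pool.Agent.P.MP_bf60a1_an.RA.SP1

/-! The sum-product step for a random line with nearly independent random heights. -/

namespace Pool.Agent.P.MP_bf60a1_an.RA

open Finset Real RA.FP

theorem slope_close {d : ℕ} {a b a' b' : Fin d → ℝ} {y₁ y₂ l r₁ r₂ : ℝ} (hl : 0 < l)
    (h12 : l ≤ |y₁ - y₂|)
    (e1 : ‖b + y₁ • a - (b' + y₁ • a')‖ ≤ r₁) (e2 : ‖b + y₂ • a - (b' + y₂ • a')‖ ≤ r₂) :
    ‖a - a'‖ ≤ (r₁ + r₂) / l := by
  have h0 : y₁ - y₂ ≠ 0 := fun h => by rw [h, abs_zero] at h12; linarith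
  have e : a - a' = (y₁ - y₂)⁻¹ • ((b + y₁ • a - (b' + y₁ • a')) -
      (b + y₂ • a - (b' + y₂ • a'))) := by
    ext i; simp only [Pi.add_apply, Pi.sub_apply, Pi.smul_apply, smul_eq_mul]; field_simp; ring
  rw [e, norm_smul, norm_inv, norm_eq_abs, inv_mul_eq_div]
  exact div_le_div₀ (add_nonneg ((norm_nonneg _).trans e1) ((norm_nonneg _).trans e2))
    (norm_sub_le_of_le e1 e2) hl h12

theorem fudge {Ω β : Type*} [Fintype Ω] {d : ℕ} (P : FP Ω) {Z : Ω → Fin d → ℤ} {V : Ω → β}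
    {l p M : ℝ} (hl : 0 < l) (hl1 : l ≤ 1) (hM : 1 ≤ M) (s : Ω → Prop)
    (hs : (P.pr fun ω => ¬ s ω) ≤ p)
    (h : ∀ ω ω', 0 < P.p ω → 0 < P.p ω' → V ω' = V ω →
      ‖cz (Z ω') - cz (Z ω)‖ ≤ 4 * M + 2 ∧ (s ω → ‖cz (Z ω') - cz (Z ω)‖ ≤ 4 / l + 4)) :
    P.Hc Z V ≤ d * log (100 / l ^ 2) + p * (d * log (100 * M)) := by
  have hli : 1 ≤ l⁻¹ := one_le_inv₀ hl |>.2 hl1
  have e2 := P.Hc_le_close₂ (by positivity) s h
  have e3 : d * log (2 * (4 / l + 4) + 1) ≤ d * log (100 / l ^ 2) := log_le_mul (by positivity)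
    (by rw [div_eq_mul_inv, div_eq_mul_inv, sq, mul_inv]; nlinarith)
  have e4 : d * log (2 * (4 * M + 2) + 1) ≤ d * log (100 * M) :=
    log_le_mul (by positivity) (by linarith)
  have e5 : 0 ≤ d * log (2 * (4 * M + 2) + 1) :=
    mul_nonneg (Nat.cast_nonneg _) (log_nonneg (by linarith))
  linarith [mul_le_mul hs e4 e5 ((P.pr_nonneg _).trans hs)]

theorem sum_product (i : ℕ) : ∃ C : ℝ, 1 ≤ C ∧ ∀ {Ω ι κ τ χ : Type} [Fintype Ω] {d : ℕ}
    (P : FP Ω) (L : Ω → κ) (T : κ → τ) (a b : κ → Fin d → ℝ) (Q : Ω → ι) (η : ι → ℝ) (X : Ω → χ)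
    (W : Ω → Fin d → ℤ) (l p M h e : ℝ),
    0 < l → l ≤ 1 / 3 → 0 < p → p ≤ 1 / 10 → (l ^ 2)⁻¹ ≤ M → 0 ≤ e →
    (∀ ω, W ω = fl (b (L ω) + η (Q ω) • a (L ω))) →
    (∀ ω, 0 < P.p ω → 0 ≤ η (Q ω) ∧ η (Q ω) ≤ 1) →
    (∀ ω ω', 0 < P.p ω → 0 < P.p ω' → T (L ω) = T (L ω') →
      ‖a (L ω) - a (L ω')‖ ≤ M ∧ ‖b (L ω) - b (L ω')‖ ≤ M) →
    (∀ ω t, 0 < P.p ω → (P.pr fun x => |η (Q x) - t| ≤ l ∧ L x = L ω) ≤ p * P.cl L ω) →
    2 * (l ^ (2 * 3 + 4 * i))⁻¹ < (1 / (2 * p) - 1) ^ (2 ^ i) →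
    P.Hc Q (fun ω => T (L ω)) - P.Hc Q L ≤ e →
    P.Hc W (fun ω => (Q ω, T (L ω))) ≤ h + e →
    h - e ≤ P.Hc (fun ω => fl (a (L ω))) (fun ω => (W ω, Q ω, T (L ω))) →
    ∃ (Ω' : Type) (_ : Fintype Ω') (P' : FP Ω') (ϖ : Ω' → Ω) (ν : Type) (V : Ω' → ν)
      (cost : ν → ℝ), MP P' P ϖ ∧ P'.Det V (fun ω => (Q (ϖ ω), T (L (ϖ ω)))) ∧
      P.Hc X (fun ω => (Q ω, T (L ω))) - C * (e + 1 + d * log (100 / l ^ 2) +
        p * (d * log (100 * M))) ≤ P'.Hc (fun ω => X (ϖ ω)) V ∧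
      (P'.E fun ω => cost (V ω)) ≤ C * (e + 1 + d * log (100 / l ^ 2) +
        p * (d * log (100 * M))) ∧
      ∀ ω, 0 < P'.p ω → ∀ t : ℝ, 0 ≤ t → t ≤ 1 → ∃ s, |s - t| ≤ l ∧
        (P'.cv V (V ω)).D (fun x => W (ϖ x)) s ≤ cost (V ω) := by
  obtain ⟨C, hC1, hC⟩ := expand i
  refine ⟨200 * C, by linarith, ?_⟩
  intro Ω ι κ τ χ _ d P L T a b Q η X W l p M h e hl hl3 hp hp' hM he hW hη hbd hsp hcard H1 H2 H3
  have hl1 : l ≤ 1 := by linarith
  have hli : 1 ≤ l⁻¹ := one_le_inv₀ hl |>.2 hl1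
  have hM1 : 1 ≤ M := le_trans (by rw [sq, mul_inv]; nlinarith only [hli]) hM
  have habs : ∀ {x y : Ω}, 0 < P.p x → 0 < P.p y → |η (Q x) - η (Q y)| ≤ 1 := fun hx hy =>
    abs_le.2 ⟨by linarith [hη _ hx, hη _ hy], by linarith [hη _ hx, hη _ hy]⟩
  have hl4 : (1 + 1) / l + 1 ≤ 4 / l + 4 := by
    rw [div_eq_mul_inv, div_eq_mul_inv]; linarith only [hli]
  set f := d * log (100 / l ^ 2) with hf
  set g := d * log (100 * M) with hg
  have hf0 : 0 ≤ f := mul_nonneg (Nat.cast_nonneg _) (log_nonneg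
    (by rw [div_eq_mul_inv, sq, mul_inv]; nlinarith only [hli]))
  have hg0 : 0 ≤ g := mul_nonneg (Nat.cast_nonneg _) (log_nonneg (by linarith))
  have hWb : ∀ x y, 0 < P.p x → 0 < P.p y → T (L x) = T (L y) → Q x = Q y →
      ‖cz (W x) - cz (W y)‖ ≤ 2 * M + 1 := fun x y hx hy hT hQ => by
    rw [hW, hW, ← hQ]
    exact line_bdd (hη _ hx).1 (hη _ hx).2 (hbd _ _ hx hy hT).1 (hbd _ _ hx hy hT).2
  -- two points on the line
  set P2 := P.cpy L with hP2
  have m21 := P.cpy_fst L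
  have m22 := P.cpy_snd L
  have q2 : ∀ x, 0 < P2.p x → L x.2 = L x.1 := fun x hx => P.cpy_eq hx
  let O2 : Ω × Ω → τ × ι × ι := fun x => (T (L x.1), Q x.1, Q x.2)
  have s12 : (P2.pr fun x => ¬ l ≤ |η (Q x.1) - η (Q x.2)|) ≤ p := by
    have := glue_spread (Law.rfl (P := P) (V := L)) (fun _ => True)
      (fun x y => |η (Q y) - η (Q x)| ≤ l) fun x y hy => hsp y _ hy
    rw [P.pr_eq_one fun _ _ => trivial, mul_one] at this
    exact (P2.pr_mono fun x _ hx => ⟨by rw [abs_sub_comm]; exact (not_le.1 hx).le, trivial⟩).trans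
      this
  have a1 : P2.Hc (fun x => W x.1) O2 ≤ h + e :=
    (P2.Hc_mono_right _ (C := fun x => (Q x.1, T (L x.1))) fun _ _ _ _ h => by
      clear * - h; simp_all [O2]).trans ((m21.Hc W fun ω => (Q ω, T (L ω))).trans_le H2)
  have a2 : P2.Hc (fun x => W x.2) O2 ≤ h + e :=
    (P2.Hc_mono_right _ (C := fun x => (Q x.2, T (L x.2))) fun x y hx hy h => by
      have h1 := q2 x hx
      have h2 := q2 y hy
      clear * - h h1 h2; simp_all [O2]).trans ((m22.Hc W fun ω => (Q ω, T (L ω))).trans_le H2)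
  have f1 : P2.Hc (fun x => fl (a (L x.1))) (fun x => (W x.1, W x.2, O2 x)) ≤ f + p * g :=
    fudge P2 hl hl1 hM1 _ s12 fun x y hx hy h => by
      simp only [O2, Prod.mk.injEq] at h
      obtain ⟨e1, e2, e3, e4, e5⟩ := h
      refine ⟨(norm_fl_sub (hbd _ _ (m21.pos hy) (m21.pos hx) e3).1).trans (by linarith),
        fun hs => (norm_fl_sub ?_).trans hl4⟩
      rw [hW, hW, e4] at e1
      rw [hW, hW, e5, q2 x hx, q2 y hy] at e2
      exact slope_close hl hs (norm_sub_of_fl e1) (norm_sub_of_fl e2)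
  have a3 : 2 * (h - 2 * e - (f + p * g)) ≤ P2.Hc (fun x => (W x.1, W x.2)) O2 := by
    have b1 := info_glue (Law.rfl (P := P) (V := L)) (fun ω => fl (a (L ω)))
      (S := fun ω => (W ω, Q ω, T (L ω))) Q T fun _ _ _ _ h => by clear * - h; simp_all
    have b2 := info_glue' (Law.rfl (P := P) (V := L)) (fun ω => fl (a (L ω)))
      (S := fun ω => (W ω, Q ω, T (L ω))) Q T fun _ _ _ _ h => by clear * - h; simp_all
    have b3 : P2.Hc (fun x => fl (a (L x.1))) (fun x => (Q x.2, W x.1, Q x.1, T (L x.1))) ≤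
        P2.Hc (fun x => fl (a (L x.1))) fun x => (W x.1, O2 x) :=
      P2.Hc_mono_right _ fun _ _ _ _ h => by clear * - h; simp_all [O2]
    have b4 : P2.Hc (fun x => fl (a (L x.2))) (fun x => (Q x.1, W x.2, Q x.2, T (L x.2))) ≤
        P2.Hc (fun x => fl (a (L x.1))) fun x => (W x.2, O2 x) :=
      P2.Hc_mono (fun x y hx hy h => by
        have h1 := q2 x hx
        have h2 := q2 y hy
        clear * - h h1 h2; simp_all) fun x y hx hy h => by
        have h1 := q2 x hx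
        have h2 := q2 y hy
        clear * - h h1 h2; simp_all [O2]
    have b5 := P2.Hc_le_add (fun x => fl (a (L x.1))) (fun x => W x.2) fun x => (W x.1, O2 x)
    have b6 := P2.Hc_le_add (fun x => fl (a (L x.1))) (fun x => W x.1) fun x => (W x.2, O2 x)
    have b7 : P2.Hc (fun x => fl (a (L x.1))) (fun x => (W x.2, W x.1, O2 x)) ≤
        P2.Hc (fun x => fl (a (L x.1))) fun x => (W x.1, W x.2, O2 x) :=
      P2.Hc_mono_right _ fun _ _ _ _ h => by clear * - h; simp_all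
    have b8 := P2.Hc_chain (fun x => W x.1) (fun x => W x.2) O2
    have b9 : P2.Hc (fun x => W x.1) (fun x => (W x.2, O2 x)) ≤ P2.Hc (fun x => W x.1) O2 :=
      P2.Hc_mono_right _ fun _ _ _ _ h => congrArg Prod.snd h
    change _ ≤ P2.Hc _ _ at b1 b2
    linarith only [b1, b2, b3, b4, b5, b6, b7, b8, b9, f1, H1, H3]
  -- three points on the line
  have l2 : Law P2 (fun x => L x.1) P L := m21.law L
  set P3 := glue P2 (fun x => L x.1) P L with hP3
  have m31 : MP P3 P2 Prod.fst := glue_fst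
  have m32 : MP P3 P Prod.snd := glue_snd l2
  have q3 : ∀ x, 0 < P3.p x → L x.2 = L x.1.1 := fun x hx => glue_eq l2 hx
  let O : (Ω × Ω) × Ω → ι × τ × ι × ι := fun z => (Q z.2, O2 z.1)
  let V0 : (Ω × Ω) × Ω → (Fin d → ℤ) × ι × τ × ι × ι := fun z => (W z.2, O z)
  have s13 : (P3.pr fun z => ¬ l ≤ |η (Q z.1.1) - η (Q z.2)|) ≤ p := by
    have := glue_spread l2 (fun _ => True)
      (fun x y => |η (Q y) - η (Q x.1)| ≤ l) fun x y hy => hsp y _ hy
    rw [P2.pr_eq_one fun _ _ => trivial, mul_one] at this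
    exact (P3.pr_mono fun x _ hx => ⟨by rw [abs_sub_comm]; exact (not_le.1 hx).le, trivial⟩).trans
      this
  have s23 : (P3.pr fun z => ¬ l ≤ |η (Q z.1.2) - η (Q z.2)|) ≤ p := by
    have := glue_spread l2 (fun _ => True)
      (fun x y => |η (Q y) - η (Q x.2)| ≤ l) fun x y hy => hsp y _ hy
    rw [P2.pr_eq_one fun _ _ => trivial, mul_one] at this
    exact (P3.pr_mono fun x _ hx => ⟨by rw [abs_sub_comm]; exact (not_le.1 hx).le, trivial⟩).trans
      this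
  have p3 : ∀ z, 0 < P3.p z → 0 < P.p z.1.1 ∧ 0 < P.p z.1.2 ∧ 0 < P.p z.2 ∧
      W z.1.2 = fl (b (L z.1.1) + η (Q z.1.2) • a (L z.1.1)) ∧
      W z.2 = fl (b (L z.1.1) + η (Q z.2) • a (L z.1.1)) := fun z hz =>
    ⟨m21.pos (m31.pos hz), m22.pos (m31.pos hz), m32.pos hz, by rw [hW, q2 _ (m31.pos hz)],
      by rw [hW, q3 _ hz]⟩
  have c1 : P3.Hc (fun z => W z.2) O ≤ h + e :=
    (P3.Hc_mono_right _ (C := fun z => (Q z.2, T (L z.2))) fun x y hx hy h => by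
      have h1 := q3 x hx
      have h2 := q3 y hy
      clear * - h h1 h2; simp_all [O, O2]).trans ((m32.Hc W fun ω => (Q ω, T (L ω))).trans_le H2)
  have c2 : 2 * (h - 2 * e - (f + p * g)) - e ≤ P3.Hc (fun z => (W z.1.1, W z.1.2)) O := by
    have := info_glue l2 (fun x => (W x.1, W x.2)) (S := O2) Q T
      fun _ _ _ _ h => congrArg Prod.fst h
    linarith only [this, a3, H1]
  have c3 : P3.Hc (fun z => W z.1.1) O ≤ h + e :=
    (P3.Hc_mono_right _ (C := fun z => O2 z.1) fun _ _ _ _ h => congrArg Prod.snd h).trans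
      ((m31.Hc (fun x => W x.1) O2).trans_le a1)
  have c4 : P3.Hc (fun z => W z.1.2) O ≤ h + e :=
    (P3.Hc_mono_right _ (C := fun z => O2 z.1) fun _ _ _ _ h => congrArg Prod.snd h).trans
      ((m31.Hc (fun x => W x.2) O2).trans_le a2)
  have f2 : P3.Hc (fun z => W z.1.2) (fun z => (W z.1.1, V0 z)) ≤ f + p * g :=
    fudge P3 hl hl1 hM1 _ s13 fun x y hx hy h => by
      simp only [V0, O, O2, Prod.mk.injEq] at h
      obtain ⟨e1, e2, e3, e4, e5, e6⟩ := h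
      obtain ⟨x1, x2, x3, x4, x5⟩ := p3 x hx
      obtain ⟨y1, y2, y3, y4, y5⟩ := p3 y hy
      refine ⟨(hWb _ _ y2 x2 (by rw [q2 _ (m31.pos hx), q2 _ (m31.pos hy), e4]) e6).trans
        (by linarith), fun hs => ?_⟩
      rw [hW, hW, e5] at e1
      rw [x5, y5, e3] at e2
      rw [x4, y4, e6]
      exact (norm_fl_sub (line_close hl hs (habs x2 x1) (habs x2 x3) (norm_sub_of_fl e1)
        (norm_sub_of_fl e2))).trans hl4
  have f4 : P3.Hc (fun z => W z.2) (fun z => ((W z.1.1, W z.1.2), O z)) ≤ f + p * g :=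
    fudge P3 hl hl1 hM1 (fun z => l ≤ |η (Q z.1.1) - η (Q z.1.2)|)
      ((m31.pr fun x => ¬ l ≤ |η (Q x.1) - η (Q x.2)|).trans_le s12) fun x y hx hy h => by
      simp only [O, O2, Prod.mk.injEq] at h
      obtain ⟨⟨e1, e2⟩, e3, e4, e5, e6⟩ := h
      obtain ⟨x1, x2, x3, x4, x5⟩ := p3 x hx
      obtain ⟨y1, y2, y3, y4, y5⟩ := p3 y hy
      refine ⟨(hWb _ _ y3 x3 (by rw [q3 _ hx, q3 _ hy, e4]) e3).trans
        (by linarith), fun hs => ?_⟩
      rw [hW, hW, e5] at e1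
      rw [x4, y4, e6] at e2
      rw [x5, y5, e3]
      exact (norm_fl_sub (line_close hl hs (habs x3 x1) (habs x3 x2) (norm_sub_of_fl e1)
        (norm_sub_of_fl e2))).trans hl4
  have f3 : (P3.cpy V0).Hc (fun x => W x.1.1.1 - W x.2.1.1)
      (fun x => ((W x.1.1.2, W x.2.1.2), O x.1)) ≤ f + p * g :=
    fudge _ hl hl1 hM1 (fun x => l ≤ |η (Q x.1.1.2) - η (Q x.1.2)|)
      (((P3.cpy_fst V0).pr fun z => ¬ l ≤ |η (Q z.1.2) - η (Q z.2)|).trans_le s23)
      fun x y hx hy h => by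
      have hx' := P3.cpy_eq hx
      have hy' := P3.cpy_eq hy
      simp only [V0, O, O2, Prod.mk.injEq] at h hx' hy'
      obtain ⟨⟨e1, e2⟩, e3, e4, e5, e6⟩ := h
      obtain ⟨g1, g2, g3, g4, g5⟩ := hx'
      obtain ⟨k1, k2, k3, k4, k5⟩ := hy'
      obtain ⟨x1, x2, x3, x4, x5⟩ := p3 _ ((P3.cpy_fst V0).pos hx)
      obtain ⟨y1, y2, y3, y4, y5⟩ := p3 _ ((P3.cpy_fst V0).pos hy)
      obtain ⟨u1, u2, u3, u4, u5⟩ := p3 _ ((P3.cpy_snd V0).pos hx)
      obtain ⟨v1, v2, v3, v4, v5⟩ := p3 _ ((P3.cpy_snd V0).pos hy)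
      rw [cz_sub, cz_sub]
      constructor
      · have t1 := hWb _ _ y1 x1 e4 e5
        have t2 := hWb _ _ v1 u1 (by rw [k3, g3, e4]) (by rw [k4, g4, e5])
        refine le_trans (le_of_eq (congrArg _ (by abel))) ((norm_sub_le_of_le t1 t2).trans
          (by linarith))
      · intro hs
        rw [x4, y4, e6] at e1
        rw [u4, v4, k5, g5, e6] at e2
        rw [x5, u5, g2] at g1
        rw [y5, v5, k2, e3] at k1
        have t1 := line_close (a := a (L y.1.1.1) - a (L y.2.1.1))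
          (b := b (L y.1.1.1) - b (L y.2.1.1)) (a' := a (L x.1.1.1) - a (L x.2.1.1))
          (b' := b (L x.1.1.1) - b (L x.2.1.1)) (y₃ := η (Q x.1.1.1)) (r₁ := 1 + 1) (r₂ := 1 + 1)
          hl hs (habs x1 x2) (habs x1 x3)
          (le_trans (le_of_eq (congrArg _ (by simp only [smul_sub]; abel)))
            (norm_sub_le_of_le (norm_sub_of_fl e1) (norm_sub_of_fl e2)))
          (le_trans (le_of_eq (congrArg _ (by simp only [smul_sub]; abel)))
            (norm_sub_le_of_le (norm_sub_of_fl g1) (norm_sub_of_fl k1)))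
        have t2 := norm_cz_fl (b (L y.1.1.1) + η (Q x.1.1.1) • a (L y.1.1.1))
        have t3 := norm_cz_fl (b (L y.2.1.1) + η (Q x.1.1.1) • a (L y.2.1.1))
        have t4 := norm_cz_fl (b (L x.1.1.1) + η (Q x.1.1.1) • a (L x.1.1.1))
        have t5 := norm_cz_fl (b (L x.2.1.1) + η (Q x.1.1.1) • a (L x.2.1.1))
        rw [hW y.1.1.1, hW y.2.1.1, hW x.1.1.1, hW x.2.1.1, k4, g4, e5]
        refine le_trans (le_of_eq (congrArg _ ?_)) ((norm_add_le_of_le t1 (norm_sub_le_of_le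
          (norm_sub_le_of_le t2 t3) (norm_sub_le_of_le t4 t5))).trans (le_of_eq (by ring)))
        simp only [smul_sub]; abel
  have c5 : h - 6 * e - 3 * (f + p * g) ≤ P3.Hc (fun z => W z.1.1) V0 := by
    have e1 := P3.Hc_le_add (fun z => (W z.1.1, W z.1.2)) (fun z => W z.2) O
    have e2 := P3.Hc_chain (fun z => W z.1.1) (fun z => W z.1.2) V0
    linarith only [e1, e2, f2, c1, c2]
  have hbsg : (P3.E fun ω => (P3.cv V0 (V0 ω)).D (fun z => W z.1.1) 1) ≤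
      21 * e + 9 * (f + p * g) := by
    have := P3.bsg (fun z => W z.1.1) (fun z => W z.1.2) (fun z => W z.2) O
    linarith only [this, c1, c2, c3, c4, c5, f3, f4]
  have hI : P3.Hc (fun z => (W z.2, Q z.2)) (fun z => O2 z.1) -
      P3.Hc (fun z => (W z.2, Q z.2)) (fun z => (W z.1.1, O2 z.1)) ≤ 7 * e + 3 * (f + p * g) := by
    have e1 := P3.Hc_symm (fun z => W z.1.1) (fun z => (W z.2, Q z.2)) fun z => O2 z.1
    have e2 : P3.Hc (fun z => W z.1.1) V0 ≤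
        P3.Hc (fun z => W z.1.1) fun z => ((W z.2, Q z.2), O2 z.1) :=
      P3.Hc_mono_right _ fun _ _ _ _ h => by clear * - h; simp_all [V0, O]
    have e3 := m31.Hc (fun x => W x.1) O2
    linarith only [e1, e2, e3, a1, c5]
  -- a second line sharing the first position, and a fresh point on it
  have l4 : Law P3 (fun z => (W z.1.1, O2 z.1)) P2 fun x => (W x.1, O2 x) :=
    m31.law fun x => (W x.1, O2 x)
  set P4 := glue P3 (fun z => (W z.1.1, O2 z.1)) P2 fun x => (W x.1, O2 x) with hP4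
  have m41 : MP P4 P3 Prod.fst := glue_fst
  have m42 : MP P4 P2 Prod.snd := glue_snd l4
  have q4 : ∀ z, 0 < P4.p z → W z.2.1 = W z.1.1.1 ∧ T (L z.2.1) = T (L z.1.1.1) ∧
      Q z.2.1 = Q z.1.1.1 ∧ Q z.2.2 = Q z.1.1.2 := fun z hz => by
    simpa only [O2, Prod.mk.injEq] using glue_eq l4 hz
  have l5 : Law P4 (fun z => L z.2.1) P L := (m21.comp m42).law L
  set P5 := glue P4 (fun z => L z.2.1) P L with hP5
  have m51 : MP P5 P4 Prod.fst := glue_fst
  have m52 : MP P5 P Prod.snd := glue_snd l5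
  have q5 : ∀ z, 0 < P5.p z → L z.2 = L z.1.2.1 := fun z hz => glue_eq l5 hz
  have dV : P4.Det (fun z => V0 z.1) fun z => O2 z.2 := fun x y hx hy h => by
    have h1 := q4 x hx
    have h2 := q4 y hy
    clear * - h h1 h2; simp_all [V0, O, O2]
  have inf4 : ∀ {ζ : Type} (G : Ω × Ω → ζ), P2.Hc G O2 - (7 * e + 3 * (f + p * g)) ≤
      P4.Hc (fun z => G z.2) fun z => V0 z.1 := fun G => by
    have e1 := info_glue' l4 G (S := O2) (fun z => (W z.2, Q z.2)) Prod.snd fun _ _ _ _ h => h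
    have e2 : P4.Hc (fun z => G z.2) (fun z => ((W z.1.2, Q z.1.2), O2 z.2)) ≤
        P4.Hc (fun z => G z.2) fun z => V0 z.1 := P4.Hc_mono_right _ fun x y hx hy h => by
      have h1 := q4 x hx
      have h2 := q4 y hy
      clear * - h h1 h2; simp_all [V0, O, O2]
    linarith only [e1, e2, hI]
  let V : (((Ω × Ω) × Ω) × Ω × Ω) × Ω → (Fin d → ℤ) × ι × τ × ι × ι := fun z => V0 z.1.1
  let Ψ : (Fin d → ℤ) × ι × τ × ι × ι → ℝ := fun v =>
    5 * (P5.cv V v).D (fun z => W z.1.2.1) 1 + 2 * (P5.cv V v).Hc (fun z => W z.2) (fun z => Q z.2) +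
      (P5.cv V v).H (fun z => W z.1.2.2) -
      2 * (P5.cv V v).Hc (fun z => (W z.1.2.1, W z.1.2.2)) (fun z => Q z.2) +
      (P5.cv V v).H (fun z => W z.1.2.1) + 1 + 8 * f + 6 * (p * g)
  have mϖ : MP P5 P fun z => z.1.2.1 := (m21.comp m42).comp m51
  have herr : 0 ≤ e + 1 + f + p * g := by positivity
  refine ⟨_, inferInstance, P5, fun z => z.1.2.1, _, V,
    fun v => C * (Ψ v + ind (¬ l ≤ |η v.2.2.2.1 - η v.2.2.2.2|) * (5 * g)), mϖ, ?_, ?_, ?_, ?_⟩
  · intro x y hx hy h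
    have := dV _ _ (m51.pos hx) (m51.pos hy) h
    clear * - this; simp_all [O2]
  · have e1 := info_glue (Law.rfl (P := P) (V := L)) X (S := fun ω => (Q ω, T (L ω))) Q T
      fun _ _ _ _ h => congrArg Prod.snd h
    have e2 : P2.Hc (fun x => X x.1) (fun x => (Q x.2, Q x.1, T (L x.1))) ≤
        P2.Hc (fun x => X x.1) O2 :=
      P2.Hc_mono_right _ fun _ _ _ _ h => by clear * - h; simp_all [O2]
    have e3 := inf4 fun x => X x.1
    have e4 := m51.Hc (fun z => X z.2.1) fun z => V0 z.1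
    have e5 : 8 * (e + 1 + f + p * g) ≤ 200 * C * (e + 1 + f + p * g) :=
      mul_le_mul_of_nonneg_right (by linarith) herr
    change _ ≤ P2.Hc _ _ at e1
    have := mul_nonneg hp.le hg0
    linarith only [e1, e2, e3, e4, e5, H1, hf0, this]
  · have e1 : (P5.E fun z => (P5.cv V (V z)).D (fun z => W z.1.2.1) 1) =
        P3.E fun ω => (P3.cv V0 (V0 ω)).D (fun z => W z.1.1) 1 := by
      rw [← (m41.comp m51) fun ω => (P3.cv V0 (V0 ω)).D (fun z => W z.1.1) 1]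
      refine P5.E_congr fun z _ => Law.D ?_ 1
      exact (((m41.comp m51).cv V0 (V z)).law fun z => W z.1.1).congr
        fun y hy => (q4 _ (m51.pos (P5.cv_pos hy))).1
    have e2 : P5.Hc (fun z => W z.2) (fun z => (Q z.2, V z)) ≤ h + e :=
      (P5.Hc_mono_right _ (C := fun z => (Q z.2, T (L z.2))) fun x y hx hy h => by
        have := dV _ _ (m51.pos hx) (m51.pos hy) (congrArg Prod.snd h)
        have h1 := q5 x hx
        have h2 := q5 y hy
        replace h := congrArg Prod.fst h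
        clear * - h this h1 h2; simp_all [O2]).trans
        ((m52.Hc W fun ω => (Q ω, T (L ω))).trans_le H2)
    have e3 : P5.Hc (fun z => W z.1.2.2) V ≤ h + e :=
      (m51.Hc (fun z => W z.2.2) fun z => V0 z.1).trans_le ((P4.Hc_mono_right _ dV).trans
        ((m42.Hc (fun x => W x.2) O2).trans_le a2))
    have e4 : P5.Hc (fun z => W z.1.2.1) V ≤ h + e :=
      (m51.Hc (fun z => W z.2.1) fun z => V0 z.1).trans_le ((P4.Hc_mono_right _ dV).trans
        ((m42.Hc (fun x => W x.1) O2).trans_le a1))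
    have e5 := info_glue l5 (fun z => (W z.2.1, W z.2.2)) (S := fun z => V0 z.1) Q T
      fun x y hx hy h => congrArg Prod.fst (dV x y hx hy h)
    have e6 := inf4 fun x => (W x.1, W x.2)
    have e7 : (P5.pr fun z => ¬ l ≤ |η (V z).2.2.2.1 - η (V z).2.2.2.2|) ≤ p :=
      (((m31.comp m41).comp m51).pr fun x => ¬ l ≤ |η (Q x.1) - η (Q x.2)|).trans_le s12
    simp only [Ψ, E_mul_left, E_add, E_sub, E_const, E_mul_right, E_H_cv, E_Hc_cv]
    rw [e1, mul_assoc 200, mul_left_comm 200]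
    refine mul_le_mul_of_nonneg_left ?_ (by linarith)
    change _ ≤ P5.Hc (fun z => (W z.1.2.1, W z.1.2.2)) (fun z => (Q z.2, V z)) at e5
    have e8 := mul_le_mul_of_nonneg_right e7 hg0
    have := mul_nonneg hp.le hg0
    unfold pr at e8
    linarith only [e2, e3, e4, e5, e6, e8, hbsg, a3, H1, he, hf0, this]
  · intro ω hω t ht0 ht1
    have hs : ∀ x, 0 < (P5.cv V (V ω)).p x → 0 < P5.p x ∧ T (L x.1.2.1) = T (L ω.1.1.1.1) ∧
        Q x.1.2.1 = Q ω.1.1.1.1 ∧ Q x.1.2.2 = Q ω.1.1.1.2 := fun x hx => by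
      have h1 := P5.cv_pos hx
      have h2 := P5.cv_eq hω hx
      have h3 := q4 _ (m51.pos h1)
      refine ⟨h1, ?_⟩
      clear * - h2 h3; simp_all [V, V0, O, O2]
    have w1 := (p3 _ ((m41.comp m51).pos hω)).1
    have w2 := (p3 _ ((m41.comp m51).pos hω)).2.1
    by_cases hsep : l ≤ |η (Q ω.1.1.1.1) - η (Q ω.1.1.1.2)|
    · obtain ⟨s, hs1, hs2⟩ := hC (P5.cv V (V ω)) (fun z => a (L z.1.2.1)) (fun z => b (L z.1.2.1))
        (fun z => W z.1.2.1) (fun z => W z.1.2.2) (fun z => W z.2) (fun z => Q z.2) η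
        (η (Q ω.1.1.1.1)) (η (Q ω.1.1.1.2)) l p M hl hl3 hp hp' hM (hη _ w1).1 (hη _ w1).2
        (hη _ w2).1 (hη _ w2).2 hsep (fun x hx => by
          obtain ⟨h1, h2, h3, h4⟩ := hs x hx
          exact ⟨by rw [hW, h3], by rw [hW, h4, q2 _ (m42.pos (m51.pos h1))],
            by rw [hW, q5 _ h1], hη _ (m52.pos h1)⟩)
        (fun x y hx hy => hbd _ _ (mϖ.pos (hs x hx).1) (mϖ.pos (hs y hy).1)
          ((hs x hx).2.1.trans (hs y hy).2.1.symm))
        (fun x t _ => by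
          have e1 := glue_spread l5 (fun z => W z.2.2 = W x.1.2.2 ∧ V0 z.1 = V ω)
            (fun _ y => |η (Q y) - t| ≤ l) fun _ y hy => hsp y _ hy
          rw [← m51.pr fun z => W z.2.2 = W x.1.2.2 ∧ V0 z.1 = V ω] at e1
          rw [cl, P5.pr_cv hω, P5.pr_cv hω, ← mul_div_assoc]
          refine div_le_div_of_nonneg_right (le_trans (le_of_eq ?_) e1) (P5.cl_nonneg _ _)
          exact P5.pr_congr fun _ _ => and_assoc) hcard t ht0 ht1
      refine ⟨s, hs1, hs2.trans (mul_le_mul_of_nonneg_left ?_ (by linarith))⟩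
      exact le_add_of_nonneg_right (mul_nonneg (ind_nonneg _) (by linarith))
    · refine ⟨t, by simpa using hl.le, ?_⟩
      have b1 : ∀ x y, 0 < (P5.cv V (V ω)).p x → 0 < (P5.cv V (V ω)).p y →
          ‖cz (W y.1.2.1) - cz (W x.1.2.1)‖ ≤ 2 * M + 1 := fun x y hx hy =>
        hWb _ _ (mϖ.pos (hs y hy).1) (mϖ.pos (hs x hx).1)
          ((hs y hy).2.1.trans (hs x hx).2.1.symm) ((hs y hy).2.2.1.trans (hs x hx).2.2.1.symm)
      have b2 : ∀ x y, 0 < (P5.cv V (V ω)).p x → 0 < (P5.cv V (V ω)).p y →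
          ‖cz (W y.1.2.2) - cz (W x.1.2.2)‖ ≤ 2 * M + 1 := fun x y hx hy =>
        hWb _ _ (m22.pos (m42.pos (m51.pos (hs y hy).1))) (m22.pos (m42.pos (m51.pos (hs x hx).1)))
          (by rw [q2 _ (m42.pos (m51.pos (hs y hy).1)), q2 _ (m42.pos (m51.pos (hs x hx).1)),
            (hs y hy).2.1, (hs x hx).2.1]) ((hs y hy).2.2.2.trans (hs x hx).2.2.2.symm)
      have b3 := (P5.cv V (V ω)).D_le_of_close _ (abs_le.2 ⟨by linarith, ht1⟩) b1
      have b4 := (P5.cv V (V ω)).H_le_close b1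
      have b5 := (P5.cv V (V ω)).H_le_close b2
      have b6 : d * log (4 * (2 * M + 1) + 3) ≤ g := log_le_mul (by positivity) (by linarith)
      have b7 : d * log (2 * (2 * M + 1) + 1) ≤ g := log_le_mul (by positivity) (by linarith)
      have b8 := ((P5.cv V (V ω)).Hc_le_H (fun z => (W z.1.2.1, W z.1.2.2)) fun z => Q z.2).trans
        ((P5.cv V (V ω)).H_pair_le _ _)
      have b9 := (P5.cv V (V ω)).D_nonneg (fun z => W z.1.2.1) 1
      have b10 := (P5.cv V (V ω)).Hc_nonneg (fun z => W z.2) fun z => Q z.2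
      have b11 := mul_nonneg hp.le hg0
      have b12 : g ≤ Ψ (V ω) + ind (¬ l ≤ |η (V ω).2.2.2.1 - η (V ω).2.2.2.2|) * (5 * g) := by
        rw [ind_pos hsep]
        simp only [Ψ]
        linarith only [b4, b5, b7, b8, b9, b10, b11, hf0, hg0]
      exact b3.trans (b6.trans (b12.trans (le_mul_of_one_le_left (hg0.trans b12) hC1)))

end Pool.Agent.P.MP_bf60a1_an.RA
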