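import Mathlib

/-! Density increment on sequences: a window all of whose children have positive slope. -/

namespace Pool.Agent.P.MP_bf60a1_an.RA

open Finset

theorem window_dens (M : ℕ) (hM : 0 < M) (κ n : ℝ) (hκ : 0 < κ) (h : ℕ → ℝ) (N : ℕ)
    (hh : ∀ i < N, h (i + 1) - h i ≤ n) (D : ℕ) : ∀ (a : ℕ) (s : ℝ), a + M ^ D ≤ N →
      s * (M ^ D : ℕ) ≤ h (a + M ^ D) - h a → 2 * κ ≤ s → n < s + D * (κ / M) →
      ∃ α c : ℕ, 0 < c ∧ α + M * c ≤ N ∧
        ∀ i < M, κ * c ≤ h (α + (i + 1) * c) - h (α + i * c) := by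
  induction D with
  | zero =>
    intro a s h1 h2 _ h4
    have := hh a (by simpa using h1)
    simp only [pow_zero, Nat.cast_one, mul_one, Nat.cast_zero, zero_mul, add_zero] at h2 h4
    linarith
  | succ D ih =>
    intro a s h1 h2 h3 h4
    set c := M ^ D with hc
    have c0 : 0 < c := pow_pos hM D
    have c0' : (0 : ℝ) < c := by exact_mod_cast c0
    have M0 : (0 : ℝ) < M := by exact_mod_cast hM
    have e : M ^ (D + 1) = M * c := pow_succ' M D
    rw [e] at h1 h2
    by_cases hall : ∀ i < M, κ * c ≤ h (a + (i + 1) * c) - h (a + i * c)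
    · exact ⟨a, c, c0, h1, hall⟩
    push Not at hall
    obtain ⟨i₀, hi₀, hlt⟩ := hall
    have big : ∃ i < M, (s + κ / M) * c ≤ h (a + (i + 1) * c) - h (a + i * c) := by
      by_contra hn
      push Not at hn
      have t := Finset.sum_range_sub (fun i => h (a + i * c)) M
      rw [← Finset.add_sum_erase _ _ (mem_range.2 hi₀)] at t
      have b : ∑ i ∈ (range M).erase i₀, (h (a + (i + 1) * c) - h (a + i * c)) ≤
          ((M : ℝ) - 1) * ((s + κ / M) * c) := by
        refine (Finset.sum_le_sum fun i hi =>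
          (hn i (mem_range.1 (mem_erase.1 hi).2)).le).trans (le_of_eq ?_)
        rw [sum_const, card_erase_of_mem (mem_range.2 hi₀), card_range, nsmul_eq_mul,
          Nat.cast_sub hM, Nat.cast_one]
      have k : (M : ℝ) * (κ / M) = κ := by field_simp
      have k0 : 0 ≤ κ / M := by positivity
      have : κ + ((M : ℝ) - 1) * (s + κ / M) ≤ s * M := by nlinarith
      have := mul_le_mul_of_nonneg_right this c0'.le
      simp only [zero_mul, add_zero] at t
      push_cast at h2
      nlinarith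
    obtain ⟨i, hi, hb⟩ := big
    have e2 : a + (i + 1) * c = a + i * c + c := by ring
    refine ih (a + i * c) (s + κ / M) ?_ (by rwa [e2] at hb) ?_ ?_
    · have : (i + 1) * c ≤ M * c := Nat.mul_le_mul_right c hi
      omega
    · have : 0 ≤ κ / M := by positivity
      linarith
    · push_cast at h4
      linarith

theorem window (M : ℕ) (β n E : ℝ) (hβ : 0 < β) : ∃ N : ℕ, 0 < N ∧ ∀ (F : ℕ → ℝ) (v : ℝ), 0 ≤ v →
    (∀ i < N, F i ≤ F (i + 1) ∧ F (i + 1) ≤ F i + n) → (v + β) * N - E ≤ F N - F 0 →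
    ∃ α c : ℕ, 0 < c ∧ α + M * c ≤ N ∧
      (∀ i ≤ M, ∀ l : ℕ, α + i * c ≤ l → l ≤ N →
        v * ((l : ℝ) - (α + i * c : ℕ)) - v * c ≤ F l - F (α + i * c)) ∧
      (∀ l : ℕ, α ≤ l → l ≤ α + M * c →
        (v + β / 4) * ((l : ℝ) - α) - (v + β / 4) * c ≤ F l - F α) := by
  have k0 : 0 < β / 4 / ((M + 2 : ℕ) : ℝ) := by positivity
  obtain ⟨D, hD⟩ := exists_nat_gt (max (2 * E / β) (n / (β / 4 / ((M + 2 : ℕ) : ℝ))))
  have D1 : 2 * E < D * β := (div_lt_iff₀ hβ).1 ((le_max_left _ _).trans_lt hD)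
  have D2 : n < D * (β / 4 / ((M + 2 : ℕ) : ℝ)) :=
    (div_lt_iff₀ k0).1 ((le_max_right _ _).trans_lt hD)
  refine ⟨(M + 2) ^ D, by positivity, fun F v hv hF hE => ?_⟩
  set N := (M + 2) ^ D with hN
  have DN : (D : ℝ) ≤ N := by exact_mod_cast (Nat.lt_pow_self (by omega : 1 < M + 2)).le
  set g : ℕ → ℝ := fun t => F t - v * t with hg
  have ex : ∀ l, ∃ t, l ≤ N → l ≤ t ∧ t ≤ N ∧ ∀ t', l ≤ t' → t' ≤ N → g t ≤ g t' := by
    intro l
    by_cases hl : l ≤ N
    · obtain ⟨t, ht, hm⟩ := (Icc l N).exists_min_image g ⟨l, mem_Icc.2 ⟨le_rfl, hl⟩⟩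
      exact ⟨t, fun _ => ⟨(mem_Icc.1 ht).1, (mem_Icc.1 ht).2,
        fun t' h1 h2 => hm t' (mem_Icc.2 ⟨h1, h2⟩)⟩⟩
    · exact ⟨0, fun h => absurd h hl⟩
  choose τ hτ using ex
  set h : ℕ → ℝ := fun l => g (τ l) with hh
  have hle : ∀ l t, l ≤ t → t ≤ N → h l ≤ g t := fun l t h1 h2 => (hτ l (h1.trans h2)).2.2 t h1 h2
  have Fm : ∀ a b, a ≤ b → b ≤ N → F a ≤ F b := by
    intro a b hab
    induction b, hab using Nat.le_induction with
    | base => exact fun _ => le_rfl
    | succ b _ ih => exact fun hb => (ih (by omega)).trans (hF b hb).1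
  have step : ∀ i < N, h (i + 1) - h i ≤ n := by
    intro i hi
    obtain ⟨t1, t2, -⟩ := hτ i hi.le
    obtain ⟨f1, f2⟩ := hF i hi
    rcases t1.eq_or_lt with e | e
    · have a := hle (i + 1) (i + 1) le_rfl hi
      have b : h i = g i := by simp only [hh, ← e]
      simp only [hg] at a b
      push_cast at a
      linarith
    · have a := hle (i + 1) (τ i) e t2
      have b : h i = g (τ i) := rfl
      linarith
  have tot : β / 2 * (((M + 2) ^ D : ℕ) : ℝ) ≤ h (0 + (M + 2) ^ D) - h 0 := by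
    have a := hle 0 0 le_rfl (Nat.zero_le _)
    have b : h N = g N := by
      obtain ⟨t1, t2, -⟩ := hτ N le_rfl
      simp only [hh, le_antisymm t2 t1]
    rw [zero_add, ← hN, b]
    simp only [hg, Nat.cast_zero, mul_zero, sub_zero] at a ⊢
    nlinarith
  obtain ⟨α, c, c0, hc, hall⟩ := window_dens (M + 2) (by omega) (β / 4) n (by positivity) h N step
    D 0 (β / 2) (by omega) tot (by linarith) (by linarith)
  have c0' : (0 : ℝ) < c := by exact_mod_cast c0
  have bd : ∀ i ≤ M + 2, α + i * c ≤ N := fun i hi =>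
    le_trans (Nat.add_le_add_left (Nat.mul_le_mul_right c hi) α) hc
  have key : ∀ i ≤ M, g (α + i * c) ≤ h (α + i * c) + v * c := by
    intro i hi
    have a := hall i (by omega)
    obtain ⟨t1, t2, -⟩ := hτ (α + i * c) (bd i (by omega))
    have t3 : τ (α + i * c) ≤ α + (i + 1) * c := by
      by_contra hn
      have b := hle _ _ (not_le.1 hn).le t2
      have : h (α + i * c) = g (τ (α + i * c)) := rfl
      have : 0 < β / 4 * c := by positivity
      linarith
    have b := Fm _ _ t1 t2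
    have t4 : (τ (α + i * c) : ℝ) ≤ (α + i * c : ℕ) + c := by
      have : τ (α + i * c) ≤ α + i * c + c := by rw [add_mul] at t3; omega
      exact_mod_cast this
    have := mul_le_mul_of_nonneg_left t4 hv
    simp only [hh, hg]
    linarith
  refine ⟨α, c, c0, bd M (by omega), fun i hi l h1 h2 => ?_, fun l h1 h2 => ?_⟩
  · have a := key i hi
    have b := hle _ l h1 h2
    simp only [hg] at a b
    linarith
  · have up : ∀ i ≤ M, h α + β / 4 * (i * c) ≤ h (α + i * c) := by
      intro i hi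
      induction i with
      | zero => simp
      | succ i ih =>
        have a := ih (by omega)
        have b := hall i (by omega)
        push_cast
        linarith
    obtain ⟨d, rfl⟩ := Nat.exists_eq_add_of_le h1
    have q1 : d / c ≤ M := Nat.div_le_of_le_mul (by rw [mul_comm]; omega)
    have q2 : d / c * c ≤ d := Nat.div_mul_le_self d c
    have q3 : (d : ℝ) ≤ (d / c : ℕ) * c + c := by
      have := Nat.lt_div_mul_add (a := d) c0
      exact_mod_cast this.le
    have a := key 0 (Nat.zero_le _)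
    have b := hle (α + d / c * c) (α + d) (by omega) (h2.trans (bd M (by omega)))
    have u := up _ q1
    simp only [hg, zero_mul, add_zero] at a b
    push_cast at b ⊢
    nlinarith

end Pool.Agent.P.MP_bf60a1_an.RA
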