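import Pool.Agent.P.MP_bf60a1_an.RA.Info
import Pool.Agent.P.MP_bf60a1_an.RA.SP2
import Pool.Agent.P.MP_bf60a1_an.RA.Window
import Pool.Agent.P.MP_bf60a1_an.RA.Gain

/-! The finite theorem: an `ε`-improvement of Kaufman's bound for point–line configurations. -/

namespace Pool.Agent.P.MP_bf60a1_an.RA

open Finset Real RA.FP

section
variable {Ω : Type*} [Fintype Ω] {d : ℕ} {P : FP Ω} {X : Ω → (Fin d → ℝ) × ℝ}
  {a b : Ω → Fin d → ℝ} {q : (Fin d → ℝ) × (Fin d → ℝ) → ℝ} {B N : ℕ} {Nn : ℕ → ℝ}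
  {v K Ξ E : ℝ}

theorem corner_mul (hB : 0 < B) (j m : ℕ) (x : (Fin d → ℝ) × ℝ) {s t : Fin d → ℝ}
    (h : fl (((B : ℝ) ^ m) • s) = fl (((B : ℝ) ^ m) • t)) :
    |x.2 - ((cell B j x).2 : ℝ) / (B : ℝ) ^ j| * ‖s - t‖ ≤ ((B : ℝ) ^ (j + m))⁻¹ := by
  rw [pow_add, mul_inv]
  exact mul_le_mul (abs_sub_corner hB j x) (norm_le_of_fl_smul (by positivity) h) (norm_nonneg _)
    (by positivity)

theorem line_ent (h : Good P X a b q B N Nn v K) (n : Num q B N Nn v K Ξ E) {j m : ℕ} {θ : ℝ}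
    (hm : j + m + m ≤ N) (h0 : Sl B N Nn v Ξ 0) (h1 : Sl B N Nn v Ξ j)
    (h2 : Sl B N Nn v Ξ (j + m)) (h3 : Sl B N Nn v Ξ (j + m + m)) (hθ : 0 < θ) (hθ1 : θ ≤ 1)
    (hκ : ∀ t ≤ m, Nn j * ((B : ℝ) ^ t) ^ (v + θ * d) ≤ Ξ * Nn (j + t))
    {T : Ω → ((Fin d → ℤ) × ℤ) × (Fin d → ℤ) × (Fin d → ℤ)} {Q : Ω → (Fin d → ℤ) × ℤ}
    {W : Ω → Fin d → ℤ} (hT : T = fun ω => tub B j m ((a ω, b ω), cell B j (X ω)))
    (hQ : Q = fun ω => cell B (j + m) (X ω))
    (hW : ∀ ω, W ω = fl (((B : ℝ) ^ (j + m + m)) •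
      (b ω + (((Q ω).2 : ℝ) / (B : ℝ) ^ (j + m)) • a ω))) :
    P.Hc Q T - P.Hc Q (fun ω => ((a ω, b ω), cell B j (X ω))) ≤ 16 * E / θ ∧
    P.Hc W (fun ω => (Q ω, T ω)) ≤ v * m * log B + 16 * E / θ ∧
    v * m * log B - 16 * E / θ ≤
      P.Hc (fun ω => fl (((B : ℝ) ^ (m + m)) • a ω)) (fun ω => (W ω, Q ω, T ω)) ∧
    P.Hc X Q - P.Hc X (fun ω => (Q ω, T ω)) ≤ 16 * E / θ := by
  have hB := n.pos
  have hE : 0 ≤ E := (log_nonneg n.hK).trans n.eK
  have hEθ : E ≤ E / θ := le_div_self hE hθ hθ1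
  have c13 := n.log_le (x := 2 * (5 + 1) + 1) (by norm_num) (by norm_num)
  have hT1 : ∀ x y, T x = T y → cell B j (X x) = cell B j (X y) ∧
      fl (((B : ℝ) ^ m) • a x) = fl (((B : ℝ) ^ m) • a y) := fun x y e => by
    simp only [hT, tub, Prod.mk.injEq] at e
    exact ⟨e.1, e.2.1⟩
  have hQ1 : ∀ x y, Q x = Q y → cell B (j + m) (X x) = cell B (j + m) (X y) := fun x y e => by
    simpa only [hQ] using e
  have dQ : P.Det Q fun ω => cell B j (X ω) := hQ ▸ det_cell P X hB (Nat.le_add_right j m)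
  have k1 := tube_lower h n (j := j) (m := m) (by omega) h1
  have k2 := tube_le (X := X) (a := a) (b := b) P hB j m
  have k3 := info_upper h n (j := j) (m := m) (by omega) h0 h2
  have k4 := info_upper h n hm h0 h3
  have k5 := kaufman h n.hB n.hN n.hK n.hv n.hNn (k := j) (m := m) (by omega) hθ.le hθ1 n.hΞ hκ
  have k6 := P.info_eq (fun ω => (a ω, b ω)) dQ
  have dQ' : P.Det (fun ω => cell B (j + m + m) (X ω)) Q :=
    hQ ▸ det_cell P X hB (Nat.le_add_right (j + m) m)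
  have k7 := P.info_eq (fun ω => (a ω, b ω)) dQ'
  have k8 := slope_ent h n (m := m) (by omega)
  have k9 := slope_ent h n (m := m + m) (by omega)
  rw [← hT, ← hQ] at k1 k2 k5
  rw [← hQ] at k3 k4
  have l1 : P.Hc (fun ω => fl (((B : ℝ) ^ m) • a ω)) Q ≤ v * m * log B + 13 * (E / θ) := by
    rw [← mul_div_assoc, ← sub_le_iff_le_add', le_div_iff₀ hθ]
    linarith only [k2, k3, k5, n.eK, n.eΞ, n.eB]
  have l2 : P.Hc T Q ≤ v * m * log B + 13 * (E / θ) + E := by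
    have e1 := P.Hc_le_add T (fun ω => fl (((B : ℝ) ^ m) • a ω)) Q
    have e2 : P.Hc T (fun ω => (fl (((B : ℝ) ^ m) • a ω), Q ω)) ≤
        P.Hc (fun ω => (T ω).2.2) (fun ω => (fl (((B : ℝ) ^ m) • a ω), Q ω)) :=
      P.Hc_mono_left fun x y hx hy e => by
        simp only [Prod.mk.injEq] at e
        refine Prod.ext ?_ (Prod.ext ?_ e.1)
        · rw [hT]; exact dQ x y hx hy e.2.2
        · rw [hT]; exact e.2.1
    have e3 : P.Hc (fun ω => (T ω).2.2) (fun ω => (fl (((B : ℝ) ^ m) • a ω), Q ω)) ≤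
        d * log (2 * (5 + 1) + 1) := by
      refine P.Hc_le_close' fun x y hx hy e => ?_
      simp only [Prod.mk.injEq] at e
      simp only [hT, tub]
      rw [show cell B j (X y) = cell B j (X x) from dQ y x hy hx e.2]
      exact norm_fl_smul (by positivity) (pos_close h hx hy (cell_near hB (hQ1 _ _ e.2))
        (corner_mul hB j m _ e.1) (inv_pow_le hB (by omega)))
    linarith only [e1, e2, e3, l1, c13]
  have l3 : P.Hc W (fun ω => (cell B (j + m + m) (X ω), Q ω, T ω)) ≤ E := by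
    refine (P.Hc_le_close' (M := 5 + 1) fun x y hx hy e => ?_).trans c13
    simp only [Prod.mk.injEq] at e
    rw [hW, hW, e.2.1, hQ]
    exact norm_fl_smul (by positivity) (pos_close h hx hy (cell_near hB e.1)
      (corner_mul hB (j + m) m _ (hT1 _ _ e.2.2).2) (inv_pow_le hB hm))
  rw [mul_div_assoc]
  refine ⟨?_, ?_, ?_, ?_⟩
  · have e1 := P.info_eq T dQ
    have e2 : P.Hc Q T ≤ P.Hc Q fun ω => (T ω, cell B j (X ω)) :=
      P.Hc_mono_right _ fun x y _ _ e => Prod.ext e (hT1 _ _ e).1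
    linarith only [e1, e2, k1, k3, k6, hEθ, hE]
  · have e1 := P.Hc_symm W (fun ω => cell B (j + m + m) (X ω)) fun ω => (Q ω, T ω)
    have e2 : P.Hc (fun ω => cell B (j + m + m) (X ω)) (fun ω => (Q ω, T ω)) ≤
        P.Hc (fun ω => cell B (j + m + m) (X ω)) Q :=
      P.Hc_mono_right _ fun _ _ _ _ e => congrArg Prod.fst e
    have e3 : P.Hc (fun ω => cell B (j + m + m) (X ω)) (fun ω => ((a ω, b ω), Q ω)) ≤
        P.Hc (fun ω => cell B (j + m + m) (X ω)) fun ω => (W ω, Q ω, T ω) :=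
      P.Hc_mono_right _ fun x y hx hy e => by
        simp only [Prod.mk.injEq] at e ⊢
        refine ⟨by rw [hW, hW, e.1.1, e.1.2, e.2], e.2, ?_⟩
        simp only [hT, e.1.1, e.1.2, dQ x y hx hy e.2]
    linarith only [e1, e2, e3, l3, k4, k7, hEθ, hE]
  · have dX : ∀ x y, X x = X y → Q x = Q y := fun x y e => by simp only [hQ, e]
    have e1 := P.Hc_le_add (fun ω => fl (((B : ℝ) ^ (m + m)) • a ω)) T X
    have e2 : P.Hc T X ≤ P.Hc T Q := P.Hc_mono_right _ fun x y _ _ e => dX x y e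
    have e3 := P.Hc_le_add (fun ω => fl (((B : ℝ) ^ (m + m)) • a ω)) W fun ω => (T ω, X ω)
    have e4 : P.Hc W (fun ω => (T ω, X ω)) ≤
        P.Hc W fun ω => (cell B (j + m + m) (X ω), Q ω, T ω) :=
      P.Hc_mono_right _ fun x y _ _ e => by
        simp only [Prod.mk.injEq] at e ⊢
        exact ⟨by rw [e.2], dX x y e.2, e.1⟩
    have e5 : P.Hc (fun ω => fl (((B : ℝ) ^ (m + m)) • a ω)) (fun ω => (W ω, T ω, X ω)) ≤
        P.Hc (fun ω => fl (((B : ℝ) ^ (m + m)) • a ω)) fun ω => (W ω, Q ω, T ω) :=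
      P.Hc_mono_right _ fun x y _ _ e => by
        simp only [Prod.mk.injEq] at e ⊢
        exact ⟨e.1, dX x y e.2.2, e.2.1⟩
    push_cast at k9
    linarith only [e1, e2, e3, e4, e5, k9, l2, l3, hEθ]
  · have e1 := P.Hc_symm X T Q
    have e2 : P.Hc X (fun ω => (T ω, Q ω)) ≤ P.Hc X fun ω => (Q ω, T ω) :=
      P.Hc_mono_right _ fun x y _ _ e => by
        simp only [Prod.mk.injEq] at e ⊢
        exact e.symm
    have e2' : P.Hc X (fun ω => (T ω, Q ω)) ≥ P.Hc X fun ω => (Q ω, T ω) :=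
      P.Hc_mono_right _ fun x y _ _ e => by
        simp only [Prod.mk.injEq] at e ⊢
        exact e.symm
    have e3 : P.Hc (fun ω => fl (((B : ℝ) ^ m) • a ω)) X ≤
        P.Hc (fun ω => fl (((B : ℝ) ^ m) • a ω)) fun ω => (X ω, Q ω) :=
      P.Hc_mono_right _ fun x y _ _ e => Prod.ext e (by simp only [hQ, e])
    have e4 : P.Hc (fun ω => fl (((B : ℝ) ^ m) • a ω)) (fun ω => (X ω, Q ω)) ≤
        P.Hc T fun ω => (X ω, Q ω) :=
      P.Hc_mono_left fun x y _ _ e => (hT1 _ _ (congrArg Prod.fst e)).2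
    linarith only [e1, e2, e3, e4, k8, l2, hEθ, hE]

theorem fract_cell (hB : 0 < B) (j m : ℕ) (x : (Fin d → ℝ) × ℝ) :
    Int.fract (((cell B (j + m) x).2 : ℝ) / (B : ℝ) ^ m) =
      ((cell B (j + m) x).2 : ℝ) / (B : ℝ) ^ m - (cell B j x).2 := by
  rw [Int.fract]
  congr 2
  simp only [cell]
  rw [← Nat.cast_pow B m, Int.floor_div_natCast, Int.floor_intCast, ← Int.floor_div_natCast]
  congr 1
  push_cast
  field_simp
  ring

end

theorem contra (d k i : ℕ) : ∃ (C C' : ℝ) (B₀ : ℕ), 0 ≤ C ∧ 0 ≤ C' ∧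
    ∀ {Ω : Type} [Fintype Ω] (P : FP Ω)
    (X : Ω → (Fin d → ℝ) × ℝ) (a b : Ω → Fin d → ℝ) (q : (Fin d → ℝ) × (Fin d → ℝ) → ℝ)
    (B N : ℕ) (Nn : ℕ → ℝ) (v K Ξ E : ℝ) (j J Mw : ℕ) (γ θ p : ℝ),
    Good P X a b q B N Nn v K → Num q B N Nn v K Ξ E → B₀ ≤ B → 0 ≤ γ → k + γ ≤ v →
    v + γ ≤ k + 1 → 0 < θ → θ ≤ 1 → 0 < J → 2 ≤ Mw → j + Mw * J + Mw * J ≤ N →
    Sl B N Nn v Ξ 0 → (∀ t ≤ Mw + Mw, Sl B N Nn v Ξ (j + t * J)) →
    (∀ t ≤ Mw * J, Nn j * ((B : ℝ) ^ t) ^ (v + θ * d) ≤ Ξ * Nn (j + t)) → 0 < p → 7 * p ≤ 1 / 10 →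
    (∀ ω, 0 < P.p ω → ∀ y : ℤ, (P.pr fun x => (cell B (j + J) (X x)).2 = y ∧
        ((a x, b x), cell B j (X x)) = ((a ω, b ω), cell B j (X ω))) ≤
      p * P.cl (fun x => ((a x, b x), cell B j (X x))) ω) →
    2 * ((((B : ℝ) ^ J)⁻¹) ^ (2 * 3 + 4 * i))⁻¹ < (1 / (2 * (7 * p)) - 1) ^ (2 ^ i) →
    γ * (Mw * J) * log B ≤ (2 * k + 5) * (16 * E / θ) + (3 * k + 5) * C * (16 * E / θ + 1 +
      d * log (100 / (((B : ℝ) ^ J)⁻¹) ^ 2) + 7 * p * (d * log (100 * (B : ℝ) ^ (Mw * J)))) +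
      (Mw + 1) * ((k + 2) * (3 * E) + C' * log B) := by
  obtain ⟨C, hC1, hC⟩ := sum_product i
  obtain ⟨C', B₀, hC', hG⟩ := gain d k
  refine ⟨C, C', B₀, by linarith, hC', ?_⟩
  intro Ω _ P X a b q B N Nn v K Ξ E j J Mw γ θ p h n hB₀ hγ hv1 hv2 hθ hθ1 hJ hMw hN s0 sl hκ
    hp hp' hsp hcard
  classical
  have hB := n.pos
  have hB1 := n.one_le
  have hE : 0 ≤ E := (log_nonneg n.hK).trans n.eK
  set m := Mw * J with hm
  have hJm : J + J ≤ m := by rw [hm]; nlinarith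
  let W : Ω → Fin d → ℤ := fun ω => fl (((B : ℝ) ^ (j + m + m)) •
    (b ω + (((cell B (j + m) (X ω)).2 : ℝ) / (B : ℝ) ^ (j + m)) • a ω))
  obtain ⟨H1, H2, H3, H5⟩ := line_ent h n (W := W) hN s0 (by simpa using sl 0 (by omega))
    (sl Mw (by omega)) (by have := sl (Mw + Mw) le_rfl; rwa [add_mul, ← add_assoc] at this)
    hθ hθ1 hκ rfl rfl fun _ => rfl
  have hTa : ∀ x y, tub B j m ((a x, b x), cell B j (X x)) = tub B j m ((a y, b y), cell B j (X y)) →
      ‖a x - a y‖ ≤ ((B : ℝ) ^ m)⁻¹ := fun x y e =>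
    norm_le_of_fl_smul (by positivity) (congrArg (fun z => z.2.1) e)
  obtain ⟨Ω', _, P', ϖ, ν, V, cost, hϖ, hV, o1, o2, o3⟩ := hC P
    (fun ω => ((a ω, b ω), cell B j (X ω))) (tub B j m) (fun l => ((B : ℝ) ^ (m + m)) • l.1.1)
    (fun l => ((B : ℝ) ^ (j + m + m)) • (l.1.2 + ((l.2.2 : ℝ) / (B : ℝ) ^ j) • l.1.1))
    (fun ω => cell B (j + m) (X ω)) (fun c => Int.fract ((c.2 : ℝ) / (B : ℝ) ^ m)) X W
    ((B : ℝ) ^ J)⁻¹ (7 * p) ((B : ℝ) ^ m) (v * m * log B) (16 * E / θ) (by positivity)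
    (by
      rw [inv_eq_one_div]
      refine one_div_le_one_div_of_le (by norm_num) (le_trans ?_ (le_self_pow₀ hB1 hJ.ne'))
      have := n.hB
      exact_mod_cast (by omega : 3 ≤ B))
    (by positivity) hp'
    (by rw [inv_pow, inv_inv, ← pow_mul]; exact pow_le_pow_right₀ hB1 (by omega))
    (by positivity)
    (fun ω => by
      simp only [W, fract_cell hB]
      congr 1
      ext i
      simp only [Pi.add_apply, Pi.smul_apply, smul_eq_mul, pow_add]
      field_simp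
      ring)
    (fun ω _ => ⟨Int.fract_nonneg _, (Int.fract_lt_one _).le⟩)
    (fun x y _ _ e => by
      constructor
      · rw [← smul_sub, norm_smul, norm_of_nonneg (by positivity), pow_add, mul_assoc]
        exact mul_le_of_le_one_right (by positivity) (by
          rw [← le_div_iff₀' (by positivity), one_div]; exact hTa x y e)
      · rw [← smul_sub, norm_smul, norm_of_nonneg (by positivity), pow_add, mul_comm _ (_ ^ m),
          mul_assoc]
        exact mul_le_of_le_one_right (by positivity) (by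
          rw [← le_div_iff₀' (by positivity), one_div]
          exact norm_le_of_fl_smul (by positivity) (congrArg (fun z => z.2.2) e)))
    (fun ω t hω => by
      obtain ⟨F, hF, hF'⟩ := exists_int_box ((B : ℝ) ^ J * (t + (cell B j (X ω)).2)) (M := 3)
        (by norm_num)
      refine (P.pr_mono (t := fun x => ∃ y ∈ F, (cell B (j + J) (X x)).2 = y ∧
        ((a x, b x), cell B j (X x)) = ((a ω, b ω), cell B j (X ω))) fun x _ hx =>
        ⟨_, hF' _ ?_, rfl, hx.2⟩).trans ((P.pr_exists_le _ _).trans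
        ((sum_le_sum fun y _ => hsp ω hω y).trans ?_))
      · obtain ⟨h1, h2⟩ := hx
        simp only [Prod.mk.injEq] at h2
        rw [fract_cell hB, h2.2] at h1
        have e1 := abs_sub_corner hB (j + J) (X x)
        have e2 := (abs_sub_corner hB (j + m) (X x)).trans (inv_pow_le hB (j := j + J) (by omega))
        have h0 : 0 < (B : ℝ) ^ (j + J) := by positivity
        have h0' : 0 < (B : ℝ) ^ J := by positivity
        rw [inv_eq_one_div, le_div_iff₀' h0, ← abs_of_pos h0, ← abs_mul] at e1 e2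
        rw [abs_of_pos h0] at e1
        rw [inv_eq_one_div, le_div_iff₀' h0', ← abs_of_pos h0', ← abs_mul] at h1
        have e : ((cell B (j + J) (X x)).2 : ℝ) - (B : ℝ) ^ J * (t + (cell B j (X ω)).2) =
            (B : ℝ) ^ (j + J) * ((X x).2 - ((cell B (j + m) (X x)).2 : ℝ) / (B : ℝ) ^ (j + m)) -
            (B : ℝ) ^ (j + J) * ((X x).2 - ((cell B (j + J) (X x)).2 : ℝ) / (B : ℝ) ^ (j + J)) +
            (B : ℝ) ^ J * (((cell B (j + m) (X x)).2 : ℝ) / (B : ℝ) ^ m -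
              (cell B j (X ω)).2 - t) := by
          simp only [pow_add]; field_simp; ring
        rw [e]
        exact (abs_add_le _ _).trans ((add_le_add ((abs_sub _ _).trans (add_le_add e2 e1)) h1).trans
          (by norm_num))
      · rw [sum_const, nsmul_eq_mul, mul_assoc]
        exact mul_le_mul_of_nonneg_right (by linarith) (mul_nonneg hp.le (P.cl_nonneg _ _)))
    hcard H1 H2 H3
  let aT : ν → Fin d → ℝ := fun w =>
    if h : ∃ ω, 0 < P'.p ω ∧ V ω = w then a (ϖ h.choose) else 0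
  have haT : ∀ ω, 0 < P'.p ω → ‖aT (V ω) - a (ϖ ω)‖ ≤ ((B : ℝ) ^ m)⁻¹ := fun ω hω => by
    have h : ∃ x, 0 < P'.p x ∧ V x = V ω := ⟨ω, hω, rfl⟩
    simp only [aT, dif_pos h]
    exact hTa _ _ (congrArg Prod.snd (hV _ _ h.choose_spec.1 hω h.choose_spec.2))
  have hWc : ∀ ω, 0 < P'.p ω → ‖cz (W (ϖ ω)) - ((B : ℝ) ^ (j + m + m)) •
      ((X (ϖ ω)).1 - (X (ϖ ω)).2 • aT (V ω) +
        (((cell B (j + m) (X (ϖ ω))).2 : ℝ) / (B : ℝ) ^ (j + m)) • aT (V ω))‖ ≤ 3 := fun ω hω => by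
    have h0 : 0 < (B : ℝ) ^ (j + m + m) := by positivity
    have e1 := norm_cz_fl (((B : ℝ) ^ (j + m + m)) • (b (ϖ ω) +
      (((cell B (j + m) (X (ϖ ω))).2 : ℝ) / (B : ℝ) ^ (j + m)) • a (ϖ ω)))
    have e2 := (h.geo _ (hϖ.pos hω)).2.2.trans (inv_pow_le hB hN)
    have e3 : ‖((X (ϖ ω)).2 - ((cell B (j + m) (X (ϖ ω))).2 : ℝ) / (B : ℝ) ^ (j + m)) •
        (aT (V ω) - a (ϖ ω))‖ ≤ ((B : ℝ) ^ (j + m + m))⁻¹ := by
      rw [norm_smul, pow_add _ (j + m), mul_inv]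
      exact mul_le_mul (abs_sub_corner hB _ _) (haT ω hω) (norm_nonneg _) (by positivity)
    have e4 := norm_smul_le ((B : ℝ) ^ (j + m + m)) _ |>.trans (mul_le_mul_of_nonneg_left
      (norm_sub_le_of_le e3 e2) (norm_nonneg _))
    rw [norm_of_nonneg h0.le, mul_add, mul_inv_cancel₀ h0.ne'] at e4
    refine le_trans (le_of_eq (congrArg _ ?_)) ((norm_add_le_of_le e1 e4).trans (by norm_num))
    simp only [W, smul_add, smul_sub, sub_smul]; abel
  have g1 := hG P' (fun ω => X (ϖ ω)) (fun ω => a (ϖ ω)) (fun ω => b (ϖ ω)) q B N Nn v K (j + m)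
    J Mw γ Ξ (16 * E / θ + C * (16 * E / θ + 1 + d * log (100 / (((B : ℝ) ^ J)⁻¹) ^ 2) +
      7 * p * (d * log (100 * (B : ℝ) ^ m)))) V aT (fun ω => W (ϖ ω)) cost (h.mp hϖ) hB₀ n.hN n.hK
    n.hNn n.hΞ hγ hv1 hv2 hN
    (fun t ht s hs => by
      have := sl (Mw + t) (by omega) s (by
        have : (t + 1) * J ≤ Mw * J := Nat.mul_le_mul_right J ht
        rw [add_mul] at this ⊢
        omega)
      rwa [add_mul, ← add_assoc] at this)
    (fun x y hx hy e => congrArg Prod.fst (hV x y hx hy e))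
    (fun ω hω => (haT ω hω).trans (inv_pow_le hB (by omega)))
    (fun x y hx hy e => by
      have e1 := hWc x hx
      have e2 := hWc y hy
      have e3 : cell B (j + m) (X (ϖ y)) = cell B (j + m) (X (ϖ x)) :=
        congrArg Prod.fst (hV y x hy hx e)
      rw [e, e3] at e2
      refine le_trans (le_of_eq (congrArg _ ?_)) ((norm_sub_le_of_le e2 e1).trans (by norm_num))
      simp only [smul_add, smul_sub]; abel)
    (by rw [hϖ.Hc X fun ω => cell B (j + m) (X ω)]; linarith only [o1, H5]) o3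
  have g2 : P'.Hc (fun ω => W (ϖ ω)) V ≤ v * m * log B + 16 * E / θ :=
    (P'.Hc_mono_right _ hV).trans ((hϖ.Hc W fun ω => (cell B (j + m) (X ω),
      tub B j m ((a ω, b ω), cell B j (X ω)))).trans_le H2)
  have g3 := mul_le_mul_of_nonneg_left o2 (show (0 : ℝ) ≤ k + 1 by positivity)
  have g4 : (Mw + 1 : ℝ) * ((k + 2) * (2 * log K + log Ξ) + C' * log B) ≤
      (Mw + 1) * ((k + 2) * (3 * E) + C' * log B) := by
    gcongr; linarith [n.eK, n.eΞ]
  have g5 : (m : ℝ) = Mw * J := by rw [hm]; push_cast; ring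
  rw [g5] at g2
  linarith only [g1, g2, g3, g4]

theorem le_of_log {B : ℕ} (hB : 1 < (B : ℝ)) {x y γ z : ℝ} {t n : ℕ} (hx : 0 < x) (hy : 0 < y)
    (h : γ * t - z ≤ log y / log B - log x / log B) (hz : z ≤ n) :
    x * ((B : ℝ) ^ t) ^ γ ≤ (B : ℝ) ^ n * y := by
  have hL := log_pos hB
  rw [← log_le_log_iff (by positivity) (by positivity), log_mul (by positivity) (by positivity),
    log_mul (by positivity) (by positivity), log_rpow (by positivity), log_pow, log_pow]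
  rw [← sub_div, le_div_iff₀ hL] at h
  nlinarith

open Classical in
theorem finite_main (d k : ℕ) (β : ℝ) (hβ : 0 < β) : ∃ N B₀ : ℕ, 0 < N ∧ ∀ B : ℕ, B₀ ≤ B →
    ∀ v s : ℝ, (k : ℝ) + β ≤ v → v + β ≤ k + 1 → v + β ≤ s →
    ∀ (Ω : Type) [Fintype Ω] (w : Ω → ℝ) (X : Ω → (Fin d → ℝ) × ℝ) (a b : Ω → Fin d → ℝ)
      (m : (Fin d → ℝ) × ℝ → ℝ) (q : (Fin d → ℝ) × (Fin d → ℝ) → ℝ),
    (∀ ω, 0 ≤ w ω) → (B : ℝ)⁻¹ ≤ ∑ ω, w ω → ∑ ω, w ω ≤ 1 →
    (∀ ω, 0 < w ω → ‖X ω‖ ≤ 1 ∧ ‖a ω‖ ≤ 1 ∧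
      ‖(X ω).1 - b ω - (X ω).2 • a ω‖ ≤ ((B : ℝ) ^ N)⁻¹) →
    (∀ x, 0 ≤ m x) → (∀ T : Finset ((Fin d → ℝ) × ℝ), ∑ x ∈ T, m x ≤ 1) →
    (∀ l, 0 ≤ q l) → (∀ T : Finset ((Fin d → ℝ) × (Fin d → ℝ)), ∑ l ∈ T, q l ≤ 1) →
    (∀ x r, ((B : ℝ) ^ N)⁻¹ ≤ r → ∑ ω with ‖X ω - x‖ ≤ r, w ω ≤ B * r ^ s) →
    (∀ x a₀ r, ((B : ℝ) ^ N)⁻¹ ≤ r →
      ∑ ω with X ω = x ∧ ‖a ω - a₀‖ ≤ r, w ω ≤ B * r ^ v * m x) →
    (∀ x l, ∑ ω with X ω = x ∧ (a ω, b ω) = l, w ω ≤ B * ((B : ℝ) ^ N) ^ v * q l * m x) →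
    False := by
  obtain ⟨i, hi⟩ : ∃ i : ℕ, (7 + 4 * i : ℝ) ≤ β / 16 * 2 ^ i := by
    have h1 := (tendsto_pow_const_div_const_pow_of_one_lt 1 (one_lt_two (α := ℝ))).eventually
      (gt_mem_nhds (show (0 : ℝ) < β / 16 / 11 by positivity))
    obtain ⟨i, h2, h3⟩ := (h1.and (Filter.eventually_ge_atTop 1)).exists
    refine ⟨i, ?_⟩
    rw [pow_one, div_lt_div_iff₀ (by positivity) (by norm_num)] at h2
    have : (1 : ℝ) ≤ i := by exact_mod_cast h3
    linarith
  obtain ⟨C, C', B₁, hC, hC', hcon⟩ := contra d k i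
  set cE : ℝ := 4 * (d + k + 2) with hcE
  set θ : ℝ := β / 4 / (d + 1) with hθ
  have hθ0 : 0 < θ := by positivity
  obtain ⟨Mw, hMw⟩ := exists_nat_ge (((3 * k + 5) * C * (2 * d) + 1) / β + 2)
  obtain ⟨J, hJ⟩ := exists_nat_gt (32 / β + 24 * cE / (β / 4) + ((2 * k + 5) * (16 * cE / θ) +
    (3 * k + 5) * C * (16 * cE / θ + 1 + 4 * d) + (Mw + 1) * ((k + 2) * (3 * cE) + C')))
  obtain ⟨N, hN0, hwin⟩ := window ((Mw + Mw) * J) β (d + 1) (d + 5) hβ
  obtain ⟨B₂, hreg⟩ := reg d N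
  refine ⟨N, B₁ + B₂ + N + 100, hN0, ?_⟩
  intro B hB v s hv1 hv2 hv3 Ω _ w X a b m q w0 w1 w2 geo m0 m1 q0 q1 p1 p2 p3
  obtain ⟨P, Nn, hP, n1, n2, n3, n4⟩ := hreg B (by omega) v s Ω w X a b m q w0 w1 w2 geo m0 m1 q0
    p1 p2 p3
  have hB100 : (100 : ℝ) ≤ B := by exact_mod_cast (by omega : 100 ≤ B)
  have hB1 : (1 : ℝ) < B := by linarith
  have hL : 1 ≤ log (B : ℝ) := by
    rw [le_log_iff_exp_le (by linarith)]
    linarith [exp_one_lt_d9]
  have hNn : ∀ j, 0 < Nn j := fun j => one_pos.trans_le (n1 j)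
  have hk : (0 : ℝ) ≤ k := Nat.cast_nonneg _
  have hd : (0 : ℝ) ≤ d := Nat.cast_nonneg _
  have hv0 : 0 ≤ v := by linarith
  have hβ1 : β ≤ 1 := by linarith
  have n2' : Nn 0 ≤ (B : ℝ) ^ (d + 1) := n2.trans (pow_le_pow_left₀ (by norm_num) (by linarith) _)
  obtain ⟨α, c, hc, hαN, hw1, hw2⟩ := hwin (fun j => log (Nn j) / log B) v hv0
    (fun j _ => ⟨div_le_div_of_nonneg_right (log_le_log (hNn _) (n3 j).1) (by linarith), by
      have := log_le_log (hNn _) (n3 j).2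
      rw [log_mul (by positivity) (hNn j).ne', log_pow] at this
      rw [div_add' _ _ _ (by linarith), div_le_div_iff_of_pos_right (by linarith)]
      push_cast at this
      linarith⟩)
    (by
      have h1 := log_le_log (by positivity) (n4 N le_rfl)
      have h2 := log_le_log (hNn 0) n2'
      rw [log_mul (by positivity) (hNn N).ne', log_rpow (by positivity), log_pow, log_pow] at h1
      rw [log_pow] at h2
      rw [← sub_div, le_div_iff₀ (by linarith)]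
      push_cast at h1 h2
      have : (v + β) * (N * log B) ≤ s * (N * log B) :=
        mul_le_mul_of_nonneg_right hv3 (by positivity)
      linarith)
  have hc1 : (1 : ℝ) ≤ c := by exact_mod_cast hc
  set u := c * log B with hu
  have hu1 : log B ≤ u := le_mul_of_one_le_left (by linarith) hc1
  set Ξ := (B : ℝ) ^ ((k + 2) * c + (d + 5)) with hΞ
  have num : Num q B N Nn v (36 * (B : ℝ) ^ 4) Ξ (cE * u) :=
    { hB := by omega
      hN := by omega
      hK := one_le_mul_of_one_le_of_one_le (by norm_num) (one_le_pow₀ hB1.le)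
      hv := hv0
      hNn := n1
      hΞ := one_le_pow₀ hB1.le
      eK := by
        have := log_le_log (show (0 : ℝ) < 36 by norm_num) (show (36 : ℝ) ≤ B by linarith)
        rw [log_mul (by norm_num) (by positivity), log_pow]
        push_cast
        nlinarith only [this, hu1, hL, hk, hd, hcE]
      eΞ := by
        rw [hΞ, log_pow]
        push_cast
        nlinarith only [hu1, hL, hk, hd, hcE, hu]
      eB := by
        exact mul_le_mul (by linarith) hu1 (by linarith) (by positivity)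
      q0 := q0
      q1 := q1 }
  have hz : ∀ z : ℝ, z ≤ k + 2 → z * c ≤ (((k + 2) * c + (d + 5) : ℕ) : ℝ) := fun z hz => by
    push_cast
    nlinarith only [hz, hc1, hd]
  have s0 : Sl B N Nn v Ξ 0 := fun t ht => by
    rw [zero_add] at ht ⊢
    calc Nn 0 * ((B : ℝ) ^ t) ^ v ≤ (B : ℝ) ^ (d + 1) * ((B : ℝ) ^ 4 * Nn t) :=
          mul_le_mul n2' ((rpow_le_rpow_of_exponent_le (one_le_pow₀ hB1.le) (by linarith)).trans
            (n4 t ht)) (by positivity) (by positivity)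
      _ ≤ _ := by
          rw [← mul_assoc, ← pow_add]
          exact mul_le_mul_of_nonneg_right (pow_le_pow_right₀ hB1.le (by omega)) (hNn t).le
  have sl : ∀ t ≤ Mw + Mw, Sl B N Nn v Ξ (α + t * (J * c)) := fun t ht r hr => by
    rw [← mul_assoc] at hr ⊢
    have := hw1 (t * J) (Nat.mul_le_mul_right J ht) _ (Nat.le_add_right _ r) hr
    refine le_of_log hB1 (hNn _) (hNn _) ?_ (hz v (by linarith))
    push_cast at this ⊢
    linarith
  have sk : ∀ t ≤ Mw * (J * c), Nn α * ((B : ℝ) ^ t) ^ (v + β / 4) ≤ Ξ * Nn (α + t) :=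
    fun t ht => by
      have := hw2 (α + t) (Nat.le_add_right _ t) (by
        rw [add_mul, add_mul, mul_assoc]; omega)
      refine le_of_log hB1 (hNn _) (hNn _) ?_ (hz (v + β / 4) (by linarith))
      push_cast at this ⊢
      linarith
  have hpos : 0 ≤ (2 * k + 5) * (16 * cE / θ) +
    (3 * k + 5) * C * (16 * cE / θ + 1 + 4 * d) + (Mw + 1) * ((k + 2) * (3 * cE) + C') := by
    positivity
  have hJ1 : 32 / β < J := by
    have : 0 ≤ 24 * cE / (β / 4) := by positivity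
    linarith
  have hJ2 : 24 * cE / (β / 4) < J := by
    have : 0 ≤ 32 / β := by positivity
    linarith
  have hJ3 : (2 * k + 5) * (16 * cE / θ) +
      (3 * k + 5) * C * (16 * cE / θ + 1 + 4 * d) + (Mw + 1) * ((k + 2) * (3 * cE) + C') < J := by
    have : 0 ≤ 24 * cE / (β / 4) := by positivity
    have : 0 ≤ 32 / β := by positivity
    linarith
  have hMw2 : 2 ≤ Mw := by
    have : 0 ≤ ((3 * k + 5) * C * (2 * d) + 1) / β := by positivity
    exact_mod_cast (by linarith : (2 : ℝ) ≤ Mw)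
  have hJ0 : 0 < J := by
    have : 0 < 32 / β := by positivity
    exact_mod_cast this.trans hJ1
  have hlev : α + Mw * (J * c) + Mw * (J * c) ≤ N := by
    rw [add_mul, add_mul, mul_assoc] at hαN; omega
  have hJc : J * c ≤ Mw * (J * c) := Nat.le_mul_of_pos_left _ (by omega)
  obtain ⟨P', hP', hsp⟩ := exists_spread hP num (j := α) (J := J * c) (κ := β / 4) (by omega) s0
    (by simpa using sl 1 (by omega)) (sk _ hJc) (by
      rw [div_lt_iff₀ (by positivity)] at hJ2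
      push_cast
      have := mul_lt_mul_of_pos_right hJ2 (show 0 < u by linarith)
      rw [hu] at this ⊢
      linarith)
  set x := ((B : ℝ) ^ (J * c)) ^ (β / 16) with hx
  have hx1 : (B : ℝ) ^ 2 ≤ x := by
    rw [hx, ← rpow_natCast, ← rpow_natCast, ← rpow_mul (by positivity)]
    refine rpow_le_rpow_of_exponent_le hB1.le ?_
    rw [div_lt_iff₀ hβ] at hJ1
    push_cast
    nlinarith only [hJ1, hc1, hβ]
  have hx2 : ((B : ℝ) ^ (J * c)) ^ (-(β / 4 / 2)) = (x * x)⁻¹ := by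
    rw [hx, ← rpow_add (by positivity), rpow_neg (by positivity)]
    congr 2; ring
  have hx3 : 10000 ≤ x := le_trans (by nlinarith only [hB100]) hx1
  rw [hx2] at hsp
  have hp1 : 7 * (36 * (x * x)⁻¹) ≤ 252 / (B : ℝ) ^ 2 := by
    rw [← mul_assoc, ← div_eq_mul_inv]
    exact div_le_div₀ (by norm_num) (by norm_num) (by positivity) (by nlinarith only [hx1, hx3])
  have fin := hcon P' X a b q B N Nn v _ Ξ _ α (J * c) Mw β θ (36 * (x * x)⁻¹) hP' num (by omega)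
    hβ.le hv1 hv2 hθ0 (by rw [hθ, div_le_one (by positivity)]; linarith) (by positivity) hMw2 hlev
    s0 sl
    (fun t ht => le_trans (mul_le_mul_of_nonneg_left (rpow_le_rpow_of_exponent_le
      (one_le_pow₀ hB1.le) (by
        have : θ * d ≤ β / 4 := by
          rw [hθ, div_mul_eq_mul_div, div_le_iff₀ (by positivity)]; nlinarith only [hβ]
        linarith)) (hNn α).le) (sk t ht))
    (by positivity)
    (hp1.trans (by rw [div_le_div_iff₀ (by positivity) (by norm_num)]; nlinarith only [hB100])) hsp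
    (by
      have e1 : x ≤ 1 / (2 * (7 * (36 * (x * x)⁻¹))) - 1 := by
        rw [show 1 / (2 * (7 * (36 * (x * x)⁻¹))) = x * x / 504 by field_simp; norm_num]
        nlinarith only [hx3]
      refine lt_of_lt_of_le ?_ (pow_le_pow_left₀ (by positivity) e1 _)
      have e2 : (2 : ℝ) < (B : ℝ) ^ (J * c) :=
        lt_of_lt_of_le (by linarith) (le_self_pow₀ hB1.le (by positivity))
      rw [inv_pow, inv_inv, hx, ← rpow_natCast (_ ^ (β / 16)), ← rpow_mul (by positivity)]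
      refine lt_of_lt_of_le (mul_lt_mul_of_pos_right e2 (by positivity)) ?_
      rw [← pow_succ', ← rpow_natCast]
      refine rpow_le_rpow_of_exponent_le (by linarith) ?_
      push_cast
      linarith)
  have l100 : log 100 ≤ log (B : ℝ) := log_le_log (by norm_num) hB100
  have f1 : d * log (100 / (((B : ℝ) ^ (J * c))⁻¹) ^ 2) ≤ (d + 2 * d * J) * u := by
    rw [inv_pow, div_inv_eq_mul, log_mul (by norm_num) (by positivity), log_pow, log_pow]
    push_cast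
    have := mul_le_mul_of_nonneg_left (l100.trans hu1) hd
    rw [hu] at this ⊢
    linarith
  have f2 : 7 * (36 * (x * x)⁻¹) * (d * log (100 * (B : ℝ) ^ (Mw * (J * c)))) ≤ 3 * d * u := by
    have e1 : log (100 * (B : ℝ) ^ (Mw * (J * c))) ≤ B * u := by
      rw [log_mul (by norm_num) (by positivity), log_pow]
      have : ((Mw * (J * c) : ℕ) : ℝ) + 1 ≤ B := by exact_mod_cast (by omega)
      nlinarith only [this, l100, hu1, hL, hB100]
    have e2 : 0 ≤ log (100 * (B : ℝ) ^ (Mw * (J * c))) :=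
      log_nonneg (one_le_mul_of_one_le_of_one_le (by norm_num) (one_le_pow₀ hB1.le))
    calc _ ≤ 252 / (B : ℝ) ^ 2 * (d * (B * u)) := by gcongr
      _ = 252 / B * (d * u) := by field_simp
      _ ≤ 3 * (d * u) := mul_le_mul_of_nonneg_right
          (by rw [div_le_iff₀ (by positivity)]; linarith) (mul_nonneg hd (by linarith))
      _ = _ := by ring
  have f3 : (3 * k + 5) * C * (16 * (cE * u) / θ + 1 +
      d * log (100 / (((B : ℝ) ^ (J * c))⁻¹) ^ 2) +
      7 * (36 * (x * x)⁻¹) * (d * log (100 * (B : ℝ) ^ (Mw * (J * c))))) ≤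
      (3 * k + 5) * C * ((16 * cE / θ + 1 + 4 * d + 2 * d * J) * u) := by
    refine mul_le_mul_of_nonneg_left ?_ (by positivity)
    have : 16 * (cE * u) / θ = 16 * cE / θ * u := by ring
    linarith only [this, f1, f2, hL, hu1]
  have f4 : (Mw + 1 : ℝ) * ((k + 2) * (3 * (cE * u)) + C' * log B) ≤
      (Mw + 1) * ((k + 2) * (3 * (cE * u)) + C' * u) := by gcongr
  have f5 : (3 * k + 5) * C * (2 * d) + 1 ≤ β * Mw := by
    rw [← div_le_iff₀' hβ]; linarith
  have f6 := mul_le_mul_of_nonneg_right f5 (show 0 ≤ J * u by positivity)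
  have f7 := mul_lt_mul_of_pos_right hJ3 (show 0 < u by linarith)
  have f8 : β * (Mw * ((J * c : ℕ) : ℝ)) * log B = β * Mw * (J * u) := by
    rw [hu]; push_cast; ring
  have f9 : 16 * (cE * u) / θ = 16 * cE / θ * u := by ring
  rw [f8] at fin
  rw [f9] at fin f3
  linarith only [fin, f3, f4, f6, f7]

end Pool.Agent.P.MP_bf60a1_an.RA
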