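import Mathlib

/-! Discretisation of the projective single-scale statement (reduction to the finite theorem). -/

namespace Pool.Agent.P.MP_bf60a1_an.RA.Proj

open MeasureTheory Set Finset

variable {D : ℕ}

/-- rounding down to the grid of mesh `1 / M` (integer vector) -/
noncomputable def rd (M : ℕ) (u : Fin D → ℝ) : Fin D → ℤ := fun i => ⌊(M : ℝ) * u i⌋

/-- the grid point of an integer vector -/
noncomputable def up (M : ℕ) (n : Fin D → ℤ) : Fin D → ℝ := fun i => (n i : ℝ) / M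

/-- chart point of a vector -/
noncomputable def ch (i0 : Fin D) (y : EuclideanSpace ℝ (Fin D)) : Fin D → ℝ :=
  fun i => y i / y i0

/-- residual of `x` along `y` -/
noncomputable def res (i0 : Fin D) (x y : EuclideanSpace ℝ (Fin D)) : Fin D → ℝ :=
  fun i => x i - x i0 * ch i0 y i

/-- slope -/
noncomputable def sl (i0 i1 : Fin D) (x y : EuclideanSpace ℝ (Fin D)) : Fin D → ℝ :=
  fun i => res i0 x y i / res i0 x y i1

/-- the good position of a pair -/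
def good (i0 i1 : Fin D) (x y : EuclideanSpace ℝ (Fin D)) : Prop :=
  ‖x‖ ≤ 1 ∧ ‖y‖ ≤ 1 ∧ y i0 ≠ 0 ∧ res i0 x y i1 ≠ 0 ∧ (∀ i, |y i| ≤ |y i0|) ∧
    ∀ i, |res i0 x y i| ≤ |res i0 x y i1|

lemma up_rd {M : ℕ} (hM : 0 < M) (u : Fin D → ℝ) (i : Fin D) :
    |up M (rd M u) i - u i| ≤ (M : ℝ)⁻¹ := by
  have hM' : (0 : ℝ) < M := by exact_mod_cast hM
  have h1 := Int.floor_le ((M : ℝ) * u i)
  have h2 := Int.lt_floor_add_one ((M : ℝ) * u i)
  have e : up M (rd M u) i - u i = ((⌊(M : ℝ) * u i⌋ : ℝ) - M * u i) * (M : ℝ)⁻¹ := by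
    simp only [up, rd]; field_simp
  rw [e, abs_mul, abs_of_pos (inv_pos.2 hM')]
  have : |(⌊(M : ℝ) * u i⌋ : ℝ) - M * u i| ≤ 1 := by rw [abs_le]; constructor <;> linarith
  calc _ ≤ 1 * (M : ℝ)⁻¹ := by gcongr
    _ = _ := one_mul _

lemma rd_mem {M : ℕ} {u : Fin D → ℝ} (hu : ∀ i, |u i| ≤ 1) :
    rd M u ∈ Fintype.piFinset (fun _ : Fin D => Finset.Icc (-(M : ℤ)) M) := by
  rw [Fintype.mem_piFinset]
  intro i
  have hM : (0 : ℝ) ≤ M := by positivity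
  have h := abs_le.1 (hu i)
  rw [Finset.mem_Icc]
  constructor
  · apply Int.le_floor.2
    push_cast
    nlinarith [h.1]
  · apply Int.floor_le_iff.2
    push_cast
    nlinarith [h.2]

lemma up_le {M : ℕ} (hM : 0 < M) {n : Fin D → ℤ}
    (hn : n ∈ Fintype.piFinset (fun _ : Fin D => Finset.Icc (-(M : ℤ)) M)) (i : Fin D) :
    |up M n i| ≤ 1 := by
  have hM' : (0 : ℝ) < M := by exact_mod_cast hM
  have h := Finset.mem_Icc.1 (Fintype.mem_piFinset.1 hn i)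
  have h1 : (-(M : ℝ)) ≤ n i := by exact_mod_cast h.1
  have h2 : (n i : ℝ) ≤ M := by exact_mod_cast h.2
  simp only [up]
  rw [abs_div, abs_of_pos hM', div_le_one hM', abs_le]
  exact ⟨h1, h2⟩

lemma coord_le (u : EuclideanSpace ℝ (Fin D)) (i : Fin D) : |u i| ≤ ‖u‖ := by
  simpa using PiLp.norm_apply_le u i

lemma norm_le_of_coord (u : EuclideanSpace ℝ (Fin D)) {c : ℝ} (hc : 0 ≤ c)
    (h : ∀ i, |u i| ≤ c) : ‖u‖ ≤ D * c := by
  have h1 : ‖u‖ ^ 2 ≤ (D * c) ^ 2 := by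
    rw [EuclideanSpace.real_norm_sq_eq]
    calc ∑ i, u i ^ 2 ≤ ∑ _i : Fin D, c ^ 2 := by
          apply Finset.sum_le_sum
          intro i _
          rw [← sq_abs]
          exact pow_le_pow_left₀ (abs_nonneg _) (h i) 2
      _ = D * c ^ 2 := by simp
      _ ≤ (D * c) ^ 2 := by
          have : (D : ℝ) ≤ (D : ℝ) ^ 2 := by exact_mod_cast Nat.le_self_pow two_ne_zero D
          rw [mul_pow]
          exact mul_le_mul_of_nonneg_right this (sq_nonneg c)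
  exact le_of_sq_le_sq₀' h1 (by positivity)
where
  le_of_sq_le_sq₀' {a b : ℝ} (h : a ^ 2 ≤ b ^ 2) (hb : 0 ≤ b) : a ≤ b :=
    (abs_le_of_sq_le_sq' h hb).2

lemma ch_le {i0 i1 : Fin D} {x y : EuclideanSpace ℝ (Fin D)} (h : good i0 i1 x y) (i : Fin D) :
    |ch i0 y i| ≤ 1 := by
  obtain ⟨-, -, h0, -, h1, -⟩ := h
  simp only [ch]
  rw [abs_div, div_le_one (abs_pos.2 h0)]
  exact h1 i

lemma sl_le {i0 i1 : Fin D} {x y : EuclideanSpace ℝ (Fin D)} (h : good i0 i1 x y) (i : Fin D) :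
    |sl i0 i1 x y i| ≤ 1 := by
  obtain ⟨-, -, -, h0, -, h1⟩ := h
  simp only [sl]
  rw [abs_div, div_le_one (abs_pos.2 h0)]
  exact h1 i

lemma res_le {i0 i1 : Fin D} {x y : EuclideanSpace ℝ (Fin D)} (h : good i0 i1 x y) (i : Fin D) :
    |res i0 x y i| ≤ 2 := by
  have h1 := ch_le h i
  have h2 := (coord_le x i).trans h.1
  have h3 := (coord_le x i0).trans h.1
  simp only [res]
  calc |x i - x i0 * ch i0 y i| ≤ |x i| + |x i0 * ch i0 y i| := abs_sub _ _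
    _ ≤ 1 + 1 * 1 := by rw [abs_mul]; gcongr
    _ = 2 := by norm_num

/-- existence of a good chart -/
lemma exists_good {x y : EuclideanSpace ℝ (Fin D)} (hx : ‖x‖ ≤ 1) (hy : ‖y‖ ≤ 1) (hy0 : y ≠ 0)
    (hxy : ∀ t : ℝ, x - t • y ≠ 0) : ∃ i0 i1, good i0 i1 x y := by
  have hne : (Finset.univ : Finset (Fin D)).Nonempty := by
    by_contra hc
    apply hy0
    ext i
    exact absurd ⟨i, Finset.mem_univ i⟩ hc
  obtain ⟨i0, -, h0⟩ := Finset.exists_max_image Finset.univ (fun i => |y i|) hne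
  obtain ⟨i1, -, h1⟩ := Finset.exists_max_image Finset.univ (fun i => |res i0 x y i|) hne
  have hy1 : y i0 ≠ 0 := by
    intro hc
    apply hy0
    ext i
    have := h0 i (Finset.mem_univ i)
    simp only [hc, abs_zero] at this
    simpa using this
  refine ⟨i0, i1, hx, hy, hy1, ?_, fun i => h0 i (Finset.mem_univ i),
    fun i => h1 i (Finset.mem_univ i)⟩
  intro hc
  apply hxy (x i0 / y i0)
  ext i
  have := h1 i (Finset.mem_univ i)
  simp only [hc, abs_zero, abs_nonpos_iff] at this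
  simp only [res, ch] at this
  simp only [PiLp.sub_apply, PiLp.smul_apply, smul_eq_mul, PiLp.zero_apply]
  rw [← this]; field_simp

/-- P1 geometry -/
lemma near_line {i0 i1 : Fin D} {x y x' y' : EuclideanSpace ℝ (Fin D)} (h : good i0 i1 x y)
    (h' : good i0 i1 x' y') {c : ℝ} (hc : 0 ≤ c) (hd : ∀ i, |ch i0 y i - ch i0 y' i| ≤ c) :
    ∃ t : ℝ, ‖y - t • y'‖ ≤ D * c := by
  refine ⟨y i0 / y' i0, norm_le_of_coord _ hc fun i => ?_⟩
  have h0 := h.2.2.1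
  have h0' := h'.2.2.1
  have e : (y - (y i0 / y' i0) • y') i = y i0 * (ch i0 y i - ch i0 y' i) := by
    simp only [PiLp.sub_apply, PiLp.smul_apply, smul_eq_mul, ch]; field_simp
  rw [e, abs_mul]
  calc _ ≤ 1 * c := by gcongr; exacts [(coord_le y i0).trans h.2.1, hd i]
    _ = c := one_mul c

/-- P2 geometry -/
lemma near_plane {i0 i1 : Fin D} {x x' y : EuclideanSpace ℝ (Fin D)} (h : good i0 i1 x y)
    (h' : good i0 i1 x' y) {c : ℝ} (hc : 0 ≤ c)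
    (hd : ∀ i, |sl i0 i1 x y i - sl i0 i1 x' y i| ≤ c) :
    ∃ t t' : ℝ, ‖x - t • x' - t' • y‖ ≤ D * (2 * c) := by
  have h0 := h.2.2.1
  have h1 := h.2.2.2.1
  have h1' := h'.2.2.2.1
  refine ⟨res i0 x y i1 / res i0 x' y i1,
    (x i0 - res i0 x y i1 / res i0 x' y i1 * x' i0) / y i0,
    norm_le_of_coord _ (by positivity) fun i => ?_⟩
  have e : (x - (res i0 x y i1 / res i0 x' y i1) • x' -
      ((x i0 - res i0 x y i1 / res i0 x' y i1 * x' i0) / y i0) • y) i =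
      res i0 x y i1 * (sl i0 i1 x y i - sl i0 i1 x' y i) := by
    have e1 : x i = res i0 x y i + x i0 * (y i / y i0) := by simp [res, ch]
    have e2 : x' i = res i0 x' y i + x' i0 * (y i / y i0) := by simp [res, ch]
    simp only [PiLp.sub_apply, PiLp.smul_apply, smul_eq_mul, sl]
    rw [e1, e2]
    field_simp
    ring
  rw [e, abs_mul]
  gcongr
  exacts [res_le h i1, hd i]

/-- exact base point of the line -/
noncomputable def bs (i0 i1 : Fin D) (x y : EuclideanSpace ℝ (Fin D)) : Fin D → ℝ :=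
  fun i => ch i0 y i - ch i0 y i1 * sl i0 i1 x y i

lemma bs_le {i0 i1 : Fin D} {x y : EuclideanSpace ℝ (Fin D)} (h : good i0 i1 x y) (i : Fin D) :
    |bs i0 i1 x y i| ≤ 2 := by
  simp only [bs]
  calc _ ≤ |ch i0 y i| + |ch i0 y i1 * sl i0 i1 x y i| := abs_sub _ _
    _ ≤ 1 + 1 * 1 := by rw [abs_mul]; gcongr; exacts [ch_le h i, ch_le h i1, sl_le h i]
    _ = 2 := by norm_num

lemma span_exact {i0 i1 : Fin D} {x y : EuclideanSpace ℝ (Fin D)} (h : good i0 i1 x y)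
    (t t' : ℝ) (i : Fin D) :
    t * x i + t' * y i = (t * x i0 + t' * y i0) * bs i0 i1 x y i +
      (t * x i1 + t' * y i1) * sl i0 i1 x y i := by
  have h0 := h.2.2.1
  have h1 := h.2.2.2.1
  have e1 : x i = res i0 x y i + x i0 * (y i / y i0) := by simp [res, ch]
  have e2 : x i1 = res i0 x y i1 + x i0 * (y i1 / y i0) := by simp [res, ch]
  simp only [bs, sl, ch]
  rw [e1, e2]
  field_simp
  ring

lemma near_exact {i0 i1 : Fin D} {x y z : EuclideanSpace ℝ (Fin D)} (h : good i0 i1 x y)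
    {t t' δ : ℝ} (hz : ‖z - t • x - t' • y‖ ≤ δ) (i : Fin D) :
    |z i - z i0 * bs i0 i1 x y i - z i1 * sl i0 i1 x y i| ≤ 4 * δ := by
  set e := z - t • x - t' • y with he
  have hc : ∀ j, z j = e j + (t * x j + t' * y j) := by
    intro j
    simp only [he, PiLp.sub_apply, PiLp.smul_apply, smul_eq_mul]; ring
  have hb : ∀ j, |e j| ≤ δ := fun j => (coord_le e j).trans hz
  have hδ : 0 ≤ δ := (abs_nonneg _).trans (hb i)
  have key : z i - z i0 * bs i0 i1 x y i - z i1 * sl i0 i1 x y i =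
      e i - e i0 * bs i0 i1 x y i - e i1 * sl i0 i1 x y i := by
    rw [hc i, hc i0, hc i1, span_exact h t t' i]; ring
  rw [key]
  calc _ ≤ |e i - e i0 * bs i0 i1 x y i| + |e i1 * sl i0 i1 x y i| := abs_sub _ _
    _ ≤ (|e i| + |e i0 * bs i0 i1 x y i|) + |e i1 * sl i0 i1 x y i| := by
        gcongr; exact abs_sub _ _
    _ ≤ (δ + δ * 2) + δ * 1 := by
        rw [abs_mul, abs_mul]; gcongr
        exacts [hb i, hb i0, bs_le h i, hb i1, sl_le h i]
    _ = 4 * δ := by ring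

/-- determinant in the chart coordinates -/
def dt (i0 i1 : Fin D) (u u' : EuclideanSpace ℝ (Fin D)) : ℝ := u i0 * u' i1 - u i1 * u' i0

lemma far_scale {x z : EuclideanSpace ℝ (Fin D)} {τ : ℝ} (hfar : ∀ t : ℝ, τ ≤ ‖z - t • x‖)
    (α γ : ℝ) : |α| * τ ≤ ‖α • z - γ • x‖ := by
  rcases eq_or_ne α 0 with rfl | hα
  · simp
  · have e : α • z - γ • x = α • (z - (γ / α) • x) := by
      rw [smul_sub, smul_smul, mul_div_cancel₀ _ hα]
    rw [e, norm_smul, Real.norm_eq_abs]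
    gcongr
    exact hfar _

lemma det_lower {i0 i1 : Fin D} {x y z : EuclideanSpace ℝ (Fin D)} (h : good i0 i1 x y)
    {t t' δ τ : ℝ} (hτ : 0 < τ) (hδ : 8 * D * δ ≤ τ) (hx : τ ≤ ‖x‖)
    (hz : ‖z - t • x - t' • y‖ ≤ δ) (hfar : ∀ t : ℝ, τ ≤ ‖z - t • x‖) :
    τ ^ 2 ≤ 8 * D ^ 2 * |dt i0 i1 x z| := by
  have hδ0 : 0 ≤ δ := (norm_nonneg _).trans hz
  have hxe : ∀ i, x i = x i0 * bs i0 i1 x y i + x i1 * sl i0 i1 x y i := by
    intro i; simpa using span_exact h 1 0 i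
  have hze := near_exact h hz
  set d := |dt i0 i1 x z| with hd
  have hd0 : 0 ≤ d := abs_nonneg _
  have hD : (0 : ℝ) ≤ D := by positivity
  have h1 : |x i0| * τ ≤ D * (d + |x i0| * (4 * δ)) := by
    refine (far_scale hfar (x i0) (z i0)).trans (norm_le_of_coord _ (by positivity) fun i => ?_)
    have e : ((x i0) • z - (z i0) • x) i = dt i0 i1 x z * sl i0 i1 x y i +
        x i0 * (z i - z i0 * bs i0 i1 x y i - z i1 * sl i0 i1 x y i) := by
      simp only [PiLp.sub_apply, PiLp.smul_apply, smul_eq_mul, dt]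
      rw [hxe i]; ring
    rw [e]
    calc _ ≤ |dt i0 i1 x z * sl i0 i1 x y i| +
          |x i0 * (z i - z i0 * bs i0 i1 x y i - z i1 * sl i0 i1 x y i)| := abs_add_le _ _
      _ ≤ d * 1 + |x i0| * (4 * δ) := by
          rw [abs_mul, abs_mul]; gcongr
          exacts [sl_le h i, hze i]
      _ = _ := by ring
  have h2 : |x i1| * τ ≤ D * (d * 2 + |x i1| * (4 * δ)) := by
    refine (far_scale hfar (x i1) (z i1)).trans (norm_le_of_coord _ (by positivity) fun i => ?_)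
    have e : ((x i1) • z - (z i1) • x) i = -(dt i0 i1 x z * bs i0 i1 x y i) +
        x i1 * (z i - z i0 * bs i0 i1 x y i - z i1 * sl i0 i1 x y i) := by
      simp only [PiLp.sub_apply, PiLp.smul_apply, smul_eq_mul, dt]
      rw [hxe i]; ring
    rw [e]
    calc _ ≤ |-(dt i0 i1 x z * bs i0 i1 x y i)| +
          |x i1 * (z i - z i0 * bs i0 i1 x y i - z i1 * sl i0 i1 x y i)| := abs_add_le _ _
      _ ≤ d * 2 + |x i1| * (4 * δ) := by
          rw [abs_neg, abs_mul, abs_mul]; gcongr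
          exacts [bs_le h i, hze i]
  have h3 : τ ≤ D * (|x i0| * 2 + |x i1| * 1) := by
    refine hx.trans (norm_le_of_coord _ (by positivity) fun i => ?_)
    rw [hxe i]
    calc _ ≤ |x i0 * bs i0 i1 x y i| + |x i1 * sl i0 i1 x y i| := abs_add_le _ _
      _ ≤ _ := by
          rw [abs_mul, abs_mul]; gcongr
          exacts [bs_le h i, sl_le h i]
  have ha := abs_nonneg (x i0)
  have hb := abs_nonneg (x i1)
  have h4 : |x i0| * (8 * D * δ) ≤ |x i0| * τ := by gcongr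
  have h5 : |x i1| * (8 * D * δ) ≤ |x i1| * τ := by gcongr
  have h6 : |x i0| * τ ≤ 2 * (D * d) := by linarith
  have h7 : |x i1| * τ ≤ 4 * (D * d) := by linarith
  calc τ ^ 2 = τ * τ := sq τ
    _ ≤ D * (|x i0| * 2 + |x i1| * 1) * τ := by gcongr
    _ = D * (2 * (|x i0| * τ) + |x i1| * τ) := by ring
    _ ≤ D * (2 * (2 * (D * d)) + 4 * (D * d)) := by gcongr
    _ = _ := by ring

/-- rounded base point -/
noncomputable def bb (M : ℕ) (i1 : Fin D) (n n' : Fin D → ℤ) : Fin D → ℝ :=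
  up M (rd M fun i => up M n i - up M n i1 * up M n' i)

lemma bb_near {M : ℕ} (hM : 0 < M) {i0 i1 : Fin D} {x y : EuclideanSpace ℝ (Fin D)}
    (h : good i0 i1 x y) (i : Fin D) :
    |bs i0 i1 x y i - bb M i1 (rd M (ch i0 y)) (rd M (sl i0 i1 x y)) i| ≤ 4 * (M : ℝ)⁻¹ := by
  set c := ch i0 y
  set A := sl i0 i1 x y
  have h1 := up_rd hM (fun i => up M (rd M c) i - up M (rd M c) i1 * up M (rd M A) i) i
  have h2 := up_rd hM c i
  have h3 := up_rd hM c i1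
  have h4 := up_rd hM A i
  have h5 : |up M (rd M A) i| ≤ 1 := up_le hM (rd_mem (sl_le h)) i
  have h6 : |c i1| ≤ 1 := ch_le h i1
  have e : bs i0 i1 x y i - bb M i1 (rd M c) (rd M A) i =
      -(bb M i1 (rd M c) (rd M A) i -
        (up M (rd M c) i - up M (rd M c) i1 * up M (rd M A) i)) - (up M (rd M c) i - c i) +
        (up M (rd M c) i1 - c i1) * up M (rd M A) i + c i1 * (up M (rd M A) i - A i) := by
    simp only [bs]; ring
  rw [e]
  have h7 : |(up M (rd M c) i1 - c i1) * up M (rd M A) i| ≤ (M : ℝ)⁻¹ * 1 := by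
    rw [abs_mul]; gcongr
  have h8 : |c i1 * (up M (rd M A) i - A i)| ≤ 1 * (M : ℝ)⁻¹ := by
    rw [abs_mul]; gcongr
  have h1' : |bb M i1 (rd M c) (rd M A) i -
      (up M (rd M c) i - up M (rd M c) i1 * up M (rd M A) i)| ≤ (M : ℝ)⁻¹ := h1
  rw [abs_le] at h1' h2 h7 h8 ⊢
  constructor <;> linarith [h1'.1, h1'.2, h2.1, h2.2, h7.1, h7.2, h8.1, h8.2]

/-- the tube of a line `l = (a, b)` -/
def tube (i0 i1 : Fin D) (δ : ℝ) (l : (Fin D → ℝ) × (Fin D → ℝ))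
    (u : EuclideanSpace ℝ (Fin D)) : Prop :=
  ‖u‖ ≤ 1 ∧ ∀ i, |u i - u i0 * l.2 i - u i1 * l.1 i| ≤ 9 * δ

lemma mem_tube {M : ℕ} (hM : 0 < M) {i0 i1 : Fin D} {x y z : EuclideanSpace ℝ (Fin D)}
    (h : good i0 i1 x y) {t t' δ : ℝ} (hMδ : (M : ℝ)⁻¹ ≤ δ) (hz1 : ‖z‖ ≤ 1)
    (hz : ‖z - t • x - t' • y‖ ≤ δ) :
    tube i0 i1 δ (up M (rd M (sl i0 i1 x y)), bb M i1 (rd M (ch i0 y)) (rd M (sl i0 i1 x y))) z := by
  refine ⟨hz1, fun i => ?_⟩
  have h1 := near_exact h hz i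
  have h2 := bb_near hM h i
  have h3 := up_rd hM (sl i0 i1 x y) i
  have h4 := (coord_le z i0).trans hz1
  have h5 := (coord_le z i1).trans hz1
  have h6 : |z i0 * (bs i0 i1 x y i - bb M i1 (rd M (ch i0 y)) (rd M (sl i0 i1 x y)) i)| ≤
      1 * (4 * (M : ℝ)⁻¹) := by rw [abs_mul]; gcongr
  have h7 : |z i1 * (up M (rd M (sl i0 i1 x y)) i - sl i0 i1 x y i)| ≤ 1 * (M : ℝ)⁻¹ := by
    rw [abs_mul]; gcongr
  rw [abs_le] at h1 h6 h7 ⊢
  constructor <;> simp only <;> linarith [h1.1, h1.2, h6.1, h6.2, h7.1, h7.2]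

lemma cramer {i0 i1 : Fin D} {δ : ℝ} {l l' : (Fin D → ℝ) × (Fin D → ℝ)}
    {u u' : EuclideanSpace ℝ (Fin D)} (h1 : tube i0 i1 δ l u) (h2 : tube i0 i1 δ l u')
    (h3 : tube i0 i1 δ l' u) (h4 : tube i0 i1 δ l' u') (i : Fin D) :
    |dt i0 i1 u u'| * |l.1 i - l'.1 i| ≤ 36 * δ ∧ |dt i0 i1 u u'| * |l.2 i - l'.2 i| ≤ 36 * δ := by
  set p := u i0 * (l.2 i - l'.2 i) + u i1 * (l.1 i - l'.1 i) with hp
  set p' := u' i0 * (l.2 i - l'.2 i) + u' i1 * (l.1 i - l'.1 i) with hp'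
  have a1 := abs_le.1 (h1.2 i)
  have a2 := abs_le.1 (h2.2 i)
  have a3 := abs_le.1 (h3.2 i)
  have a4 := abs_le.1 (h4.2 i)
  have b1 : |p| ≤ 18 * δ := by
    rw [abs_le]; constructor <;> linarith [a1.1, a1.2, a3.1, a3.2]
  have b2 : |p'| ≤ 18 * δ := by
    rw [abs_le]; constructor <;> linarith [a2.1, a2.2, a4.1, a4.2]
  have c1 := (coord_le u i0).trans h1.1
  have c2 := (coord_le u i1).trans h1.1
  have c3 := (coord_le u' i0).trans h2.1
  have c4 := (coord_le u' i1).trans h2.1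
  have hδ : 0 ≤ 18 * δ := (abs_nonneg _).trans b1
  constructor
  · have e : dt i0 i1 u u' * (l.1 i - l'.1 i) = u i0 * p' - u' i0 * p := by
      simp only [dt, hp, hp']; ring
    rw [← abs_mul, e]
    calc _ ≤ |u i0 * p'| + |u' i0 * p| := abs_sub _ _
      _ ≤ 1 * (18 * δ) + 1 * (18 * δ) := by rw [abs_mul, abs_mul]; gcongr
      _ = _ := by ring
  · have e : dt i0 i1 u u' * (l.2 i - l'.2 i) = u' i1 * p - u i1 * p' := by
      simp only [dt, hp, hp']; ring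
    rw [← abs_mul, e]
    calc _ ≤ |u' i1 * p| + |u i1 * p'| := abs_sub _ _
      _ ≤ 1 * (18 * δ) + 1 * (18 * δ) := by rw [abs_mul, abs_mul]; gcongr
      _ = _ := by ring

lemma rd_up {M : ℕ} (hM : 0 < M) (n : Fin D → ℤ) : rd M (up M n) = n := by
  have hM' : (M : ℝ) ≠ 0 := by exact_mod_cast hM.ne'
  funext i
  simp only [rd, up]
  rw [mul_div_cancel₀ _ hM', Int.floor_intCast]

/-- grid pairs -/
def lat (M : ℕ) (l : (Fin D → ℝ) × (Fin D → ℝ)) : Prop :=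
  up M (rd M l.1) = l.1 ∧ up M (rd M l.2) = l.2

lemma rd_sub_mem {M R : ℕ} (hM : 0 < M) {ρ : ℝ} (hR : M * ρ ≤ R) {a a' : Fin D → ℝ}
    (ha : up M (rd M a) = a) (ha' : up M (rd M a') = a') (h : ∀ i, |a i - a' i| ≤ ρ) :
    rd M a - rd M a' ∈ Fintype.piFinset (fun _ : Fin D => Finset.Icc (-(R : ℤ)) R) := by
  have hM' : (0 : ℝ) < M := by exact_mod_cast hM
  rw [Fintype.mem_piFinset]
  intro i
  have e1 : (rd M a i : ℝ) = M * a i := by
    have := congrFun ha i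
    simp only [up] at this
    rw [← this]; field_simp
  have e2 : (rd M a' i : ℝ) = M * a' i := by
    have := congrFun ha' i
    simp only [up] at this
    rw [← this]; field_simp
  have h1 : |((rd M a i - rd M a' i : ℤ) : ℝ)| ≤ R := by
    push_cast
    rw [e1, e2, ← mul_sub, abs_mul, abs_of_pos hM']
    exact (mul_le_mul_of_nonneg_left (h i) hM'.le).trans hR
  have h2 : |rd M a i - rd M a' i| ≤ (R : ℤ) := by exact_mod_cast h1
  rw [Finset.mem_Icc]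
  exact abs_le.1 h2

lemma count_lat {M R : ℕ} (hM : 0 < M) {ρ : ℝ} (hR : M * ρ ≤ R)
    (T : Finset ((Fin D → ℝ) × (Fin D → ℝ))) (hT : ∀ l ∈ T, lat M l)
    (h : ∀ l ∈ T, ∀ l' ∈ T, ∀ i, |l.1 i - l'.1 i| ≤ ρ ∧ |l.2 i - l'.2 i| ≤ ρ) :
    T.card ≤ (2 * R + 1) ^ (2 * D) := by
  rcases T.eq_empty_or_nonempty with rfl | ⟨l0, hl0⟩
  · simp
  set bx := Fintype.piFinset (fun _ : Fin D => Finset.Icc (-(R : ℤ)) R) with hbx
  have hc : bx.card = (2 * R + 1) ^ D := by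
    rw [hbx, Fintype.card_piFinset]
    simp only [Int.card_Icc, Finset.prod_const, Finset.card_univ, Fintype.card_fin]
    congr 1
    omega
  have : T.card ≤ (bx ×ˢ bx).card := by
    apply Finset.card_le_card_of_injOn
      (fun l => (rd M l.1 - rd M l0.1, rd M l.2 - rd M l0.2))
    · intro l hl
      have hl' : l ∈ T := hl
      simp only [Finset.coe_product, Set.mem_prod, Finset.mem_coe]
      exact ⟨rd_sub_mem hM hR (hT l hl').1 (hT l0 hl0).1 fun i => (h l hl' l0 hl0 i).1,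
        rd_sub_mem hM hR (hT l hl').2 (hT l0 hl0).2 fun i => (h l hl' l0 hl0 i).2⟩
    · intro l hl l' hl' e
      simp only [Prod.mk.injEq, sub_left_inj] at e
      have h1 := hT l hl
      have h2 := hT l' hl'
      exact Prod.ext (by rw [← h1.1, ← h2.1, e.1]) (by rw [← h1.2, ← h2.2, e.2])
  rw [Finset.card_product, hc, ← pow_add, ← two_mul] at this
  exact this

open Classical in
lemma sum_real_le {Y ι : Type*} [MeasurableSpace Y] (ν : Measure Y) [IsProbabilityMeasure ν]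
    (T : Finset ι) (U : ι → Set Y) (hU : ∀ l, MeasurableSet (U l)) (Q : ℕ)
    (h : ∀ p, (T.filter fun l => p ∈ U l).card ≤ Q) : ∑ l ∈ T, ν.real (U l) ≤ Q := by
  have h1 : ∑ l ∈ T, ν (U l) ≤ Q := by
    calc ∑ l ∈ T, ν (U l) = ∑ l ∈ T, ∫⁻ p, (U l).indicator 1 p ∂ν := by
          refine Finset.sum_congr rfl fun l _ => ?_
          rw [lintegral_indicator_one (hU l)]
      _ = ∫⁻ p, ∑ l ∈ T, (U l).indicator 1 p ∂ν :=
          (lintegral_finsetSum T fun l _ => measurable_one.indicator (hU l)).symm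
      _ ≤ ∫⁻ _p, (Q : ENNReal) ∂ν := by
          refine lintegral_mono fun p => ?_
          simp only [Set.indicator_apply, Pi.one_apply]
          rw [Finset.sum_ite, Finset.sum_const_zero, add_zero, Finset.sum_const, nsmul_one]
          exact_mod_cast h p
      _ = Q := by simp
  have h2 := ENNReal.toReal_mono (ENNReal.natCast_ne_top Q) h1
  rw [ENNReal.toReal_sum (fun l _ => measure_ne_top ν _), ENNReal.toReal_natCast] at h2
  exact h2

lemma sum_w {Y α : Type*} [MeasurableSpace Y] [MeasurableSpace α] [DiscreteMeasurableSpace α]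
    (ν : Measure Y) [IsProbabilityMeasure ν] {H : Set Y} (hH : MeasurableSet H) {P : Y → α}
    (hP : Measurable P) (bx : Finset α) (hbx : ∀ p ∈ H, P p ∈ bx) (Q : bx → Prop)
    {inst : DecidablePred Q} :
    ∑ ω with Q ω, ν.real (H ∩ P ⁻¹' {ω.1}) = ν.real {p | ∃ h : p ∈ H, Q ⟨P p, hbx p h⟩} := by
  rw [← measureReal_biUnion_finset]
  · congr 1
    ext p
    simp only [Finset.mem_filter, Finset.mem_univ, true_and, Set.mem_iUnion, Set.mem_inter_iff,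
      Set.mem_preimage, Set.mem_singleton_iff, exists_prop, Set.mem_ofPred_eq]
    constructor
    · rintro ⟨ω, hq, hp, e⟩
      refine ⟨hp, ?_⟩
      have : (⟨P p, hbx p hp⟩ : bx) = ω := Subtype.ext e
      rwa [this]
    · rintro ⟨hp, hq⟩
      exact ⟨_, hq, hp, rfl⟩
  · intro ω _ ω' _ hne
    refine Set.disjoint_left.2 fun p hp hp' => hne (Subtype.ext ?_)
    exact hp.2.symm.trans hp'.2
  · intro ω _
    exact hH.inter (hP MeasurableSet.of_discrete)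

lemma prod_le_sec {Y : Type*} [MeasurableSpace Y] (μ : Measure Y) [IsProbabilityMeasure μ]
    {S : Set (Y × Y)} (hS : MeasurableSet S) {A : Set Y} (hA : MeasurableSet A) {c : ℝ}
    (hc : 0 ≤ c) (h1 : ∀ p ∈ S, p.2 ∈ A) (h2 : ∀ y, μ.real {x | (x, y) ∈ S} ≤ c) :
    (μ.prod μ).real S ≤ c * μ.real A := by
  have h : (μ.prod μ) S ≤ ENNReal.ofReal c * μ A := by
    rw [Measure.prod_apply_symm hS, ← lintegral_indicator_const hA]
    refine lintegral_mono fun y => ?_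
    by_cases hy : y ∈ A
    · rw [Set.indicator_of_mem hy]
      exact (ENNReal.le_ofReal_iff_toReal_le (measure_ne_top _ _) hc).2 (h2 y)
    · have : (fun x => (x, y)) ⁻¹' S = ∅ :=
        Set.eq_empty_of_forall_notMem fun x hx => hy (h1 _ hx)
      simp [this]
  have := ENNReal.toReal_mono (by finiteness) h
  rwa [ENNReal.toReal_mul, ENNReal.toReal_ofReal hc] at this

lemma markov_sec {Y : Type*} [MeasurableSpace Y] (μ : Measure Y) [IsProbabilityMeasure μ]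
    {U : Set (Y × Y)} (hU : MeasurableSet U) {ε : ℝ} (hε : 0 < ε) :
    μ.real {x | ε ≤ μ.real {z | (x, z) ∈ U}} ≤ ε⁻¹ * (μ.prod μ).real U := by
  have h := mul_meas_ge_le_lintegral₀ (μ := μ)
    (measurable_measure_prodMk_left (ν := μ) hU).aemeasurable (ENNReal.ofReal ε)
  rw [← Measure.prod_apply hU] at h
  have e : {x | ε ≤ μ.real {z | (x, z) ∈ U}} = {x | ENNReal.ofReal ε ≤ μ (Prod.mk x ⁻¹' U)} := by
    ext x
    simp only [Set.mem_ofPred_eq]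
    rw [ENNReal.ofReal_le_iff_le_toReal (measure_ne_top _ _)]
    rfl
  have h2 := ENNReal.toReal_mono (measure_ne_top _ _) h
  rw [ENNReal.toReal_mul, ENNReal.toReal_ofReal hε.le] at h2
  rw [e, inv_mul_eq_div, le_div_iff₀' hε]
  exact h2

open Classical in
/-- the conclusion of the finite theorem at fixed parameters -/
def FinSt (d B N : ℕ) (v s : ℝ) : Prop :=
  ∀ (Ω : Type) [Fintype Ω] (w : Ω → ℝ) (X : Ω → (Fin d → ℝ) × ℝ) (a b : Ω → Fin d → ℝ)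
      (m : (Fin d → ℝ) × ℝ → ℝ) (q : (Fin d → ℝ) × (Fin d → ℝ) → ℝ),
    (∀ ω, 0 ≤ w ω) → (B : ℝ)⁻¹ ≤ ∑ ω, w ω → ∑ ω, w ω ≤ 1 →
    (∀ ω, 0 < w ω → ‖X ω‖ ≤ 1 ∧ ‖a ω‖ ≤ 1 ∧
      ‖(X ω).1 - b ω - (X ω).2 • a ω‖ ≤ ((B : ℝ) ^ N)⁻¹) →
    (∀ x, 0 ≤ m x) → (∀ T : Finset ((Fin d → ℝ) × ℝ), ∑ x ∈ T, m x ≤ 1) →
    (∀ l, 0 ≤ q l) → (∀ T : Finset ((Fin d → ℝ) × (Fin d → ℝ)), ∑ l ∈ T, q l ≤ 1) →
    (∀ x r, ((B : ℝ) ^ N)⁻¹ ≤ r → ∑ ω with ‖X ω - x‖ ≤ r, w ω ≤ B * r ^ s) →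
    (∀ x a₀ r, ((B : ℝ) ^ N)⁻¹ ≤ r →
      ∑ ω with X ω = x ∧ ‖a ω - a₀‖ ≤ r, w ω ≤ B * r ^ v * m x) →
    (∀ x l, ∑ ω with X ω = x ∧ (a ω, b ω) = l, w ω ≤ B * ((B : ℝ) ^ N) ^ v * q l * m x) →
    False

lemma close4 {M : ℕ} (hM : 0 < M) {c c' x0 : Fin D → ℝ} {r : ℝ} (hr : (M : ℝ)⁻¹ ≤ r)
    (h : ‖up M (rd M c) - x0‖ ≤ r) (h' : ‖up M (rd M c') - x0‖ ≤ r) (i : Fin D) :
    |c i - c' i| ≤ 4 * r := by
  have a1 := abs_le.1 (up_rd hM c i)
  have a2 := abs_le.1 (up_rd hM c' i)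
  have a3 : |up M (rd M c) i - x0 i| ≤ r := (norm_le_pi_norm (up M (rd M c) - x0) i).trans h
  have a4 : |up M (rd M c') i - x0 i| ≤ r := (norm_le_pi_norm (up M (rd M c') - x0) i).trans h'
  rw [abs_le] at a3 a4 ⊢
  constructor <;> linarith [a1.1, a1.2, a2.1, a2.2, a3.1, a3.2, a4.1, a4.2]

lemma pow_bound {τ K B r e : ℝ} {k : ℕ} (hτ : 0 < τ) (hK : 1 ≤ K) (hr : 0 < r)
    (he : e ≤ k + 1) (hB : τ⁻¹ * K ^ (k + 1) ≤ B) : τ⁻¹ * (K * r) ^ e ≤ B * r ^ e := by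
  have h1 : K ^ e ≤ K ^ (k + 1) := by
    rw [← Real.rpow_natCast]
    exact Real.rpow_le_rpow_of_exponent_le hK (by push_cast; exact he)
  rw [Real.mul_rpow (by linarith) hr.le, ← mul_assoc]
  have : τ⁻¹ * K ^ e ≤ B := le_trans (by gcongr) hB
  gcongr

theorem core {k B N R : ℕ} {v s δ τ K : ℝ} (hfin : FinSt D B N v s) (hB : 0 < B)
    (hv : 0 ≤ v) (hvk : v ≤ k + 1) (hsk : s ≤ k + 1) (hδ : 0 < δ) (hτ : 0 < τ)
    (hK1 : 1 ≤ K) (hK2 : 8 * D < K) (hK3 : δ ≤ K * ((B : ℝ) ^ N)⁻¹)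
    (hMδ : ((B : ℝ) ^ N)⁻¹ ≤ δ) (hδτ : 8 * D * δ ≤ τ)
    (hR : (B : ℝ) ^ N * (36 * δ * (8 * D ^ 2) / τ ^ 2) ≤ R)
    (hB1 : τ⁻¹ * K ^ (k + 1) ≤ B) (hB2 : τ⁻¹ * ((2 * R + 1) ^ (2 * D) : ℕ) ≤ B)
    {Z : Type} [MeasurableSpace Z] (μ : Measure Z) [IsProbabilityMeasure μ]
    {φ : Z → EuclideanSpace ℝ (Fin D)} (hφ : Measurable φ) (hφ1 : ∀ᵐ z ∂μ, ‖φ z‖ ≤ 1)
    (i0 i1 : Fin D) {H : Set (Z × Z)} (hH : MeasurableSet H)
    (hHB : (B : ℝ)⁻¹ ≤ (μ.prod μ).real H)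
    (hg : ∀ x y, (x, y) ∈ H → good i0 i1 (φ x) (φ y))
    (h0 : ∀ x y, (x, y) ∈ H → τ ≤ ‖φ x‖)
    (h1 : ∀ x y, (x, y) ∈ H → ∀ r, δ ≤ r →
      μ.real {z | ∃ t : ℝ, ‖φ z - t • φ y‖ < r} ≤ τ⁻¹ * r ^ s)
    (h2 : ∀ x y, (x, y) ∈ H → ∀ r, δ ≤ r →
      μ.real {z | ∃ t t' : ℝ, ‖φ z - t • φ x - t' • φ y‖ < r} ≤ τ⁻¹ * r ^ v)
    (h3 : ∀ x y, (x, y) ∈ H → δ ^ v * τ ≤
      μ.real {z | (∃ t t' : ℝ, ‖φ z - t • φ x - t' • φ y‖ < δ) ∧ ∀ t : ℝ, τ ≤ ‖φ z - t • φ x‖}) :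
    False := by
  classical
  set M : ℕ := B ^ N with hMdef
  have hM : 0 < M := pow_pos hB N
  have hMc : ((B : ℝ) ^ N) = M := by rw [hMdef]; push_cast; rfl
  have hM' : (0 : ℝ) < M := by exact_mod_cast hM
  have hB' : (0 : ℝ) < B := by exact_mod_cast hB
  have hD : (0 : ℝ) ≤ D := by positivity
  have hDpos : (0 : ℝ) < D := by exact_mod_cast Fin.pos i0
  set ν := μ.prod μ with hν
  set bx1 := Fintype.piFinset (fun _ : Fin D => Finset.Icc (-(M : ℤ)) M) with hbx1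
  set bx := bx1 ×ˢ bx1 with hbx
  set P1 : Z → Fin D → ℤ := fun y => rd M (ch i0 (φ y)) with hP1
  set P : Z × Z → (Fin D → ℤ) × (Fin D → ℤ) :=
    fun p => (P1 p.2, rd M (sl i0 i1 (φ p.1) (φ p.2))) with hP
  have hP1m : Measurable P1 := by
    refine measurable_pi_lambda _ fun i => ?_
    simp only [hP1, rd, ch]
    exact Measurable.floor (by fun_prop)
  have hPm : Measurable P := by
    refine (hP1m.comp measurable_snd).prodMk (measurable_pi_lambda _ fun i => ?_)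
    simp only [rd, sl, res, ch]
    exact Measurable.floor (by fun_prop)
  have hPb : ∀ p ∈ H, P p ∈ bx := fun p hp =>
    Finset.mem_product.2 ⟨rd_mem (ch_le (hg p.1 p.2 hp)), rd_mem (sl_le (hg p.1 p.2 hp))⟩
  set Xf : (Fin D → ℤ) → (Fin D → ℝ) × ℝ := fun n => (up M n, up M n i1) with hXf
  set Q : ℕ := (2 * R + 1) ^ (2 * D) with hQ
  have hQ0 : (0 : ℝ) < Q := by rw [hQ]; positivity
  set U : (Fin D → ℝ) × (Fin D → ℝ) → Set (Z × Z) := fun l =>
    {p | tube i0 i1 δ l (φ p.1) ∧ tube i0 i1 δ l (φ p.2) ∧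
      τ ^ 2 ≤ 8 * D ^ 2 * |dt i0 i1 (φ p.1) (φ p.2)|} with hU
  have hUm : ∀ l, MeasurableSet (U l) := by
    intro l
    have ht : MeasurableSet {u : EuclideanSpace ℝ (Fin D) | tube i0 i1 δ l u} := by
      have e : {u : EuclideanSpace ℝ (Fin D) | tube i0 i1 δ l u} = {u | ‖u‖ ≤ 1} ∩
          ⋂ i, {u | |u i - u i0 * l.2 i - u i1 * l.1 i| ≤ 9 * δ} := by
        ext u; simp [tube]
      rw [e]
      exact (measurableSet_le (by fun_prop) measurable_const).inter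
        (MeasurableSet.iInter fun i => measurableSet_le (by fun_prop) measurable_const)
    refine ((hφ.comp measurable_fst) ht).inter (((hφ.comp measurable_snd) ht).inter ?_)
    have hm : Measurable fun p : Z × Z => 8 * (D : ℝ) ^ 2 * |dt i0 i1 (φ p.1) (φ p.2)| := by
      simp only [dt]
      fun_prop
    exact measurableSet_le measurable_const hm
  have hAm : ∀ x0, MeasurableSet {y | Xf (P1 y) = x0} := fun x0 =>
    hP1m (MeasurableSet.of_discrete (s := {n | Xf n = x0}))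
  have hsec : ∀ S : Set ((Fin D → ℤ) × (Fin D → ℤ)), MeasurableSet (H ∩ P ⁻¹' S) := fun S =>
    hH.inter (hPm MeasurableSet.of_discrete)
  rw [hMc] at hK3 hMδ hR
  refine hfin bx (fun ω => ν.real (H ∩ P ⁻¹' {ω.1})) (fun ω => Xf ω.1.1) (fun ω => up M ω.1.2)
    (fun ω => bb M i1 ω.1.1 ω.1.2) (fun x0 => μ.real {y | Xf (P1 y) = x0})
    (fun l => if lat M l then ν.real (U l) / Q else 0) (fun ω => measureReal_nonneg) ?_ ?_ ?_
    (fun _ => measureReal_nonneg) ?_ ?_ ?_ ?_ ?_ ?_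
  · have := sum_w ν hH hPm bx hPb (fun _ => True) (inst := fun _ => isTrue trivial)
    simp only [Finset.filter_true, exists_prop, and_true, Set.ofPred_mem_eq] at this
    rw [this]; exact hHB
  · have := sum_w ν hH hPm bx hPb (fun _ => True) (inst := fun _ => isTrue trivial)
    simp only [Finset.filter_true, exists_prop, and_true, Set.ofPred_mem_eq] at this
    rw [this]; exact measureReal_le_one
  · intro ω _
    have hω := Finset.mem_product.1 ω.2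
    refine ⟨?_, ?_, ?_⟩
    · rw [Prod.norm_def, max_le_iff]
      exact ⟨(pi_norm_le_iff_of_nonneg zero_le_one).2 fun i => up_le hM hω.1 i, up_le hM hω.1 i1⟩
    · exact (pi_norm_le_iff_of_nonneg zero_le_one).2 fun i => up_le hM hω.2 i
    · rw [hMc]
      refine (pi_norm_le_iff_of_nonneg (by positivity)).2 fun i => ?_
      have := up_rd hM (fun i => up M ω.1.1 i - up M ω.1.1 i1 * up M ω.1.2 i) i
      rw [abs_sub_comm] at this
      simp only [hXf, bb, Pi.sub_apply, Pi.smul_apply, smul_eq_mul, Real.norm_eq_abs]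
      convert this using 2
      ring
  · intro T
    have := sum_measureReal_preimage_singleton (μ := μ) T (f := fun y => Xf (P1 y))
      (fun x0 _ => hAm x0)
    exact this.trans_le measureReal_le_one
  · intro l
    split_ifs
    · exact div_nonneg measureReal_nonneg hQ0.le
    · exact le_rfl
  · intro T
    rw [← Finset.sum_filter, ← Finset.sum_div, div_le_one hQ0]
    refine sum_real_le ν _ U hUm Q fun p => ?_
    refine count_lat hM hR _ (fun l hl => ?_) fun l hl l' hl' i => ?_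
    · simp only [Finset.mem_filter] at hl
      exact hl.1.2
    · simp only [Finset.mem_filter] at hl hl'
      have a1 := hl.2
      have a2 := hl'.2
      have a3 := cramer a1.1 a1.2.1 a2.1 a2.2.1 i
      have a4 := a1.2.2
      have key : ∀ e : ℝ, 0 ≤ e → |dt i0 i1 (φ p.1) (φ p.2)| * e ≤ 36 * δ →
          e ≤ 36 * δ * (8 * D ^ 2) / τ ^ 2 := by
        intro e he h
        rw [le_div_iff₀ (by positivity)]
        calc e * τ ^ 2 ≤ e * (8 * D ^ 2 * |dt i0 i1 (φ p.1) (φ p.2)|) := by gcongr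
          _ = (|dt i0 i1 (φ p.1) (φ p.2)| * e) * (8 * D ^ 2) := by ring
          _ ≤ _ := by gcongr
      exact ⟨key _ (abs_nonneg _) a3.1, key _ (abs_nonneg _) a3.2⟩
  · intro x0 r hr
    rw [hMc] at hr
    have hr0 : 0 < r := lt_of_lt_of_le (by positivity) hr
    rw [sum_w ν hH hPm bx hPb]
    set S := {p | ∃ h : p ∈ H, ‖Xf (⟨P p, hPb p h⟩ : bx).1.1 - x0‖ ≤ r} with hS
    rcases S.eq_empty_or_nonempty with he | ⟨p1, hp1, hp1'⟩
    · rw [he, measureReal_empty]; positivity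
    have hsub : S ⊆ Set.univ ×ˢ {z | ∃ t : ℝ, ‖φ z - t • φ p1.2‖ < K * r} := by
      rintro p ⟨hp, hp'⟩
      refine ⟨trivial, ?_⟩
      obtain ⟨t, ht⟩ := near_line (hg p.1 p.2 hp) (hg p1.1 p1.2 hp1) (c := 4 * r) (by positivity)
        (close4 hM hr (x0 := x0.1) ((norm_fst_le _).trans hp') ((norm_fst_le _).trans hp1'))
      refine ⟨t, ht.trans_lt ?_⟩
      have : (D : ℝ) * 4 < K := by linarith
      rw [← mul_assoc]
      gcongr
    calc ν.real S ≤ ν.real (Set.univ ×ˢ {z | ∃ t : ℝ, ‖φ z - t • φ p1.2‖ < K * r}) :=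
          measureReal_mono hsub
      _ = μ.real {z | ∃ t : ℝ, ‖φ z - t • φ p1.2‖ < K * r} := by
          simp [hν, Measure.real, Measure.prod_prod]
      _ ≤ τ⁻¹ * (K * r) ^ s := h1 p1.1 p1.2 hp1 _ (hK3.trans (by gcongr))
      _ ≤ _ := pow_bound hτ hK1 hr0 hsk hB1
  · intro x0 a0 r hr
    rw [hMc] at hr
    have hr0 : 0 < r := lt_of_lt_of_le (by positivity) hr
    rw [sum_w ν hH hPm bx hPb]
    have e : {p | ∃ h : p ∈ H, Xf (⟨P p, hPb p h⟩ : bx).1.1 = x0 ∧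
        ‖up M (⟨P p, hPb p h⟩ : bx).1.2 - a0‖ ≤ r} =
        H ∩ P ⁻¹' {n | Xf n.1 = x0 ∧ ‖up M n.2 - a0‖ ≤ r} := by
      ext p; exact ⟨fun ⟨a, b⟩ => ⟨a, b⟩, fun ⟨a, b⟩ => ⟨a, b⟩⟩
    rw [e]
    refine prod_le_sec μ (hsec _) (hAm x0) (by positivity) (fun p hp => hp.2.1) fun y => ?_
    set S := {x | (x, y) ∈ H ∩ P ⁻¹' {n | Xf n.1 = x0 ∧ ‖up M n.2 - a0‖ ≤ r}} with hS
    rcases S.eq_empty_or_nonempty with he | ⟨x1, hp1, -, hp1'⟩
    · rw [he, measureReal_empty]; positivity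
    have hsub : S ⊆ {z | ∃ t t' : ℝ, ‖φ z - t • φ x1 - t' • φ y‖ < K * r} := by
      rintro x ⟨hp, -, hp'⟩
      obtain ⟨t, t', ht⟩ := near_plane (hg x y hp) (hg x1 y hp1) (c := 4 * r) (by positivity)
        (close4 hM hr (x0 := a0) hp' hp1')
      refine ⟨t, t', ht.trans_lt ?_⟩
      calc (D : ℝ) * (2 * (4 * r)) = (8 * D) * r := by ring
        _ < K * r := by gcongr
    calc μ.real S ≤ μ.real {z | ∃ t t' : ℝ, ‖φ z - t • φ x1 - t' • φ y‖ < K * r} :=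
          measureReal_mono hsub
      _ ≤ τ⁻¹ * (K * r) ^ v := h2 x1 y hp1 _ (hK3.trans (by gcongr))
      _ ≤ _ := pow_bound hτ hK1 hr0 hvk hB1
  · intro x0 l
    rw [sum_w ν hH hPm bx hPb, hMc]
    have e : {p | ∃ h : p ∈ H, Xf (⟨P p, hPb p h⟩ : bx).1.1 = x0 ∧
        (up M (⟨P p, hPb p h⟩ : bx).1.2,
          bb M i1 (⟨P p, hPb p h⟩ : bx).1.1 (⟨P p, hPb p h⟩ : bx).1.2) = l} =
        H ∩ P ⁻¹' {n | Xf n.1 = x0 ∧ (up M n.2, bb M i1 n.1 n.2) = l} := by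
      ext p; exact ⟨fun ⟨a, b⟩ => ⟨a, b⟩, fun ⟨a, b⟩ => ⟨a, b⟩⟩
    rw [e]
    by_cases hl : lat M l
    swap
    · have : H ∩ P ⁻¹' {n | Xf n.1 = x0 ∧ (up M n.2, bb M i1 n.1 n.2) = l} = ∅ := by
        refine Set.eq_empty_of_forall_notMem fun p hp => hl ?_
        rw [← hp.2.2]
        exact ⟨by simp only [rd_up hM], by simp only [bb, rd_up hM]⟩
      rw [this, measureReal_empty, if_neg hl]
      simp
    rw [if_pos hl]
    have hε : 0 < δ ^ v * τ := by positivity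
    refine prod_le_sec μ (hsec _) (hAm x0) (by positivity) (fun p hp => hp.2.1) fun y => ?_
    have hsub : {x | (x, y) ∈ H ∩ P ⁻¹' {n | Xf n.1 = x0 ∧ (up M n.2, bb M i1 n.1 n.2) = l}} ⊆
        {x | δ ^ v * τ ≤ μ.real {z | (x, z) ∈ U l}} := by
      rintro x ⟨hp, -, hp'⟩
      have hl' : (up M (rd M (sl i0 i1 (φ x) (φ y))),
        bb M i1 (rd M (ch i0 (φ y))) (rd M (sl i0 i1 (φ x) (φ y)))) = l := hp'
      have hgx := hg x y hp
      refine (h3 x y hp).trans (ENNReal.toReal_mono (measure_ne_top _ _) (measure_mono_ae ?_))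
      filter_upwards [hφ1] with z hz hz'
      obtain ⟨⟨t, t', ht⟩, hfar⟩ := hz'
      refine ⟨?_, ?_, det_lower hgx hτ hδτ (h0 x y hp) ht.le hfar⟩
      · rw [← hl']
        exact mem_tube hM hgx (t := 1) (t' := 0) hMδ hgx.1 (by simpa using hδ.le)
      · rw [← hl']
        exact mem_tube hM hgx hMδ hz ht.le
    have hδv : (δ ^ v)⁻¹ ≤ (M : ℝ) ^ v := by
      rw [← Real.inv_rpow hδ.le]
      exact Real.rpow_le_rpow (by positivity) (inv_le_of_inv_le₀ hM' hMδ) hv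
    calc _ ≤ μ.real {x | δ ^ v * τ ≤ μ.real {z | (x, z) ∈ U l}} := measureReal_mono hsub
      _ ≤ (δ ^ v * τ)⁻¹ * ν.real (U l) := markov_sec μ (hUm l) hε
      _ = (τ⁻¹ * Q) * (δ ^ v)⁻¹ * (ν.real (U l) / Q) := by field_simp
      _ ≤ _ := by
          have : 0 ≤ ν.real (U l) / Q := div_nonneg measureReal_nonneg hQ0.le
          gcongr

lemma good_meas {Z : Type} [MeasurableSpace Z] {φ : Z → EuclideanSpace ℝ (Fin D)}
    (hφ : Measurable φ) (i0 i1 : Fin D) :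
    MeasurableSet {p : Z × Z | good i0 i1 (φ p.1) (φ p.2)} := by
  have hr : ∀ i, Measurable fun p : Z × Z => res i0 (φ p.1) (φ p.2) i := by
    intro i
    simp only [res, ch]
    fun_prop
  have e : {p : Z × Z | good i0 i1 (φ p.1) (φ p.2)} =
      {p : Z × Z | ‖φ p.1‖ ≤ 1} ∩ ({p : Z × Z | ‖φ p.2‖ ≤ 1} ∩ ({p : Z × Z | φ p.2 i0 = 0}ᶜ ∩
        ({p : Z × Z | res i0 (φ p.1) (φ p.2) i1 = 0}ᶜ ∩
          ((⋂ i, {p : Z × Z | |φ p.2 i| ≤ |φ p.2 i0|}) ∩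
            ⋂ i, {p : Z × Z | |res i0 (φ p.1) (φ p.2) i| ≤ |res i0 (φ p.1) (φ p.2) i1|})))) := by
    ext p; simp [good]
  rw [e]
  refine (measurableSet_le (by fun_prop) measurable_const).inter
    ((measurableSet_le (by fun_prop) measurable_const).inter
      ((measurableSet_eq_fun (by fun_prop) measurable_const).compl.inter
        ((measurableSet_eq_fun (hr i1) measurable_const).compl.inter
          ((MeasurableSet.iInter fun i => measurableSet_le (by fun_prop) (by fun_prop)).inter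
            (MeasurableSet.iInter fun i => measurableSet_le (hr i).abs (hr i1).abs)))))

lemma pigeon {Z : Type} [MeasurableSpace Z] (μ : Measure Z) [IsProbabilityMeasure μ]
    {φ : Z → EuclideanSpace ℝ (Fin D)} (hφ1 : ∀ᵐ z ∂μ, ‖φ z‖ ≤ 1) {H : Set (Z × Z)} {τ : ℝ}
    (hτ : 0 < τ) (hH : τ ≤ (μ.prod μ).real H)
    (h : ∀ x y, (x, y) ∈ H → φ y ≠ 0 ∧ ∀ t : ℝ, φ x - t • φ y ≠ 0) :
    ∃ i0 i1 : Fin D, τ / D ^ 2 ≤ (μ.prod μ).real (H ∩ {p | good i0 i1 (φ p.1) (φ p.2)}) := by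
  have h1 : (μ.prod μ).real H ≤ (μ.prod μ).real (⋃ i ∈ (Finset.univ : Finset (Fin D × Fin D)),
      H ∩ {p | good i.1 i.2 (φ p.1) (φ p.2)}) := by
    refine ENNReal.toReal_mono (measure_ne_top _ _) (measure_mono_ae ?_)
    filter_upwards [Measure.quasiMeasurePreserving_fst.ae hφ1,
      Measure.quasiMeasurePreserving_snd.ae hφ1] with p a1 a2 hp
    obtain ⟨i0, i1, hg⟩ := exists_good a1 a2 (h p.1 p.2 hp).1 (h p.1 p.2 hp).2
    exact Set.mem_iUnion₂.2 ⟨(i0, i1), Finset.mem_univ _, hp, hg⟩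
  have h2 := hH.trans (h1.trans (measureReal_biUnion_finset_le _ _))
  rcases Nat.eq_zero_or_pos D with rfl | hD
  · simp at h2; linarith
  have hD' : (0 : ℝ) < D := by exact_mod_cast hD
  have h3 : ∑ _i : Fin D × Fin D, τ / D ^ 2 ≤ ∑ i : Fin D × Fin D,
      (μ.prod μ).real (H ∩ {p | good i.1 i.2 (φ p.1) (φ p.2)}) := by
    refine le_trans (le_of_eq ?_) h2
    simp only [Finset.sum_const, Finset.card_univ, Fintype.card_prod, Fintype.card_fin,
      nsmul_eq_mul]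
    push_cast
    field_simp
  obtain ⟨i, -, hi⟩ := Finset.exists_le_of_sum_le ⟨(⟨0, hD⟩, ⟨0, hD⟩), Finset.mem_univ _⟩ h3
  exact ⟨i.1, i.2, hi⟩

theorem proj_of_fin (D k : ℕ) (β : ℝ) (hβ : 0 < β)
    (hfin : ∃ N B₀ : ℕ, 0 < N ∧ ∀ B : ℕ, B₀ ≤ B →
      ∀ v s : ℝ, (k : ℝ) + β ≤ v → v + β ≤ k + 1 → v + β ≤ s → FinSt D B N v s) :
    ∃ κ > (0 : ℝ), ∃ δ₀ > (0 : ℝ),
    ∀ δ : ℝ, 0 < δ → δ < δ₀ → ∀ v s : ℝ, (k : ℝ) + β ≤ v → v + β ≤ k + 1 → v + β ≤ s →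
    ∀ (Z : Type) [MeasurableSpace Z] (μ : Measure Z) [IsProbabilityMeasure μ]
      (φ : Z → EuclideanSpace ℝ (Fin D)), Measurable φ → (∀ᵐ z ∂μ, ‖φ z‖ ≤ 1) →
    ∀ H : Set (Z × Z), MeasurableSet H → ENNReal.ofReal (δ ^ κ) ≤ (μ.prod μ) H →
    (∀ x y, (x, y) ∈ H → (∀ t : ℝ, δ ^ κ ≤ ‖φ x - t • φ y‖) ∧
      (∀ r, δ ≤ r → μ {z | ∃ t : ℝ, ‖φ z - t • φ y‖ < r} ≤ ENNReal.ofReal (δ ^ (-κ) * r ^ s)) ∧
      (∀ r, δ ≤ r → μ {z | ∃ t t' : ℝ, ‖φ z - t • φ x - t' • φ y‖ < r} ≤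
        ENNReal.ofReal (δ ^ (-κ) * r ^ v)) ∧
      ENNReal.ofReal (δ ^ (v + κ)) ≤ μ {z | (∃ t t' : ℝ, ‖φ z - t • φ x - t' • φ y‖ < δ) ∧
        ∀ t : ℝ, δ ^ κ ≤ ‖φ z - t • φ x‖}) → False := by
  obtain ⟨N, B₀, hN, hfin⟩ := hfin
  set L : ℕ := 4 * D + 2 with hL
  set K : ℝ := 2 ^ N * (8 * D + 1) with hK
  set C1 : ℝ := (576 * D ^ 2 * 2 ^ N + 3) ^ (2 * D) with hC1
  set C : ℝ := 1 + B₀ + D ^ 2 + K ^ (k + 1) + C1 + 8 * D with hC
  have hD : (0 : ℝ) ≤ D := by positivity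
  have h2N : (1 : ℝ) ≤ 2 ^ N := one_le_pow₀ (by norm_num)
  have hK1 : 1 ≤ K := one_le_mul_of_one_le_of_one_le h2N (by linarith)
  have hKp : 0 ≤ K ^ (k + 1) := by positivity
  have hC10 : 0 ≤ C1 := by positivity
  have hB0 : (0 : ℝ) ≤ B₀ := by positivity
  have hD2 : (0 : ℝ) ≤ D ^ 2 := by positivity
  have hC0 : 1 ≤ C := by linarith
  have hNL : 0 < N * L := Nat.mul_pos hN (by omega)
  have hNL2 : 2 ≤ N * L := le_trans (by omega : 2 ≤ L) (Nat.le_mul_of_pos_left L hN)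
  refine ⟨((N * L : ℕ) : ℝ)⁻¹, by positivity, C⁻¹ ^ (N * L), by positivity, ?_⟩
  intro δ hδ hδ0 v s hv hvk hs Z _ μ _ φ hφ hφ1 H hH hHm hyp
  set κ : ℝ := ((N * L : ℕ) : ℝ)⁻¹ with hκ
  set τ := δ ^ κ with hτdef
  have hτ : 0 < τ := by positivity
  have hτδ : τ ^ (N * L) = δ := Real.rpow_inv_natCast_pow hδ.le hNL.ne'
  have hτC : τ < C⁻¹ := lt_of_pow_lt_pow_left₀ (N * L) (by positivity) (by rwa [hτδ])
  set lam := τ⁻¹ with hlam
  have hlamC : C ≤ lam := ((lt_inv_comm₀ hτ (by linarith)).1 hτC).le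
  have hlam1 : 1 ≤ lam := hC0.trans hlamC
  have hlamτ : lam * τ = 1 := inv_mul_cancel₀ hτ.ne'
  have hτ1 : τ ≤ 1 := by
    have : τ * 1 ≤ τ * lam := by gcongr
    linarith
  have hδτ2 : δ ≤ τ ^ 2 := hτδ ▸ pow_le_pow_of_le_one hτ.le hτ1 hNL2
  have hδτ : δ ≤ τ := hδτ2.trans (by nlinarith)
  have hneg : δ ^ (-κ) = lam := Real.rpow_neg hδ.le κ
  set B : ℕ := ⌈lam ^ L⌉₊ with hB
  have hlL : 1 ≤ lam ^ L := one_le_pow₀ hlam1
  have hBl : lam ^ L ≤ B := Nat.le_ceil _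
  have hBu : (B : ℝ) ≤ 2 * lam ^ L := by
    have := Nat.ceil_lt_add_one (zero_le_one.trans hlL)
    linarith
  have hB' : (0 : ℝ) < B := by linarith
  have hl2 : lam ^ 2 ≤ B := (pow_le_pow_right₀ hlam1 (by omega)).trans hBl
  have hlamδ : lam ^ (N * L) = δ⁻¹ := by rw [hlam, inv_pow, hτδ]
  have hMl : δ⁻¹ ≤ (B : ℝ) ^ N := by
    rw [← hlamδ, mul_comm, pow_mul]; gcongr
  have hMu : (B : ℝ) ^ N * δ ≤ 2 ^ N := by
    calc (B : ℝ) ^ N * δ ≤ (2 * lam ^ L) ^ N * δ := by gcongr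
      _ = 2 ^ N * (lam ^ (N * L) * δ) := by rw [mul_pow, mul_comm N L, pow_mul]; ring
      _ = 2 ^ N := by rw [hlamδ, inv_mul_cancel₀ hδ.ne', mul_one]
  have hBN : (0 : ℝ) < (B : ℝ) ^ N := by positivity
  have hv0 : 0 < v := by have : (0 : ℝ) ≤ k := by positivity
                         linarith
  have hCl : ∀ c : ℝ, 0 ≤ c → c ≤ C → lam * c ≤ B := fun c _ hc =>
    le_trans (by rw [sq]; gcongr; exact hc.trans hlamC) hl2
  obtain ⟨i0, i1, hi⟩ := pigeon μ hφ1 (H := H) hτ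
    ((ENNReal.ofReal_le_iff_le_toReal (measure_ne_top _ _)).1 hHm) (fun x y hp => by
      obtain ⟨a1, -, -, a4⟩ := hyp x y hp
      constructor
      · intro hy
        have e : {z | (∃ t t' : ℝ, ‖φ z - t • φ x - t' • φ y‖ < δ) ∧
            ∀ t : ℝ, τ ≤ ‖φ z - t • φ x‖} = ∅ := by
          refine Set.eq_empty_of_forall_notMem fun z ⟨⟨t, t', ht⟩, hz⟩ => ?_
          rw [hy, smul_zero, sub_zero] at ht
          linarith [hz t]
        rw [e, measure_empty, nonpos_iff_eq_zero, ENNReal.ofReal_eq_zero] at a4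
        exact absurd a4 (not_le.2 (by positivity))
      · intro t ht
        have := a1 t
        rw [ht, norm_zero] at this
        linarith)
  have hDpos : (0 : ℝ) < D := by exact_mod_cast Fin.pos i0
  set R : ℕ := ⌈(B : ℝ) ^ N * (36 * δ * (8 * D ^ 2) / τ ^ 2)⌉₊ with hR
  have hRu : (R : ℝ) ≤ 288 * D ^ 2 * 2 ^ N * lam ^ 2 + 1 := by
    have h1 := Nat.ceil_lt_add_one
      (show 0 ≤ (B : ℝ) ^ N * (36 * δ * (8 * D ^ 2) / τ ^ 2) by positivity)
    have h2 : (B : ℝ) ^ N * (36 * δ * (8 * D ^ 2) / τ ^ 2) =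
        288 * D ^ 2 * ((B : ℝ) ^ N * δ) * lam ^ 2 := by
      rw [hlam]; field_simp; ring
    have h3 : 288 * (D : ℝ) ^ 2 * ((B : ℝ) ^ N * δ) * lam ^ 2 ≤
        288 * D ^ 2 * 2 ^ N * lam ^ 2 := by gcongr
    linarith
  refine core (k := k) (R := R) (K := K) (δ := δ) (τ := τ)
    (hfin B ?_ v (v + β) hv hvk le_rfl) (by exact_mod_cast hB') hv0.le (by linarith) hvk hδ hτ
    hK1 ?_ ?_ (inv_le_of_inv_le₀ hδ hMl) ?_ (Nat.le_ceil _) (hCl _ hKp (by linarith)) ?_ μ hφ hφ1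
    i0 i1 (hH.inter (good_meas hφ i0 i1)) (le_trans ?_ hi) (fun x y hp => hp.2) ?_ ?_ ?_ ?_
  · have : (B₀ : ℝ) ≤ B := le_trans (by nlinarith) (hCl B₀ hB0 (by linarith))
    exact_mod_cast this
  · have : (1 : ℝ) * (8 * D + 1) ≤ K := by rw [hK]; gcongr
    linarith
  · rw [← div_eq_mul_inv, le_div_iff₀' hBN]
    refine hMu.trans ?_
    have : (2 : ℝ) ^ N * 1 ≤ K := by rw [hK]; gcongr; linarith
    linarith
  · calc 8 * (D : ℝ) * δ ≤ lam * τ ^ 2 := by gcongr; linarith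
      _ = τ := by rw [sq, ← mul_assoc, hlamτ, one_mul]
  · have hl2' : 1 ≤ lam ^ 2 := one_le_pow₀ hlam1
    have h1 : (2 * R + 1 : ℝ) ≤ (576 * D ^ 2 * 2 ^ N + 3) * lam ^ 2 := by linarith
    push_cast
    calc lam * (2 * R + 1 : ℝ) ^ (2 * D)
        ≤ lam * ((576 * D ^ 2 * 2 ^ N + 3) * lam ^ 2) ^ (2 * D) := by gcongr
      _ = lam * C1 * lam ^ (4 * D) := by rw [mul_pow, ← pow_mul, hC1]; ring
      _ ≤ lam * lam * lam ^ (4 * D) := by gcongr; linarith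
      _ = lam ^ L := by rw [hL]; ring
      _ ≤ B := hBl
  · rw [le_div_iff₀ (by positivity), inv_mul_le_iff₀ hB']
    have := hCl _ hD2 (by linarith)
    calc (D : ℝ) ^ 2 = lam * D ^ 2 * τ := by rw [mul_right_comm, hlamτ, one_mul]
      _ ≤ B * τ := by gcongr
  · intro x y hp
    simpa using (hyp x y hp.1).1 0
  · intro x y hp r hr
    have hr0 : 0 < r := hδ.trans_le hr
    rcases le_total r 1 with h1 | h1
    · have := (hyp x y hp.1).2.1 r hr
      rw [hneg] at this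
      refine (ENNReal.toReal_le_of_le_ofReal (by positivity) this).trans ?_
      exact mul_le_mul_of_nonneg_left (Real.rpow_le_rpow_of_exponent_ge hr0 h1 hs) (by positivity)
    · exact measureReal_le_one.trans
        (one_le_mul_of_one_le_of_one_le hlam1 (Real.one_le_rpow h1 (by linarith)))
  · intro x y hp r hr
    have hr0 : 0 < r := hδ.trans_le hr
    have := (hyp x y hp.1).2.2.1 r hr
    rw [hneg] at this
    exact ENNReal.toReal_le_of_le_ofReal (by positivity) this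
  · intro x y hp
    have := (hyp x y hp.1).2.2.2
    rw [Real.rpow_add hδ] at this
    exact (ENNReal.ofReal_le_iff_le_toReal (measure_ne_top _ _)).1 this

end Pool.Agent.P.MP_bf60a1_an.RA.Proj
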