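import Mathlib
import Pool.Agent.P.MP_bf60a1_an.RA.ProjCore
import Pool.Agent.P.MP_bf60a1_an.RA.Finite

namespace Pool.Agent.P.MP_bf60a1_an.RA

open MeasureTheory Metric Set Finset

theorem proj_main (D k : ℕ) (β : ℝ) (hβ : 0 < β) : ∃ κ > (0 : ℝ), ∃ δ₀ > (0 : ℝ),
    ∀ δ : ℝ, 0 < δ → δ < δ₀ → ∀ v s : ℝ, (k : ℝ) + β ≤ v → v + β ≤ k + 1 → v + β ≤ s →
    ∀ (Z : Type) [MeasurableSpace Z] (μ : Measure Z) [IsProbabilityMeasure μ]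
      (φ : Z → EuclideanSpace ℝ (Fin D)), Measurable φ → (∀ᵐ z ∂μ, ‖φ z‖ ≤ 1) →
    ∀ H : Set (Z × Z), MeasurableSet H → ENNReal.ofReal (δ ^ κ) ≤ (μ.prod μ) H →
    (∀ x y, (x, y) ∈ H → (∀ t : ℝ, δ ^ κ ≤ ‖φ x - t • φ y‖) ∧
      (∀ r, δ ≤ r → μ {z | ∃ t : ℝ, ‖φ z - t • φ y‖ < r} ≤ ENNReal.ofReal (δ ^ (-κ) * r ^ s)) ∧
      (∀ r, δ ≤ r → μ {z | ∃ t t' : ℝ, ‖φ z - t • φ x - t' • φ y‖ < r} ≤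
        ENNReal.ofReal (δ ^ (-κ) * r ^ v)) ∧
      ENNReal.ofReal (δ ^ (v + κ)) ≤ μ {z | (∃ t t' : ℝ, ‖φ z - t • φ x - t' • φ y‖ < δ) ∧
        ∀ t : ℝ, δ ^ κ ≤ ‖φ z - t • φ x‖}) → False := 
  Proj.proj_of_fin D k β hβ (finite_main D k β hβ)

end Pool.Agent.P.MP_bf60a1_an.RA
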