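import Mathlib
import Pool.Agent.P.MP_bf60a1_an.RA.Defs
import Pool.Agent.P.MP_bf60a1_an.RA.FstepAux
import Pool.Agent.P.MP_bf60a1_an.RA.Near
import Pool.Agent.P.MP_bf60a1_an.RA.Proj

/-! The step `fstep`: a non-integer critical exponent below the previous one can be improved. -/

namespace Pool.Agent.P.MP_bf60a1_an.RA

open MeasureTheory Metric Set Finset

section chain
variable {D : ℕ} {μ : Measure (EuclideanSpace ℝ (Fin D))} [IsProbabilityMeasure μ]
  {G : Set (EuclideanSpace ℝ (Fin D) × EuclideanSpace ℝ (Fin D))}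

/-- the vantage point is rarely close to the span of the tail -/
theorem FS.close_tail (hG : MeasurableSet G) {j : ℕ} {p₁ η τ : ℝ}
    (h : Measure.pi (fun _ : Fin (j + 1) => μ)
      {u | adm G u ∧ ENNReal.ofReal (τ ^ p₁) < μ (nb (sp u) τ)} ≤ ENNReal.ofReal (τ ^ η)) :
    Measure.pi (fun _ : Fin (j + 2) => μ)
      {u | adm G (Fin.tail u) ∧ u 0 ∈ nb (sp (Fin.tail u)) τ} ≤
      ENNReal.ofReal (τ ^ η) + ENNReal.ofReal (τ ^ p₁) := by
  set A : Set (Fin (j + 1) → EuclideanSpace ℝ (Fin D)) :=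
    {u | adm G u ∧ ENNReal.ofReal (τ ^ p₁) < μ (nb (sp u) τ)} with hA
  have hmu : Measurable fun u : Fin (j + 1) → EuclideanSpace ℝ (Fin D) => μ (nb (sp u) τ) :=
    measurable_measure_prodMk_left (ν := μ) (FS.isOpen_nb (D := D) (m := j + 1) τ).measurableSet
  have hAm : MeasurableSet A := (FS.meas_adm hG).inter (measurableSet_lt measurable_const hmu)
  set B : Set (Fin (j + 2) → EuclideanSpace ℝ (Fin D)) :=
    {u | (adm G (Fin.tail u) ∧ Fin.tail u ∉ A) ∧ u 0 ∈ nb (sp (Fin.tail u)) τ} with hB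
  have hBm : MeasurableSet B :=
    ((FS.meas_tail (FS.meas_adm hG)).inter (FS.meas_tail hAm.compl)).inter
      (FS.meas_nb FS.meas_tail (measurable_pi_apply 0) τ)
  have hsub : {u : Fin (j + 2) → EuclideanSpace ℝ (Fin D) |
      adm G (Fin.tail u) ∧ u 0 ∈ nb (sp (Fin.tail u)) τ} ⊆ {u | Fin.tail u ∈ A} ∪ B := by
    intro u hu
    by_cases hA' : Fin.tail u ∈ A
    · exact Or.inl hA'
    · exact Or.inr ⟨⟨hu.1, hA'⟩, hu.2⟩
  refine (measure_mono hsub).trans ((measure_union_le _ _).trans (add_le_add ?_ ?_))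
  · rw [FS.pi_tail μ hAm]
    exact h
  · refine FS.pi_le_of_tail μ hBm fun w => ?_
    by_cases hw : adm G w ∧ w ∉ A
    · have h1 : μ (nb (sp w) τ) ≤ ENNReal.ofReal (τ ^ p₁) := by
        by_contra hc
        exact hw.2 ⟨hw.1, not_le.1 hc⟩
      refine le_trans (measure_mono fun x hx => ?_) h1
      have := hx.2
      simpa using this
    · have : {x | (Fin.cons x w : Fin (j + 2) → EuclideanSpace ℝ (Fin D)) ∈ B} = ∅ := by
        ext x
        simp only [mem_ofPred_eq, mem_empty_iff_false, iff_false]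
        intro hx
        apply hw
        have := hx.1
        simpa using this
      rw [this, measure_empty]
      exact bot_le

theorem fstep (hμ : ∀ᵐ z ∂μ, ‖z‖ ≤ 1) (hG : MeasurableSet G) {j k : ℕ} {p p₁ : ℝ}
    (hk : (k : ℝ) < p) (hk' : p < k + 1) (hpp : p < p₁) (h₁ : S μ G j p₁)
    (h : ∀ v < p, S μ G (j + 1) v) : ∃ p' > p, S μ G (j + 1) p' := by
  have hk0 : (0 : ℝ) ≤ k := Nat.cast_nonneg k
  have hp0 : 0 < p := by linarith
  obtain ⟨β, hβ, hβ1, hβ2, hβ3⟩ : ∃ β : ℝ, 0 < β ∧ 2 * β ≤ p - k ∧ β ≤ k + 1 - p ∧ β ≤ p₁ - p := by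
    refine ⟨min ((p - k) / 2) (min (k + 1 - p) (p₁ - p)), ?_, ?_, ?_, ?_⟩
    · exact lt_min (by linarith) (lt_min (by linarith) (by linarith))
    · have := min_le_left ((p - k) / 2) (min (k + 1 - p) (p₁ - p))
      linarith
    · exact (min_le_right _ _).trans (min_le_left _ _)
    · exact (min_le_right _ _).trans (min_le_right _ _)
  obtain ⟨κ, hκ, δP, hδP, hP⟩ := proj_main D k β hβ
  obtain ⟨ε, hε, ηN, hηN, δN, hδN, hN⟩ := near hμ hG hp0 hpp h₁ h hκ
  obtain ⟨g, hg, hgβ, hgκ⟩ : ∃ g : ℝ, 0 < g ∧ g ≤ β ∧ g ≤ κ / 2 :=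
    ⟨min β (κ / 2), lt_min hβ (by linarith), min_le_left _ _, min_le_right _ _⟩
  obtain ⟨e, he, heε, heκ⟩ : ∃ e : ℝ, 0 < e ∧ e ≤ ε ∧ e ≤ κ / 2 :=
    ⟨min ε (κ / 2), lt_min hε (by linarith), min_le_left _ _, min_le_right _ _⟩
  obtain ⟨η1, hη1, δ1, hδ1, hL1⟩ := light hG (by linarith : (0 : ℝ) ≤ p₁) h₁ hκ
  obtain ⟨η2, hη2, δ2, hδ2, hL2⟩ :=
    light hG (by linarith : (0 : ℝ) ≤ p - g) (h (p - g) (by linarith)) hκ
  obtain ⟨η3, hη3, δ3, hδ3, hS3⟩ := h₁
  obtain ⟨m, hm, hm1, hm2, hm3, hm4, hm5, hm6⟩ : ∃ m : ℝ, 0 < m ∧ m ≤ ηN ∧ m ≤ η1 ∧ m ≤ η2 ∧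
      m ≤ κ * η3 ∧ m ≤ κ * p₁ ∧ m ≤ κ := by
    refine ⟨min ηN (min η1 (min η2 (min (κ * η3) (min (κ * p₁) κ)))), ?_, ?_, ?_, ?_, ?_, ?_, ?_⟩
    · have : 0 < κ * p₁ := mul_pos hκ (by linarith)
      have : 0 < κ * η3 := mul_pos hκ hη3
      simp only [lt_min_iff]
      refine ⟨hηN, hη1, hη2, ‹_›, ‹_›, hκ⟩
    all_goals simp
  obtain ⟨δ4, hδ4, h4⟩ := FS.small_pow hκ (half_pos hδ3)
  obtain ⟨δ5, hδ5, h5⟩ := FS.small_pow (half_pos he) (by norm_num : (0 : ℝ) < 1 / 2)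
  obtain ⟨δ6, hδ6, h6⟩ := FS.small_pow (half_pos hm) (by norm_num : (0 : ℝ) < 1 / 6)
  refine ⟨p + e / 2, by linarith, m / 2, half_pos hm,
    min 1 (min δP (min δN (min δ1 (min δ2 (min δ4 (min δ5 δ6)))))), ?_, fun δ hδ hlt => ?_⟩
  · simp only [gt_iff_lt, lt_min_iff]
    exact ⟨one_pos, hδP, hδN, hδ1, hδ2, hδ4, hδ5, hδ6⟩
  simp only [lt_min_iff] at hlt
  obtain ⟨l0, lP, lN, l1, l2, l4, l5, l6⟩ := hlt
  obtain ⟨B1, hB1m, hB1, hB1'⟩ := hL1 δ hδ l1
  obtain ⟨B2, hB2m, hB2, hB2'⟩ := hL2 δ hδ l2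
  have hτ : 0 < δ ^ κ := Real.rpow_pos_of_pos hδ _
  have hC := FS.close_tail hG (hS3 (δ ^ κ) hτ (by have := h4 δ hδ l4; linarith))
  rw [← Real.rpow_mul hδ.le, ← Real.rpow_mul hδ.le] at hC
  have hNN := hN δ hδ lN
  -- the remaining set
  set far : (Fin (j + 2) → EuclideanSpace ℝ (Fin D)) → Set (EuclideanSpace ℝ (Fin D)) :=
    fun u => {z | z ∈ nb (sp u) δ ∧ z ∉ nb (sp (Fin.removeNth 1 u)) (δ ^ κ)} with hfar
  have hfarm : Measurable fun u => μ (far u) := by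
    have h1 : MeasurableSet {q : (Fin (j + 2) → EuclideanSpace ℝ (Fin D)) ×
        EuclideanSpace ℝ (Fin D) | q.2 ∈ far q.1} :=
      (FS.meas_nb measurable_fst measurable_snd δ).inter
        (FS.meas_nb ((FS.meas_remove 1).comp measurable_fst) measurable_snd (δ ^ κ)).compl
    exact measurable_measure_prodMk_left (ν := μ) h1
  set R : Set (Fin (j + 2) → EuclideanSpace ℝ (Fin D)) :=
    {u | adm G u ∧ Fin.tail u ∉ B1 ∧ u ∉ B2 ∧ u 0 ∉ nb (sp (Fin.tail u)) (δ ^ κ) ∧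
      ENNReal.ofReal (δ ^ (p - g + κ)) ≤ μ (far u)} with hR
  have hRm : MeasurableSet R :=
    (FS.meas_adm hG).inter ((FS.meas_tail hB1m.compl).inter (hB2m.compl.inter
      ((FS.meas_nb FS.meas_tail (measurable_pi_apply 0) (δ ^ κ)).compl.inter
        (measurableSet_le measurable_const hfarm))))
  have hRle : Measure.pi (fun _ : Fin (j + 2) => μ) R ≤ ENNReal.ofReal (δ ^ κ) := by
    refine FS.pi_le_of_tail₂ μ hRm fun w => ?_
    by_contra hc
    have hmw : Measurable fun q : EuclideanSpace ℝ (Fin D) × EuclideanSpace ℝ (Fin D) =>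
        (Fin.cons q.1 (Fin.cons q.2 w) : Fin (j + 2) → EuclideanSpace ℝ (Fin D)) :=
      (FS.mp_cons μ (j + 1)).measurable.comp (measurable_fst.prodMk
        ((FS.mp_cons μ j).measurable.comp (measurable_snd.prodMk measurable_const)))
    refine hP δ hδ lP (p - g) p₁ (by linarith) (by linarith) (by linarith)
      (EuclideanSpace ℝ (Fin D)) μ (fun z => (sp w)ᗮ.starProjection z)
      (sp w)ᗮ.starProjection.continuous.measurable
      (hμ.mono fun z hz => (Submodule.norm_starProjection_apply_le _ _).trans hz)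
      _ (hmw hRm) (not_le.1 hc).le fun x y hxy => ?_
    obtain ⟨a1, a2, a3, a4, a5⟩ := hxy
    simp only [Fin.tail_cons, Fin.cons_zero] at a2 a4
    have a1' := FS.adm_tail a1
    simp only [Fin.tail_cons] at a1'
    refine ⟨fun t => ?_, fun r hr => ?_, fun r hr => ?_, ?_⟩
    · by_contra hc'
      exact a4 ((FS.nb_cons y w _ x).2 ⟨t, not_le.1 hc'⟩)
    · refine le_trans (measure_mono fun z hz => ?_) (hB1' _ a1' a2 r hr)
      exact (FS.nb_cons y w r z).2 hz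
    · refine le_trans (measure_mono fun z hz => ?_) (hB2' _ a1 a3 r hr)
      exact (FS.nb_cons_cons x y w r z).2 hz
    · refine a5.trans (measure_mono fun z hz => ⟨(FS.nb_cons_cons x y w δ z).1 hz.1, fun t => ?_⟩)
      by_contra hc'
      have hz2 := hz.2
      simp only [FS.remove_one] at hz2
      exact hz2 ((FS.nb_cons x w _ z).2 ⟨t, not_le.1 hc'⟩)
  -- the covering
  have hsub : {u : Fin (j + 2) → EuclideanSpace ℝ (Fin D) | adm G u ∧
      ENNReal.ofReal (δ ^ (p + e / 2)) < μ (nb (sp u) δ)} ⊆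
      {u | adm G u ∧ ENNReal.ofReal (δ ^ (p + ε)) <
        μ (nb (sp u) δ ∩ nb (sp (Fin.removeNth 1 u)) (δ ^ κ))} ∪
      ({u | Fin.tail u ∈ B1} ∪ (B2 ∪
        ({u | adm G (Fin.tail u) ∧ u 0 ∈ nb (sp (Fin.tail u)) (δ ^ κ)} ∪ R))) := by
    rintro u ⟨ha, hh⟩
    by_contra hc
    simp only [mem_union, mem_ofPred_eq, not_or, not_and, not_lt] at hc
    obtain ⟨c1, c2, c3, c4, c5⟩ := hc
    apply c5
    refine ⟨ha, c2, c3, c4 (FS.adm_tail ha), ?_⟩
    by_contra hc'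
    have hsplit : μ (nb (sp u) δ) ≤
        μ (nb (sp u) δ ∩ nb (sp (Fin.removeNth 1 u)) (δ ^ κ)) + μ (far u) :=
      measure_le_inter_add_sdiff μ _ _
    have e1 : δ ^ (p + ε) ≤ δ ^ (p + e) :=
      Real.rpow_le_rpow_of_exponent_ge hδ l0.le (by linarith)
    have e2 : δ ^ (p - g + κ) ≤ δ ^ (p + e) :=
      Real.rpow_le_rpow_of_exponent_ge hδ l0.le (by linarith)
    have e3 : δ ^ (p + e) = δ ^ (p + e / 2) * δ ^ (e / 2) := by
      rw [← Real.rpow_add hδ]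
      congr 1
      ring
    have e4 := h5 δ hδ l5
    have e5 : 0 < δ ^ (p + e / 2) := Real.rpow_pos_of_pos hδ _
    have e6 : δ ^ (p + ε) + δ ^ (p - g + κ) ≤ δ ^ (p + e / 2) := by nlinarith
    have : μ (nb (sp u) δ) ≤ ENNReal.ofReal (δ ^ (p + e / 2)) := by
      refine hsplit.trans ((add_le_add (c1 ha) (not_le.1 hc').le).trans ?_)
      rw [← ENNReal.ofReal_add (Real.rpow_pos_of_pos hδ _).le (Real.rpow_pos_of_pos hδ _).le]
      exact ENNReal.ofReal_le_ofReal e6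
    exact absurd hh (not_lt.2 this)
  have hb : ∀ a : ℝ, m ≤ a → ENNReal.ofReal (δ ^ a) ≤ ENNReal.ofReal (δ ^ m) := fun a ha =>
    ENNReal.ofReal_le_ofReal (Real.rpow_le_rpow_of_exponent_ge hδ l0.le ha)
  have hT : Measure.pi (fun _ : Fin (j + 2) => μ) {u | Fin.tail u ∈ B1} ≤
      ENNReal.ofReal (δ ^ m) := by
    rw [FS.pi_tail μ hB1m]
    exact hB1.trans (hb _ hm2)
  have hpos : 0 < δ ^ m := Real.rpow_pos_of_pos hδ _
  calc _ ≤ ENNReal.ofReal (δ ^ m) + (ENNReal.ofReal (δ ^ m) + (ENNReal.ofReal (δ ^ m) +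
        ((ENNReal.ofReal (δ ^ m) + ENNReal.ofReal (δ ^ m)) + ENNReal.ofReal (δ ^ m)))) := by
        refine (measure_mono hsub).trans ((measure_union_le _ _).trans
          (add_le_add (hNN.trans (hb _ hm1)) ((measure_union_le _ _).trans (add_le_add hT
            ((measure_union_le _ _).trans (add_le_add (hB2.trans (hb _ hm3))
              ((measure_union_le _ _).trans (add_le_add
                (hC.trans (add_le_add (hb _ hm4) (hb _ hm5))) (hRle.trans (hb _ hm6))))))))))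
    _ = ENNReal.ofReal (6 * δ ^ m) := by
        rw [ENNReal.ofReal_mul (by norm_num), ENNReal.ofReal_ofNat]
        ring
    _ ≤ ENNReal.ofReal (δ ^ (m / 2)) := by
        apply ENNReal.ofReal_le_ofReal
        have e3 : δ ^ m = δ ^ (m / 2) * δ ^ (m / 2) := by
          rw [← Real.rpow_add hδ]
          congr 1
          ring
        have e4 := h6 δ hδ l6
        have e5 : 0 < δ ^ (m / 2) := Real.rpow_pos_of_pos hδ _
        nlinarith

end chain

end Pool.Agent.P.MP_bf60a1_an.RA
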