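import Pool.Agent.P.MP_bf60a1_an.RA.Defs

/-! The nesting argument for flats through the origin. -/

namespace Pool.Agent.P.MP_bf60a1_an.RA

open MeasureTheory Metric Set Filter Topology

namespace Nest

variable {E : Type*} [NormedAddCommGroup E] [InnerProductSpace ℝ E]

theorem nb_open (V : Submodule ℝ E) (r : ℝ) : IsOpen (nb V r) := by
  have : nb V r = ⋃ v ∈ V, ball v r := by
    ext z; simp [nb, dist_eq_norm]
  rw [this]; exact isOpen_biUnion fun _ _ => isOpen_ball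

theorem nb_mono (V : Submodule ℝ E) {r r' : ℝ} (h : r ≤ r') : nb V r ⊆ nb V r' :=
  fun _ ⟨v, hv, hz⟩ => ⟨v, hv, hz.trans_le h⟩

theorem geom [FiniteDimensional ℝ E] {k : ℕ} (V V' : Submodule ℝ E)
    (hV' : Module.finrank ℝ V' ≤ k + 1) {t θ : ℝ} (ht : 0 < t) (htθ : t ≤ θ) (hθ : θ ≤ 1) :
    (∀ z ∈ nb V' t, ‖z‖ ≤ 1 → z ∈ nb V (t + 2 * θ)) ∨
      ∃ W : Submodule ℝ E, Module.finrank ℝ W ≤ k ∧ nb V t ∩ nb V' t ⊆ nb W (3 * t / θ) := by
  have hθ0 : 0 < θ := ht.trans_le htθ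
  by_cases h : ∀ u ∈ V', ‖u‖ = 1 → ∃ v ∈ V, ‖u - v‖ < θ
  · left
    rintro z ⟨v', hv', hz⟩ hz1
    by_cases h0 : v' = 0
    · exact ⟨0, V.zero_mem, by rw [h0] at hz; linarith⟩
    have hn : 0 < ‖v'‖ := norm_pos_iff.2 h0
    obtain ⟨v, hv, huv⟩ := h (‖v'‖⁻¹ • v') (V'.smul_mem _ hv') (norm_smul_inv_norm h0)
    have h2 : ‖v'‖ ≤ 2 := by
      have := norm_sub_norm_le v' z
      rw [norm_sub_rev] at this; linarith
    refine ⟨‖v'‖ • v, V.smul_mem _ hv, ?_⟩
    have e : z - ‖v'‖ • v = (z - v') + ‖v'‖ • (‖v'‖⁻¹ • v' - v) := by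
      rw [smul_sub, smul_inv_smul₀ hn.ne']; abel
    have h3 : ‖‖v'‖ • (‖v'‖⁻¹ • v' - v)‖ ≤ 2 * θ := by
      rw [norm_smul, norm_norm]; gcongr
    rw [e]; linarith [norm_add_le (z - v') (‖v'‖ • (‖v'‖⁻¹ • v' - v))]
  · right
    push Not at h
    obtain ⟨u, hu, hu1, hd⟩ := h
    set p := u - V.starProjection u with hp
    have hpθ : θ ≤ ‖p‖ := hd _ (V.starProjection_apply_mem u)
    have hp0 : 0 < ‖p‖ := hθ0.trans_le hpθ
    have hpV : ∀ v ∈ V, inner ℝ p v = 0 := fun v hv => V.starProjection_inner_eq_zero u v hv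
    have hpu : inner ℝ p u = ‖p‖ ^ 2 := by
      have : u = p + V.starProjection u := by rw [hp]; abel
      conv_lhs => rw [this, inner_add_right, hpV _ (V.starProjection_apply_mem u)]
      rw [add_zero, real_inner_self_eq_norm_sq]
    refine ⟨V' ⊓ LinearMap.ker (innerₛₗ ℝ p), ?_, ?_⟩
    · have : V' ⊓ LinearMap.ker (innerₛₗ ℝ p) < V' := by
        refine lt_of_le_of_ne inf_le_left fun he => ?_
        rw [← he] at hu
        have := hu.2
        simp only [SetLike.mem_coe, LinearMap.mem_ker, innerₛₗ_apply_apply, hpu] at this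
        exact (pow_pos hp0 2).ne' this
      have := Submodule.finrank_lt_finrank_of_lt this
      omega
    · rintro z ⟨⟨v, hv, hz⟩, ⟨v', hv', hz'⟩⟩
      refine ⟨v' - (inner ℝ p v' / ‖p‖ ^ 2) • u, ⟨V'.sub_mem hv' (V'.smul_mem _ hu), ?_⟩, ?_⟩
      · simp only [SetLike.mem_coe, LinearMap.mem_ker, innerₛₗ_apply_apply, inner_sub_right,
          inner_smul_right, hpu]
        field_simp; ring
      · have e1 : inner ℝ p v' = inner ℝ p (v' - v) := by rw [inner_sub_right, hpV v hv, sub_zero]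
        have e2 : ‖v' - v‖ ≤ 2 * t := by
          have := norm_sub_le_norm_sub_add_norm_sub v' z v
          rw [norm_sub_rev v' z] at this; linarith
        have e3 : |inner ℝ p v' / ‖p‖ ^ 2| ≤ 2 * t / θ := by
          rw [abs_div, abs_of_pos (pow_pos hp0 2), div_le_div_iff₀ (pow_pos hp0 2) hθ0, e1]
          have := abs_real_inner_le_norm p (v' - v)
          calc _ ≤ ‖p‖ * (2 * t) * ‖p‖ := by gcongr; exact this.trans (by gcongr)
            _ = _ := by ring
        have e : z - (v' - (inner ℝ p v' / ‖p‖ ^ 2) • u) =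
            (z - v') + (inner ℝ p v' / ‖p‖ ^ 2) • u := by abel
        have e4 := norm_add_le (z - v') ((inner ℝ p v' / ‖p‖ ^ 2) • u)
        rw [norm_smul, hu1, mul_one, Real.norm_eq_abs] at e4
        have e5 : t ≤ t / θ := by rw [le_div_iff₀ hθ0]; nlinarith
        have e6 : 3 * t / θ = t / θ + 2 * t / θ := by ring
        rw [e]; linarith

variable [MeasurableSpace E] [BorelSpace E] {μ : Measure E} [IsProbabilityMeasure μ]

theorem small_one [FiniteDimensional ℝ E] {V : Submodule ℝ E} (hV : μ V = 0) {ε : ENNReal}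
    (hε : 0 < ε) : ∃ ρ > (0 : ℝ), μ (nb V ρ) ≤ ε := by
  have h1 := tendsto_measure_iInter_atTop (μ := μ) (s := fun n : ℕ => nb V (1 / ((n : ℝ) + 1)))
    (fun n => (nb_open _ _).measurableSet.nullMeasurableSet)
    (fun a b hab => nb_mono V (Nat.one_div_le_one_div hab)) ⟨0, measure_ne_top _ _⟩
  have h2 : μ (⋂ n : ℕ, nb V (1 / ((n : ℝ) + 1))) = 0 := by
    refine measure_mono_null (fun z hz => ?_) hV
    rw [← V.closed_of_finiteDimensional.closure_eq, Metric.mem_closure_iff]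
    intro e he
    obtain ⟨n, hn⟩ := exists_nat_one_div_lt he
    obtain ⟨v, hv, hz⟩ := mem_iInter.1 hz n
    exact ⟨v, hv, by rw [dist_eq_norm]; linarith⟩
  rw [h2] at h1
  obtain ⟨n, hn⟩ := (h1.eventually (ge_mem_nhds hε)).exists
  exact ⟨_, Nat.one_div_pos_of_nat, hn⟩

theorem small_dim [FiniteDimensional ℝ E] (hμ : ∀ᵐ z ∂μ, ‖z‖ ≤ 1) {m : ℕ}
    (hnull : ∀ V : Submodule ℝ E, Module.finrank ℝ V ≤ m → μ V = 0) {ε : ENNReal} (hε : 0 < ε) :
    ∀ᶠ r in 𝓝 (0 : ℝ), ∀ V : Submodule ℝ E, Module.finrank ℝ V = m → μ (nb V r) ≤ ε := by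
  have hK : IsCompact (closedBall (0 : Fin m → E) 1) := isCompact_closedBall _ _
  have := hK.eventually_forall_of_forall_eventually (x₀ := (0 : ℝ))
    (P := fun r u => μ {z | ∃ c : Fin m → ℝ, (∀ i, |c i| ≤ 2) ∧ ‖z - ∑ i, c i • u i‖ < r} ≤ ε) ?_
  · filter_upwards [this, ge_mem_nhds (zero_lt_one' ℝ)] with r hr hr1 V hV
    let b := (stdOrthonormalBasis ℝ V).reindex (finCongr hV)
    refine le_trans (measure_mono_ae ?_) (hr (fun i => (b i : E)) ?_)
    · filter_upwards [hμ] with z hz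
      rintro ⟨v, hv, hzv⟩
      refine ⟨fun i => inner ℝ (b i) ⟨v, hv⟩, fun i => ?_, ?_⟩
      · have h1 := abs_real_inner_le_norm (b i) ⟨v, hv⟩
        rw [b.orthonormal.1 i, one_mul] at h1
        have h2 := norm_sub_norm_le v z
        rw [norm_sub_rev] at h2
        have h3 : ‖(⟨v, hv⟩ : V)‖ = ‖v‖ := rfl
        linarith
      · have h1 := congrArg Subtype.val (b.sum_repr' ⟨v, hv⟩)
        simp only [AddSubmonoidClass.coe_finsetSum, SetLike.val_smul] at h1
        rw [h1]; exact hzv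
    · rw [mem_closedBall_zero_iff, pi_norm_le_iff_of_nonneg zero_le_one]
      exact fun i => (b.orthonormal.1 i).le
  · intro u _
    obtain ⟨ρ, hρ, h⟩ := small_one (hnull (Submodule.span ℝ (range u))
      ((finrank_range_le_card u).trans (by simp))) hε
    have hm : (0 : ℝ) < 4 * m + 1 := by positivity
    have h1 : ∀ᶠ z : ℝ × (Fin m → E) in 𝓝 (0, u), z.1 < ρ / 2 :=
      (continuous_fst.tendsto _).eventually (gt_mem_nhds (by simpa using hρ))
    have h2 : ∀ᶠ z : ℝ × (Fin m → E) in 𝓝 (0, u), z.2 ∈ closedBall u (ρ / (4 * m + 1)) :=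
      (continuous_snd.tendsto _).eventually (closedBall_mem_nhds u (by positivity))
    filter_upwards [h1, h2] with z h1 h2
    refine le_trans (measure_mono ?_) h
    rintro x ⟨c, hc, hx⟩
    refine ⟨∑ i, c i • u i, Submodule.sum_mem _ fun i _ => Submodule.smul_mem _ _
      (Submodule.subset_span ⟨i, rfl⟩), ?_⟩
    have h3 : ‖∑ i, c i • z.2 i - ∑ i, c i • u i‖ ≤ m * (2 * (ρ / (4 * m + 1))) := by
      rw [← Finset.sum_sub_distrib]
      refine (norm_sum_le _ _).trans ((Finset.sum_le_card_nsmul _ _ (2 * (ρ / (4 * m + 1)))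
        fun i _ => ?_).trans (by simp))
      rw [← smul_sub, norm_smul, Real.norm_eq_abs]
      rw [mem_closedBall, dist_eq_norm] at h2
      have := (norm_le_pi_norm (z.2 - u) i).trans h2
      exact mul_le_mul (hc i) this (norm_nonneg _) zero_le_two
    have h4 : m * (2 * (ρ / (4 * m + 1))) ≤ ρ / 2 := by
      rw [← mul_assoc, ← mul_div_assoc, div_le_div_iff₀ hm two_pos]; nlinarith
    linarith [norm_sub_le_norm_sub_add_norm_sub x (∑ i, c i • z.2 i) (∑ i, c i • u i)]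

theorem small [FiniteDimensional ℝ E] (hμ : ∀ᵐ z ∂μ, ‖z‖ ≤ 1) {m : ℕ}
    (hnull : ∀ V : Submodule ℝ E, Module.finrank ℝ V ≤ m → μ V = 0) {ε : ENNReal} (hε : 0 < ε) :
    ∀ᶠ r in 𝓝 (0 : ℝ), ∀ V : Submodule ℝ E, Module.finrank ℝ V ≤ m → μ (nb V r) ≤ ε := by
  have := (Finset.range (m + 1)).eventually_all.2 fun j hj => small_dim hμ (m := j)
    (fun V hV => hnull V (by have := Finset.mem_range.1 hj; omega)) hε
  filter_upwards [this] with r hr V hV
  exact hr _ (Finset.mem_range.2 (by omega)) V rfl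

omit [InnerProductSpace ℝ E] [BorelSpace E] [NormedAddCommGroup E] in
theorem union_ge {ι : Type*} (A : ι → Set E) (hA : ∀ i, MeasurableSet (A i)) {h p : ℝ}
    (hp : 0 ≤ p) (s : Finset ι) (h1 : ∀ i ∈ s, h ≤ μ.real (A i))
    (h2 : ∀ i ∈ s, ∀ j ∈ s, i ≠ j → μ.real (A i ∩ A j) ≤ p) :
    s.card * h - s.card ^ 2 * p / 2 ≤ μ.real (⋃ i ∈ s, A i) := by
  classical
  induction s using Finset.induction_on with
  | empty => simp
  | insert a s ha ih =>
    have ih := ih (fun i hi => h1 i (Finset.mem_insert_of_mem hi))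
      fun i hi j hj => h2 i (Finset.mem_insert_of_mem hi) j (Finset.mem_insert_of_mem hj)
    rw [Finset.set_biUnion_insert, Finset.card_insert_of_notMem ha]
    have e := measureReal_union_add_inter (μ := μ) (s := A a) (t := ⋃ i ∈ s, A i)
      (Finset.measurableSet_biUnion _ fun i _ => hA i) (measure_ne_top _ _) (measure_ne_top _ _)
    have e2 : μ.real (A a ∩ ⋃ i ∈ s, A i) ≤ s.card * p := by
      rw [inter_iUnion₂]
      refine (measureReal_biUnion_finset_le _ _).trans ((Finset.sum_le_card_nsmul _ _ p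
        fun i hi => h2 a (Finset.mem_insert_self _ _) i (Finset.mem_insert_of_mem hi)
          fun he => ha (he ▸ hi)).trans (by simp))
    have := h1 a (Finset.mem_insert_self _ _)
    push_cast; nlinarith

omit [InnerProductSpace ℝ E] [BorelSpace E] [NormedAddCommGroup E] in
theorem card_le {ι : Type*} (A : ι → Set E) (hA : ∀ i, MeasurableSet (A i)) {h : ℝ}
    (h0 : 0 < h) (h1' : h ≤ 1) (s : Finset ι) (h1 : ∀ i ∈ s, h ≤ μ.real (A i))
    (h2 : ∀ i ∈ s, ∀ j ∈ s, i ≠ j → μ.real (A i ∩ A j) ≤ h ^ 2 / 5) :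
    s.card < ⌈2 / h⌉₊ := by
  by_contra hc
  obtain ⟨s', hs, hc⟩ := Finset.exists_subset_card_eq (not_lt.1 hc)
  have := (union_ge A hA (by positivity) s' (fun i hi => h1 i (hs hi))
    fun i hi j hj => h2 i (hs hi) j (hs hj)).trans measureReal_le_one
  have a1 : 2 / h ≤ s'.card := hc ▸ Nat.le_ceil _
  have a2 : (s'.card : ℝ) < 2 / h + 1 := hc ▸ Nat.ceil_lt_add_one (by positivity)
  rw [div_le_iff₀ h0] at a1
  rw [div_add_one h0.ne', lt_div_iff₀ h0] at a2
  nlinarith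

/-- one step of the nesting argument -/
theorem step [FiniteDimensional ℝ E] {k : ℕ} {t T h H : ℝ} (ht : 0 < t) (htT : 3 * t ≤ T)
    (hT : T ≤ 1) (h0 : 0 < h) (h1 : h ≤ 1) (hH : 0 ≤ H)
    (hW : ∀ W : Submodule ℝ E, Module.finrank ℝ W ≤ k → μ.real (nb W (9 * t / T)) ≤ h ^ 2 / 5) :
    ∃ D : Set (E × E), MeasurableSet D ∧ (μ.prod μ).real D ≤ 2 * H ^ 2 / h ∧
      ∀ x y, ‖x‖ ≤ 1 → ‖y‖ ≤ 1 → (x, y) ∉ D →
      (∀ V : Submodule ℝ E, Module.finrank ℝ V ≤ k + 1 → x ∈ nb V T → y ∈ nb V T →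
        μ.real (nb V T) ≤ H) →
      ∀ V : Submodule ℝ E, Module.finrank ℝ V ≤ k + 1 → x ∈ nb V t → y ∈ nb V t →
        μ.real (nb V t) ≤ h := by
  classical
  let P : Finset (Submodule ℝ E) → Prop := fun s =>
    (∀ V ∈ s, Module.finrank ℝ V ≤ k + 1 ∧ h ≤ μ.real (nb V t)) ∧
      ∀ V ∈ s, ∀ V' ∈ s, V ≠ V' → μ.real (nb V t ∩ nb V' t) ≤ h ^ 2 / 5
  have hP : ∀ s, P s → s.card < ⌈2 / h⌉₊ := fun s hs => card_le (fun V => nb V t)
    (fun V => (nb_open V t).measurableSet) h0 h1 s (fun V hV => (hs.1 V hV).2) hs.2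
  obtain ⟨s, hs, hmax⟩ : ∃ s, P s ∧ ∀ s', P s' → s'.card ≤ s.card := by
    have hb : BddAbove (Finset.card '' {s | P s}) :=
      ⟨_, by rintro _ ⟨s, hs, rfl⟩; exact (hP s hs).le⟩
    obtain ⟨s, hs, he⟩ := Nat.sSup_mem (s := Finset.card '' {s | P s})
      ⟨_, ∅, by simp [P], rfl⟩ hb
    exact ⟨s, hs, fun s' hs' => he ▸ le_csSup hb ⟨s', hs', rfl⟩⟩
  have key : ∀ V : Submodule ℝ E, Module.finrank ℝ V ≤ k + 1 → h ≤ μ.real (nb V t) →
      ∃ V' ∈ s, ∀ z ∈ nb V t, ‖z‖ ≤ 1 → z ∈ nb V' T := by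
    intro V hV hh
    by_cases hVs : V ∈ s
    · exact ⟨V, hVs, fun z hz _ => nb_mono V (by linarith) hz⟩
    by_contra hc
    have hc' : ∀ V' ∈ s, μ.real (nb V' t ∩ nb V t) ≤ h ^ 2 / 5 := by
      intro V' hV'
      rcases geom V' V hV (θ := T / 3) ht (by linarith) (by linarith) with h' | ⟨W, hW', h'⟩
      · exact (hc ⟨V', hV', fun z hz hz1 => nb_mono V' (by linarith) (h' z hz hz1)⟩).elim
      · refine (measureReal_mono (h'.trans (nb_mono W (le_of_eq ?_)))).trans (hW W hW')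
        have : T ≠ 0 := by intro h; linarith
        field_simp; ring
    have := hmax (insert V s) ⟨by
      intro V' hV'
      rcases Finset.mem_insert.1 hV' with rfl | hV'
      exacts [⟨hV, hh⟩, hs.1 V' hV'], by
      intro V₁ h₁ V₂ h₂ hne
      rcases Finset.mem_insert.1 h₁ with rfl | h₁ <;> rcases Finset.mem_insert.1 h₂ with h₂ | h₂
      · exact (hne h₂.symm).elim
      · rw [inter_comm]; exact hc' _ h₂
      · rw [h₂]; exact hc' _ h₁
      · exact hs.2 _ h₁ _ h₂ hne⟩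
    rw [Finset.card_insert_of_notMem hVs] at this
    omega
  refine ⟨⋃ V ∈ s.filter fun V => μ.real (nb V T) ≤ H, nb V T ×ˢ nb V T,
    Finset.measurableSet_biUnion _ fun V _ =>
      (nb_open V T).measurableSet.prod (nb_open V T).measurableSet, ?_, ?_⟩
  · refine (measureReal_biUnion_finset_le _ _).trans ((Finset.sum_le_card_nsmul _ _ (H ^ 2)
      fun V hV => ?_).trans ?_)
    · rw [measureReal_prod_prod, sq]
      have := (Finset.mem_filter.1 hV).2
      exact mul_le_mul this this measureReal_nonneg hH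
    · have a1 : ((s.filter fun V => μ.real (nb V T) ≤ H).card : ℝ) ≤ 2 / h :=
        (Nat.lt_ceil.1 ((Finset.card_filter_le _ _).trans_lt (hP s hs))).le
      rw [nsmul_eq_mul]
      calc _ ≤ 2 / h * H ^ 2 := by gcongr
        _ = _ := by ring
  · intro x y hx hy hD hI V hV hxV hyV
    by_contra hc
    obtain ⟨V', hV', h'⟩ := key V hV (not_le.1 hc).le
    exact hD (mem_biUnion (Finset.mem_coe.2 (Finset.mem_filter.2 ⟨hV', hI V' (hs.1 V' hV').1
      (h' x hxV hx) (h' y hyV hy)⟩)) ⟨h' x hxV hx, h' y hyV hy⟩)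

/-- exponents -/
def ex : ℕ → ℕ
  | 0 => 4
  | i + 1 => ex i + ex i / 2

theorem ex_ge (i : ℕ) : 2 * i + 4 ≤ ex i := by
  induction i with
  | zero => simp [ex]
  | succ i ih => simp only [ex]; omega

end Nest

open Nest

variable {D : ℕ} {μ : Measure (EuclideanSpace ℝ (Fin D))} [IsProbabilityMeasure μ]

theorem nest (hμ : ∀ᵐ z ∂μ, ‖z‖ ≤ 1) {k : ℕ} {σ C : ℝ} (hσ : 0 < σ)
    (hW : ∀ W : Submodule ℝ (EuclideanSpace ℝ (Fin D)), Module.finrank ℝ W ≤ k → ∀ r, 0 < r →
      μ (nb W r) ≤ ENNReal.ofReal (C * r ^ σ))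
    (hnull : ∀ V : Submodule ℝ (EuclideanSpace ℝ (Fin D)), Module.finrank ℝ V ≤ k + 1 →
      μ V = 0) :
    ∃ β > (0 : ℝ), ∃ τ > (0 : ℝ),
      ∃ G : Set (EuclideanSpace ℝ (Fin D) × EuclideanSpace ℝ (Fin D)),
      MeasurableSet G ∧ (μ.prod μ) G ≠ 0 ∧ ∀ x y, (x, y) ∈ G →
        ∀ V : Submodule ℝ (EuclideanSpace ℝ (Fin D)), Module.finrank ℝ V ≤ k + 1 → x ∈ V → y ∈ V →
        ∀ r, 0 < r → r < τ → μ (nb V r) ≤ ENNReal.ofReal (r ^ β) := by
  set η : ℝ := 1 / 4 with hη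
  have hη0 : 0 < η := by norm_num [hη]
  have hη1 : η < 1 := by norm_num [hη]
  set K := max 1 (5 * C * 9 ^ σ) with hK
  have hK1 : 1 ≤ K := le_max_left _ _
  have e1 := small hμ hnull (ε := ENNReal.ofReal (η ^ 4)) (by simp; positivity)
  have e2 : ∀ᶠ r in 𝓝 (0 : ℝ), K * r ^ σ < η ^ 8 := by
    have : Tendsto (fun r : ℝ => K * r ^ σ) (𝓝 0) (𝓝 (K * 0 ^ σ)) :=
      ((Real.continuous_rpow_const hσ.le).tendsto 0).const_mul K
    rw [Real.zero_rpow hσ.ne', mul_zero] at this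
    exact this.eventually (gt_mem_nhds (by positivity))
  obtain ⟨ρ, ⟨⟨h1, h2⟩, h3⟩, h0⟩ := (((e1.and e2).and (ge_mem_nhds (by norm_num : (0 : ℝ) < 1 / 3)))
    |>.filter_mono nhdsWithin_le_nhds |>.and (self_mem_nhdsWithin (s := Ioi (0 : ℝ)))).exists
  replace h0 : 0 < ρ := h0
  have hρ1 : ρ < 1 := by linarith
  have hst := fun i : ℕ => step (μ := μ) (k := k) (t := ρ ^ ex (i + 1)) (T := ρ ^ ex i)
    (h := η ^ ex (i + 1)) (H := η ^ ex i) (by positivity) (by
      have := ex_ge i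
      have a : ρ ^ (ex i / 2) ≤ ρ := pow_le_of_le_one h0.le hρ1.le (by omega)
      have b : 0 < ρ ^ ex i := by positivity
      simp only [ex, pow_add]; nlinarith) (pow_le_one₀ h0.le hρ1.le) (by positivity)
    (pow_le_one₀ hη0.le hη1.le) (by positivity) (by
      intro W hWk
      have hi := ex_ge i
      have a : 9 * ρ ^ ex (i + 1) / ρ ^ ex i = 9 * ρ ^ (ex i / 2) := by
        simp only [ex, pow_add]; field_simp
      rw [a]
      refine ENNReal.toReal_le_of_le_ofReal (by positivity) ((hW W hWk _ (by positivity)).trans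
        (ENNReal.ofReal_le_ofReal ?_))
      rw [Real.mul_rpow (by norm_num) (by positivity), ← Real.rpow_pow_comm h0.le,
        le_div_iff₀ (by norm_num)]
      have hs : 0 < ρ ^ σ := by positivity
      calc C * (9 ^ σ * (ρ ^ σ) ^ (ex i / 2)) * 5 = 5 * C * 9 ^ σ * (ρ ^ σ) ^ (ex i / 2) := by ring
        _ ≤ K ^ (ex i / 2) * (ρ ^ σ) ^ (ex i / 2) := by
          gcongr
          exact (le_max_right _ _).trans (le_self_pow₀ hK1 (by omega))
        _ ≤ (η ^ 8) ^ (ex i / 2) := by rw [← mul_pow]; gcongr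
        _ ≤ _ := by
          rw [← pow_mul, ← pow_mul]
          exact pow_le_pow_of_le_one hη0.le hη1.le (by simp only [ex]; omega))
  choose Dd hDm hDle hD using hst
  have hlog : Real.log ρ < 0 := Real.log_neg h0 hρ1
  have hlη : Real.log η < 0 := Real.log_neg hη0 hη1
  refine ⟨Real.log η / (2 * Real.log ρ), div_pos_of_neg_of_neg hlη (by linarith), ρ ^ ex 0,
    by positivity, closedBall 0 1 ×ˢ closedBall 0 1 \ ⋃ i, Dd i,
    (measurableSet_closedBall.prod measurableSet_closedBall).diff (MeasurableSet.iUnion hDm),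
    fun hz => ?_, ?_⟩
  · have b1 : μ (closedBall 0 1) = 1 := by
      rw [← prob_compl_eq_zero_iff measurableSet_closedBall]
      exact measure_mono_null (fun z hz => by simpa using hz) hμ
    have b2 := measure_le_inter_add_sdiff (μ.prod μ) (closedBall 0 1 ×ˢ closedBall 0 1) (⋃ i, Dd i)
    rw [hz, add_zero, Measure.prod_prod, b1, mul_one] at b2
    have b3 : ∀ i, (μ.prod μ) (Dd i) ≤ ENNReal.ofReal (1 / 4 * (1 / 2) ^ i) := fun i => by
      rw [← ENNReal.ofReal_toReal (measure_ne_top (μ.prod μ) (Dd i))]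
      refine ENNReal.ofReal_le_ofReal ((hDle i).trans ?_)
      have hi := ex_ge i
      have a : (η ^ ex i) ^ 2 ≤ η ^ (i + 2) * η ^ ex (i + 1) := by
        rw [← pow_mul, ← pow_add]
        exact pow_le_pow_of_le_one hη0.le hη1.le (by simp only [ex]; omega)
      have b : η ^ i ≤ (1 / 2) ^ i := by gcongr; norm_num [hη]
      have c : 0 < η ^ i := by positivity
      rw [div_le_iff₀ (by positivity)]
      calc _ ≤ 2 * (η ^ (i + 2) * η ^ ex (i + 1)) := by gcongr
        _ = 2 * η ^ 2 * η ^ i * η ^ ex (i + 1) := by ring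
        _ ≤ _ := by gcongr; norm_num [hη]
    have b4 := b2.trans ((measure_mono inter_subset_right).trans ((measure_iUnion_le _).trans
      (ENNReal.tsum_le_tsum b3)))
    rw [← ENNReal.ofReal_tsum_of_nonneg (fun i => by positivity)
      (summable_geometric_two.mul_left _), tsum_mul_left, tsum_geometric_two,
      ENNReal.one_le_ofReal] at b4
    norm_num at b4
  · rintro x y ⟨⟨hx, hy⟩, hG⟩ V hV hxV hyV r hr hrτ
    rw [mem_closedBall_zero_iff] at hx hy
    have ind : ∀ i, ∀ V : Submodule ℝ (EuclideanSpace ℝ (Fin D)), Module.finrank ℝ V ≤ k + 1 →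
        x ∈ nb V (ρ ^ ex i) → y ∈ nb V (ρ ^ ex i) → μ.real (nb V (ρ ^ ex i)) ≤ η ^ ex i := by
      intro i
      induction i with
      | zero =>
        intro V hV _ _
        exact ENNReal.toReal_le_of_le_ofReal (by positivity) ((measure_mono (nb_mono V
          (pow_le_of_le_one h0.le hρ1.le (by simp [ex])))).trans (h1 V hV))
      | succ i ih => exact hD i x y hx hy (fun h => hG (mem_iUnion.2 ⟨i, h⟩)) ih
    have hex : ∃ i, ρ ^ ex i ≤ r := by
      obtain ⟨n, hn⟩ := exists_pow_lt_of_lt_one hr hρ1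
      exact ⟨n, (pow_le_pow_of_le_one h0.le hρ1.le (by have := ex_ge n; omega)).trans hn.le⟩
    obtain ⟨i, hi⟩ : ∃ i, Nat.find hex = i + 1 := Nat.exists_eq_add_one.2 (Nat.pos_of_ne_zero
      fun h => by have := Nat.find_spec hex; rw [h] at this; linarith)
    have c1 : ρ ^ ex (i + 1) ≤ r := hi ▸ Nat.find_spec hex
    have c2 : r < ρ ^ ex i := not_le.1 (Nat.find_min hex (by omega))
    have c3 : ∀ z ∈ V, z ∈ nb V (ρ ^ ex i) := fun z hz => ⟨z, hz, by simp; positivity⟩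
    refine (measure_mono (nb_mono V c2.le)).trans ?_
    rw [← ENNReal.ofReal_toReal (measure_ne_top μ _)]
    refine ENNReal.ofReal_le_ofReal ((ind i V hV (c3 x hxV) (c3 y hyV)).trans ?_)
    have c4 : (ρ ^ 2) ^ (Real.log η / (2 * Real.log ρ)) = η := by
      rw [Real.rpow_def_of_pos (by positivity), Real.log_pow, ← Real.exp_log hη0, Real.log_exp]
      congr 1
      have := hlog.ne
      push_cast; field_simp
    calc η ^ ex i = ((ρ ^ 2) ^ ex i) ^ (Real.log η / (2 * Real.log ρ)) := by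
          rw [← Real.rpow_pow_comm (by positivity), c4]
      _ ≤ _ := by
          refine Real.rpow_le_rpow (by positivity) (le_trans ?_ c1)
            (div_pos_of_neg_of_neg hlη (by linarith)).le
          rw [← pow_mul]
          exact pow_le_pow_of_le_one h0.le hρ1.le (by simp only [ex]; omega)

end Pool.Agent.P.MP_bf60a1_an.RA
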