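import Mathlib
import Pool.Agent.P.MP_bf60a1_an.RA.Defs

/-! The supremum argument and the Borel-Cantelli step of the thin-flat chain. -/

namespace Pool.Agent.P.MP_bf60a1_an.RA

open MeasureTheory Metric Set Finset

section chain
variable {D : ℕ} {μ : Measure (EuclideanSpace ℝ (Fin D))} [IsProbabilityMeasure μ]
  {G : Set (EuclideanSpace ℝ (Fin D) × EuclideanSpace ℝ (Fin D))}

omit [IsProbabilityMeasure μ] in
theorem seq_S_of_empty {j : ℕ} {p δ₀ : ℝ} (hδ₀ : 0 < δ₀)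
    (h : ∀ δ : ℝ, 0 < δ → δ < δ₀ → ∀ u : Fin (j + 1) → EuclideanSpace ℝ (Fin D), adm G u →
      μ (nb (sp u) δ) ≤ ENNReal.ofReal (δ ^ p)) : S μ G j p := by
  refine ⟨1, one_pos, δ₀, hδ₀, fun δ h0 h1 => ?_⟩
  have : {u : Fin (j + 1) → EuclideanSpace ℝ (Fin D) |
      adm G u ∧ ENNReal.ofReal (δ ^ p) < μ (nb (sp u) δ)} = ∅ := by
    ext u
    simp only [Set.mem_ofPred_eq, Set.mem_empty_iff_false, iff_false, not_and, not_lt]
    exact h δ h0 h1 u
  rw [this, measure_empty]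
  exact zero_le

theorem seq_S_zero (j : ℕ) : S μ G j 0 := by
  refine seq_S_of_empty one_pos fun δ _ _ u _ => ?_
  simp only [Real.rpow_zero, ENNReal.ofReal_one]
  exact prob_le_one

omit [IsProbabilityMeasure μ] in
theorem seq_S_mono {j : ℕ} {p q : ℝ} (hpq : p ≤ q) (h : S μ G j q) : S μ G j p := by
  obtain ⟨η, hη, δ₀, hδ₀, h⟩ := h
  refine ⟨η, hη, min δ₀ 1, lt_min hδ₀ one_pos, fun δ h0 h1 => ?_⟩
  refine le_trans (measure_mono ?_) (h δ h0 (h1.trans_le (min_le_left _ _)))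
  rintro u ⟨hu, hu'⟩
  refine ⟨hu, lt_of_le_of_lt (ENNReal.ofReal_le_ofReal ?_) hu'⟩
  exact Real.rpow_le_rpow_of_exponent_ge h0 (h1.trans_le (min_le_right _ _)).le hpq

theorem nb_mono_seq {F : Type*} [NormedAddCommGroup F] [NormedSpace ℝ F] (V : Submodule ℝ F)
    {r r' : ℝ} (h : r ≤ r') : nb V r ⊆ nb V r' := by
  rintro z ⟨v, hv, hz⟩
  exact ⟨v, hv, hz.trans_le h⟩

omit [IsProbabilityMeasure μ] in
theorem seq_S_level_zero {s C q : ℝ} (hq : q < s)
    (h0 : ∀ (u : EuclideanSpace ℝ (Fin D)) (r : ℝ), 0 < r →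
      μ (nb (Submodule.span ℝ {u}) r) ≤ ENNReal.ofReal (C * r ^ s)) : S μ G 0 q := by
  have hC : 0 < max C 1 := lt_of_lt_of_le one_pos (le_max_right _ _)
  have hd : 0 < s - q := sub_pos.2 hq
  refine seq_S_of_empty (δ₀ := (max C 1)⁻¹ ^ (s - q)⁻¹) (Real.rpow_pos_of_pos (inv_pos.2 hC) _)
    fun δ hδ hδ' u _ => ?_
  have hsp : sp u = Submodule.span ℝ {u 0} := by
    unfold sp
    congr 1
    ext z
    simp only [Set.mem_range, Set.mem_singleton_iff]
    constructor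
    · rintro ⟨i, rfl⟩
      rw [Fin.fin_one_eq_zero i]
    · rintro rfl
      exact ⟨0, rfl⟩
  rw [hsp]
  refine (h0 _ δ hδ).trans (ENNReal.ofReal_le_ofReal ?_)
  have h1 : δ ^ (s - q) ≤ (max C 1)⁻¹ := by
    have := Real.rpow_le_rpow hδ.le hδ'.le hd.le
    rwa [← Real.rpow_mul (inv_pos.2 hC).le, inv_mul_cancel₀ hd.ne', Real.rpow_one] at this
  have h2 : δ ^ s = δ ^ (s - q) * δ ^ q := by
    rw [← Real.rpow_add hδ]
    congr 1
    ring
  have h3 : 0 < δ ^ q := Real.rpow_pos_of_pos hδ _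
  have h4 : 0 < δ ^ (s - q) := Real.rpow_pos_of_pos hδ _
  have h5 : C * δ ^ (s - q) ≤ 1 := by
    calc C * δ ^ (s - q) ≤ max C 1 * δ ^ (s - q) :=
          mul_le_mul_of_nonneg_right (le_max_left _ _) h4.le
      _ ≤ max C 1 * (max C 1)⁻¹ := mul_le_mul_of_nonneg_left h1 hC.le
      _ = 1 := mul_inv_cancel₀ hC.ne'
  rw [h2, ← mul_assoc]
  nlinarith

/-- the supremum argument -/
theorem seq_S_one {k : ℕ} (hk : 1 ≤ k) {s β p : ℝ} (hβ : 0 < β) (hp : 0 ≤ p) (hps : p < s)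
    (hpk : p < k) (h0 : ∀ q < s, S μ G 0 q) (hb : ∀ j, j + 1 ≤ k → S μ G (j + 1) β)
    (hconc : ∀ (j : ℕ) (p p₁ p₂ : ℝ), 0 < p → p < p₁ → 0 ≤ p₂ → 2 * p < p₁ + p₂ →
      S μ G j p₁ → (∀ v < p, S μ G (j + 1) v) → S μ G (j + 2) p₂ → ∃ p' > p, S μ G (j + 1) p')
    (hf : ∀ (j k : ℕ) (p p₁ : ℝ), (k : ℝ) < p → p < k + 1 → p < p₁ → S μ G j p₁ →
      (∀ v < p, S μ G (j + 1) v) → ∃ p' > p, S μ G (j + 1) p') : S μ G 1 p := by
  have hs : 0 < s := hp.trans_lt hps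
  set A : ℕ → Set ℝ := fun j => {q | 0 ≤ q ∧ q ≤ s ∧ S μ G j q} with hA
  have hne : ∀ j, (A j).Nonempty := fun j => ⟨0, le_rfl, hs.le, seq_S_zero j⟩
  have hbd : ∀ j, BddAbove (A j) := fun j => ⟨s, fun q hq => hq.2.1⟩
  set P : ℕ → ℝ := fun j => sSup (A j) with hP
  have hPs : ∀ j, P j ≤ s := fun j => csSup_le (hne j) fun q hq => hq.2.1
  have hlt : ∀ j v, v < P j → S μ G j v := by
    intro j v hv
    obtain ⟨q, hq, hvq⟩ := exists_lt_of_lt_csSup (hne j) hv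
    exact seq_S_mono hvq.le hq.2.2
  have hge : ∀ j q, 0 ≤ q → S μ G j q → min q s ≤ P j := by
    intro j q hq h
    exact le_csSup (hbd j) ⟨le_min hq hs.le, min_le_right _ _, seq_S_mono (min_le_left _ _) h⟩
  have hP0 : ∀ j, 0 ≤ P j := fun j => le_csSup (hbd j) ⟨le_rfl, hs.le, seq_S_zero j⟩
  have hPz : P 0 = s := by
    refine le_antisymm (hPs 0) (le_of_forall_lt_imp_le_of_dense fun q hq => ?_)
    rcases le_or_gt 0 q with h | h
    · have := hge 0 q h (h0 q hq)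
      rwa [min_eq_left hq.le] at this
    · exact h.le.trans (hP0 0)
  have hpos : ∀ j, j + 1 ≤ k → 0 < P (j + 1) := fun j hj =>
    (lt_min hβ hs).trans_le (hge _ β hβ.le (hb j hj))
  have hno : ∀ j, P (j + 1) < P j → ¬ ∃ p' > P (j + 1), S μ G (j + 1) p' := by
    rintro j hj ⟨p', hp', h⟩
    have := hge _ p' ((hP0 _).trans hp'.le) h
    exact absurd this (not_le.2 (lt_min hp' (hj.trans_le (hPs j))))
  by_contra hcon
  have h1 : P 1 ≤ p := not_lt.1 fun h => hcon (hlt 1 p h)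
  have hint : ∀ j, j + 1 ≤ k → P (j + 1) < P j → ∃ n : ℕ, P (j + 1) = n := by
    intro j hj hlt'
    by_contra hn
    have hfl : (⌊P (j + 1)⌋₊ : ℝ) < P (j + 1) :=
      lt_of_le_of_ne (Nat.floor_le (hP0 _)) fun h => hn ⟨_, h.symm⟩
    refine hno j hlt' (hf j ⌊P (j + 1)⌋₊ (P (j + 1)) ((P (j + 1) + P j) / 2) hfl
      (Nat.lt_floor_add_one _) (by linarith) (hlt _ _ (by linarith)) (hlt _))
  have hdec : ∀ j, j + 1 ≤ k → P (j + 1) < P j := by
    intro j
    induction j with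
    | zero =>
      intro _
      rw [hPz]
      exact h1.trans_lt hps
    | succ j ih =>
      intro hj
      have ih' := ih (by omega)
      by_contra hc
      push Not at hc
      set e := (P j - P (j + 1)) / 4 with he
      have he0 : 0 < e := by rw [he]; linarith
      refine hno j ih' (hconc j (P (j + 1)) (P j - e) (max 0 (P (j + 2) - e))
        (hpos j (by omega)) (by rw [he]; linarith) (le_max_left _ _) ?_
        (hlt _ _ (by linarith)) (hlt _) ?_)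
      · have := le_max_right 0 (P (j + 2) - e)
        have hc' : P (j + 1) ≤ P (j + 2) := hc
        rw [he] at this ⊢
        linarith
      · rcases le_total 0 (P (j + 2) - e) with h | h
        · rw [max_eq_right h]
          exact hlt _ _ (by linarith)
        · rw [max_eq_left h]
          exact seq_S_zero _
  have hstep : ∀ j, j + 1 ≤ k → P (j + 1) ≤ P 1 - j := by
    intro j
    induction j with
    | zero => intro _; simp
    | succ j ih =>
      intro hj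
      have ih' := ih (by omega)
      obtain ⟨a, ha⟩ := hint j (by omega) (hdec j (by omega))
      obtain ⟨b, hb'⟩ := hint (j + 1) hj (hdec _ hj)
      have hd := hdec _ hj
      rw [ha, hb'] at hd
      have hd' : b + 1 ≤ a := by exact_mod_cast hd
      have hd'' : (b : ℝ) + 1 ≤ a := by exact_mod_cast hd'
      rw [hb']
      rw [ha] at ih'
      push_cast
      linarith
  obtain ⟨j, rfl⟩ : ∃ j, k = j + 1 := ⟨k - 1, by omega⟩
  obtain ⟨a, ha⟩ := hint j le_rfl (hdec j le_rfl)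
  have h2 := hstep j le_rfl
  have h3 := hpos j le_rfl
  rw [ha] at h2 h3
  have h4 : 1 ≤ a := by exact_mod_cast h3
  have h5 : (1 : ℝ) ≤ a := by exact_mod_cast h4
  push_cast at hpk
  linarith

/-- the Borel-Cantelli step -/
theorem seq_thin_of_S (hG : MeasurableSet G) (hG0 : (μ.prod μ) G ≠ 0) {p : ℝ} (hp : 0 ≤ p)
    (h : S μ G 1 p) :
    ∃ (G : Set (EuclideanSpace ℝ (Fin D) × EuclideanSpace ℝ (Fin D))) (C' : ℝ),
      MeasurableSet G ∧ (μ.prod μ) G ≠ 0 ∧ ∀ x y, (x, y) ∈ G → ∀ r, 0 < r →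
        μ (nb (Submodule.span ℝ {x, y}) r) ≤ ENNReal.ofReal (C' * r ^ p) := by
  obtain ⟨η, hη, δ₀, hδ₀, h⟩ := h
  set T : ℕ → Set (EuclideanSpace ℝ (Fin D) × EuclideanSpace ℝ (Fin D)) := fun m =>
    {z | z ∈ G ∧ ENNReal.ofReal (((1 / 2 : ℝ) ^ m) ^ p) <
      μ (nb (Submodule.span ℝ {z.1, z.2}) ((1 / 2 : ℝ) ^ m))} with hT
  have hmp : MeasurePreserving
      ((MeasurableEquiv.finTwoArrow (α := EuclideanSpace ℝ (Fin D))).trans
        MeasurableEquiv.prodComm) (Measure.pi fun _ : Fin 2 => μ) (μ.prod μ) :=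
    (Measure.measurePreserving_swap (μ := μ) (ν := μ)).comp (measurePreserving_finTwoArrow μ)
  have hTm : ∀ m : ℕ, (1 / 2 : ℝ) ^ m < δ₀ →
      (μ.prod μ) (T m) ≤ ENNReal.ofReal (((1 / 2 : ℝ) ^ η) ^ m) := by
    intro m hm
    rw [← hmp.measure_preimage_equiv (T m)]
    have h1 := h ((1 / 2 : ℝ) ^ m) (by positivity) hm
    have h2 : ((1 / 2 : ℝ) ^ m) ^ η = ((1 / 2 : ℝ) ^ η) ^ m := by
      rw [← Real.rpow_natCast, ← Real.rpow_natCast, ← Real.rpow_mul (by norm_num),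
        ← Real.rpow_mul (by norm_num), mul_comm]
    rw [h2] at h1
    refine le_trans (measure_mono ?_) h1
    rintro u ⟨hu, hu'⟩
    have hsp : sp u = Submodule.span ℝ {u 1, u 0} := by
      unfold sp
      congr 1
      ext z
      simp only [Set.mem_range, Set.mem_insert_iff, Set.mem_singleton_iff, Fin.exists_fin_two]
      tauto
    refine ⟨fun i => ?_, ?_⟩
    · rw [Subsingleton.elim i 0]
      exact hu
    · rw [hsp]
      exact hu'
  have hρ0 : 0 ≤ (1 / 2 : ℝ) ^ η := by positivity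
  have hρ1 : (1 / 2 : ℝ) ^ η < 1 := Real.rpow_lt_one (by norm_num) (by norm_num) hη
  have hsum : ∑' m : ℕ, ENNReal.ofReal (((1 / 2 : ℝ) ^ η) ^ m) ≠ ⊤ :=
    (summable_geometric_of_lt_one hρ0 hρ1).tsum_ofReal_lt_top.ne
  have ht := ENNReal.tendsto_sum_nat_add _ hsum
  have e1 : ∀ᶠ i : ℕ in Filter.atTop,
      ∑' m : ℕ, ENNReal.ofReal (((1 / 2 : ℝ) ^ η) ^ (m + i)) < (μ.prod μ) G :=
    ht.eventually (gt_mem_nhds (pos_iff_ne_zero.2 hG0))
  have e2 : ∀ᶠ i : ℕ in Filter.atTop, (1 / 2 : ℝ) ^ i < δ₀ :=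
    (tendsto_pow_atTop_nhds_zero_of_lt_one (by norm_num) (by norm_num)).eventually
      (gt_mem_nhds hδ₀)
  obtain ⟨i, hi1, hi2⟩ := (e1.and e2).exists
  set U := ⋃ m : ℕ, toMeasurable (μ.prod μ) (T (m + i)) with hU
  have hUm : MeasurableSet U := MeasurableSet.iUnion fun m => measurableSet_toMeasurable _ _
  have hUle : (μ.prod μ) U < (μ.prod μ) G := by
    refine lt_of_le_of_lt ((measure_iUnion_le _).trans (ENNReal.tsum_le_tsum fun m => ?_)) hi1
    rw [measure_toMeasurable]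
    refine hTm _ (lt_of_le_of_lt ?_ hi2)
    exact pow_le_pow_of_le_one (by norm_num) (by norm_num) (by omega)
  refine ⟨G \ U, ((2 : ℝ) ^ (i + 1)) ^ p, hG.diff hUm, fun h0 => ?_, ?_⟩
  · have : (μ.prod μ) G ≤ (μ.prod μ) (G \ U) + (μ.prod μ) U :=
      (measure_mono (Set.subset_sdiff_union G U)).trans (measure_union_le _ _)
    rw [h0, zero_add] at this
    exact absurd hUle (not_lt.2 this)
  · rintro x y ⟨hxy, hxU⟩ r hr
    rw [← Real.mul_rpow (by positivity) hr.le]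
    rcases le_or_gt 1 ((2 : ℝ) ^ i * r) with h1 | h1
    · refine prob_le_one.trans ?_
      rw [← ENNReal.ofReal_one]
      refine ENNReal.ofReal_le_ofReal (Real.one_le_rpow ?_ hp)
      rw [pow_succ]
      nlinarith
    · obtain ⟨m, hm1, hm2⟩ := exists_nat_pow_near_of_lt_one (x := (2 : ℝ) ^ i * r)
        (y := (1 / 2 : ℝ)) (by positivity) h1.le (by norm_num) (by norm_num)
      have hi : (0 : ℝ) < 2 ^ i := by positivity
      have hq : (1 / 2 : ℝ) ^ (m + i) * 2 ^ i = (1 / 2 : ℝ) ^ m := by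
        rw [pow_add, mul_assoc, ← mul_pow]
        norm_num
      have hr1 : r ≤ (1 / 2 : ℝ) ^ (m + i) := by
        have : r * 2 ^ i ≤ (1 / 2 : ℝ) ^ (m + i) * 2 ^ i := by rw [hq]; linarith
        exact le_of_mul_le_mul_right this hi
      have hr2 : (1 / 2 : ℝ) ^ (m + i) ≤ 2 ^ (i + 1) * r := by
        have h3 : (1 / 2 : ℝ) ^ (m + i) ≤ (1 / 2 : ℝ) ^ m :=
          pow_le_pow_of_le_one (by norm_num) (by norm_num) (by omega)
        rw [pow_succ] at hm1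
        rw [pow_succ]
        nlinarith
      have hnT : (x, y) ∉ T (m + i) := fun hT' =>
        hxU (Set.mem_iUnion.2 ⟨m, subset_toMeasurable _ _ hT'⟩)
      have hle : μ (nb (Submodule.span ℝ {x, y}) ((1 / 2 : ℝ) ^ (m + i))) ≤
          ENNReal.ofReal (((1 / 2 : ℝ) ^ (m + i)) ^ p) :=
        not_lt.1 fun h' => hnT ⟨hxy, h'⟩
      refine (measure_mono (nb_mono_seq _ hr1)).trans (hle.trans (ENNReal.ofReal_le_ofReal ?_))
      exact Real.rpow_le_rpow (by positivity) hr2 hp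

/-- `thin_lin` from the three chain steps, given as hypotheses -/
theorem thin_lin_core {k : ℕ} (hk : 1 ≤ k) {s C β τ : ℝ} (hβ : 0 < β) (hτ : 0 < τ)
    (h0 : ∀ (u : EuclideanSpace ℝ (Fin D)) (r : ℝ), 0 < r →
      μ (nb (Submodule.span ℝ {u}) r) ≤ ENNReal.ofReal (C * r ^ s))
    (hG : MeasurableSet G) (hG0 : (μ.prod μ) G ≠ 0)
    (hN : ∀ x y, (x, y) ∈ G →
        ∀ V : Submodule ℝ (EuclideanSpace ℝ (Fin D)), Module.finrank ℝ V ≤ k + 1 → x ∈ V → y ∈ V →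
        ∀ r, 0 < r → r < τ → μ (nb V r) ≤ ENNReal.ofReal (r ^ β))
    (hconc : ∀ (j : ℕ) (p p₁ p₂ : ℝ), 0 < p → p < p₁ → 0 ≤ p₂ → 2 * p < p₁ + p₂ →
      S μ G j p₁ → (∀ v < p, S μ G (j + 1) v) → S μ G (j + 2) p₂ → ∃ p' > p, S μ G (j + 1) p')
    (hf : ∀ (j k : ℕ) (p p₁ : ℝ), (k : ℝ) < p → p < k + 1 → p < p₁ → S μ G j p₁ →
      (∀ v < p, S μ G (j + 1) v) → ∃ p' > p, S μ G (j + 1) p')
    {p : ℝ} (hp : 0 ≤ p) (hps : p < s) (hpk : p < k) :
    ∃ (G : Set (EuclideanSpace ℝ (Fin D) × EuclideanSpace ℝ (Fin D))) (C' : ℝ),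
      MeasurableSet G ∧ (μ.prod μ) G ≠ 0 ∧ ∀ x y, (x, y) ∈ G → ∀ r, 0 < r →
        μ (nb (Submodule.span ℝ {x, y}) r) ≤ ENNReal.ofReal (C' * r ^ p) := by
  refine seq_thin_of_S hG hG0 hp (seq_S_one hk hβ hp hps hpk (fun q hq => seq_S_level_zero hq h0)
    (fun j hj => ?_) hconc hf)
  refine seq_S_of_empty hτ fun δ hδ hδ' u hu => ?_
  refine hN _ _ (hu 0) (sp u) ?_ (Submodule.subset_span ⟨_, rfl⟩)
    (Submodule.subset_span ⟨_, rfl⟩) δ hδ hδ'
  refine (finrank_range_le_card u).trans ?_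
  simp only [Fintype.card_fin]
  omega

end chain

end Pool.Agent.P.MP_bf60a1_an.RA
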