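import Mathlib
import Pool.Agent.P.MP_bf60a1_an.RA.SeqCore
import Pool.Agent.P.MP_bf60a1_an.RA.Nest
import Pool.Agent.P.MP_bf60a1_an.RA.Conc
import Pool.Agent.P.MP_bf60a1_an.RA.Fstep

/-! Thin two-dimensional spans from the chain steps. -/

namespace Pool.Agent.P.MP_bf60a1_an.RA

open MeasureTheory Metric Set Finset

section chain
variable {D : ℕ} {μ : Measure (EuclideanSpace ℝ (Fin D))} [IsProbabilityMeasure μ]
  {G : Set (EuclideanSpace ℝ (Fin D) × EuclideanSpace ℝ (Fin D))}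

theorem thin_lin (hμ : ∀ᵐ z ∂μ, ‖z‖ ≤ 1) {k : ℕ} (hk : 1 ≤ k) {s σ C : ℝ} (hσ : 0 < σ)
    (h0 : ∀ (u : EuclideanSpace ℝ (Fin D)) (r : ℝ), 0 < r →
      μ (nb (Submodule.span ℝ {u}) r) ≤ ENNReal.ofReal (C * r ^ s))
    (hW : ∀ W : Submodule ℝ (EuclideanSpace ℝ (Fin D)), Module.finrank ℝ W ≤ k → ∀ r, 0 < r →
      μ (nb W r) ≤ ENNReal.ofReal (C * r ^ σ))
    (hnull : ∀ V : Submodule ℝ (EuclideanSpace ℝ (Fin D)), Module.finrank ℝ V ≤ k + 1 →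
      μ V = 0) {p : ℝ} (hp : 0 ≤ p) (hps : p < s) (hpk : p < k) :
    ∃ (G : Set (EuclideanSpace ℝ (Fin D) × EuclideanSpace ℝ (Fin D))) (C' : ℝ),
      MeasurableSet G ∧ (μ.prod μ) G ≠ 0 ∧ ∀ x y, (x, y) ∈ G → ∀ r, 0 < r →
        μ (nb (Submodule.span ℝ {x, y}) r) ≤ ENNReal.ofReal (C' * r ^ p) := by
  obtain ⟨β, hβ, τ, hτ, G, hG, hG0, hN⟩ := nest hμ hσ hW hnull
  exact thin_lin_core hk hβ hτ h0 hG hG0 hN
    (fun _ _ _ _ a b c d e f g => conc hμ hG a b c d e f g)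
    (fun _ _ _ _ a b c d e => fstep hμ hG a b c d e) hp hps hpk

end chain

end Pool.Agent.P.MP_bf60a1_an.RA
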