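import Mathlib
import Pool.Agent.P.MP_bf60a1_an.RA.AffineCore
import Pool.Agent.P.MP_bf60a1_an.RA.Seq

namespace Pool.Agent.P.MP_bf60a1_an.RA

open MeasureTheory Metric Set

theorem thin_main {n k : ℕ} (hk : 1 ≤ k) (μ : Measure (EuclideanSpace ℝ (Fin n)))
    [IsProbabilityMeasure μ] {R s C : ℝ} (hR : μ (ball 0 R)ᶜ = 0) (hs : (k : ℝ) - 1 < s)
    (hF : ∀ x r, 0 < r → μ (ball x r) ≤ ENNReal.ofReal (C * r ^ s))
    (hnull : ∀ V : AffineSubspace ℝ (EuclideanSpace ℝ (Fin n)),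
      Module.finrank ℝ V.direction ≤ k → μ V = 0) {p : ℝ} (hp : 0 ≤ p) (hps : p < s) (hpk : p < k) :
    ∃ (G : Set (EuclideanSpace ℝ (Fin n) × EuclideanSpace ℝ (Fin n))) (C' : ℝ),
      MeasurableSet G ∧ (μ.prod μ) G ≠ 0 ∧ ∀ x y, (x, y) ∈ G → ∀ δ : ℝ, 0 < δ →
        μ {z | ∃ t : ℝ, dist z (x + t • (y - x)) < δ} ≤ ENNReal.ofReal (C' * δ ^ p) :=
  thin_main_of (fun _ _ hμ _ hk _ _ _ hσ h0 hW hnull _ hp hps hpk =>
    thin_lin hμ hk hσ h0 hW hnull hp hps hpk) hk μ hR hs hF hnull hp hps hpk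

end Pool.Agent.P.MP_bf60a1_an.RA
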