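import Pool.Agent.P.MP_bf60a1_an.RA.Ent2

/-! Collision bounds for the finite theorem. -/

namespace Pool.Agent.P.MP_bf60a1_an.RA

open Finset Real

theorem layer {b : ℝ} (hb : 1 ≤ b) (J : ℕ) {γ : ℝ} (hγ : 0 ≤ γ) (ρ : ℝ) :
    (max (b ^ J)⁻¹ ρ) ^ (-γ) ≤
      1 + ∑ j ∈ range (J + 1), (b ^ (j + 1)) ^ γ * ind (ρ ≤ (b ^ j)⁻¹) := by
  classical
  have hb0 : 0 < b := by linarith
  have hterm : ∀ j ∈ range (J + 1), 0 ≤ (b ^ (j + 1)) ^ γ * ind (ρ ≤ (b ^ j)⁻¹) :=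
    fun j _ => mul_nonneg (by positivity) (ind_nonneg _)
  by_cases h1 : ρ ≤ 1
  · set j := Nat.findGreatest (fun j => ρ ≤ (b ^ j)⁻¹) J with hj
    have hjJ : j ≤ J := Nat.findGreatest_le J
    have hspec : ρ ≤ (b ^ j)⁻¹ :=
      Nat.findGreatest_spec (P := fun j => ρ ≤ (b ^ j)⁻¹) (Nat.zero_le J) (by simpa using h1)
    have hlow : (b ^ (j + 1))⁻¹ ≤ max (b ^ J)⁻¹ ρ := by
      rcases hjJ.eq_or_lt with h | h
      · refine le_max_of_le_left ?_
        rw [← h]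
        exact inv_anti₀ (by positivity) (pow_le_pow_right₀ hb (Nat.le_succ j))
      · exact le_max_of_le_right (not_le.1 (Nat.findGreatest_is_greatest
          (P := fun j => ρ ≤ (b ^ j)⁻¹) (Nat.lt_succ_self j) h)).le
    have h2 : (max (b ^ J)⁻¹ ρ) ^ (-γ) ≤ (b ^ (j + 1)) ^ γ := by
      calc _ ≤ ((b ^ (j + 1))⁻¹) ^ (-γ) :=
            rpow_le_rpow_of_nonpos (by positivity) hlow (by linarith)
        _ = _ := by rw [inv_rpow (by positivity), rpow_neg (by positivity), inv_inv]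
    have h3 := single_le_sum hterm (mem_range.2 (Nat.lt_succ_of_le hjJ))
    rw [ind_pos hspec, mul_one] at h3
    linarith
  · have h2 : (max (b ^ J)⁻¹ ρ) ^ (-γ) ≤ 1 :=
      rpow_le_one_of_one_le_of_nonpos (le_max_of_le_right (not_le.1 h1).le) (by linarith)
    linarith [sum_nonneg hterm]

theorem FP.E_layer {Ω : Type*} [Fintype Ω] (P : FP Ω) {b : ℝ} (hb : 1 ≤ b) (J : ℕ) {γ A : ℝ}
    (hγ : 0 ≤ γ) (ρ : Ω → ℝ)
    (h : ∀ j ≤ J, (P.pr fun ω => ρ ω ≤ (b ^ j)⁻¹) ≤ A * ((b ^ j)⁻¹) ^ γ) :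
    (P.E fun ω => (max (b ^ J)⁻¹ (ρ ω)) ^ (-γ)) ≤ 1 + (J + 1) * A * b ^ γ := by
  have hb0 : 0 < b := by linarith
  refine (P.E_mono fun ω _ => layer hb J hγ (ρ ω)).trans ?_
  rw [P.E_add, P.E_const, P.E_sum]
  simp only [P.E_mul_left]
  have : ∀ j ∈ range (J + 1), (b ^ (j + 1)) ^ γ * (P.E fun ω => ind (ρ ω ≤ (b ^ j)⁻¹)) ≤
      A * b ^ γ := fun j hj => by
    have h1 := h j (Nat.lt_succ_iff.1 (mem_range.1 hj))
    have h2 : (b ^ (j + 1)) ^ γ * (A * ((b ^ j)⁻¹) ^ γ) = A * b ^ γ := by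
      rw [pow_succ, mul_rpow (by positivity) hb0.le, inv_rpow (by positivity)]
      have : 0 < (b ^ j) ^ γ := by positivity
      field_simp
    rw [← h2]
    exact mul_le_mul_of_nonneg_left h1 (by positivity)
  have h3 := sum_le_sum this
  rw [sum_const, card_range, nsmul_eq_mul] at h3
  push_cast at h3
  linarith

theorem FP.coll_shift {Ω α : Type*} [Fintype Ω] [AddCommGroup α] (Q : FP Ω) (j : Ω → α) (e : α) :
    ((Q.prod Q).pr fun y => j y.1 - j y.2 = e) ≤ (Q.prod Q).pr fun y => j y.1 = j y.2 := by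
  have hf : (Q.E fun ω => Q.cl j ω) = (Q.prod Q).pr fun y => j y.1 = j y.2 := by
    rw [FP.pr, FP.E_prod, FP.E_comm]; rfl
  have h1 : ((Q.prod Q).E fun y => Q.cl j y.1 * (ind (j y.2 = j y.1 - e) / Q.cl j y.2)) ≤
      Q.E fun ω => Q.cl j ω := by
    rw [FP.E_prod]
    refine Q.E_mono fun ω _ => ?_
    simp only [Q.E_mul_left]
    exact mul_le_of_le_one_right (Q.cl_nonneg _ _) (Q.E_ind_div_cl j _)
  have h2 : ((Q.prod Q).E fun y => Q.cl j y.2 * (ind (j y.1 = j y.2 + e) / Q.cl j y.1)) ≤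
      Q.E fun ω => Q.cl j ω := by
    rw [FP.E_prod, FP.E_comm]
    refine Q.E_mono fun ω _ => ?_
    simp only [Q.E_mul_left]
    exact mul_le_of_le_one_right (Q.cl_nonneg _ _) (Q.E_ind_div_cl j _)
  have h3 : ((Q.prod Q).pr fun y => j y.1 - j y.2 = e) ≤
      (Q.prod Q).E fun y => (Q.cl j y.1 * (ind (j y.2 = j y.1 - e) / Q.cl j y.2) +
        Q.cl j y.2 * (ind (j y.1 = j y.2 + e) / Q.cl j y.1)) / 2 := by
    refine (Q.prod Q).E_mono fun y hy => ?_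
    obtain ⟨hy1, hy2⟩ := Q.prod_pos hy
    have ha := Q.cl_pos j hy1
    have hb := Q.cl_pos j hy2
    by_cases h : j y.1 - j y.2 = e
    · rw [ind_pos h, ind_pos (show j y.2 = j y.1 - e by rw [← h]; abel),
        ind_pos (show j y.1 = j y.2 + e by rw [← h]; abel)]
      rw [le_div_iff₀ two_pos, mul_one_div, mul_one_div, div_add_div _ _ hb.ne' ha.ne',
        le_div_iff₀ (mul_pos hb ha)]
      nlinarith [sq_nonneg (Q.cl j y.1 - Q.cl j y.2)]
    · rw [ind_neg h]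
      have := ind_nonneg (j y.2 = j y.1 - e)
      have := ind_nonneg (j y.1 = j y.2 + e)
      positivity
  rw [FP.E_div, FP.E_add] at h3
  linarith

theorem FP.autocorr {Ω β : Type*} [Fintype Ω] (P : FP Ω) {d : ℕ} (R : Ω → β)
    (u : Ω → Fin d → ℝ) (x : Fin d → ℝ) {r : ℝ} (hr : 0 < r) :
    ((P.cpy R).pr fun y => ‖u y.1 - u y.2 - x‖ ≤ r) ≤
      5 ^ d * (P.cpy R).pr fun y => ‖u y.1 - u y.2‖ ≤ r := by
  set j : Ω → Fin d → ℤ := fun ω => fl (r⁻¹ • u ω) with hj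
  obtain ⟨F, hF, hF'⟩ := exists_box (r⁻¹ • x) (M := 2) (by norm_num)
  have h1 : ∀ e, ((P.cpy R).pr fun y => j y.1 - j y.2 = e) ≤
      (P.cpy R).pr fun y => ‖u y.1 - u y.2‖ ≤ r := fun e => by
    calc _ ≤ (P.cpy R).pr fun y => j y.1 = j y.2 := by
          unfold FP.pr
          rw [P.E_cpy R fun _ y => ind (j y.1 - j y.2 = e), P.E_cpy R fun _ y => ind (j y.1 = j y.2)]
          exact P.E_mono fun ω _ => FP.coll_shift _ j e
      _ ≤ _ := (P.cpy R).pr_mono fun y _ hy => by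
          have h2 := norm_sub_of_fl hy
          rw [← smul_sub, norm_smul, norm_inv, norm_eq_abs, abs_of_pos hr,
            inv_mul_le_iff₀ hr, mul_one] at h2
          exact h2
  calc _ ≤ (P.cpy R).pr fun y => ∃ e ∈ F, j y.1 - j y.2 = e := by
        refine (P.cpy R).pr_mono fun y _ hy => ⟨_, hF' _ ?_, rfl⟩
        refine (pi_norm_le_iff_of_nonneg (by norm_num)).2 fun i => ?_
        have h2 := (norm_le_pi_norm (u y.1 - u y.2 - x) i).trans hy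
        simp only [Pi.sub_apply, norm_eq_abs] at h2
        have h3 : |r⁻¹ * u y.1 i - r⁻¹ * u y.2 i - r⁻¹ * x i| ≤ 1 := by
          rw [← mul_sub, ← mul_sub, abs_mul, abs_of_pos (inv_pos.2 hr), inv_mul_le_iff₀ hr, mul_one]
          exact h2
        simp only [hj, cz, fl, Pi.sub_apply, Pi.smul_apply, smul_eq_mul, norm_eq_abs,
          Int.cast_sub, abs_le] at h3 ⊢
        constructor <;> linarith [Int.floor_le (r⁻¹ * u y.1 i), Int.lt_floor_add_one (r⁻¹ * u y.1 i),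
          Int.floor_le (r⁻¹ * u y.2 i), Int.lt_floor_add_one (r⁻¹ * u y.2 i)]
    _ ≤ ∑ e ∈ F, (P.cpy R).pr fun y => j y.1 - j y.2 = e := (P.cpy R).pr_exists_le F _
    _ ≤ ∑ e ∈ F, (P.cpy R).pr fun y => ‖u y.1 - u y.2‖ ≤ r := sum_le_sum fun e _ => h1 e
    _ ≤ _ := by
        rw [sum_const, nsmul_eq_mul]
        refine mul_le_mul_of_nonneg_right (hF.trans (le_of_eq ?_)) (FP.pr_nonneg _ _)
        norm_num

theorem unif_pr_eq (m : ℕ) [NeZero m] (j : ℤ) :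
    ((FP.unif m).pr fun τ => ((τ : ℕ) : ℤ) = j) ≤ (m : ℝ)⁻¹ := by
  by_cases h : ∃ τ : Fin m, ((τ : ℕ) : ℤ) = j
  · obtain ⟨τ₀, rfl⟩ := h
    have : ((FP.unif m).pr fun τ => ((τ : ℕ) : ℤ) = ((τ₀ : ℕ) : ℤ)) =
        ∑ τ : Fin m, ind (τ₀ = τ) * (m : ℝ)⁻¹ := by
      unfold FP.pr FP.E
      refine sum_congr rfl fun τ _ => ?_
      rw [ind_congr (s := τ₀ = τ) (t := ((τ : ℕ) : ℤ) = ((τ₀ : ℕ) : ℤ))
        ⟨fun h => by rw [h], fun h => Fin.ext (by omega)⟩, mul_comm]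
      rfl
    rw [this, sum_ind_eq univ (fun _ => (m : ℝ)⁻¹) (mem_univ τ₀)]
  · rw [(FP.unif m).pr_eq_zero fun τ _ h' => h ⟨τ, h'⟩]; positivity

theorem unif_line {E : Type*} [SeminormedAddCommGroup E] [NormedSpace ℝ E] (m : ℕ) [NeZero m]
    {c : ℝ} (hc : 1 ≤ c) (y e : E) (he : ‖e‖ ≤ 1) :
    ((FP.unif m).pr fun τ => ‖y - (((τ : ℕ) : ℝ) / m) • e‖ ≤ c * (m : ℝ)⁻¹) ≤
      (4 * c + 1) * (m : ℝ)⁻¹ * (max (m : ℝ)⁻¹ ‖e‖) ^ (-1 : ℝ) *
        ind (∃ t : ℝ, |t| ≤ 1 ∧ ‖y - t • e‖ ≤ c * (m : ℝ)⁻¹) := by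
  have hm : (0 : ℝ) < m := Nat.cast_pos.2 (Nat.pos_of_ne_zero (NeZero.ne m))
  have hmax : 0 < max (m : ℝ)⁻¹ ‖e‖ := lt_max_of_lt_left (inv_pos.2 hm)
  rw [rpow_neg_one]
  by_cases h : ∃ τ : Fin m, ‖y - (((τ : ℕ) : ℝ) / m) • e‖ ≤ c * (m : ℝ)⁻¹
  swap
  · rw [(FP.unif m).pr_eq_zero fun τ _ h' => h ⟨τ, h'⟩]
    have := ind_nonneg (∃ t : ℝ, |t| ≤ 1 ∧ ‖y - t • e‖ ≤ c * (m : ℝ)⁻¹)
    positivity
  obtain ⟨τ₀, h₀⟩ := h
  rw [ind_pos ⟨_, by
    rw [abs_of_nonneg (by positivity), div_le_one hm]; exact_mod_cast τ₀.2.le, h₀⟩, mul_one]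
  rcases le_total ‖e‖ (m : ℝ)⁻¹ with h1 | h1
  · rw [max_eq_left h1, mul_assoc, mul_inv_cancel₀ (inv_pos.2 hm).ne', mul_one]
    exact (FP.pr_le_one _ _).trans (by linarith)
  · rw [max_eq_right h1]
    have he0 : 0 < ‖e‖ := (inv_pos.2 hm).trans_le h1
    obtain ⟨F, hF, hF'⟩ := exists_int_box ((τ₀ : ℕ) : ℝ) (M := 2 * c / ‖e‖) (by positivity)
    calc _ ≤ (FP.unif m).pr fun τ => ∃ j ∈ F, ((τ : ℕ) : ℤ) = j := by
          refine (FP.unif m).pr_mono fun τ _ hτ => ⟨_, hF' _ ?_, rfl⟩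
          have h2 : ‖(((τ : ℕ) : ℝ) / m - ((τ₀ : ℕ) : ℝ) / m) • e‖ ≤ 2 * c * (m : ℝ)⁻¹ := by
            have : (((τ : ℕ) : ℝ) / m - ((τ₀ : ℕ) : ℝ) / m) • e =
                (y - (((τ₀ : ℕ) : ℝ) / m) • e) - (y - (((τ : ℕ) : ℝ) / m) • e) := by
              rw [sub_smul]; abel
            rw [this]
            linarith [norm_sub_le (y - (((τ₀ : ℕ) : ℝ) / m) • e) (y - (((τ : ℕ) : ℝ) / m) • e)]
          rw [norm_smul, norm_eq_abs, ← sub_div, abs_div, abs_of_pos hm, div_eq_mul_inv,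
            mul_right_comm, mul_le_mul_iff_left₀ (inv_pos.2 hm)] at h2
          rw [le_div_iff₀ he0]
          exact_mod_cast h2
      _ ≤ ∑ j ∈ F, (FP.unif m).pr fun τ => ((τ : ℕ) : ℤ) = j := (FP.unif m).pr_exists_le F _
      _ ≤ ∑ j ∈ F, (m : ℝ)⁻¹ := sum_le_sum fun j _ => unif_pr_eq m j
      _ ≤ _ := by
          rw [sum_const, nsmul_eq_mul, mul_right_comm]
          refine mul_le_mul_of_nonneg_right (hF.trans ?_) (inv_pos.2 hm).le
          have : (1 : ℝ) ≤ ‖e‖⁻¹ := (one_le_inv₀ he0).2 he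
          rw [div_eq_mul_inv]
          nlinarith

theorem peel {E : Type*} [SeminormedAddCommGroup E] [NormedSpace ℝ E] {Ω : Type*} [Fintype Ω]
    (P : FP Ω) (η : Ω → E) (hη : ∀ ω, 0 < P.p ω → ‖η ω‖ ≤ 1) (m : ℕ) [NeZero m] {c : ℝ}
    (hc : 1 ≤ c) (n : ℕ) :
    (((FP.unif m).pi (n + 1)).E fun τ => (P.prod (P.pi (n + 1))).pr fun x =>
        ‖η x.1 - ∑ i, (((τ i : ℕ) : ℝ) / m) • η (x.2 i)‖ ≤ c * (m : ℝ)⁻¹) ≤
      P.E fun e => (4 * c + 1) * (m : ℝ)⁻¹ * (max (m : ℝ)⁻¹ ‖η e‖) ^ (-1 : ℝ) *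
        ((FP.unif m).pi n).E fun τ => (P.prod (P.pi n)).pr fun x => ∃ t : ℝ, |t| ≤ 1 ∧
          ‖η x.1 - ∑ i, (((τ i : ℕ) : ℝ) / m) • η (x.2 i) - t • η e‖ ≤ c * (m : ℝ)⁻¹ := by
  have h1 : ∀ (τ₀ : Fin m) (τ : Fin n → Fin m),
      ((P.prod (P.pi (n + 1))).pr fun x => ‖η x.1 - ∑ i,
        ((((Fin.cons τ₀ τ : Fin (n + 1) → Fin m) i : ℕ) : ℝ) / m) • η (x.2 i)‖ ≤ c * (m : ℝ)⁻¹) =
      P.E fun e => (P.prod (P.pi n)).E fun x => ind (‖η x.1 - ∑ i,
        (((τ i : ℕ) : ℝ) / m) • η (x.2 i) - (((τ₀ : ℕ) : ℝ) / m) • η e‖ ≤ c * (m : ℝ)⁻¹) := by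
    intro τ₀ τ
    simp only [FP.pr, FP.E_prod, FP.E_pi_succ]
    rw [FP.E_comm]
    refine P.E_congr fun e _ => P.E_congr fun ω _ => FP.E_congr _ fun x _ => ind_congr ?_
    simp only [Fin.sum_univ_succ, Fin.cons_zero, Fin.cons_succ]
    rw [sub_add_eq_sub_sub_swap]
  rw [FP.E_pi_succ]
  simp only [h1]
  rw [FP.E_comm]
  simp only [(FP.unif m).E_comm P]
  rw [FP.E_comm]
  refine P.E_mono fun e he => ?_
  rw [← FP.E_mul_left]
  refine FP.E_mono _ fun τ _ => ?_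
  rw [FP.E_comm, FP.pr, ← FP.E_mul_left]
  exact FP.E_mono _ fun x _ => unif_line m hc _ _ (hη e he)

theorem quot_frost {E : Type*} [SeminormedAddCommGroup E] [NormedSpace ℝ E] {Ω : Type*}
    [Fintype Ω] (P : FP Ω) (η : Ω → E) (hη : ∀ ω, 0 < P.p ω → ‖η ω‖ ≤ 1) {l v A : ℝ}
    (hl : 0 < l) (hv : 1 ≤ v) (hA : 1 ≤ A)
    (hF : ∀ x r, l ≤ r → (P.pr fun ω => ‖η ω - x‖ ≤ r) ≤ A * r ^ v) (e : E)
    (x : E ⧸ Submodule.span ℝ {e}) (r : ℝ) (hr : l ≤ r) :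
    (P.pr fun ω => ‖(Submodule.Quotient.mk (η ω) : E ⧸ Submodule.span ℝ {e}) - x‖ ≤ r) ≤
      13 * 4 ^ v * A * r ^ (v - 1) := by
  have hr0 : 0 < r := hl.trans_le hr
  have h4 : (1 : ℝ) ≤ 4 ^ v := one_le_rpow (by norm_num) (by linarith)
  rcases le_or_gt 1 r with h1 | h1
  · refine (P.pr_le_one _).trans ?_
    have h2 : 1 ≤ r ^ (v - 1) := one_le_rpow h1 (by linarith)
    have h3 : 1 ≤ 13 * 4 ^ v * A := one_le_mul_of_one_le_of_one_le (by linarith) hA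
    exact one_le_mul_of_one_le_of_one_le h3 h2
  by_cases h : ∃ ω, 0 < P.p ω ∧
      ‖(Submodule.Quotient.mk (η ω) : E ⧸ Submodule.span ℝ {e}) - x‖ ≤ r
  swap
  · rw [P.pr_eq_zero fun ω hω h' => h ⟨ω, hω, h'⟩]; positivity
  obtain ⟨ω₀, hω₀, h₀⟩ := h
  obtain ⟨F, hF1, hF2⟩ := exists_int_box 0 (M := 5 / r + 1) (by positivity)
  calc _ ≤ P.pr fun ω => ∃ j ∈ F, ‖η ω - (η ω₀ + ((j : ℝ) * r / ‖e‖) • e)‖ ≤ 4 * r := by
        refine P.pr_mono fun ω hω h' => ?_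
        have h2 : ‖(Submodule.Quotient.mk (η ω - η ω₀) : E ⧸ Submodule.span ℝ {e})‖ ≤ 2 * r := by
          have : (Submodule.Quotient.mk (η ω - η ω₀) : E ⧸ Submodule.span ℝ {e}) =
              (Submodule.Quotient.mk (η ω) - x) - (Submodule.Quotient.mk (η ω₀) - x) := by
            rw [Submodule.Quotient.mk_sub]; abel
          rw [this]
          linarith [norm_sub_le ((Submodule.Quotient.mk (η ω) : E ⧸ Submodule.span ℝ {e}) - x)
            (Submodule.Quotient.mk (η ω₀) - x)]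
        obtain ⟨z, hz, hz'⟩ := Submodule.Quotient.norm_mk_lt
          (Submodule.Quotient.mk (η ω - η ω₀) : E ⧸ Submodule.span ℝ {e}) hr0
        obtain ⟨t, ht⟩ := Submodule.mem_span_singleton.1
          ((Submodule.Quotient.eq _).1 hz.symm)
        have hz3 : ‖z‖ ≤ 3 * r := by linarith
        have hte : |t * ‖e‖| ≤ 5 := by
          rw [abs_mul, abs_norm, ← norm_eq_abs, ← norm_smul, ht]
          linarith [norm_sub_le (η ω - η ω₀) z, norm_sub_le (η ω) (η ω₀), hη ω hω, hη ω₀ hω₀]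
        have hf1 := Int.floor_le (t * ‖e‖ / r)
        have hf2 := Int.lt_floor_add_one (t * ‖e‖ / r)
        refine ⟨⌊t * ‖e‖ / r⌋, hF2 _ ?_, ?_⟩
        · have h5 : |t * ‖e‖ / r| ≤ 5 / r := by
            rw [abs_div, abs_of_pos hr0]; gcongr
          rw [sub_zero, abs_le] at *
          constructor <;> linarith [h5.1, h5.2]
        · have h5 : η ω - (η ω₀ + ((⌊t * ‖e‖ / r⌋ : ℝ) * r / ‖e‖) • e) =
              z + (t - (⌊t * ‖e‖ / r⌋ : ℝ) * r / ‖e‖) • e := by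
            rw [sub_smul, ht]; abel
          have h6 : ‖(t - (⌊t * ‖e‖ / r⌋ : ℝ) * r / ‖e‖) • e‖ ≤ r := by
            rw [norm_smul, norm_eq_abs]
            rcases (norm_nonneg e).eq_or_lt with he | he
            · rw [← he, mul_zero]; exact hr0.le
            · rw [← abs_of_pos he, ← abs_mul, abs_of_pos he, sub_mul, div_mul_cancel₀ _ he.ne']
              rw [le_div_iff₀ hr0] at hf1
              rw [div_lt_iff₀ hr0] at hf2
              rw [abs_le]; constructor <;> linarith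
          rw [h5]
          linarith [norm_add_le z ((t - (⌊t * ‖e‖ / r⌋ : ℝ) * r / ‖e‖) • e)]
    _ ≤ ∑ j ∈ F, P.pr fun ω => ‖η ω - (η ω₀ + ((j : ℝ) * r / ‖e‖) • e)‖ ≤ 4 * r :=
        P.pr_exists_le F _
    _ ≤ ∑ j ∈ F, A * (4 * r) ^ v := sum_le_sum fun j _ => hF _ _ (by linarith)
    _ ≤ _ := by
        rw [sum_const, nsmul_eq_mul]
        have h2 : (F.card : ℝ) ≤ 13 / r := by
          refine hF1.trans ?_
          have : (3 : ℝ) ≤ 3 / r := by rw [le_div_iff₀ hr0]; linarith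
          have h3 : 13 / r = 2 * (5 / r) + 3 / r := by ring
          linarith
        calc _ ≤ 13 / r * (A * (4 * r) ^ v) := by gcongr
          _ = _ := by rw [mul_rpow (by norm_num) hr0.le, rpow_sub_one hr0.ne']; field_simp

theorem gain_coll' (k : ℕ) {c : ℝ} (hc : 1 ≤ c) : ∃ C : ℝ, 1 ≤ C ∧
    ∀ (E : Type) [SeminormedAddCommGroup E] [NormedSpace ℝ E] (Ω : Type) [Fintype Ω] (P : FP Ω)
      (η : Ω → E) (B J : ℕ) [NeZero B] (v γ A : ℝ), 0 ≤ γ → k + γ ≤ v → v + γ ≤ k + 1 → 1 ≤ A →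
      (∀ ω, 0 < P.p ω → ‖η ω‖ ≤ 1) →
      (∀ x r, ((B ^ J : ℕ) : ℝ)⁻¹ ≤ r → (P.pr fun ω => ‖η ω - x‖ ≤ r) ≤ A * r ^ v) →
      (((FP.unif (B ^ J)).pi (k + 1)).E fun τ => (P.prod (P.pi (k + 1))).pr fun x =>
        ‖η x.1 - ∑ i, (((τ i : ℕ) : ℝ) / ((B ^ J : ℕ) : ℝ)) • η (x.2 i)‖ ≤
          c * ((B ^ J : ℕ) : ℝ)⁻¹) ≤
        (C * A * (J + 2) * B) ^ (k + 2) * (((B ^ J : ℕ) : ℝ)⁻¹) ^ (v + γ) := by
  have hlay : ∀ (E : Type) [SeminormedAddCommGroup E] (Ω : Type) [Fintype Ω] (P : FP Ω)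
      (η : Ω → E) (B J : ℕ) [NeZero B] (v γ A : ℝ), 0 ≤ γ → γ ≤ v → γ ≤ 1 → 1 ≤ A →
      (∀ x r, ((B ^ J : ℕ) : ℝ)⁻¹ ≤ r → (P.pr fun ω => ‖η ω - x‖ ≤ r) ≤ A * r ^ v) →
      (P.E fun ω => (max ((B ^ J : ℕ) : ℝ)⁻¹ ‖η ω‖) ^ (-γ)) ≤ A * (J + 2) * B := by
    intro E _ Ω _ P η B J _ v γ A hγ hγv hγ1 hA hF
    have hB : (1 : ℝ) ≤ B := by exact_mod_cast Nat.pos_of_ne_zero (NeZero.ne B)
    push_cast at hF ⊢
    refine (P.E_layer hB J hγ (A := A) _ fun j hj => ?_).trans ?_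
    · have h1 := hF 0 ((B : ℝ) ^ j)⁻¹ (inv_anti₀ (by positivity) (pow_le_pow_right₀ hB hj))
      simp only [sub_zero] at h1
      refine h1.trans (mul_le_mul_of_nonneg_left ?_ (by linarith))
      exact rpow_le_rpow_of_exponent_ge (by positivity)
        (inv_le_one_of_one_le₀ (one_le_pow₀ hB)) hγv
    · have h1 : (B : ℝ) ^ γ ≤ B := by
        calc _ ≤ (B : ℝ) ^ (1 : ℝ) := rpow_le_rpow_of_exponent_le hB hγ1
          _ = B := rpow_one _
      have h2 : 1 ≤ A * B := one_le_mul_of_one_le_of_one_le hA hB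
      have h3 : ((J : ℝ) + 1) * A * (B : ℝ) ^ γ ≤ (J + 1) * A * B := by gcongr
      nlinarith
  induction k with
  | zero =>
    refine ⟨(4 * c + 1) * (1 + c), by nlinarith, ?_⟩
    intro E _ _ Ω _ P η B J _ v γ A hγ hv1 hv2 hA hη hF
    have hB : (1 : ℝ) ≤ B := by exact_mod_cast Nat.pos_of_ne_zero (NeZero.ne B)
    simp only [Nat.cast_zero, zero_add] at hv1 hv2
    have hl := hlay E Ω P η B J v γ A hγ hv1 (by linarith) hA hF
    refine (peel P η hη _ hc 0).trans ?_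
    set l : ℝ := ((B ^ J : ℕ) : ℝ)⁻¹ with hldef
    have hl0 : 0 < l := inv_pos.2 (Nat.cast_pos.2 (Nat.pos_of_ne_zero (NeZero.ne _)))
    calc _ ≤ P.E fun e => (4 * c + 1) * (1 + c) * A * l ^ (v + γ) * (max l ‖η e‖) ^ (-γ) := by
          refine P.E_mono fun e he => ?_
          set M := max l ‖η e‖ with hM
          have hM0 : 0 < M := lt_max_of_lt_left hl0
          have h1 : (((FP.unif (B ^ J)).pi 0).E fun τ => (P.prod (P.pi 0)).pr fun x =>
              ∃ t : ℝ, |t| ≤ 1 ∧ ‖η x.1 - ∑ i, (((τ i : ℕ) : ℝ) / ((B ^ J : ℕ) : ℝ)) • η (x.2 i) -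
                t • η e‖ ≤ c * l) ≤ A * ((1 + c) * M) ^ v := by
            refine FP.E_le _ fun τ _ => ?_
            refine le_trans ?_ (hF 0 ((1 + c) * M) (by nlinarith [le_max_left l ‖η e‖]))
            rw [← (P.prod_fst (P.pi 0)).pr]
            refine FP.pr_mono _ fun x _ ⟨t, ht, h⟩ => ?_
            simp only [univ_eq_empty, sum_empty, sub_zero] at h ⊢
            have h2 : ‖t • η e‖ ≤ M := by
              rw [norm_smul, norm_eq_abs]
              nlinarith [norm_nonneg (η e), le_max_right l ‖η e‖, abs_nonneg t]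
            have h3 := norm_add_le (η x.1 - t • η e) (t • η e)
            rw [sub_add_cancel] at h3
            nlinarith [le_max_left l ‖η e‖]
          have h2 : (1 + c) ^ v ≤ 1 + c := by
            calc _ ≤ (1 + c) ^ (1 : ℝ) := rpow_le_rpow_of_exponent_le (by linarith) (by linarith)
              _ = _ := rpow_one _
          have h3 : M ^ (v + γ - 1) ≤ l ^ (v + γ - 1) :=
            rpow_le_rpow_of_nonpos hl0 (le_max_left _ _) (by linarith)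
          have h4 : M ^ (-1 : ℝ) * M ^ v = M ^ (v + γ - 1) * M ^ (-γ) := by
            rw [← rpow_add hM0, ← rpow_add hM0]; congr 1; ring
          have h5 : l * l ^ (v + γ - 1) = l ^ (v + γ) := by
            rw [rpow_sub_one hl0.ne']; field_simp
          calc _ ≤ (4 * c + 1) * l * M ^ (-1 : ℝ) * (A * ((1 + c) * M) ^ v) := by gcongr
            _ = (4 * c + 1) * (1 + c) ^ v * A * (l * M ^ (v + γ - 1)) * M ^ (-γ) := by
                rw [mul_rpow (by linarith) hM0.le]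
                linear_combination (4 * c + 1) * l * A * (1 + c) ^ v * h4
            _ ≤ (4 * c + 1) * (1 + c) * A * (l * l ^ (v + γ - 1)) * M ^ (-γ) := by gcongr
            _ = _ := by rw [h5]
      _ ≤ (4 * c + 1) * (1 + c) * A * l ^ (v + γ) * (A * (J + 2) * B) := by
          rw [P.E_mul_left]; gcongr
      _ ≤ _ := by
          have h1 : (1 : ℝ) ≤ (4 * c + 1) * (1 + c) := by nlinarith
          have h2 : (1 : ℝ) ≤ (J + 2) * B :=
            one_le_mul_of_one_le_of_one_le (by linarith [Nat.cast_nonneg (α := ℝ) J]) hB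
          have h3 : (1 : ℝ) ≤ (4 * c + 1) * (1 + c) * ((J + 2) * B) :=
            one_le_mul_of_one_le_of_one_le h1 h2
          have h4 : 0 ≤ (4 * c + 1) * (1 + c) * A * l ^ (v + γ) * (A * (J + 2) * B) := by
            positivity
          calc _ ≤ (4 * c + 1) * (1 + c) * A * l ^ (v + γ) * (A * (J + 2) * B) *
                ((4 * c + 1) * (1 + c) * ((J + 2) * B)) := le_mul_of_one_le_right h4 h3
            _ = _ := by ring
  | succ k ih =>
    obtain ⟨C, hC, ih⟩ := ih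
    have h13 : (1 : ℝ) ≤ 13 * 4 ^ (k + 2) := by
      have : (1 : ℝ) ≤ 4 ^ (k + 2) := one_le_pow₀ (by norm_num)
      linarith
    have hC1 : 1 ≤ C * (13 * 4 ^ (k + 2)) := one_le_mul_of_one_le_of_one_le hC h13
    refine ⟨C * (13 * 4 ^ (k + 2)) * (4 * c + 1),
      one_le_mul_of_one_le_of_one_le hC1 (by linarith), ?_⟩
    intro E _ _ Ω _ P η B J _ v γ A hγ hv1 hv2 hA hη hF
    have hB : (1 : ℝ) ≤ B := by exact_mod_cast Nat.pos_of_ne_zero (NeZero.ne B)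
    push_cast at hv1 hv2
    have hk : (0 : ℝ) ≤ k := Nat.cast_nonneg k
    have hl := hlay E Ω P η B J v 1 A zero_le_one (by linarith) le_rfl hA hF
    refine (peel P η hη _ hc (k + 1)).trans ?_
    set l : ℝ := ((B ^ J : ℕ) : ℝ)⁻¹ with hldef
    have hl0 : 0 < l := inv_pos.2 (Nat.cast_pos.2 (Nat.pos_of_ne_zero (NeZero.ne _)))
    set D := (C * (13 * 4 ^ (k + 2) * A) * (J + 2) * B) ^ (k + 2) * l ^ (v - 1 + γ) with hD
    have hD0 : 0 ≤ D := by positivity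
    calc _ ≤ P.E fun e => (4 * c + 1) * l * D * (max l ‖η e‖) ^ (-1 : ℝ) := by
          refine P.E_mono fun e he => ?_
          have hM0 : 0 < max l ‖η e‖ := lt_max_of_lt_left hl0
          rw [mul_right_comm _ D]
          refine mul_le_mul_of_nonneg_left ?_ (by positivity)
          have h4 : (4 : ℝ) ^ v ≤ 4 ^ (k + 2) := by
            rw [← rpow_natCast]
            exact rpow_le_rpow_of_exponent_le (by norm_num) (by push_cast; linarith)
          refine le_trans ?_ (ih (E ⧸ Submodule.span ℝ {η e}) Ω P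
            (fun ω => Submodule.Quotient.mk (η ω)) B J (v - 1) γ (13 * 4 ^ (k + 2) * A) hγ
            (by linarith) (by linarith) (one_le_mul_of_one_le_of_one_le h13 hA)
            (fun ω hω => (Submodule.Quotient.norm_mk_le _ _).trans (hη ω hω))
            fun x r hr => (quot_frost P η hη hl0 (by linarith) hA hF (η e) x r hr).trans ?_)
          · refine FP.E_mono _ fun τ _ => FP.pr_mono _ fun x _ ⟨t, _, h⟩ => ?_
            refine le_trans (le_of_eq ?_) ((Submodule.Quotient.norm_mk_le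
              (Submodule.span ℝ {η e}) _).trans h)
            congr 1
            have h0 : (Submodule.span ℝ {η e}).mkQ (η e) = 0 :=
              (Submodule.Quotient.mk_eq_zero _).2 (Submodule.mem_span_singleton_self _)
            simp only [← Submodule.mkQ_apply, map_sub, map_sum, map_smul, h0, smul_zero, sub_zero]
          · have : 0 < r := hl0.trans_le hr
            gcongr
      _ ≤ (4 * c + 1) * l * D * (A * (J + 2) * B) := by
          rw [P.E_mul_left]; gcongr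
      _ ≤ _ := by
          have h5 : l * l ^ (v - 1 + γ) = l ^ (v + γ) := by
            rw [show v - 1 + γ = v + γ - 1 by ring, rpow_sub_one hl0.ne']; field_simp
          have h6 : (4 * c + 1) * l * D * (A * (J + 2) * B) =
              (C * (13 * 4 ^ (k + 2)) * 1 * A * (J + 2) * B) ^ (k + 2) *
                (1 * (4 * c + 1) * A * (J + 2) * B) * l ^ (v + γ) := by
            rw [hD, ← h5]; ring
          rw [h6, show k + 1 + 2 = k + 2 + 1 by ring, pow_succ _ (k + 2)]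
          have : (1 : ℝ) ≤ 4 * c + 1 := by linarith
          gcongr

theorem gain_coll (k : ℕ) (c : ℝ) : ∃ C : ℝ, 1 ≤ C ∧
    ∀ (E : Type) [SeminormedAddCommGroup E] [NormedSpace ℝ E] (Ω : Type) [Fintype Ω] (P : FP Ω)
      (η : Ω → E) (B J : ℕ) [NeZero B] (v γ A : ℝ), 0 ≤ γ → k + γ ≤ v → v + γ ≤ k + 1 → 1 ≤ A →
      (∀ ω, 0 < P.p ω → ‖η ω‖ ≤ 1) →
      (∀ x r, ((B : ℝ) ^ J)⁻¹ ≤ r → (P.pr fun ω => ‖η ω - x‖ ≤ r) ≤ A * r ^ v) →
      (((FP.unif (B ^ J)).pi (k + 1)).E fun τ => (P.prod (P.pi (k + 1))).pr fun x =>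
        ‖η x.1 - ∑ i, (((τ i : ℕ) : ℝ) / (B : ℝ) ^ J) • η (x.2 i)‖ ≤ c * ((B : ℝ) ^ J)⁻¹) ≤
        (C * A * (J + 2) * B) ^ (k + 2) * (((B : ℝ) ^ J)⁻¹) ^ (v + γ) := by
  obtain ⟨C, hC, h⟩ := gain_coll' k (le_max_left 1 c)
  refine ⟨C, hC, ?_⟩
  intro E _ _ Ω _ P η B J _ v γ A hγ hv1 hv2 hA hη hF
  have h1 := h E Ω P η B J v γ A hγ hv1 hv2 hA hη (by simpa only [Nat.cast_pow] using hF)
  simp only [Nat.cast_pow] at h1
  refine le_trans (FP.E_mono _ fun τ _ => FP.pr_mono _ fun x _ hx => hx.trans ?_) h1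
  exact mul_le_mul_of_nonneg_right (le_max_right _ _) (by positivity)

end Pool.Agent.P.MP_bf60a1_an.RA
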