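import Pool.Agent.P.MP_bf60a1_an.RA.ConcGeo

/-! Single-scale estimate and bookkeeping for `conc`. -/

set_option autoImplicit false

namespace Pool.Agent.P.MP_bf60a1_an.RA.Cc

open MeasureTheory Set Filter Topology

section core
variable {D : ℕ} {μ : Measure (EuclideanSpace ℝ (Fin D))} [IsProbabilityMeasure μ]
  {G : Set (EuclideanSpace ℝ (Fin D) × EuclideanSpace ℝ (Fin D))}

theorem meas_nb {α : Type*} [MeasurableSpace α] {m : ℕ} {z : α → EuclideanSpace ℝ (Fin D)}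
    {u : α → Fin m → EuclideanSpace ℝ (Fin D)} (hz : Measurable z) (hu : Measurable u) (r : ℝ) :
    MeasurableSet {a | z a ∈ nb (sp (u a)) r} :=
  (hz.prodMk hu) (isOpen_nb m r).measurableSet

theorem meas_cons {α : Type*} [MeasurableSpace α] {m : ℕ} {z : α → EuclideanSpace ℝ (Fin D)}
    {u : α → Fin m → EuclideanSpace ℝ (Fin D)} (hz : Measurable z) (hu : Measurable u) :
    Measurable (fun a => (Fin.cons (z a) (u a) : Fin (m + 1) → EuclideanSpace ℝ (Fin D))) :=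
  measurable_pi_lambda _ (fun i => Fin.cases hz (fun i => (measurable_pi_apply i).comp hu) i)

theorem meas_remove {m : ℕ} : Measurable (fun u : Fin (m + 2) → EuclideanSpace ℝ (Fin D) =>
    (Fin.removeNth 1 u : Fin (m + 1) → EuclideanSpace ℝ (Fin D))) :=
  measurable_pi_lambda _ (fun _ => measurable_pi_apply _)

/-- admissible tuples with heavy far part -/
def FH (μ : Measure (EuclideanSpace ℝ (Fin D)))
    (G : Set (EuclideanSpace ℝ (Fin D) × EuclideanSpace ℝ (Fin D))) (j : ℕ) (δ τ : ℝ)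
    (a : ENNReal) : Set (Fin (j + 2) → EuclideanSpace ℝ (Fin D)) :=
  {u | adm G u ∧ a ≤ μ (nb (sp u) δ \ nb (sp (Fin.removeNth 1 u)) τ)}

theorem meas_FH (hG : MeasurableSet G) (j : ℕ) (δ τ : ℝ) (a : ENNReal) :
    MeasurableSet (FH μ G j δ τ a) :=
  (meas_adm hG _).inter (measurableSet_le measurable_const (measurable_measure_prodMk_left
    (s := {q : (Fin (j + 2) → EuclideanSpace ℝ (Fin D)) × EuclideanSpace ℝ (Fin D) |
      q.2 ∈ nb (sp q.1) δ} \ {q | q.2 ∈ nb (sp (Fin.removeNth 1 q.1)) τ})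
    ((meas_nb measurable_snd measurable_fst δ).diff
      (meas_nb measurable_snd (meas_remove.comp measurable_fst) τ))))

/-- a point near the span of an admissible tuple -/
def NB (G : Set (EuclideanSpace ℝ (Fin D) × EuclideanSpace ℝ (Fin D))) (m : ℕ) (τ : ℝ) :
    Set (EuclideanSpace ℝ (Fin D) × (Fin (m + 1) → EuclideanSpace ℝ (Fin D))) :=
  {q | adm G q.2 ∧ q.1 ∈ nb (sp q.2) τ}

theorem meas_NB (hG : MeasurableSet G) (m : ℕ) (τ : ℝ) : MeasurableSet (NB G m τ) :=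
  (measurable_snd (meas_adm hG m)).inter (meas_nb measurable_fst measurable_snd τ)

theorem NB_le (hG : MeasurableSet G) (m : ℕ) (τ : ℝ) (c : ENNReal) :
    (μ.prod (Measure.pi fun _ => μ)) (NB G m τ) ≤
      Measure.pi (fun _ : Fin (m + 1) => μ) {u | adm G u ∧ c < μ (nb (sp u) τ)} + c := by
  refine near_le μ _ (meas_NB hG m τ) ((meas_adm hG _).inter (measurableSet_lt measurable_const
    (measurable_measure_prodMk_left (meas_nb measurable_snd measurable_fst τ)))) (fun t ht => ?_)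
  by_cases ha : adm G t
  · refine le_trans (measure_mono (fun x hx => hx.2)) (not_lt.1 (fun h => ht ⟨ha, h⟩))
  · have : (fun x => (x, t)) ⁻¹' NB G m τ = ∅ := by
      ext x
      simp [NB, ha]
    rw [this]
    simp

theorem core (hμ : ∀ᵐ z ∂μ, ‖z‖ ≤ 1) (hG : MeasurableSet G) {j : ℕ} {δ τ : ℝ} (hδ : 0 < δ)
    (h2 : 2 * δ ≤ τ) (hτ : τ ≤ 1) {a c c₁ c₂ : ENNReal} (ha : a ≠ 0) (ha' : a ≠ ⊤)
    (hc : c₁ * c₂ ≤ a * a * c) {B₁ : Set (Fin (j + 1) → EuclideanSpace ℝ (Fin D))}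
    {B₂ : Set (Fin (j + 2 + 1) → EuclideanSpace ℝ (Fin D))} (m₁ : MeasurableSet B₁)
    (m₂ : MeasurableSet B₂) (hB₁ : ∀ u, adm G u → u ∉ B₁ → μ (nb (sp u) (12 * δ / τ ^ 2)) ≤ c₁)
    (hB₂ : ∀ u, adm G u → u ∉ B₂ → μ (nb (sp u) (12 * δ / τ ^ 2)) ≤ c₂) (l : ENNReal) :
    l * Measure.pi (fun _ => μ) (FH μ G j δ τ a) ≤ l * l + (Measure.pi (fun _ => μ) B₁ +
      Measure.pi (fun _ => μ) B₂ + (μ.prod (Measure.pi fun _ => μ)) (NB G (j + 1) τ) +
      (μ.prod (Measure.pi fun _ => μ)) (NB G j τ) + c) := by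
  have hτ0 : 0 < τ := by linarith
  let F := EuclideanSpace ℝ (Fin D)
  set ν := Measure.pi (fun _ : Fin j => μ)
  have k1 := mp_cons μ j
  have k2 := (mp_cons μ (j + 1)).comp ((MeasurePreserving.id μ).prod k1)
  have k3 := (mp_cons μ (j + 2)).comp ((MeasurePreserving.id μ).prod k2)
  have mF := meas_FH (μ := μ) hG j δ τ a
  rw [← k2.measure_preimage mF.nullMeasurableSet]
  refine (pair_le μ (μ.prod ν) (k2.measurable mF) l).trans (add_le_add_right ?_ _)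
  set P := μ.prod (μ.prod (μ.prod ν))
  have q1 : MeasurePreserving _ P _ := k1.comp (measurePreserving_snd.comp measurePreserving_snd)
  have q3 : MeasurePreserving _ P _ := (MeasurePreserving.id μ).prod k2
  have q4 : MeasurePreserving _ P _ := ((MeasurePreserving.id μ).prod k1).comp
    ((mp_rot μ ν).comp ((MeasurePreserving.id μ).prod measurePreserving_snd))
  have q5 : MeasurePreserving _ P _ := measurePreserving_fst
  have q6 : MeasurePreserving _ P _ :=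
    measurePreserving_fst.comp (measurePreserving_snd.comp measurePreserving_snd)
  have mN : MeasurableSet {z : F | ¬‖z‖ ≤ 1} :=
    (measurableSet_le measurable_norm measurable_const).compl
  rw [← q1.measure_preimage m₁.nullMeasurableSet, ← k3.measure_preimage m₂.nullMeasurableSet,
    ← q3.measure_preimage (meas_NB hG _ τ).nullMeasurableSet,
    ← q4.measure_preimage (meas_NB hG _ τ).nullMeasurableSet]
  set M : Set (F × F × F × (Fin j → F)) := {q |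
    (Fin.cons q.2.1 (Fin.cons q.2.2.1 q.2.2.2 : Fin (j + 1) → F) : Fin (j + 2) → F) ∈
      FH μ G j δ τ a ∧
    (Fin.cons q.1 (Fin.cons q.2.2.1 q.2.2.2 : Fin (j + 1) → F) : Fin (j + 2) → F) ∈
      FH μ G j δ τ a ∧
    (Fin.cons q.2.2.1 q.2.2.2 : Fin (j + 1) → F) ∉ B₁ ∧
    (Fin.cons q.1 (Fin.cons q.2.1 (Fin.cons q.2.2.1 q.2.2.2 : Fin (j + 1) → F) : Fin (j + 2) → F) :
      Fin (j + 2 + 1) → F) ∉ B₂ ∧
    q.1 ∉ nb (sp (Fin.cons q.2.1 (Fin.cons q.2.2.1 q.2.2.2 : Fin (j + 1) → F) :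
      Fin (j + 2) → F)) τ ∧
    q.2.2.1 ∉ nb (sp (Fin.cons q.1 q.2.2.2 : Fin (j + 1) → F)) τ ∧ ‖q.1‖ ≤ 1 ∧ ‖q.2.2.1‖ ≤ 1}
  have u1 : Measurable (fun q : F × F × F × (Fin j → F) =>
      (Fin.cons q.2.2.1 q.2.2.2 : Fin (j + 1) → F)) :=
    meas_cons measurable_snd.snd.fst measurable_snd.snd.snd
  have mM : MeasurableSet M :=
    ((meas_cons measurable_snd.fst u1) mF).inter (((meas_cons measurable_fst u1) mF).inter
      ((u1 m₁).compl.inter (((meas_cons measurable_fst (meas_cons measurable_snd.fst u1))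
      m₂).compl.inter ((meas_nb measurable_fst (meas_cons measurable_snd.fst u1) τ).compl.inter
      ((meas_nb measurable_snd.snd.fst (meas_cons measurable_fst measurable_snd.snd.snd)
      τ).compl.inter ((measurableSet_le measurable_fst.norm measurable_const).inter
      (measurableSet_le measurable_snd.snd.fst.norm measurable_const)))))))
  have hM : P M ≤ c := by
    have e : c = ∫⁻ _, ∫⁻ _, ∫⁻ _, c ∂ν ∂μ ∂μ := by simp
    rw [e, Measure.prod_apply mM]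
    refine lintegral_mono (fun x' => ?_)
    simp only
    rw [Measure.prod_apply (measurable_prodMk_left mM)]
    refine lintegral_mono (fun x => ?_)
    simp only
    rw [Measure.prod_apply_symm (measurable_prodMk_left (measurable_prodMk_left mM))]
    refine lintegral_mono (fun w => ?_)
    have mY : MeasurableSet {y | (x', x, y, w) ∈ M} :=
      measurable_prodMk_right (measurable_prodMk_left (measurable_prodMk_left mM))
    have mA : ∀ x : F, MeasurableSet ({q : F × F | q.2 ∈ nb (sp (Fin.cons x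
        (Fin.cons q.1 w : Fin (j + 1) → F) : Fin (j + 2) → F)) δ} \
        {q : F × F | q.2 ∈ nb (sp (Fin.cons x w : Fin (j + 1) → F)) τ}) := fun x =>
      (meas_nb measurable_snd (meas_cons measurable_const (meas_cons measurable_fst
        measurable_const)) δ).diff (meas_nb measurable_snd measurable_const τ)
    have gA : ∀ (x y y₁ z : F), ‖y‖ ≤ 1 →
        z ∈ nb (sp (Fin.cons x (Fin.cons y w : Fin (j + 1) → F) : Fin (j + 2) → F)) δ →
        z ∈ nb (sp (Fin.cons x (Fin.cons y₁ w : Fin (j + 1) → F) : Fin (j + 2) → F)) δ →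
        z ∉ nb (sp (Fin.cons x w : Fin (j + 1) → F)) τ →
        y ∈ nb (sp (Fin.cons x (Fin.cons y₁ w : Fin (j + 1) → F) : Fin (j + 2) → F))
          (4 * δ / τ) := by
      rintro x y y₁ z hy ⟨v, hv, he⟩ h1 h3
      obtain ⟨b, u, hu, rfl⟩ := mem_sp_cons₂ hv
      exact geoA (sp_cons_mono x (sp_le_cons y₁ w)) hu he h3 h1 hy h2
    have := count μ mY (mA x) (mA x') (a := a) (c₁ := c₁) (c₂ := c₂) hμ ?_ ?_ ?_
    · exact (ENNReal.mul_le_mul_iff_right (mul_ne_zero ha ha) (ENNReal.mul_ne_top ha' ha')).1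
        (this.trans hc)
    · rintro y ⟨⟨-, h1⟩, ⟨-, h3⟩, -⟩
      rw [remove_one] at h1 h3
      exact ⟨h1, h3⟩
    · intro z z'
      have hh : ∀ A : Set F, (∀ y ∈ A, μ A ≤ c₁) → μ A ≤ c₁ := fun A h => by
        rcases eq_empty_or_nonempty A with rfl | ⟨y, hy⟩
        · simp
        · exact h y hy
      refine hh _ ?_
      rintro y₁ ⟨hy₁, hz₁, hz₁'⟩
      refine le_trans (measure_mono ?_) (hB₁ _ (adm_cons.1 hy₁.1.1).2 hy₁.2.2.1)
      rintro y ⟨hy, hz, hz'⟩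
      obtain ⟨v, hv, he⟩ := gA x' y y₁ z' hy.2.2.2.2.2.2.2 hz'.1 hz₁'.1 hz'.2
      obtain ⟨b, u, hu, rfl⟩ := mem_sp_cons.1 hv
      refine nb_mono (le_of_eq ?_) (geoB (sp_le_cons x _) hu he
        (gA x y y₁ z hy.2.2.2.2.2.2.2 hz.1 hz₁.1 hz.2) hy₁.2.2.2.2.1 hy.2.2.2.2.2.2.1 hτ0 hτ)
      field_simp
      ring
    · intro z
      by_cases h : ∃ y₁, (x', x, y₁, w) ∈ M ∧ z ∈ nb (sp (Fin.cons x
        (Fin.cons y₁ w : Fin (j + 1) → F) : Fin (j + 2) → F)) δ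
      · obtain ⟨y₁, hy₁, hz₁⟩ := h
        refine ⟨_, hB₂ _ (adm_cons_cons hy₁.1.1 hy₁.2.1.1) hy₁.2.2.2.1, ?_⟩
        rintro y hy z' hz1 hz ⟨⟨v, hv, he⟩, -⟩
        obtain ⟨b, u, hu, rfl⟩ := mem_sp_cons₂ hv
        refine nb_mono ?_ (geoC (sp_cons_mono x' ((sp_le_cons y₁ w).trans (sp_le_cons x _)))
          (sp_le_cons x' _) hu he hz1 (by linarith) hy.2.2.2.2.2.1
          (gA x y y₁ z hy.2.2.2.2.2.2.2 hz.1 hz₁ hz.2) hτ0)
        have e : 2 * (4 * δ / τ) / τ = 8 * δ / τ ^ 2 := by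
          field_simp
          ring
        rw [e, le_div_iff₀ (by positivity), add_mul, div_mul_cancel₀ _ (by positivity)]
        have : τ ^ 2 ≤ 1 := pow_le_one₀ hτ0.le hτ
        nlinarith
      · exact ⟨∅, by simp, fun y hy z' _ hz _ => h ⟨y, hy, hz.1⟩⟩
  have n5 : P (Prod.fst ⁻¹' {z : F | ¬‖z‖ ≤ 1}) = 0 := by
    rw [q5.measure_preimage mN.nullMeasurableSet]
    exact hμ
  have n6 : P ((fun q => q.2.2.1) ⁻¹' {z : F | ¬‖z‖ ≤ 1}) = 0 :=
    (q6.measure_preimage mN.nullMeasurableSet).trans hμ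
  refine le_trans ?_ (add_le_add_right hM _)
  refine le_trans ?_ (add_le_add_left (le_trans (measure_union_le _ _) (add_le_add_left
    (le_trans (measure_union_le _ _) (add_le_add_left (measure_union_le _ _) _)) _)) _)
  refine le_trans ?_ (measure_union_le _ _)
  have hh : ∀ A : Set (F × F × F × (Fin j → F)), P (A ∪ (Prod.fst ⁻¹' {z : F | ¬‖z‖ ≤ 1} ∪
      (fun q => q.2.2.1) ⁻¹' {z : F | ¬‖z‖ ≤ 1})) ≤ P A := fun A =>
    (measure_union_le _ _).trans (by rw [measure_union_null n5 n6, add_zero])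
  refine le_trans (measure_mono ?_) (hh _)
  rintro ⟨x', x, y, w⟩ ⟨h1, h3⟩
  by_contra h
  simp only [mem_union, not_or, mem_preimage, mem_setOf_eq, not_not] at h
  obtain ⟨⟨⟨⟨⟨r1, r2⟩, r3⟩, r4⟩, r5⟩, r6, r7⟩ := h
  exact r5 ⟨h1, h3, r1, r2, fun h => r3 ⟨h1.1, h⟩, fun h => r4 ⟨adm_remove h3.1, h⟩,
    not_not.1 r6, not_not.1 r7⟩
end core

theorem ev_iff {Q : ℝ → Prop} :
    (∃ δ₀ > (0 : ℝ), ∀ δ : ℝ, 0 < δ → δ < δ₀ → Q δ) ↔ ∀ᶠ δ in 𝓝[>] (0 : ℝ), Q δ := by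
  rw [Filter.Eventually, mem_nhdsGT_iff_exists_Ioo_subset]
  exact ⟨fun ⟨d, h, h'⟩ => ⟨d, h, fun δ hδ => h' δ hδ.1 hδ.2⟩,
    fun ⟨d, h, h'⟩ => ⟨d, h, fun δ h1 h2 => h' ⟨h1, h2⟩⟩⟩

theorem ev_lt {κ c : ℝ} (hκ : 0 < κ) (hc : 0 < c) : ∀ᶠ δ in 𝓝[>] (0 : ℝ), δ ^ κ < c := by
  have : Tendsto (fun δ : ℝ => δ ^ κ) (𝓝 0) (𝓝 (0 ^ κ)) :=
    (Real.continuousAt_rpow_const 0 κ (Or.inr hκ.le)).tendsto
  rw [Real.zero_rpow hκ.ne'] at this
  exact (this.mono_left nhdsWithin_le_nhds).eventually (gt_mem_nhds hc)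

theorem ev_unit : ∀ᶠ δ in 𝓝[>] (0 : ℝ), 0 < δ ∧ δ < 1 :=
  ev_iff.1 ⟨1, one_pos, fun _ h1 h2 => ⟨h1, h2⟩⟩

theorem tend {κ : ℝ} (hκ : 0 < κ) : Tendsto (fun δ : ℝ => δ ^ κ) (𝓝[>] 0) (𝓝[>] 0) := by
  intro s hs
  obtain ⟨d, hd, h⟩ := ev_iff.2 (show ∀ᶠ δ in 𝓝[>] (0 : ℝ), δ ∈ s from hs)
  rw [mem_map]
  filter_upwards [ev_lt hκ hd, ev_unit] with δ h1 h2
  exact h _ (Real.rpow_pos_of_pos h2.1 κ) h1

/-- bounded by a positive power of the scale -/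
def Sm (f : ℝ → ENNReal) : Prop := ∃ η > (0 : ℝ), ∀ᶠ δ in 𝓝[>] (0 : ℝ), f δ ≤ ENNReal.ofReal (δ ^ η)

theorem Sm.mono {f g : ℝ → ENNReal} (hg : Sm g) (h : ∀ᶠ δ in 𝓝[>] (0 : ℝ), f δ ≤ g δ) : Sm f := by
  obtain ⟨η, hη, h'⟩ := hg
  refine ⟨η, hη, ?_⟩
  filter_upwards [h, h'] with δ h1 h2 using h1.trans h2

theorem Sm.pow (C : ℝ) {η : ℝ} (hη : 0 < η) : Sm (fun δ => ENNReal.ofReal (C * δ ^ η)) := by
  refine ⟨η / 2, by positivity, ?_⟩
  filter_upwards [ev_lt (κ := η / 2) (c := 1 / (|C| + 1)) (by positivity) (by positivity), ev_unit]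
    with δ h1 h2
  refine ENNReal.ofReal_le_ofReal ?_
  have e : δ ^ η = δ ^ (η / 2) * δ ^ (η / 2) := by
    rw [← Real.rpow_add h2.1, add_halves]
  have h3 := Real.rpow_pos_of_pos h2.1 (η / 2)
  rw [lt_div_iff₀ (by positivity)] at h1
  have h4 : C * δ ^ (η / 2) ≤ 1 := by nlinarith [le_abs_self C]
  rw [e, ← mul_assoc]
  exact mul_le_of_le_one_left h3.le h4

theorem Sm.pow' {η : ℝ} (hη : 0 < η) : Sm (fun δ => ENNReal.ofReal (δ ^ η)) :=
  ⟨η, hη, Eventually.of_forall (fun _ => le_rfl)⟩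

theorem Sm.add {f g : ℝ → ENNReal} (hf : Sm f) (hg : Sm g) : Sm (fun δ => f δ + g δ) := by
  obtain ⟨η, hη, h⟩ := hf
  obtain ⟨η', hη', h'⟩ := hg
  refine (Sm.pow 2 (lt_min hη hη')).mono ?_
  filter_upwards [h, h', ev_unit] with δ h1 h2 h3
  have := Real.rpow_pos_of_pos h3.1 (min η η')
  rw [two_mul, ENNReal.ofReal_add this.le this.le]
  exact add_le_add (h1.trans (ENNReal.ofReal_le_ofReal
    (Real.rpow_le_rpow_of_exponent_ge h3.1 h3.2.le (min_le_left _ _))))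
    (h2.trans (ENNReal.ofReal_le_ofReal
    (Real.rpow_le_rpow_of_exponent_ge h3.1 h3.2.le (min_le_right _ _))))

theorem Sm.comp {f : ℝ → ENNReal} (hf : Sm f) {κ : ℝ} (hκ : 0 < κ) : Sm (fun δ => f (δ ^ κ)) := by
  obtain ⟨η, hη, h⟩ := hf
  refine ⟨κ * η, by positivity, ?_⟩
  filter_upwards [(tend hκ).eventually h, ev_unit] with δ h1 h2
  rwa [Real.rpow_mul h2.1.le]

theorem Sm.sqrt {f g : ℝ → ENNReal} (hg : Sm g)
    (h : ∀ᶠ δ in 𝓝[>] (0 : ℝ), ∀ l, l * f δ ≤ l * l + g δ) : Sm f := by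
  obtain ⟨η, hη, h'⟩ := hg
  refine (Sm.pow 2 (η := η / 2) (by positivity)).mono ?_
  filter_upwards [h, h', ev_unit] with δ h1 h2 h3
  have h4 := Real.rpow_pos_of_pos h3.1 (η / 2)
  have e : δ ^ η = δ ^ (η / 2) * δ ^ (η / 2) := by
    rw [← Real.rpow_add h3.1, add_halves]
  rw [e, ENNReal.ofReal_mul h4.le] at h2
  have := (h1 (ENNReal.ofReal (δ ^ (η / 2)))).trans (add_le_add_right h2 _)
  rw [← mul_add] at this
  rw [two_mul, ENNReal.ofReal_add h4.le h4.le]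
  exact (ENNReal.mul_le_mul_iff_right (by simpa using h4) ENNReal.ofReal_ne_top).1 this

section main
variable {D : ℕ} {μ : Measure (EuclideanSpace ℝ (Fin D))} [IsProbabilityMeasure μ]
  {G : Set (EuclideanSpace ℝ (Fin D) × EuclideanSpace ℝ (Fin D))}

theorem S_iff {j : ℕ} {p : ℝ} : S μ G j p ↔ Sm (fun δ => Measure.pi (fun _ : Fin (j + 1) => μ)
    {u | adm G u ∧ ENNReal.ofReal (δ ^ p) < μ (nb (sp u) δ)}) := by
  unfold S Sm
  simp only [ev_iff]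

theorem conc_aux (hμ : ∀ᵐ z ∂μ, ‖z‖ ≤ 1) (hG : MeasurableSet G) {j : ℕ} {p p₁ p₂ : ℝ} (hp : 0 < p)
    (hpp : p < p₁) (hc : 2 * p < p₁ + p₂) (h₁ : S μ G j p₁) (h : S μ G (j + 1) (p / 2))
    (l₁ : ∀ κ : ℝ, 0 < κ → ∃ η > (0 : ℝ), ∃ δ₀ > (0 : ℝ), ∀ δ : ℝ, 0 < δ → δ < δ₀ →
      ∃ Bad : Set (Fin (j + 1) → EuclideanSpace ℝ (Fin D)), MeasurableSet Bad ∧
      Measure.pi (fun _ : Fin (j + 1) => μ) Bad ≤ ENNReal.ofReal (δ ^ η) ∧
      ∀ u, adm G u → u ∉ Bad → ∀ r, δ ≤ r →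
        μ (nb (sp u) r) ≤ ENNReal.ofReal (δ ^ (-κ) * r ^ p₁))
    (l₂ : ∀ κ : ℝ, 0 < κ → ∃ η > (0 : ℝ), ∃ δ₀ > (0 : ℝ), ∀ δ : ℝ, 0 < δ → δ < δ₀ →
      ∃ Bad : Set (Fin (j + 2 + 1) → EuclideanSpace ℝ (Fin D)), MeasurableSet Bad ∧
      Measure.pi (fun _ : Fin (j + 2 + 1) => μ) Bad ≤ ENNReal.ofReal (δ ^ η) ∧
      ∀ u, adm G u → u ∉ Bad → ∀ r, δ ≤ r →
        μ (nb (sp u) r) ≤ ENNReal.ofReal (δ ^ (-κ) * r ^ p₂))
    (hn : ∀ κ : ℝ, 0 < κ → ∃ ε > (0 : ℝ), ∃ η > (0 : ℝ), ∃ δ₀ > (0 : ℝ), ∀ δ : ℝ, 0 < δ → δ < δ₀ →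
      Measure.pi (fun _ : Fin (j + 2) => μ) {u | adm G u ∧ ENNReal.ofReal (δ ^ (p + ε)) <
        μ (nb (sp u) δ ∩ nb (sp (Fin.removeNth 1 u)) (δ ^ κ))} ≤ ENNReal.ofReal (δ ^ η)) :
    ∃ p' > p, S μ G (j + 1) p' := by
  obtain ⟨g, hg⟩ : ∃ g, g = p₁ + p₂ - 2 * p := ⟨_, rfl⟩
  have g0 : 0 < g := by linarith
  have P0 : 0 < p₁ + p₂ := by linarith
  obtain ⟨κ, κ0, hκ⟩ : ∃ κ > (0 : ℝ), κ * (p₁ + p₂) = g / 8 :=
    ⟨g / 8 / (p₁ + p₂), by positivity, by field_simp⟩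
  have κ1 : κ < 1 := by nlinarith
  obtain ⟨η₁, η10, l₁⟩ := l₁ (g / 8) (by positivity)
  obtain ⟨η₂, η20, l₂⟩ := l₂ (g / 8) (by positivity)
  obtain ⟨ε₀, ε00, η₃, η30, hn⟩ := hn κ κ0
  rw [ev_iff] at l₁ l₂ hn
  obtain ⟨ε, ε0, ε1, ε2⟩ : ∃ ε > (0 : ℝ), ε ≤ ε₀ ∧ ε ≤ g / 8 :=
    ⟨min ε₀ (g / 8), lt_min ε00 (by positivity), min_le_left _ _, min_le_right _ _⟩
  have hF : Sm (fun δ => Measure.pi (fun _ => μ)
      (FH μ G j δ (δ ^ κ) (ENNReal.ofReal (δ ^ (p + ε))))) := by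
    refine (((((Sm.pow' η10).add (Sm.pow' η20)).add (((S_iff.1 h).add
      (Sm.pow' (η := p / 2) (by positivity))).comp κ0)).add (((S_iff.1 h₁).add
      (Sm.pow' (η := p₁) (by linarith))).comp κ0)).add
      (Sm.pow (12 ^ (p₁ + p₂)) (η := g / 4) (by positivity))).sqrt ?_
    filter_upwards [l₁, l₂, ev_unit, ev_lt (κ := 1 - κ) (c := 1 / 2) (by linarith) (by norm_num)]
      with δ ⟨B₁, m₁, b₁, hB₁⟩ ⟨B₂, m₂, b₂, hB₂⟩ ⟨d0, d1⟩ d2 l
    have t0 := Real.rpow_pos_of_pos d0 κ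
    have t1 : δ ^ κ ≤ 1 := Real.rpow_le_one d0.le d1.le κ0.le
    have t2 : 2 * δ ≤ δ ^ κ := by
      rw [Real.rpow_sub d0, Real.rpow_one, div_lt_iff₀ t0] at d2
      linarith
    have r1 : δ ≤ 12 * δ / (δ ^ κ) ^ 2 := by
      rw [le_div_iff₀ (by positivity)]
      have : (δ ^ κ) ^ 2 ≤ 1 := pow_le_one₀ t0.le t1
      nlinarith
    have r2 : 12 * δ / (δ ^ κ) ^ 2 = 12 * δ ^ (1 - 2 * κ) := by
      rw [Real.rpow_sub d0, Real.rpow_one, mul_comm 2 κ, Real.rpow_mul d0.le, Real.rpow_two,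
        mul_div_assoc]
    refine (core hμ hG d0 t2 t1 (by simpa using Real.rpow_pos_of_pos d0 _) ENNReal.ofReal_ne_top
      (c := ENNReal.ofReal (12 ^ (p₁ + p₂) * δ ^ (g / 4))) ?_ m₁ m₂
      (fun u h1 h2 => hB₁ u h1 h2 _ r1) (fun u h1 h2 => hB₂ u h1 h2 _ r1) l).trans ?_
    · rw [← ENNReal.ofReal_mul (by positivity), ← ENNReal.ofReal_mul (by positivity),
        ← ENNReal.ofReal_mul (by positivity), r2]
      refine ENNReal.ofReal_le_ofReal ?_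
      rw [mul_mul_mul_comm, ← Real.rpow_add (by positivity), ← Real.rpow_add (by positivity),
        Real.mul_rpow (by norm_num) (by positivity), ← Real.rpow_mul d0.le,
        ← Real.rpow_add d0, mul_left_comm, mul_left_comm _ (12 ^ (p₁ + p₂) : ℝ),
        ← Real.rpow_add d0, ← Real.rpow_add d0]
      refine mul_le_mul_of_nonneg_left (Real.rpow_le_rpow_of_exponent_ge d0 d1.le ?_)
        (by positivity)
      nlinarith
    · gcongr
      · exact NB_le hG _ _ _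
      · exact NB_le hG _ _ _
  refine ⟨p + ε / 2, by linarith, S_iff.2 (((Sm.pow' η30).add hF).mono ?_)⟩
  filter_upwards [hn, ev_unit, ev_lt (κ := ε / 2) (c := 1 / 2) (by positivity) (by norm_num)]
    with δ hn ⟨d0, d1⟩ d2
  refine le_trans (measure_mono ?_) ((measure_union_le _ _).trans (add_le_add_left hn _))
  rintro u ⟨h1, h2⟩
  by_contra h3
  simp only [mem_union, not_or, mem_setOf_eq, FH, h1, true_and, not_lt, not_le] at h3
  have h4 := measure_le_inter_add_diff μ (nb (sp u) δ) (nb (sp (Fin.removeNth 1 u)) (δ ^ κ))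
  have h5 : δ ^ (p + ε₀) ≤ δ ^ (p + ε) := Real.rpow_le_rpow_of_exponent_ge d0 d1.le (by linarith)
  have h6 : δ ^ (p + ε) + δ ^ (p + ε) ≤ δ ^ (p + ε / 2) := by
    rw [show p + ε = (p + ε / 2) + ε / 2 by ring, Real.rpow_add d0 (p + ε / 2)]
    have := Real.rpow_pos_of_pos d0 (p + ε / 2)
    nlinarith
  have h7 := (h4.trans (add_le_add (h3.1.trans (ENNReal.ofReal_le_ofReal h5)) h3.2.le))
  rw [← ENNReal.ofReal_add (by positivity) (by positivity)] at h7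
  exact absurd (h7.trans (ENNReal.ofReal_le_ofReal h6)) (not_le.2 h2)
end main

end Pool.Agent.P.MP_bf60a1_an.RA.Cc
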