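import Pool.Agent.P.MP_bf60a1_an.RA.Defs

/-! Geometry and tuple lemmas for `conc`. -/

set_option autoImplicit false

namespace Pool.Agent.P.MP_bf60a1_an.RA.Cc

open MeasureTheory Set

section geo
variable {F : Type*} [NormedAddCommGroup F] [NormedSpace ℝ F]

theorem coef {U : Submodule ℝ F} {x u : F} {τ : ℝ} (hx : x ∉ nb U τ) (hu : u ∈ U) (a : ℝ) :
    |a| * τ ≤ ‖a • x - u‖ := by
  by_cases ha : a = 0
  · simp [ha]
  have h1 : τ ≤ ‖x - a⁻¹ • u‖ := by
    by_contra h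
    exact hx ⟨_, U.smul_mem _ hu, not_le.1 h⟩
  have e : a • x - u = a • (x - a⁻¹ • u) := by
    rw [smul_sub, smul_inv_smul₀ ha]
  rw [e, norm_smul, Real.norm_eq_abs]
  exact mul_le_mul_of_nonneg_left h1 (abs_nonneg a)

theorem geoA {U U₁ : Submodule ℝ F} (hU : U ≤ U₁) {z y u : F} {b δ τ : ℝ} (hu : u ∈ U)
    (he : ‖z - (b • y + u)‖ < δ) (hz : z ∉ nb U τ) (hz₁ : z ∈ nb U₁ δ) (hy : ‖y‖ ≤ 1)
    (h2 : 2 * δ ≤ τ) : y ∈ nb U₁ (4 * δ / τ) := by
  have hδ : 0 < δ := lt_of_le_of_lt (norm_nonneg _) he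
  have hτ : 0 < τ := by linarith
  have h1 : τ ≤ ‖z - u‖ := by
    by_contra h
    exact hz ⟨u, hu, not_le.1 h⟩
  have h3 : ‖z - u‖ ≤ ‖z - (b • y + u)‖ + ‖b • y‖ := by
    have : z - u = (z - (b • y + u)) + b • y := by abel
    rw [this]
    exact norm_add_le _ _
  have h4 : ‖b • y‖ ≤ |b| := by
    rw [norm_smul, Real.norm_eq_abs]
    exact mul_le_of_le_one_right (abs_nonneg b) hy
  have hb : τ / 2 ≤ |b| := by linarith
  have hb0 : b ≠ 0 := by
    rintro rfl
    simp only [abs_zero] at hb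
    linarith
  obtain ⟨v, hv, hv'⟩ := hz₁
  refine ⟨b⁻¹ • (v - u), U₁.smul_mem _ (U₁.sub_mem hv (hU hu)), ?_⟩
  have e : y - b⁻¹ • (v - u) = b⁻¹ • ((z - v) - (z - (b • y + u))) := by
    have : (z - v) - (z - (b • y + u)) = b • y - (v - u) := by abel
    rw [this, smul_sub b⁻¹ (b • y), inv_smul_smul₀ hb0]
  rw [e, norm_smul, norm_inv, Real.norm_eq_abs, inv_mul_lt_iff₀ (by linarith)]
  have h5 := norm_sub_le (z - v) (z - (b • y + u))
  have h6 : τ / 2 * (4 * δ / τ) ≤ |b| * (4 * δ / τ) :=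
    mul_le_mul_of_nonneg_right hb (by positivity)
  have h7 : τ / 2 * (4 * δ / τ) = 2 * δ := by field_simp; ring
  linarith

theorem geoB {U U₁ : Submodule ℝ F} (hU : U ≤ U₁) {y x u : F} {a ρ τ : ℝ} (hu : u ∈ U)
    (he : ‖y - (a • x + u)‖ < ρ) (hy : y ∈ nb U₁ ρ) (hx : x ∉ nb U₁ τ) (hx1 : ‖x‖ ≤ 1)
    (hτ : 0 < τ) (hτ1 : τ ≤ 1) : y ∈ nb U (3 * ρ / τ) := by
  have hρ : 0 < ρ := lt_of_le_of_lt (norm_nonneg _) he
  obtain ⟨v, hv, hv'⟩ := hy
  have h1 := coef hx (U₁.sub_mem hv (hU hu)) a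
  have e : a • x - (v - u) = (y - v) - (y - (a • x + u)) := by abel
  have h2 := norm_sub_le (y - v) (y - (a • x + u))
  rw [e] at h1
  refine ⟨u, hu, ?_⟩
  have h3 : ‖y - u‖ ≤ ‖y - (a • x + u)‖ + ‖a • x‖ := by
    have : y - u = (y - (a • x + u)) + a • x := by abel
    rw [this]
    exact norm_add_le _ _
  have h4 : ‖a • x‖ ≤ |a| := by
    rw [norm_smul, Real.norm_eq_abs]
    exact mul_le_of_le_one_right (abs_nonneg a) hx1
  rw [lt_div_iff₀ hτ]
  have h5 : ‖y - u‖ * τ ≤ (‖y - (a • x + u)‖ + |a|) * τ :=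
    mul_le_mul_of_nonneg_right (by linarith) hτ.le
  have h6 : ‖y - (a • x + u)‖ * τ ≤ ‖y - (a • x + u)‖ :=
    mul_le_of_le_one_right (norm_nonneg _) hτ1
  nlinarith

theorem geoC {U U₁ U₂ : Submodule ℝ F} (hU : U ≤ U₂) (hU₁ : U₁ ≤ U₂) {z y u : F}
    {b δ ρ τ : ℝ} (hu : u ∈ U) (he : ‖z - (b • y + u)‖ < δ) (hz : ‖z‖ ≤ 1) (hδ1 : δ ≤ 1)
    (hy : y ∉ nb U τ) (hy₁ : y ∈ nb U₁ ρ) (hτ : 0 < τ) : z ∈ nb U₂ (δ + 2 * ρ / τ) := by
  have h1 := coef hy (U.neg_mem hu) b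
  have e : b • y - -u = z - (z - (b • y + u)) := by abel
  have h2 := norm_sub_le z (z - (b • y + u))
  rw [e] at h1
  have hb : |b| ≤ 2 / τ := by
    rw [le_div_iff₀ hτ]
    linarith
  obtain ⟨v, hv, hv'⟩ := hy₁
  refine ⟨b • v + u, U₂.add_mem (U₂.smul_mem _ (hU₁ hv)) (hU hu), ?_⟩
  have e2 : z - (b • v + u) = (z - (b • y + u)) + b • (y - v) := by
    rw [smul_sub]
    abel
  have h3 := norm_add_le (z - (b • y + u)) (b • (y - v))
  rw [norm_smul, Real.norm_eq_abs, ← e2] at h3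
  have h4 : |b| * ‖y - v‖ ≤ 2 / τ * ρ :=
    mul_le_mul hb hv'.le (norm_nonneg _) (by positivity)
  have h5 : 2 / τ * ρ = 2 * ρ / τ := by ring
  linarith

theorem nb_mono {U : Submodule ℝ F} {r r' : ℝ} (h : r ≤ r') : nb U r ⊆ nb U r' :=
  fun _ ⟨v, hv, hv'⟩ => ⟨v, hv, hv'.trans_le h⟩

theorem mem_sp_cons {m : ℕ} {x v : F} {w : Fin m → F} :
    v ∈ sp (Fin.cons x w : Fin (m + 1) → F) ↔ ∃ a : ℝ, ∃ o ∈ sp w, v = a • x + o := by
  unfold sp
  rw [Fin.range_cons, Submodule.mem_span_insert]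

theorem sp_le_cons {m : ℕ} (x : F) (w : Fin m → F) :
    sp w ≤ sp (Fin.cons x w : Fin (m + 1) → F) :=
  fun v hv => mem_sp_cons.2 ⟨0, v, hv, by simp⟩

theorem sp_cons_mono {m n : ℕ} (x : F) {w : Fin m → F} {w' : Fin n → F} (h : sp w ≤ sp w') :
    sp (Fin.cons x w : Fin (m + 1) → F) ≤ sp (Fin.cons x w' : Fin (n + 1) → F) := by
  intro v hv
  obtain ⟨a, o, ho, rfl⟩ := mem_sp_cons.1 hv
  exact mem_sp_cons.2 ⟨a, o, h ho, rfl⟩

theorem mem_sp_cons₂ {m : ℕ} {x y v : F} {w : Fin m → F}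
    (h : v ∈ sp (Fin.cons x (Fin.cons y w : Fin (m + 1) → F) : Fin (m + 2) → F)) :
    ∃ b : ℝ, ∃ u ∈ sp (Fin.cons x w : Fin (m + 1) → F), v = b • y + u := by
  obtain ⟨a, o, ho, rfl⟩ := mem_sp_cons.1 h
  obtain ⟨b, o', ho', rfl⟩ := mem_sp_cons.1 ho
  exact ⟨b, a • x + o', mem_sp_cons.2 ⟨a, o', ho', rfl⟩, by abel⟩

theorem isOpen_nb (m : ℕ) (r : ℝ) : IsOpen {q : F × (Fin m → F) | q.1 ∈ nb (sp q.2) r} := by
  have : {q : F × (Fin m → F) | q.1 ∈ nb (sp q.2) r} =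
      ⋃ c : Fin m → ℝ, {q : F × (Fin m → F) | ‖q.1 - ∑ i, c i • q.2 i‖ < r} := by
    ext q
    simp only [nb, sp, Submodule.mem_span_range_iff_exists_fun, mem_setOf_eq, mem_iUnion]
    constructor
    · rintro ⟨v, ⟨c, rfl⟩, h⟩
      exact ⟨c, h⟩
    · rintro ⟨c, h⟩
      exact ⟨_, ⟨c, rfl⟩, h⟩
  rw [this]
  exact isOpen_iUnion (fun c => isOpen_lt (by fun_prop) continuous_const)
end geo

section adm
variable {F : Type*} {G : Set (F × F)}

theorem adm_cons {m : ℕ} {x : F} {t : Fin (m + 1) → F} :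
    adm G (Fin.cons x t : Fin (m + 2) → F) ↔ (t (Fin.last m), x) ∈ G ∧ adm G t := by
  unfold adm
  rw [Fin.forall_fin_succ]
  simp only [← Fin.succ_last, Fin.cons_succ, Fin.castSucc_zero, Fin.cons_zero,
    ← Fin.succ_castSucc]

theorem adm_remove {m : ℕ} {x y : F} {w : Fin m → F}
    (h : adm G (Fin.cons x (Fin.cons y w : Fin (m + 1) → F) : Fin (m + 2) → F)) :
    adm G (Fin.cons x w : Fin (m + 1) → F) := by
  cases m with
  | zero => exact fun i => i.elim0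
  | succ m =>
    rw [adm_cons, adm_cons] at h
    rw [adm_cons]
    refine ⟨?_, h.2.2⟩
    have := h.1
    rwa [← Fin.succ_last, Fin.cons_succ] at this

theorem adm_cons_cons {m : ℕ} {x x' : F} {t : Fin (m + 1) → F}
    (h : adm G (Fin.cons x t : Fin (m + 2) → F)) (h' : adm G (Fin.cons x' t : Fin (m + 2) → F)) :
    adm G (Fin.cons x' (Fin.cons x t : Fin (m + 2) → F) : Fin (m + 3) → F) := by
  rw [adm_cons]
  refine ⟨?_, h⟩
  rw [← Fin.succ_last, Fin.cons_succ]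
  exact (adm_cons.1 h').1

theorem remove_one {m : ℕ} (x y : F) (w : Fin m → F) :
    Fin.removeNth 1 (Fin.cons x (Fin.cons y w : Fin (m + 1) → F) : Fin (m + 2) → F) =
      (Fin.cons x w : Fin (m + 1) → F) := by
  funext i
  refine Fin.cases ?_ (fun i => ?_) i
  · rfl
  · rw [Fin.removeNth_apply, Fin.one_succAbove_succ]
    rfl

variable [MeasurableSpace F]

theorem meas_adm (hG : MeasurableSet G) (m : ℕ) :
    MeasurableSet {u : Fin (m + 1) → F | adm G u} := by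
  unfold adm
  rw [setOf_forall]
  exact MeasurableSet.iInter (fun i =>
    ((measurable_pi_apply _).prodMk (measurable_pi_apply _)) hG)

theorem mp_cons (μ : Measure F) [IsProbabilityMeasure μ] (m : ℕ) :
    MeasurePreserving (fun q : F × (Fin m → F) => (Fin.cons q.1 q.2 : Fin (m + 1) → F))
      (μ.prod (Measure.pi fun _ => μ)) (Measure.pi fun _ => μ) := by
  have := (measurePreserving_piFinSuccAbove (fun _ : Fin (m + 1) => μ) 0).symm
  convert this using 1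
  funext q
  exact (Fin.insertNth_zero' q.1 q.2).symm
end adm

section abstract
variable {X T : Type*} [MeasurableSpace X] [MeasurableSpace T] (μ : Measure X)
  [IsProbabilityMeasure μ] (ν : Measure T) [IsProbabilityMeasure ν]

theorem mp_rot : MeasurePreserving (fun q : X × X × T => (q.2.1, q.1, q.2.2))
    (μ.prod (μ.prod ν)) (μ.prod (μ.prod ν)) := by
  have h : MeasurePreserving (MeasurableEquiv.prodAssoc : (X × X) × T ≃ᵐ X × X × T)
      ((μ.prod μ).prod ν) (μ.prod (μ.prod ν)) :=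
    ⟨MeasurableEquiv.prodAssoc.measurable, Measure.prodAssoc_prod⟩
  exact h.comp ((Measure.measurePreserving_swap.prod (MeasurePreserving.id ν)).comp h.symm)

theorem pair_le {H : Set (X × T)} (hH : MeasurableSet H) (l : ENNReal) :
    l * (μ.prod ν) H ≤ l * l +
      (μ.prod (μ.prod ν)) {q : X × X × T | (q.2.1, q.2.2) ∈ H ∧ (q.1, q.2.2) ∈ H} := by
  have h : MeasurePreserving (MeasurableEquiv.prodAssoc : (X × X) × T ≃ᵐ X × X × T)
      ((μ.prod μ).prod ν) (μ.prod (μ.prod ν)) :=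
    ⟨MeasurableEquiv.prodAssoc.measurable, Measure.prodAssoc_prod⟩
  have hm : MeasurableSet {q : X × X × T | (q.2.1, q.2.2) ∈ H ∧ (q.1, q.2.2) ∈ H} :=
    (measurable_snd hH).inter ((measurable_fst.prodMk measurable_snd.snd) hH)
  rw [← h.measure_preimage hm.nullMeasurableSet,
    Measure.prod_apply_symm (h.measurable hm), Measure.prod_apply_symm hH,
    ← lintegral_const_mul _ (measurable_measure_prodMk_right hH)]
  have e : l * l = ∫⁻ _ : T, l * l ∂ν := by simp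
  rw [e, ← lintegral_add_left measurable_const]
  refine lintegral_mono (fun t => ?_)
  have : (fun x => (x, t)) ⁻¹' (MeasurableEquiv.prodAssoc ⁻¹'
      {q : X × X × T | (q.2.1, q.2.2) ∈ H ∧ (q.1, q.2.2) ∈ H}) =
      ((fun x => (x, t)) ⁻¹' H) ×ˢ ((fun x => (x, t)) ⁻¹' H) := by
    ext q
    exact and_comm
  simp only
  rw [this, Measure.prod_prod]
  rcases le_total l (μ ((fun x => (x, t)) ⁻¹' H)) with h | h
  · exact le_add_left (mul_le_mul_left h _)
  · exact le_add_right (mul_le_mul_right h _)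

theorem count {Y : Set X} (hY : MeasurableSet Y) {A A' : Set (X × X)} (hA : MeasurableSet A)
    (hA' : MeasurableSet A') {a c₁ c₂ : ENNReal} {N : Set X} (hN : ∀ᵐ z ∂μ, z ∈ N)
    (h0 : ∀ y ∈ Y, a ≤ μ (Prod.mk y ⁻¹' A) ∧ a ≤ μ (Prod.mk y ⁻¹' A'))
    (h1 : ∀ z z', μ {y | y ∈ Y ∧ (y, z) ∈ A ∧ (y, z') ∈ A'} ≤ c₁)
    (h2 : ∀ z, ∃ B : Set X, μ B ≤ c₂ ∧
      ∀ y ∈ Y, ∀ z' ∈ N, (y, z) ∈ A → (y, z') ∈ A' → z' ∈ B) :
    a * a * μ Y ≤ c₁ * c₂ := by
  set Sg : Set (X × X × X) := {q | q.1 ∈ Y ∧ (q.1, q.2.1) ∈ A ∧ (q.1, q.2.2) ∈ A'}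
  have hm : MeasurableSet Sg := (measurable_fst hY).inter
    (((measurable_fst.prodMk measurable_snd.fst) hA).inter
      ((measurable_fst.prodMk measurable_snd.snd) hA'))
  calc a * a * μ Y = ∫⁻ y, Y.indicator (fun _ => a * a) y ∂μ := by
        rw [lintegral_indicator_const hY]
    _ ≤ (μ.prod (μ.prod μ)) Sg := by
        rw [Measure.prod_apply hm]
        refine lintegral_mono (fun y => ?_)
        by_cases hy : y ∈ Y
        · have : Prod.mk y ⁻¹' Sg = (Prod.mk y ⁻¹' A) ×ˢ (Prod.mk y ⁻¹' A') := by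
            ext q
            simp [Sg, hy]
          simp only [indicator_of_mem hy]
          rw [this, Measure.prod_prod]
          exact mul_le_mul' (h0 y hy).1 (h0 y hy).2
        · simp [indicator_of_notMem hy]
    _ ≤ ∫⁻ _ : X, c₁ * c₂ ∂μ := by
        rw [Measure.prod_apply_symm hm]
        refine (lintegral_prod_le _).trans (lintegral_mono (fun z => ?_))
        obtain ⟨B, hB, hB'⟩ := h2 z
        refine le_trans (lintegral_mono_ae ?_)
          ((lintegral_indicator_const_le B c₁).trans (mul_le_mul_right hB _))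
        filter_upwards [hN] with z' hz'
        by_cases hz : z' ∈ B
        · rw [indicator_of_mem hz]
          exact h1 z z'
        · have : (fun y => (y, z, z')) ⁻¹' Sg = ∅ := by
            ext y
            simp only [Sg, mem_preimage, mem_setOf_eq, mem_empty_iff_false, iff_false]
            exact fun h => hz (hB' y h.1 z' hz' h.2.1 h.2.2)
          rw [this]
          simp
    _ = c₁ * c₂ := by simp

theorem near_le {H : Set (X × T)} (hH : MeasurableSet H) {E : Set T} (hE : MeasurableSet E)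
    {c : ENNReal} (h : ∀ t ∉ E, μ ((fun x => (x, t)) ⁻¹' H) ≤ c) : (μ.prod ν) H ≤ ν E + c := by
  rw [Measure.prod_apply_symm hH]
  calc _ ≤ ∫⁻ t, (E.indicator (fun _ => 1) t + c) ∂ν := by
        refine lintegral_mono (fun t => ?_)
        by_cases ht : t ∈ E
        · simp only [indicator_of_mem ht]
          exact le_add_right prob_le_one
        · exact le_add_left (h t ht)
    _ = ν E + c := by
        rw [lintegral_add_right _ measurable_const, lintegral_indicator_const hE]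
        simp
end abstract

end Pool.Agent.P.MP_bf60a1_an.RA.Cc
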