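import Mathlib

/-! A small library for Shannon entropy on finite probability spaces. -/

namespace Pool.Agent.P.MP_bf60a1_an.RA

open Finset Real

open Classical in
/-- indicator of a proposition -/
noncomputable def ind (s : Prop) : ℝ := if s then 1 else 0

theorem ind_pos {s : Prop} (h : s) : ind s = 1 := by simp [ind, h]
theorem ind_neg {s : Prop} (h : ¬ s) : ind s = 0 := by simp [ind, h]
theorem ind_nonneg (s : Prop) : 0 ≤ ind s := by unfold ind; split_ifs <;> norm_num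
theorem ind_le_one (s : Prop) : ind s ≤ 1 := by unfold ind; split_ifs <;> norm_num
theorem ind_and (s t : Prop) : ind (s ∧ t) = ind s * ind t := by
  by_cases hs : s <;> by_cases ht : t <;> simp [ind, hs, ht]
theorem ind_mono {s t : Prop} (h : s → t) : ind s ≤ ind t := by
  by_cases hs : s
  · rw [ind_pos hs, ind_pos (h hs)]
  · rw [ind_neg hs]; exact ind_nonneg _
theorem ind_congr {s t : Prop} (h : s ↔ t) : ind s = ind t := by rw [propext h]
theorem ind_not (s : Prop) : ind (¬ s) = 1 - ind s := by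
  by_cases hs : s <;> simp [ind, hs]
theorem ind_or_le (s t : Prop) : ind (s ∨ t) ≤ ind s + ind t := by
  by_cases hs : s <;> by_cases ht : t <;> simp [ind, hs, ht]
theorem ind_exists_le {ι : Type*} (F : Finset ι) (s : ι → Prop) :
    ind (∃ i ∈ F, s i) ≤ ∑ i ∈ F, ind (s i) := by
  by_cases h : ∃ i ∈ F, s i
  · obtain ⟨i, hi, hs⟩ := h
    rw [ind_pos ⟨i, hi, hs⟩, ← ind_pos hs]
    exact single_le_sum (f := fun i => ind (s i)) (fun j _ => ind_nonneg _) hi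
  · rw [ind_neg h]; exact sum_nonneg fun j _ => ind_nonneg _
theorem sum_ind_eq {α : Type*} (F : Finset α) (g : α → ℝ) {a : α} (ha : a ∈ F) :
    ∑ b ∈ F, ind (a = b) * g b = g a := by
  rw [sum_eq_single a]
  · rw [ind_pos rfl, one_mul]
  · intro b _ hb; rw [ind_neg (Ne.symm hb), zero_mul]
  · intro h; exact absurd ha h

/-- probability weights on a finite type -/
structure FP (Ω : Type*) [Fintype Ω] where
  p : Ω → ℝ
  nn : ∀ ω, 0 ≤ p ω
  one : ∑ ω, p ω = 1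

namespace FP

variable {Ω Ω' Ω'' α β γ : Type*} [Fintype Ω] [Fintype Ω'] [Fintype Ω''] (P : FP Ω)

/-- expectation -/
noncomputable def E (f : Ω → ℝ) : ℝ := ∑ ω, P.p ω * f ω
/-- probability -/
noncomputable def pr (s : Ω → Prop) : ℝ := P.E fun ω => ind (s ω)
/-- mass of the class of `ω` -/
noncomputable def cl (Z : Ω → α) (ω : Ω) : ℝ := P.pr fun ω' => Z ω' = Z ω
/-- entropy -/
noncomputable def H (Z : Ω → α) : ℝ := P.E fun ω => - log (P.cl Z ω)
/-- conditional entropy -/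
noncomputable def Hc (Z : Ω → α) (V : Ω → β) : ℝ := (P.H fun ω => (Z ω, V ω)) - P.H V

theorem E_mono {f g : Ω → ℝ} (h : ∀ ω, 0 < P.p ω → f ω ≤ g ω) : P.E f ≤ P.E g := by
  refine sum_le_sum fun ω _ => ?_
  rcases (P.nn ω).eq_or_lt with h0 | h0
  · rw [← h0]; simp
  · exact mul_le_mul_of_nonneg_left (h ω h0) h0.le
theorem E_congr {f g : Ω → ℝ} (h : ∀ ω, 0 < P.p ω → f ω = g ω) : P.E f = P.E g :=
  le_antisymm (P.E_mono fun ω hω => (h ω hω).le) (P.E_mono fun ω hω => (h ω hω).ge)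
theorem E_const (c : ℝ) : (P.E fun _ => c) = c := by
  unfold E; rw [← sum_mul, P.one, one_mul]
theorem E_add (f g : Ω → ℝ) : (P.E fun ω => f ω + g ω) = P.E f + P.E g := by
  simp only [E, mul_add, sum_add_distrib]
theorem E_sub (f g : Ω → ℝ) : (P.E fun ω => f ω - g ω) = P.E f - P.E g := by
  simp only [E, mul_sub, sum_sub_distrib]
theorem E_neg (f : Ω → ℝ) : (P.E fun ω => - f ω) = - P.E f := by
  simp only [E, mul_neg, sum_neg_distrib]
theorem E_mul_left (c : ℝ) (f : Ω → ℝ) : (P.E fun ω => c * f ω) = c * P.E f := by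
  simp only [E, mul_sum]; exact sum_congr rfl fun ω _ => by ring
theorem E_mul_right (c : ℝ) (f : Ω → ℝ) : (P.E fun ω => f ω * c) = P.E f * c := by
  simp only [E, sum_mul]; exact sum_congr rfl fun ω _ => by ring
theorem E_div (c : ℝ) (f : Ω → ℝ) : (P.E fun ω => f ω / c) = P.E f / c := by
  simp only [div_eq_mul_inv, E_mul_right]
theorem E_sum {ι : Type*} (F : Finset ι) (f : ι → Ω → ℝ) :
    (P.E fun ω => ∑ i ∈ F, f i ω) = ∑ i ∈ F, P.E (f i) := by
  simp only [E, mul_sum]; exact sum_comm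
theorem E_comm (P' : FP Ω') (f : Ω → Ω' → ℝ) :
    (P.E fun ω => P'.E fun ω' => f ω ω') = P'.E fun ω' => P.E fun ω => f ω ω' := by
  simp only [E, mul_sum]; rw [sum_comm]
  exact sum_congr rfl fun _ _ => sum_congr rfl fun _ _ => by ring
theorem E_nonneg {f : Ω → ℝ} (h : ∀ ω, 0 < P.p ω → 0 ≤ f ω) : 0 ≤ P.E f := by
  have := P.E_mono (f := fun _ => 0) h; rwa [E_const] at this
theorem E_le {f : Ω → ℝ} {c : ℝ} (h : ∀ ω, 0 < P.p ω → f ω ≤ c) : P.E f ≤ c := by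
  have := P.E_mono (g := fun _ => c) h; rwa [E_const] at this
theorem le_E {f : Ω → ℝ} {c : ℝ} (h : ∀ ω, 0 < P.p ω → c ≤ f ω) : c ≤ P.E f := by
  have := P.E_mono (f := fun _ => c) h; rwa [E_const] at this
theorem exists_pos : ∃ ω, 0 < P.p ω := by
  by_contra h
  push Not at h
  have : ∑ ω, P.p ω ≤ 0 := sum_nonpos fun ω _ => h ω
  linarith [P.one]
theorem single_le_E {f : Ω → ℝ} (h : ∀ ω, 0 < P.p ω → 0 ≤ f ω) (ω : Ω) :
    P.p ω * f ω ≤ P.E f := by
  refine single_le_sum (f := fun ω => P.p ω * f ω) (fun ω' _ => ?_) (mem_univ ω)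
  rcases (P.nn ω').eq_or_lt with h0 | h0
  · rw [← h0]; simp
  · exact mul_nonneg h0.le (h ω' h0)
theorem E_pos {f : Ω → ℝ} (h : ∀ ω, 0 < P.p ω → 0 < f ω) : 0 < P.E f := by
  obtain ⟨ω, hω⟩ := P.exists_pos
  exact (mul_pos hω (h ω hω)).trans_le (P.single_le_E (fun ω hω => (h ω hω).le) ω)
theorem exists_le_E (f : Ω → ℝ) : ∃ ω, 0 < P.p ω ∧ f ω ≤ P.E f := by
  by_contra h
  push Not at h
  have := P.E_pos (f := fun ω => f ω - P.E f) fun ω hω => sub_pos.2 (h ω hω)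
  rw [E_sub, E_const] at this
  linarith

/-- Jensen's inequality for the logarithm -/
theorem E_log_le {f : Ω → ℝ} {S : ℝ} (hf : ∀ ω, 0 < P.p ω → 0 < f ω) (hS : P.E f ≤ S) :
    (P.E fun ω => log (f ω)) ≤ log S := by
  have h0 := P.E_pos hf
  have h1 : (P.E fun ω => log (f ω)) ≤ P.E fun ω => f ω / S - 1 + log S :=
    P.E_mono fun ω hω => by
      have := log_le_sub_one_of_pos (div_pos (hf ω hω) (h0.trans_le hS))
      rw [log_div (hf ω hω).ne' (h0.trans_le hS).ne'] at this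
      linarith
  rw [E_add, E_sub, E_div, E_const, E_const] at h1
  have := (div_le_one (h0.trans_le hS)).2 hS
  linarith

theorem pr_nonneg (s : Ω → Prop) : 0 ≤ P.pr s := P.E_nonneg fun _ _ => ind_nonneg _
theorem pr_le_one (s : Ω → Prop) : P.pr s ≤ 1 := P.E_le fun _ _ => ind_le_one _
theorem pr_mono {s t : Ω → Prop} (h : ∀ ω, 0 < P.p ω → s ω → t ω) : P.pr s ≤ P.pr t :=
  P.E_mono fun ω hω => ind_mono (h ω hω)
theorem pr_congr {s t : Ω → Prop} (h : ∀ ω, 0 < P.p ω → (s ω ↔ t ω)) : P.pr s = P.pr t :=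
  P.E_congr fun ω hω => ind_congr (h ω hω)
theorem pr_not (s : Ω → Prop) : (P.pr fun ω => ¬ s ω) = 1 - P.pr s := by
  simp only [pr, ind_not, E_sub, E_const]
theorem pr_or_le (s t : Ω → Prop) : (P.pr fun ω => s ω ∨ t ω) ≤ P.pr s + P.pr t := by
  unfold pr; rw [← E_add]; exact P.E_mono fun _ _ => ind_or_le _ _
theorem pr_exists_le {ι : Type*} (F : Finset ι) (s : ι → Ω → Prop) :
    (P.pr fun ω => ∃ i ∈ F, s i ω) ≤ ∑ i ∈ F, P.pr (s i) := by
  unfold pr; rw [← E_sum]; exact P.E_mono fun _ _ => ind_exists_le _ _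
theorem pr_eq_one {s : Ω → Prop} (h : ∀ ω, 0 < P.p ω → s ω) : P.pr s = 1 := by
  rw [← P.E_const 1]; exact P.E_congr fun ω hω => ind_pos (h ω hω)
theorem pr_eq_zero {s : Ω → Prop} (h : ∀ ω, 0 < P.p ω → ¬ s ω) : P.pr s = 0 := by
  rw [← P.E_const 0]; exact P.E_congr fun ω hω => ind_neg (h ω hω)
theorem pr_pos {s : Ω → Prop} {ω : Ω} (hω : 0 < P.p ω) (h : s ω) : 0 < P.pr s := by
  have := P.single_le_E (f := fun ω => ind (s ω)) (fun _ _ => ind_nonneg _) ω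
  rw [ind_pos h, mul_one] at this
  exact hω.trans_le this
theorem exists_of_pr_pos {s : Ω → Prop} (h : 0 < P.pr s) : ∃ ω, 0 < P.p ω ∧ s ω := by
  by_contra h'
  push Not at h'
  exact h.ne' (P.pr_eq_zero h')
theorem cl_pos (Z : Ω → α) {ω : Ω} (hω : 0 < P.p ω) : 0 < P.cl Z ω := P.pr_pos hω rfl
theorem cl_le_one (Z : Ω → α) (ω : Ω) : P.cl Z ω ≤ 1 := P.pr_le_one _
theorem cl_nonneg (Z : Ω → α) (ω : Ω) : 0 ≤ P.cl Z ω := P.pr_nonneg _
theorem markov {f : Ω → ℝ} {c : ℝ} (hf : ∀ ω, 0 < P.p ω → 0 ≤ f ω) (hc : 0 < c) :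
    (P.pr fun ω => c ≤ f ω) ≤ P.E f / c := by
  rw [← E_div]
  refine P.E_mono fun ω hω => ?_
  by_cases h : c ≤ f ω
  · rw [ind_pos h]; exact (one_le_div hc).2 h
  · rw [ind_neg h]; exact div_nonneg (hf ω hω) hc.le

theorem E_ind_div_cl (Z : Ω → α) (a : α) : (P.E fun ω => ind (Z ω = a) / P.cl Z ω) ≤ 1 := by
  have : (P.E fun ω => ind (Z ω = a) / P.cl Z ω) =
      P.E fun ω => ind (Z ω = a) / P.pr fun ω' => Z ω' = a := P.E_congr fun ω _ => by
    by_cases h : Z ω = a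
    · unfold cl; rw [h]
    · rw [ind_neg h]; simp
  rw [this, E_div]
  exact div_self_le_one _

/-- sums over values -/
theorem E_div_cl_le (Z : Ω → α) {g : α → ℝ} (F : Finset α) (hg : ∀ a ∈ F, 0 ≤ g a)
    {f : Ω → ℝ} (hF : ∀ ω, 0 < P.p ω → f ω ≤ 0 ∨ (Z ω ∈ F ∧ f ω ≤ g (Z ω))) :
    (P.E fun ω => f ω / P.cl Z ω) ≤ ∑ a ∈ F, g a := by
  calc (P.E fun ω => f ω / P.cl Z ω)
      ≤ P.E fun ω => ∑ a ∈ F, g a * (ind (Z ω = a) / P.cl Z ω) := P.E_mono fun ω hω => by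
        have hc := P.cl_pos Z hω
        rcases hF ω hω with h | ⟨h, h'⟩
        · exact (div_nonpos_of_nonpos_of_nonneg h hc.le).trans (sum_nonneg fun a ha =>
            mul_nonneg (hg a ha) (div_nonneg (ind_nonneg _) hc.le))
        · have : ∑ a ∈ F, g a * (ind (Z ω = a) / P.cl Z ω) = g (Z ω) / P.cl Z ω := by
            rw [← sum_ind_eq F (fun a => g a / P.cl Z ω) h]
            exact sum_congr rfl fun a _ => by ring
          rw [this]; gcongr
    _ ≤ ∑ a ∈ F, g a := by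
        rw [E_sum]
        refine sum_le_sum fun a ha => ?_
        rw [E_mul_left]
        exact mul_le_of_le_one_right (hg a ha) (P.E_ind_div_cl Z a)

theorem E_cross (P' : FP Ω') (W : Ω → α) (W' : Ω' → α) {f : Ω' → ℝ}
    (hf : ∀ ω', 0 < P'.p ω' → 0 ≤ f ω') :
    (P.E fun ω => (P'.E fun ω' => ind (W' ω' = W ω) * f ω') / P.cl W ω) ≤ P'.E f := by
  have : (P.E fun ω => (P'.E fun ω' => ind (W' ω' = W ω) * f ω') / P.cl W ω) =
      P'.E fun ω' => f ω' * P.E fun ω => ind (W ω = W' ω') / P.cl W ω := by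
    simp only [← E_div, ← E_mul_left]
    rw [E_comm]
    refine P'.E_congr fun ω' _ => P.E_congr fun ω _ => ?_
    rw [ind_congr (eq_comm (a := W' ω'))]; ring
  rw [this]
  exact P'.E_mono fun ω' hω' => mul_le_of_le_one_right (hf ω' hω') (P.E_ind_div_cl W _)

/-- Gibbs' inequality -/
theorem gibbs (Z : Ω → α) {g : Ω → ℝ} {S : ℝ} (hg : ∀ ω, 0 < P.p ω → 0 < g ω)
    (hS : (P.E fun ω => g ω / P.cl Z ω) ≤ S) : (P.E fun ω => log (g ω)) + P.H Z ≤ log S := by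
  have := P.E_log_le (fun ω hω => div_pos (hg ω hω) (P.cl_pos Z hω)) hS
  rw [H, ← E_add]
  refine le_trans (le_of_eq (P.E_congr fun ω hω => ?_)) this
  rw [log_div (hg ω hω).ne' (P.cl_pos Z hω).ne']; ring

theorem H_nonneg (Z : Ω → α) : 0 ≤ P.H Z :=
  P.E_nonneg fun ω _ => neg_nonneg.2 (log_nonpos (P.cl_nonneg Z ω) (P.cl_le_one Z ω))

/-- `Z` determines `G` on the support -/
def Det (Z : Ω → α) (G : Ω → β) : Prop :=
  ∀ ω ω', 0 < P.p ω → 0 < P.p ω' → Z ω = Z ω' → G ω = G ω'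

theorem cl_mono {Z : Ω → α} {G : Ω → β} (h : P.Det Z G) {ω : Ω} (hω : 0 < P.p ω) :
    P.cl Z ω ≤ P.cl G ω := P.pr_mono fun ω' hω' h' => h ω' ω hω' hω h'
theorem H_mono {Z : Ω → α} {G : Ω → β} (h : P.Det Z G) : P.H G ≤ P.H Z :=
  P.E_mono fun _ hω => neg_le_neg (log_le_log (P.cl_pos Z hω) (P.cl_mono h hω))
theorem H_congr {Z : Ω → α} {G : Ω → β} (h : P.Det Z G) (h' : P.Det G Z) : P.H G = P.H Z :=
  le_antisymm (P.H_mono h) (P.H_mono h')
theorem le_H {Z : Ω → α} {c : ℝ} (h : ∀ ω, 0 < P.p ω → P.cl Z ω ≤ c) : - log c ≤ P.H Z :=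
  P.le_E fun ω hω => neg_le_neg (log_le_log (P.cl_pos Z hω) (h ω hω))
theorem H_le_log {Z : Ω → α} (F : Finset α) {c : ℝ} (h : ∀ ω, 0 < P.p ω → Z ω ∈ F)
    (hc : (F.card : ℝ) ≤ c) : P.H Z ≤ log c := by
  have := P.gibbs Z (g := fun _ => 1) (S := c) (fun _ _ => one_pos)
    ((P.E_div_cl_le Z (g := fun _ => 1) F (fun _ _ => zero_le_one)
      fun ω hω => Or.inr ⟨h ω hω, le_rfl⟩).trans (by simpa using hc))
  simpa [E_const] using this

/-- measure preserving maps -/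
def MP (P' : FP Ω') (P : FP Ω) (ϖ : Ω' → Ω) : Prop :=
  ∀ f : Ω → ℝ, (P'.E fun ω => f (ϖ ω)) = P.E f

section MP
variable {P} {P' : FP Ω'} {ϖ : Ω' → Ω}
theorem MP.pr (h : MP P' P ϖ) (s : Ω → Prop) : (P'.pr fun ω => s (ϖ ω)) = P.pr s :=
  h fun ω => ind (s ω)
theorem MP.cl (h : MP P' P ϖ) (Z : Ω → α) (ω : Ω') :
    P'.cl (fun ω => Z (ϖ ω)) ω = P.cl Z (ϖ ω) := h.pr fun ω' => Z ω' = Z (ϖ ω)
theorem MP.H (h : MP P' P ϖ) (Z : Ω → α) : (P'.H fun ω => Z (ϖ ω)) = P.H Z := by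
  unfold FP.H; simp only [h.cl]; exact h fun ω => - log (P.cl Z ω)
theorem MP.Hc (h : MP P' P ϖ) (Z : Ω → α) (V : Ω → β) :
    P'.Hc (fun ω => Z (ϖ ω)) (fun ω => V (ϖ ω)) = P.Hc Z V := by
  unfold FP.Hc; rw [h.H V, h.H fun ω => (Z ω, V ω)]
theorem MP.pos (h : MP P' P ϖ) {ω : Ω'} (hω : 0 < P'.p ω) : 0 < P.p (ϖ ω) := by
  have h1 := P'.pr_pos (s := fun ω' => ϖ ω' = ϖ ω) hω rfl
  rw [h.pr fun x => x = ϖ ω] at h1
  obtain ⟨x, hx, rfl⟩ := P.exists_of_pr_pos h1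
  exact hx
theorem MP.comp {P'' : FP Ω''} {ϖ' : Ω'' → Ω'} (h : MP P' P ϖ) (h' : MP P'' P' ϖ') :
    MP P'' P fun ω => ϖ (ϖ' ω) := fun f => (h' fun ω => f (ϖ ω)).trans (h f)
end MP

open Classical in
/-- conditioning on an event -/
noncomputable def cond (s : Ω → Prop) : FP Ω :=
  if h : 0 < P.pr s then
    { p := fun ω => P.p ω * ind (s ω) / P.pr s
      nn := fun ω => div_nonneg (mul_nonneg (P.nn ω) (ind_nonneg _)) h.le
      one := by rw [← sum_div]; exact div_self h.ne' }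
  else P

theorem cond_p {s : Ω → Prop} (h : 0 < P.pr s) (ω : Ω) :
    (P.cond s).p ω = P.p ω * ind (s ω) / P.pr s := by simp [cond, h]
theorem E_cond {s : Ω → Prop} (h : 0 < P.pr s) (f : Ω → ℝ) :
    (P.cond s).E f = (P.E fun ω => ind (s ω) * f ω) / P.pr s := by
  simp only [E, P.cond_p h, sum_div]; exact sum_congr rfl fun _ _ => by ring
theorem pr_cond {s : Ω → Prop} (h : 0 < P.pr s) (t : Ω → Prop) :
    (P.cond s).pr t = (P.pr fun ω => t ω ∧ s ω) / P.pr s := by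
  rw [pr, P.E_cond h]; congr 1; exact P.E_congr fun ω _ => by rw [ind_and, mul_comm]
theorem cond_pos {s : Ω → Prop} {ω : Ω} (hω : 0 < (P.cond s).p ω) : 0 < P.p ω := by
  by_cases h : 0 < P.pr s
  · rw [P.cond_p h] at hω
    rcases (P.nn ω).eq_or_lt with h0 | h0
    · rw [← h0] at hω; simp at hω
    · exact h0
  · simpa [cond, h] using hω
theorem cond_mem {s : Ω → Prop} (h : 0 < P.pr s) {ω : Ω} (hω : 0 < (P.cond s).p ω) : s ω := by
  by_contra h'
  rw [P.cond_p h, ind_neg h'] at hω; simp at hω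
theorem pos_cond {s : Ω → Prop} {ω : Ω} (hω : 0 < P.p ω) (h : s ω) : 0 < (P.cond s).p ω := by
  rw [P.cond_p (P.pr_pos hω h), ind_pos h, mul_one]; exact div_pos hω (P.pr_pos hω h)

/-- conditioning on a value -/
noncomputable def cv (V : Ω → β) (v : β) : FP Ω := P.cond fun ω => V ω = v

theorem cv_pos {V : Ω → β} {v : β} {ω : Ω} (hω : 0 < (P.cv V v).p ω) : 0 < P.p ω :=
  P.cond_pos hω
theorem cv_eq {V : Ω → β} {ω ω' : Ω} (hω : 0 < P.p ω) (hω' : 0 < (P.cv V (V ω)).p ω') :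
    V ω' = V ω := P.cond_mem (P.cl_pos V hω) hω'
theorem E_cv {V : Ω → β} {ω : Ω} (hω : 0 < P.p ω) (f : Ω → ℝ) :
    (P.cv V (V ω)).E f = (P.E fun ω' => ind (V ω' = V ω) * f ω') / P.cl V ω :=
  P.E_cond (P.cl_pos V hω) f
theorem pr_cv {V : Ω → β} {ω : Ω} (hω : 0 < P.p ω) (t : Ω → Prop) :
    (P.cv V (V ω)).pr t = (P.pr fun ω' => t ω' ∧ V ω' = V ω) / P.cl V ω :=
  P.pr_cond (P.cl_pos V hω) t

theorem tower (V : Ω → β) (F : β → Ω → ℝ) :
    (P.E fun ω => (P.cv V (V ω)).E (F (V ω))) = P.E fun ω => F (V ω) ω := by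
  have h1 : (P.E fun ω => (P.cv V (V ω)).E (F (V ω))) =
      P.E fun ω => P.E fun ω' => F (V ω') ω' * (ind (V ω = V ω') / P.cl V ω') :=
    P.E_congr fun ω hω => by
      rw [P.E_cv hω, ← E_div]
      refine P.E_congr fun ω' _ => ?_
      by_cases h : V ω' = V ω
      · rw [ind_pos h, ind_pos h.symm, h]; unfold cl; rw [h]; ring
      · rw [ind_neg h, ind_neg (Ne.symm h)]; ring
  rw [h1, E_comm]
  refine P.E_congr fun ω' hω' => ?_
  rw [E_mul_left, E_div]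
  change _ * (P.cl V ω' / P.cl V ω') = _
  rw [div_self (P.cl_pos V hω').ne', mul_one]

theorem cl_cv {V : Ω → β} (Z : Ω → α) {ω ω' : Ω} (hω : 0 < P.p ω) (h : V ω' = V ω) :
    (P.cv V (V ω)).cl Z ω' = P.cl (fun x => (Z x, V x)) ω' / P.cl V ω' := by
  rw [cl, P.pr_cv hω]; unfold cl; simp only [Prod.mk.injEq, h]

theorem Hc_eq (Z : Ω → α) (V : Ω → β) :
    P.Hc Z V = P.E fun ω => - log (P.cl (fun x => (Z x, V x)) ω / P.cl V ω) := by
  rw [Hc, H, H, ← E_sub]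
  refine P.E_congr fun ω hω => ?_
  rw [log_div (P.cl_pos _ hω).ne' (P.cl_pos _ hω).ne']; ring

theorem E_H_cv (Z : Ω → α) (V : Ω → β) : (P.E fun ω => (P.cv V (V ω)).H Z) = P.Hc Z V := by
  rw [Hc_eq]
  refine (P.tower V fun v ω' => - log ((P.cv V v).cl Z ω')).trans ?_
  exact P.E_congr fun ω hω => by rw [P.cl_cv Z hω rfl]

theorem E_Hc_cv (Z : Ω → α) (Y : Ω → γ) (V : Ω → β) :
    (P.E fun ω => (P.cv V (V ω)).Hc Z Y) = P.Hc Z fun ω => (Y ω, V ω) := by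
  simp only [Hc]
  rw [E_sub, E_H_cv, E_H_cv, Hc, Hc,
    P.H_congr (Z := fun ω => (Z ω, Y ω, V ω)) (G := fun ω => ((Z ω, Y ω), V ω))
      (fun _ _ _ _ h => by simp_all) (fun _ _ _ _ h => by simp_all)]
  ring

theorem MP.cv {P : FP Ω} {P' : FP Ω'} {ϖ : Ω' → Ω} (h : MP P' P ϖ) (V : Ω → β) (v : β) :
    MP (P'.cv (fun ω => V (ϖ ω)) v) (P.cv V v) ϖ := by
  intro f
  have h1 := h.pr fun ω => V ω = v
  by_cases h0 : 0 < P.pr fun ω => V ω = v
  · unfold FP.cv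
    rw [P.E_cond h0, P'.E_cond (h1 ▸ h0), h1, h fun ω => ind (V ω = v) * f ω]
  · have h0' : ¬ 0 < P'.pr fun ω => V (ϖ ω) = v := by rwa [h1]
    simp only [FP.cv, FP.cond, h0, h0', dif_neg, not_false_eq_true]
    exact h f

/-- composition with a kernel -/
def bind (κ : Ω → FP Ω') : FP (Ω × Ω') where
  p := fun x => P.p x.1 * (κ x.1).p x.2
  nn := fun x => mul_nonneg (P.nn _) ((κ _).nn _)
  one := by
    rw [Fintype.sum_prod_type]
    simp only [← mul_sum, FP.one, mul_one]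

theorem E_bind (κ : Ω → FP Ω') (f : Ω × Ω' → ℝ) :
    (P.bind κ).E f = P.E fun ω => (κ ω).E fun ω' => f (ω, ω') := by
  simp only [E, bind, Fintype.sum_prod_type, mul_sum, mul_assoc]
theorem bind_pos {κ : Ω → FP Ω'} {x : Ω × Ω'} (h : 0 < (P.bind κ).p x) :
    0 < P.p x.1 ∧ 0 < (κ x.1).p x.2 := by
  rcases pos_and_pos_or_neg_and_neg_of_mul_pos h with h | h
  · exact h
  · exact absurd h.1 (not_lt.2 (P.nn _))
theorem bind_fst (κ : Ω → FP Ω') : MP (P.bind κ) P Prod.fst := fun f => by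
  simp only [E_bind, E_const]

/-- product -/
def prod (P' : FP Ω') : FP (Ω × Ω') := P.bind fun _ => P'

theorem E_prod (P' : FP Ω') (f : Ω × Ω' → ℝ) :
    (P.prod P').E f = P.E fun ω => P'.E fun ω' => f (ω, ω') := P.E_bind _ f
theorem prod_pos {P' : FP Ω'} {x : Ω × Ω'} (h : 0 < (P.prod P').p x) :
    0 < P.p x.1 ∧ 0 < P'.p x.2 := P.bind_pos h
theorem prod_fst (P' : FP Ω') : MP (P.prod P') P Prod.fst := P.bind_fst _
theorem prod_snd (P' : FP Ω') : MP (P.prod P') P' Prod.snd := fun f => by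
  simp only [E_prod, E_const]
theorem prod_swap (P' : FP Ω') : MP (P.prod P') (P'.prod P) Prod.swap := fun f => by
  simp only [E_prod, Prod.swap]; exact P.E_comm P' _
theorem MP.prod {Ω₁ Ω₂ : Type*} [Fintype Ω₁] [Fintype Ω₂] {P : FP Ω} {P' : FP Ω'} {Q : FP Ω₁}
    {Q' : FP Ω₂} {ϖ : Ω' → Ω} {ρ : Ω₂ → Ω₁} (h : MP P' P ϖ) (h' : MP Q' Q ρ) :
    MP (P'.prod Q') (P.prod Q) fun x => (ϖ x.1, ρ x.2) := fun f => by
  simp only [E_prod]
  rw [← h]
  exact P'.E_congr fun ω _ => h' fun y => f (ϖ ω, y)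
theorem pr_prod (P' : FP Ω') (s : Ω → Prop) (t : Ω' → Prop) :
    ((P.prod P').pr fun x => s x.1 ∧ t x.2) = P.pr s * P'.pr t := by
  simp only [pr, E_prod, ind_and, E_mul_left, E_mul_right]
theorem H_prod (P' : FP Ω') (Z : Ω → α) (Z' : Ω' → β) :
    ((P.prod P').H fun x => (Z x.1, Z' x.2)) = P.H Z + P'.H Z' := by
  rw [← (P.prod_fst P').H, ← (P.prod_snd P').H, H, H, H, ← E_add]
  refine E_congr _ fun x hx => ?_
  obtain ⟨h1, h2⟩ := P.prod_pos hx
  rw [(P.prod_fst P').cl, (P.prod_snd P').cl, ← neg_add,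
    ← log_mul (P.cl_pos _ h1).ne' (P'.cl_pos _ h2).ne']
  unfold cl
  simp only [Prod.mk.injEq]
  rw [P.pr_prod P' (fun ω => Z ω = Z x.1) fun ω => Z' ω = Z' x.2]

/-- conditionally independent gluing along `V'` and `V` -/
noncomputable def glue (P' : FP Ω') (V' : Ω' → β) (P : FP Ω) (V : Ω → β) : FP (Ω' × Ω) :=
  P'.bind fun ω' => P.cv V (V' ω')

/-- equality of laws -/
def Law (P' : FP Ω') (V' : Ω' → β) (P : FP Ω) (V : Ω → β) : Prop :=
  ∀ f : β → ℝ, (P'.E fun ω => f (V' ω)) = P.E fun ω => f (V ω)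

section glue
variable {P} {P' : FP Ω'} {V' : Ω' → β} {V : Ω → β}
theorem Law.rfl : Law P V P V := fun _ => _root_.rfl
theorem MP.law {ϖ : Ω' → Ω} (h : MP P' P ϖ) (V : Ω → β) : Law P' (fun ω => V (ϖ ω)) P V :=
  fun f => h fun ω => f (V ω)
theorem Law.congr (h : Law P' V' P V) {V'' : Ω' → β} (h' : ∀ ω, 0 < P'.p ω → V'' ω = V' ω) :
    Law P' V'' P V := fun f => (P'.E_congr fun ω hω => by rw [h' ω hω]).trans (h f)
theorem Law.pr (h : Law P' V' P V) (s : β → Prop) :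
    (P'.pr fun ω => s (V' ω)) = P.pr fun ω => s (V ω) := h fun v => ind (s v)
theorem Law.H (h : Law P' V' P V) : P'.H V' = P.H V := by
  unfold FP.H FP.cl
  rw [← h fun v => - log (P.pr fun ω => V ω = v)]
  exact P'.E_congr fun ω _ => by rw [h.pr fun v => v = V' ω]
theorem Law.exists (h : Law P' V' P V) {ω' : Ω'} (hω : 0 < P'.p ω') :
    ∃ ω, 0 < P.p ω ∧ V ω = V' ω' :=
  P.exists_of_pr_pos (by rw [← h.pr fun v => v = V' ω']; exact P'.cl_pos V' hω)
theorem E_glue (f : Ω' × Ω → ℝ) :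
    (glue P' V' P V).E f = P'.E fun ω' => (P.cv V (V' ω')).E fun ω => f (ω', ω) := P'.E_bind _ f
theorem glue_fst : MP (glue P' V' P V) P' Prod.fst := P'.bind_fst _
theorem glue_snd (h : Law P' V' P V) : MP (glue P' V' P V) P Prod.snd := fun f => by
  rw [E_glue]
  exact (h fun v => (P.cv V v).E f).trans (P.tower V fun _ => f)
theorem glue_eq (h : Law P' V' P V) {x : Ω' × Ω} (hx : 0 < (glue P' V' P V).p x) :
    V x.2 = V' x.1 := by
  obtain ⟨h1, h2⟩ := P'.bind_pos hx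
  obtain ⟨ω, hω, he⟩ := h.exists h1
  rw [← he] at h2 ⊢
  exact P.cv_eq hω h2
theorem MP.glue {P'' : FP Ω''} {ϖ : Ω'' → Ω'} (h : MP P'' P' ϖ) :
    MP (glue P'' (fun ω => V' (ϖ ω)) P V) (glue P' V' P V) fun x => (ϖ x.1, x.2) := fun f => by
  simp only [E_glue]
  exact h fun ω' => (P.cv V (V' ω')).E fun ω => f (ω', ω)
theorem pr_glue (s : Ω' → Prop) (t : Ω → Prop) {ω : Ω} (hω : 0 < P.p ω) :
    ((glue P' V' P V).pr fun x => s x.1 ∧ t x.2 ∧ V' x.1 = V ω) =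
      (P'.pr fun x => s x ∧ V' x = V ω) * (P.pr fun x => t x ∧ V x = V ω) / P.cl V ω := by
  rw [mul_div_assoc, ← P.pr_cv hω, pr, pr, E_glue, ← E_mul_right]
  refine P'.E_congr fun ω' _ => ?_
  by_cases h : V' ω' = V ω
  · simp only [h, and_true, ind_and, E_mul_left, pr]
  · simp only [h, and_false, ind_neg not_false, E_const, zero_mul]
theorem H_glue (h : Law P' V' P V) (Z' : Ω' → α) (Z : Ω → γ) :
    ((glue P' V' P V).H fun x => (Z' x.1, Z x.2, V' x.1)) + P.H V =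
      (P'.H fun x => (Z' x, V' x)) + P.H fun x => (Z x, V x) := by
  rw [← (glue_fst (P := P) (V' := V') (V := V)).H, ← (glue_snd h).H, ← (glue_snd h).H, H, H, H, H,
    ← E_add, ← E_add]
  refine E_congr _ fun x hx => ?_
  have h1 := glue_fst.pos hx
  have h2 := (glue_snd h).pos hx
  have he := glue_eq h hx
  rw [glue_fst.cl (fun x => (Z' x, V' x)), (glue_snd h).cl (fun x => (Z x, V x)), (glue_snd h).cl]
  have : (glue P' V' P V).cl (fun x => (Z' x.1, Z x.2, V' x.1)) x =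
      P'.cl (fun x => (Z' x, V' x)) x.1 * P.cl (fun x => (Z x, V x)) x.2 / P.cl V x.2 := by
    unfold cl
    simp only [Prod.mk.injEq, ← he]
    exact pr_glue (fun y => Z' y = Z' x.1) (fun y => Z y = Z x.2) h2
  rw [this, log_div (mul_pos (P'.cl_pos _ h1) (P.cl_pos _ h2)).ne' (P.cl_pos _ h2).ne',
    log_mul (P'.cl_pos _ h1).ne' (P.cl_pos _ h2).ne']
  ring
end glue

/-- conditionally independent copy -/
noncomputable def cpy (V : Ω → β) : FP (Ω × Ω) := glue P V P V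

theorem cpy_fst (V : Ω → β) : MP (P.cpy V) P Prod.fst := glue_fst
theorem cpy_snd (V : Ω → β) : MP (P.cpy V) P Prod.snd := glue_snd Law.rfl
theorem cpy_eq {V : Ω → β} {x : Ω × Ω} (hx : 0 < (P.cpy V).p x) : V x.2 = V x.1 :=
  glue_eq Law.rfl hx
theorem E_cpy (V : Ω → β) (F : β → Ω × Ω → ℝ) :
    ((P.cpy V).E fun x => F (V x.1) x) =
      P.E fun ω => ((P.cv V (V ω)).prod (P.cv V (V ω))).E (F (V ω)) := by
  simp only [E_prod]
  rw [cpy, E_glue]
  exact (P.tower V fun v ω => (P.cv V v).E fun ω' => F v (ω, ω')).symm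
theorem cpy_swap (V : Ω → β) : MP (P.cpy V) (P.cpy V) Prod.swap := fun f => by
  rw [P.E_cpy V fun _ x => f x.swap, P.E_cpy V fun _ => f]
  exact P.E_congr fun ω _ => prod_swap _ _ f

/-- submodularity -/
theorem submod (X : Ω → α) (Y : Ω → β) (Z : Ω → γ) :
    (P.H fun ω => (X ω, Y ω, Z ω)) + P.H Z ≤
      (P.H fun ω => (X ω, Z ω)) + P.H fun ω => (Y ω, Z ω) := by
  have h := P.gibbs (fun ω => (X ω, Y ω, Z ω)) (S := 1)
    (g := fun ω => P.cl (fun ω => (X ω, Z ω)) ω * P.cl (fun ω => (Y ω, Z ω)) ω / P.cl Z ω)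
    (fun ω hω => div_pos (mul_pos (P.cl_pos _ hω) (P.cl_pos _ hω)) (P.cl_pos _ hω)) (by
      have := P.E_cross (P.cpy Z) (fun ω => (X ω, Y ω, Z ω)) (fun x => (X x.1, Y x.2, Z x.1))
        (f := fun _ => 1) fun _ _ => zero_le_one
      rw [E_const] at this
      refine le_trans (le_of_eq (P.E_congr fun ω hω => ?_)) this
      congr 1
      unfold cl
      simp only [Prod.mk.injEq, mul_one]
      exact (pr_glue (fun y => X y = X ω) (fun y => Y y = Y ω) hω).symm)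
  have h2 : (P.E fun ω => log (P.cl (fun ω => (X ω, Z ω)) ω * P.cl (fun ω => (Y ω, Z ω)) ω /
      P.cl Z ω)) = P.H Z - (P.H fun ω => (X ω, Z ω)) - P.H fun ω => (Y ω, Z ω) := by
    rw [H, H, H, ← E_sub, ← E_sub]
    refine P.E_congr fun ω hω => ?_
    rw [log_div (mul_pos (P.cl_pos _ hω) (P.cl_pos _ hω)).ne' (P.cl_pos _ hω).ne',
      log_mul (P.cl_pos _ hω).ne' (P.cl_pos _ hω).ne']
    ring
  rw [h2, log_one] at h
  linarith

end FP

end Pool.Agent.P.MP_bf60a1_an.RA
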