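import Pool.Agent.P.MP_bf60a1_an.RA.Ent

/-! Conditional entropy inequalities, rounding, products. -/

namespace Pool.Agent.P.MP_bf60a1_an.RA

open Finset Real

/-- coordinatewise floor -/
noncomputable def fl {d : ℕ} (x : Fin d → ℝ) : Fin d → ℤ := fun i => ⌊x i⌋
/-- coordinatewise cast -/
def cz {d : ℕ} (j : Fin d → ℤ) : Fin d → ℝ := fun i => j i

section lattice
variable {d : ℕ}
theorem norm_cz_fl (x : Fin d → ℝ) : ‖cz (fl x) - x‖ ≤ 1 := by
  refine (pi_norm_le_iff_of_nonneg zero_le_one).2 fun i => ?_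
  simp only [cz, fl, Pi.sub_apply, norm_eq_abs, abs_le]
  constructor <;> linarith [Int.floor_le (x i), Int.lt_floor_add_one (x i)]
theorem fl_cz_add (j : Fin d → ℤ) (x : Fin d → ℝ) : fl (cz j + x) = j + fl x := by
  ext i; simp [fl, cz]
theorem fl_cz_sub (j : Fin d → ℤ) (x : Fin d → ℝ) : fl (cz j - x) = j + fl (-x) := by
  rw [sub_eq_add_neg, fl_cz_add]
theorem fl_cz (j : Fin d → ℤ) : fl (cz j) = j := by ext i; simp [fl, cz]
theorem cz_add (j j' : Fin d → ℤ) : cz (j + j') = cz j + cz j' := by ext i; simp [cz]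
theorem cz_sub (j j' : Fin d → ℤ) : cz (j - j') = cz j - cz j' := by ext i; simp [cz]
theorem norm_fl_sub {x y : Fin d → ℝ} {M : ℝ} (h : ‖x - y‖ ≤ M) :
    ‖cz (fl x) - cz (fl y)‖ ≤ M + 1 := by
  have hM : 0 ≤ M := (norm_nonneg _).trans h
  refine (pi_norm_le_iff_of_nonneg (by linarith)).2 fun i => ?_
  have := (norm_le_pi_norm (x - y) i).trans h
  simp only [cz, fl, Pi.sub_apply, norm_eq_abs, abs_le] at this ⊢
  constructor <;> linarith [Int.floor_le (x i), Int.lt_floor_add_one (x i), Int.floor_le (y i),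
    Int.lt_floor_add_one (y i)]
theorem norm_sub_of_fl {x y : Fin d → ℝ} (h : fl x = fl y) : ‖x - y‖ ≤ 1 := by
  refine (pi_norm_le_iff_of_nonneg zero_le_one).2 fun i => ?_
  have : (⌊x i⌋ : ℝ) = ⌊y i⌋ := by exact_mod_cast congrFun h i
  simp only [Pi.sub_apply, norm_eq_abs, abs_le]
  constructor <;> linarith [Int.floor_le (x i), Int.lt_floor_add_one (x i), Int.floor_le (y i),
    Int.lt_floor_add_one (y i)]
theorem exists_int_box (c : ℝ) {M : ℝ} (hM : 0 ≤ M) : ∃ F : Finset ℤ,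
    (F.card : ℝ) ≤ 2 * M + 1 ∧ ∀ j : ℤ, |j - c| ≤ M → j ∈ F := by
  refine ⟨Finset.Icc ⌈c - M⌉ ⌊c + M⌋, ?_, fun j hj => ?_⟩
  · rw [Int.card_Icc]
    rcases le_total (⌊c + M⌋ + 1 - ⌈c - M⌉) 0 with h | h
    · rw [Int.toNat_of_nonpos h]; push_cast; linarith
    · have : (((⌊c + M⌋ + 1 - ⌈c - M⌉).toNat : ℤ) : ℝ) = (⌊c + M⌋ + 1 - ⌈c - M⌉ : ℤ) := by
        rw [Int.toNat_of_nonneg h]
      push_cast at this
      rw [this]
      linarith [Int.floor_le (c + M), Int.le_ceil (c - M)]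
  · rw [abs_le] at hj
    rw [Finset.mem_Icc, Int.ceil_le, Int.le_floor]
    constructor <;> linarith
theorem exists_box (c : Fin d → ℝ) {M : ℝ} (hM : 0 ≤ M) : ∃ F : Finset (Fin d → ℤ),
    (F.card : ℝ) ≤ (2 * M + 1) ^ d ∧ ∀ j, ‖cz j - c‖ ≤ M → j ∈ F := by
  choose F hF hF' using fun i => exists_int_box (c i) hM
  refine ⟨Fintype.piFinset F, ?_, fun j hj => Fintype.mem_piFinset.2 fun i => hF' i _ ?_⟩
  · rw [Fintype.card_piFinset]
    push_cast
    calc ∏ i, ((F i).card : ℝ) ≤ ∏ _i : Fin d, (2 * M + 1) :=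
          prod_le_prod (fun _ _ => by positivity) fun i _ => hF i
      _ = _ := by simp
  · exact (norm_le_pi_norm (cz j - c) i).trans hj
end lattice

namespace FP

variable {Ω Ω' α β γ ζ ξ : Type*} [Fintype Ω] [Fintype Ω'] (P : FP Ω)

theorem Hc_mono_left {Z : Ω → α} {G : Ω → β} {C : Ω → γ} (h : P.Det (fun ω => (Z ω, C ω)) G) :
    P.Hc G C ≤ P.Hc Z C := by
  have : (P.H fun ω => (G ω, C ω)) ≤ P.H fun ω => (Z ω, C ω) :=
    P.H_mono fun ω ω' h1 h2 h3 => Prod.ext (h ω ω' h1 h2 h3) (congrArg Prod.snd h3 :)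
  unfold Hc; linarith
theorem H_ae {Z G : Ω → α} (h : ∀ ω, 0 < P.p ω → Z ω = G ω) : P.H Z = P.H G :=
  P.H_congr (fun ω ω' h1 h2 h3 => by rw [h ω h1, h ω' h2, h3])
    fun ω ω' h1 h2 h3 => by rw [← h ω h1, ← h ω' h2, h3]
theorem Hc_ae {Z G : Ω → α} {C C' : Ω → β} (h : ∀ ω, 0 < P.p ω → Z ω = G ω)
    (h' : ∀ ω, 0 < P.p ω → C ω = C' ω) : P.Hc Z C = P.Hc G C' := by
  unfold Hc
  rw [P.H_ae h', P.H_ae (Z := fun ω => (Z ω, C ω)) (G := fun ω => (G ω, C' ω))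
    fun ω hω => by rw [h ω hω, h' ω hω]]
theorem Hc_mono_right (G : Ω → α) {C : Ω → β} {C' : Ω → γ} (h : P.Det C' C) :
    P.Hc G C' ≤ P.Hc G C := by
  have h1 := P.submod G C' C
  have h2 : (P.H fun ω => (G ω, C' ω)) ≤ P.H fun ω => (G ω, C' ω, C ω) :=
    P.H_mono fun _ _ _ _ h => by simp_all
  have h3 : (P.H fun ω => (C' ω, C ω)) ≤ P.H C' :=
    P.H_mono fun ω ω' h1 h2 h3 => Prod.ext h3 (h ω ω' h1 h2 h3)
  unfold Hc; linarith
theorem Hc_mono {Z : Ω → α} {G : Ω → β} {C : Ω → γ} {C' : Ω → ζ}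
    (h : P.Det (fun ω => (Z ω, C' ω)) G) (h' : P.Det C' C) : P.Hc G C' ≤ P.Hc Z C :=
  (P.Hc_mono_left h).trans (P.Hc_mono_right Z h')
theorem Hc_nonneg (G : Ω → α) (C : Ω → β) : 0 ≤ P.Hc G C :=
  sub_nonneg.2 (P.H_mono fun _ _ _ _ h => congrArg Prod.snd h)
theorem Hc_nonpos {G : Ω → α} {C : Ω → β} (h : P.Det C G) : P.Hc G C ≤ 0 :=
  sub_nonpos.2 (P.H_mono fun ω ω' h1 h2 h3 => Prod.ext (h ω ω' h1 h2 h3) h3)
theorem H_const (c : α) : (P.H fun _ => c) = 0 := by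
  rw [H, ← P.E_const 0]
  exact P.E_congr fun ω _ => by rw [cl, P.pr_eq_one fun _ _ => rfl]; simp
theorem Hc_const (G : Ω → α) (c : β) : (P.Hc G fun _ => c) = P.H G := by
  rw [Hc, H_const, sub_zero]
  exact P.H_congr (fun _ _ _ _ h => by simp_all) fun _ _ _ _ h => by simp_all
theorem Hc_le_H (G : Ω → α) (C : Ω → β) : P.Hc G C ≤ P.H G := by
  rw [← P.Hc_const G ()]; exact P.Hc_mono_right G fun _ _ _ _ _ => rfl
theorem H_pair_le (G : Ω → α) (C : Ω → β) : (P.H fun ω => (G ω, C ω)) ≤ P.H G + P.H C := by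
  have := P.Hc_le_H G C; unfold Hc at this; linarith
theorem Hc_chain (A : Ω → α) (B : Ω → β) (C : Ω → γ) :
    P.Hc (fun ω => (A ω, B ω)) C = P.Hc A C + P.Hc B fun ω => (A ω, C ω) := by
  unfold Hc
  rw [P.H_congr (Z := fun ω => (B ω, A ω, C ω)) (G := fun ω => ((A ω, B ω), C ω))
    (fun _ _ _ _ h => by simp_all) fun _ _ _ _ h => by simp_all]
  ring
theorem Hc_le_add (G : Ω → α) (Z : Ω → β) (C : Ω → γ) :
    P.Hc G C ≤ P.Hc Z C + P.Hc G fun ω => (Z ω, C ω) := by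
  rw [← Hc_chain]; exact P.Hc_mono_left fun _ _ _ _ h => by simp_all
theorem H_le_add (G : Ω → α) (Z : Ω → β) : P.H G ≤ P.H Z + P.Hc G Z := by
  have : P.H G ≤ P.H fun ω => (G ω, Z ω) := P.H_mono fun _ _ _ _ h => congrArg Prod.fst h
  unfold Hc; linarith
theorem Hc_pair_le (A : Ω → α) (B : Ω → β) (C : Ω → γ) :
    P.Hc (fun ω => (A ω, B ω)) C ≤ P.Hc A C + P.Hc B C := by
  rw [Hc_chain]
  exact add_le_add_right (P.Hc_mono_right B fun _ _ _ _ h => congrArg Prod.snd h) _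
/-- symmetry of mutual information -/
theorem Hc_symm (A : Ω → α) (B : Ω → β) (C : Ω → γ) :
    P.Hc A C - P.Hc A (fun ω => (B ω, C ω)) = P.Hc B C - P.Hc B fun ω => (A ω, C ω) := by
  unfold Hc
  rw [P.H_congr (Z := fun ω => (B ω, A ω, C ω)) (G := fun ω => (A ω, B ω, C ω))
    (fun _ _ _ _ h => by simp_all) fun _ _ _ _ h => by simp_all]
  ring

/-- approximate submodularity -/
theorem sub_c (W : Ω → α) (S : Ω → β) (U : Ω → γ) (V : Ω → ζ) (C : Ω → ξ) :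
    P.Hc W C + P.Hc S C ≤ P.Hc U C + P.Hc V C + P.Hc S (fun ω => (U ω, C ω)) +
      P.Hc S (fun ω => (V ω, C ω)) + P.Hc W fun ω => (U ω, V ω, C ω) := by
  have h1 := P.submod U V fun ω => (S ω, C ω)
  have h2 : (P.H fun ω => (U ω, V ω, C ω)) ≤ P.H fun ω => (U ω, V ω, S ω, C ω) :=
    P.H_mono fun _ _ _ _ h => by simp_all
  have h3 : (P.H fun ω => (W ω, C ω)) ≤ P.H fun ω => (W ω, U ω, V ω, C ω) :=
    P.H_mono fun _ _ _ _ h => by simp_all
  have h4 : (P.H fun ω => (U ω, S ω, C ω)) ≤ P.H fun ω => (S ω, U ω, C ω) :=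
    P.H_mono fun _ _ _ _ h => by simp_all
  have h5 : (P.H fun ω => (V ω, S ω, C ω)) ≤ P.H fun ω => (S ω, V ω, C ω) :=
    P.H_mono fun _ _ _ _ h => by simp_all
  unfold Hc; linarith
theorem sub_H (W : Ω → α) (S : Ω → β) (U : Ω → γ) (V : Ω → ζ) :
    P.H W + P.H S ≤ P.H U + P.H V + P.Hc S U + P.Hc S V + P.Hc W fun ω => (U ω, V ω) := by
  have h := P.sub_c W S U V fun _ => ()
  have h1 : P.Hc S (fun ω => (U ω, ())) ≤ P.Hc S U := P.Hc_mono_right _ fun _ _ _ _ h => by simp_all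
  have h2 : P.Hc S (fun ω => (V ω, ())) ≤ P.Hc S V := P.Hc_mono_right _ fun _ _ _ _ h => by simp_all
  have h3 : P.Hc W (fun ω => (U ω, V ω, ())) ≤ P.Hc W fun ω => (U ω, V ω) :=
    P.Hc_mono_right _ fun _ _ _ _ h => by simp_all
  simp only [Hc_const] at h
  linarith

/-- information leaking through a conditionally independent variable -/
theorem info {G : Ω → α} {S : Ω → β} {Q : Ω → γ} {L : Ω → ζ} {T : Ω → ξ}
    (hCI : (P.H fun ω => ((G ω, S ω), Q ω, L ω)) + P.H L =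
      (P.H fun ω => ((G ω, S ω), L ω)) + P.H fun ω => (Q ω, L ω)) (hT : P.Det S T) :
    P.Hc G S - (P.Hc Q T - P.Hc Q L) ≤ P.Hc G fun ω => (Q ω, S ω) := by
  have h1 := P.Hc_symm G Q S
  have h2 := P.Hc_mono_right Q hT
  have h3 : P.Hc Q (fun ω => ((G ω, S ω), L ω)) ≤ P.Hc Q fun ω => (G ω, S ω) :=
    P.Hc_mono_right _ fun _ _ _ _ h => congrArg Prod.fst h
  have h4 : (P.H fun ω => ((G ω, S ω), Q ω, L ω)) ≤ P.H fun ω => (Q ω, (G ω, S ω), L ω) :=
    P.H_mono fun _ _ _ _ h => by simp_all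
  have h5 : P.Hc Q L ≤ P.Hc Q fun ω => ((G ω, S ω), L ω) := by unfold Hc; linarith
  linarith

section glue
variable {P} {P' : FP Ω'} {L' : Ω' → ζ} {L : Ω → ζ}
theorem info_glue (h : Law P' L' P L) (G : Ω' → α) {S : Ω' → β} (Q : Ω → γ) (T : ζ → ξ)
    (hT : P'.Det S fun ω => T (L' ω)) :
    P'.Hc G S - (P.Hc Q (fun ω => T (L ω)) - P.Hc Q L) ≤
      (glue P' L' P L).Hc (fun x => G x.1) fun x => (Q x.2, S x.1) := by
  have h1 := (glue P' L' P L).info (G := fun x => G x.1) (S := fun x => S x.1)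
    (Q := fun x => Q x.2) (L := fun x => L x.2) (T := fun x => T (L x.2)) (by
      have h2 := H_glue h (fun ω => (G ω, S ω)) Q
      rw [(glue_snd h).H L, (glue_snd h).H fun ω => (Q ω, L ω)]
      rw [← (glue_fst (P := P) (V' := L') (V := L)).H fun ω => ((G ω, S ω), L' ω)] at h2
      have e1 : ((glue P' L' P L).H fun x => ((G x.1, S x.1), Q x.2, L x.2)) =
          (glue P' L' P L).H fun x => ((G x.1, S x.1), Q x.2, L' x.1) :=
        H_ae _ fun x hx => by rw [glue_eq h hx]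
      have e2 : ((glue P' L' P L).H fun x => ((G x.1, S x.1), L x.2)) =
          (glue P' L' P L).H fun x => ((G x.1, S x.1), L' x.1) :=
        H_ae _ fun x hx => by rw [glue_eq h hx]
      rw [e1, e2, h2])
    fun x y hx hy hxy => by
      beta_reduce
      rw [glue_eq h hx, glue_eq h hy]
      exact hT _ _ (glue_fst.pos hx) (glue_fst.pos hy) hxy
  rwa [glue_fst.Hc G S, (glue_snd h).Hc Q L, (glue_snd h).Hc Q fun ω => T (L ω)] at h1
theorem info_glue' (h : Law P' L' P L) (G : Ω → α) {S : Ω → β} (Q : Ω' → γ) (T : ζ → ξ)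
    (hT : P.Det S fun ω => T (L ω)) :
    P.Hc G S - (P'.Hc Q (fun ω => T (L' ω)) - P'.Hc Q L') ≤
      (glue P' L' P L).Hc (fun x => G x.2) fun x => (Q x.1, S x.2) := by
  have h1 := (glue P' L' P L).info (G := fun x => G x.2) (S := fun x => S x.2)
    (Q := fun x => Q x.1) (L := fun x => L' x.1) (T := fun x => T (L' x.1)) (by
      have h2 := H_glue h Q fun ω => (G ω, S ω)
      rw [glue_fst.H L', glue_fst.H fun ω => (Q ω, L' ω), h.H]
      rw [← (glue_snd h).H fun ω => ((G ω, S ω), L ω)] at h2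
      have e1 : ((glue P' L' P L).H fun x => ((G x.2, S x.2), Q x.1, L' x.1)) =
          (glue P' L' P L).H fun x => (Q x.1, (G x.2, S x.2), L' x.1) :=
        H_congr _ (fun _ _ _ _ h => by simp_all) fun _ _ _ _ h => by simp_all
      have e2 : ((glue P' L' P L).H fun x => ((G x.2, S x.2), L x.2)) =
          (glue P' L' P L).H fun x => ((G x.2, S x.2), L' x.1) :=
        H_ae _ fun x hx => by rw [glue_eq h hx]
      rw [e1, ← e2, h2, add_comm])
    fun x y hx hy hxy => by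
      beta_reduce
      rw [← glue_eq h hx, ← glue_eq h hy]
      exact hT _ _ ((glue_snd h).pos hx) ((glue_snd h).pos hy) hxy
  rwa [(glue_snd h).Hc G S, glue_fst.Hc Q L', glue_fst.Hc Q fun ω => T (L' ω)] at h1
end glue

theorem H_cpy (V : Ω → β) (Z : Ω → α) (Z' : Ω → γ) :
    ((P.cpy V).H fun x => (Z x.1, Z' x.2, V x.1)) + P.H V =
      (P.H fun x => (Z x, V x)) + P.H fun x => (Z' x, V x) := H_glue Law.rfl Z Z'

theorem le_Hc {Z : Ω → α} {V : Ω → β} {c : ℝ}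
    (h : ∀ ω, 0 < P.p ω → (P.pr fun x => Z x = Z ω ∧ V x = V ω) ≤ c * P.cl V ω) :
    - log c ≤ P.Hc Z V := by
  rw [Hc_eq]
  refine P.le_E fun ω hω => neg_le_neg (log_le_log (div_pos (P.cl_pos _ hω) (P.cl_pos _ hω)) ?_)
  rw [div_le_iff₀ (P.cl_pos _ hω)]
  simpa only [cl, Prod.mk.injEq] using h ω hω

theorem Hc_le_E {Z : Ω → α} {V : Ω → β} {N : Ω → ℝ}
    (h : ∀ ω, 0 < P.p ω → ∃ F : Finset α, (F.card : ℝ) ≤ N ω ∧
      ∀ ω', 0 < P.p ω' → V ω' = V ω → Z ω' ∈ F) : P.Hc Z V ≤ P.E fun ω => log (N ω) := by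
  rw [← E_H_cv]
  refine P.E_mono fun ω hω => ?_
  obtain ⟨F, hF, hF'⟩ := h ω hω
  exact H_le_log _ F (fun ω' hω' => hF' ω' (P.cv_pos hω') (P.cv_eq hω hω')) hF

theorem Hc_le_close {d : ℕ} {Z : Ω → Fin d → ℤ} {V : Ω → β} {M : Ω → ℝ}
    (h : ∀ ω ω', 0 < P.p ω → 0 < P.p ω' → V ω' = V ω → ‖cz (Z ω') - cz (Z ω)‖ ≤ M ω) :
    P.Hc Z V ≤ P.E fun ω => d * log (2 * M ω + 1) := by
  simp only [← log_pow]
  refine P.Hc_le_E fun ω hω => ?_
  obtain ⟨F, hF, hF'⟩ := exists_box (cz (Z ω)) ((norm_nonneg _).trans (h ω ω hω hω rfl))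
  exact ⟨F, hF, fun ω' hω' h' => hF' _ (h ω ω' hω hω' h')⟩
theorem Hc_le_close' {d : ℕ} {Z : Ω → Fin d → ℤ} {V : Ω → β} {M : ℝ}
    (h : ∀ ω ω', 0 < P.p ω → 0 < P.p ω' → V ω' = V ω → ‖cz (Z ω') - cz (Z ω)‖ ≤ M) :
    P.Hc Z V ≤ d * log (2 * M + 1) := by
  have := P.Hc_le_close (M := fun _ => M) h
  rwa [E_const] at this
theorem H_le_close {d : ℕ} {Z : Ω → Fin d → ℤ} {M : ℝ}
    (h : ∀ ω ω', 0 < P.p ω → 0 < P.p ω' → ‖cz (Z ω') - cz (Z ω)‖ ≤ M) :
    P.H Z ≤ d * log (2 * M + 1) := by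
  rw [← P.Hc_const Z ()]; exact P.Hc_le_close' fun ω ω' h1 h2 _ => h ω ω' h1 h2
/-- two regimes: a good event with a small radius, a large radius always -/
theorem Hc_le_close₂ {d : ℕ} {Z : Ω → Fin d → ℤ} {V : Ω → β} {M M' : ℝ} (hM : 0 ≤ M)
    (s : Ω → Prop)
    (h : ∀ ω ω', 0 < P.p ω → 0 < P.p ω' → V ω' = V ω →
      ‖cz (Z ω') - cz (Z ω)‖ ≤ M' ∧ (s ω → ‖cz (Z ω') - cz (Z ω)‖ ≤ M)) :
    P.Hc Z V ≤ d * log (2 * M + 1) + (P.pr fun ω => ¬ s ω) * (d * log (2 * M' + 1)) := by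
  classical
  refine (P.Hc_le_close (M := fun ω => if s ω then M else M') fun ω ω' h1 h2 h3 => ?_).trans ?_
  · split_ifs with hs
    · exact (h ω ω' h1 h2 h3).2 hs
    · exact (h ω ω' h1 h2 h3).1
  · rw [pr, ← E_mul_right, ← P.E_const (d * log (2 * M + 1)), ← E_add]
    refine P.E_mono fun ω hω => ?_
    have hM' : 0 ≤ M' := (norm_nonneg _).trans (h ω ω hω hω rfl).1
    split_ifs with hs
    · rw [ind_neg (not_not.2 hs)]; simp
    · rw [ind_pos hs, one_mul]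
      exact le_add_of_nonneg_left (mul_nonneg (Nat.cast_nonneg _) (log_nonneg (by linarith)))

theorem bind_cv (V : Ω → β) (κ : β → FP Ω') {ω : Ω} (hω : 0 < P.p ω) :
    MP ((P.cv V (V ω)).prod (κ (V ω)))
      ((P.bind fun x => κ (V x)).cv (fun x => V x.1) (V ω)) id := fun f => by
  have h1 := (P.bind_fst fun x => κ (V x)).pr fun x => V x = V ω
  have h0 : 0 < (P.bind fun x => κ (V x)).pr fun x => V x.1 = V ω := by
    rw [h1]; exact P.cl_pos V hω
  unfold cv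
  rw [E_cond _ h0, h1, E_bind, E_prod, E_cond _ (P.cl_pos V hω)]
  congr 1
  refine P.E_congr fun x _ => ?_
  by_cases h : V x = V ω
  · simp only [h, ind_pos, one_mul, id]
  · simp only [ind_neg h, zero_mul, E_const]
theorem Hc_bind (V : Ω → β) (κ : β → FP Ω') (F : Ω × Ω' → α) :
    (P.bind fun x => κ (V x)).Hc F (fun x => V x.1) =
      P.E fun ω => ((P.cv V (V ω)).prod (κ (V ω))).H F := by
  rw [← E_H_cv, (P.bind_fst fun x => κ (V x))
    fun ω => ((P.bind fun x => κ (V x)).cv (fun x => V x.1) (V ω)).H F]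
  exact P.E_congr fun ω hω => ((P.bind_cv V κ hω).H F).symm
theorem Hc_cpy (V : Ω → β) (F : Ω × Ω → α) :
    (P.cpy V).Hc F (fun x => V x.1) =
      P.E fun ω => ((P.cv V (V ω)).prod (P.cv V (V ω))).H F := P.Hc_bind V (P.cv V) F
theorem Hc_prod_eq (P' : FP Ω') (V : Ω → β) (G : β → Ω' → α) :
    (P.prod P').Hc (fun x => G (V x.1) x.2) (fun x => V x.1) = P.E fun ω => P'.H (G (V ω)) := by
  refine (P.Hc_bind V (fun _ => P') _).trans (P.E_congr fun ω hω => ?_)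
  rw [← ((P.cv V (V ω)).prod_snd P').H]
  exact H_congr _ (fun x y hx hy h => by
      rw [P.cv_eq hω (prod_pos _ hx).1, P.cv_eq hω (prod_pos _ hy).1]; exact h)
    fun x y hx hy h => by
      rw [P.cv_eq hω (prod_pos _ hx).1, P.cv_eq hω (prod_pos _ hy).1] at h; exact h

/-- finite power -/
def pi (k : ℕ) : FP (Fin k → Ω) where
  p := fun x => ∏ i, P.p (x i)
  nn := fun x => prod_nonneg fun _ _ => P.nn _
  one := by
    classical
    rw [← Fintype.piFinset_univ, ← prod_univ_sum]; simp [P.one]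

theorem E_pi_succ (k : ℕ) (f : (Fin (k + 1) → Ω) → ℝ) :
    (P.pi (k + 1)).E f = P.E fun ω => (P.pi k).E fun x => f (Fin.cons ω x) := by
  simp only [E, pi, mul_sum]
  rw [← Fintype.sum_prod_type', ← (Fin.consEquiv fun _ => Ω).sum_comp]
  exact sum_congr rfl fun x _ => by simp [Fin.prod_univ_succ, Fin.consEquiv, mul_assoc]
theorem pi_cons (k : ℕ) : MP (P.prod (P.pi k)) (P.pi (k + 1)) fun x => Fin.cons x.1 x.2 :=
  fun f => by rw [E_prod, E_pi_succ]
theorem pi_pos {k : ℕ} {x : Fin k → Ω} (h : 0 < (P.pi k).p x) (i : Fin k) : 0 < P.p (x i) :=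
  (P.nn _).lt_of_ne fun h0 => h.ne' (prod_eq_zero (mem_univ i) h0.symm)
theorem E_pi_prod (k : ℕ) (f : Fin k → Ω → ℝ) :
    ((P.pi k).E fun x => ∏ i, f i (x i)) = ∏ i, P.E (f i) := by
  classical
  simp only [E, pi, ← prod_mul_distrib]
  rw [← Fintype.piFinset_univ, prod_univ_sum]
theorem pi_eval {k : ℕ} (i : Fin k) : MP (P.pi k) P fun x => x i := fun f => by
  classical
  have := P.E_pi_prod k fun j ω => if j = i then f ω else 1
  simp only [prod_ite_eq', mem_univ, if_true] at this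
  rw [this, prod_eq_single i]
  · simp
  · intro j _ hj; simp [hj, E_const]
  · simp
theorem ind_forall {k : ℕ} (s : Fin k → Prop) : ind (∀ i, s i) = ∏ i, ind (s i) := by
  by_cases h : ∀ i, s i
  · rw [ind_pos h]; exact (prod_eq_one fun i _ => ind_pos (h i)).symm
  · rw [ind_neg h]
    push Not at h
    obtain ⟨i, hi⟩ := h
    exact (prod_eq_zero (mem_univ i) (ind_neg hi)).symm
theorem pr_pi (k : ℕ) (s : Fin k → Ω → Prop) :
    ((P.pi k).pr fun x => ∀ i, s i (x i)) = ∏ i, P.pr (s i) := by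
  simp only [pr, ind_forall]; exact P.E_pi_prod k fun i ω => ind (s i ω)
theorem E_pi_log (k : ℕ) {g : Ω → ℝ} (hg : ∀ ω, 0 < P.p ω → 0 < g ω) :
    ((P.pi k).E fun x => log (∏ i, g (x i))) = k * P.E fun ω => log (g ω) := by
  rw [(P.pi k).E_congr (g := fun x => ∑ i, log (g (x i))) fun x hx =>
    log_prod fun i _ => (hg _ (P.pi_pos hx i)).ne', E_sum]
  simp only [fun i : Fin k => P.pi_eval i fun ω => log (g ω)]
  simp
theorem H_pi (k : ℕ) (Z : Ω → α) : ((P.pi k).H fun x i => Z (x i)) = k * P.H Z := by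
  rw [H, H, E_neg, E_neg, mul_neg, ← P.E_pi_log k fun ω hω => P.cl_pos Z hω]
  congr 1
  refine E_congr _ fun x _ => ?_
  unfold cl
  simp only [funext_iff]
  rw [P.pr_pi k fun i ω => Z ω = Z (x i)]

/-- uniform distribution -/
noncomputable def unif (m : ℕ) [NeZero m] : FP (Fin m) where
  p := fun _ => (m : ℝ)⁻¹
  nn := fun _ => by positivity
  one := by simp [NeZero.ne m]

end FP

end Pool.Agent.P.MP_bf60a1_an.RA
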