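import Pool.Agent.Lib.Helper82.Frostman

/-! Final assembly for right angles: flat case and reduction to the key lemma and thin tubes. -/

namespace Pool.Agent.P.MP_bf60a1_an.RA

open MeasureTheory Metric Set
open scoped ENNReal

/-- the key lemma -/
def KeyStmt : Prop :=
  ∀ {N : ℕ} (μ : Measure (EuclideanSpace ℝ (Fin N))) [IsProbabilityMeasure μ]
    {K : Set (EuclideanSpace ℝ (Fin N))}, IsCompact K → μ Kᶜ = 0 → ∀ {s c C : ℝ},
    1 < s → (N : ℝ) < s + c →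
    (∀ x r, 0 < r → μ (ball x r) ≤ ENNReal.ofReal (C * r ^ s)) →
    ∀ {G : Set (EuclideanSpace ℝ (Fin N) × EuclideanSpace ℝ (Fin N))}, MeasurableSet G →
    (μ.prod μ) G ≠ 0 →
    (∀ x y, (x, y) ∈ G → ∀ δ : ℝ, 0 < δ →
      μ {z | (x, z) ∈ G ∧ ∃ t : ℝ, dist z (x + t • (y - x)) < δ} ≤ ENNReal.ofReal (C * δ ^ c)) →
    ∃ x ∈ K, ∃ y ∈ K, ∃ z ∈ K, x ≠ y ∧ y ≠ z ∧ x ≠ z ∧ inner ℝ (x - y) (z - y) = 0

/-- the thin tube theorem -/
def ThinStmt : Prop :=
  ∀ {n k : ℕ}, 1 ≤ k → ∀ (μ : Measure (EuclideanSpace ℝ (Fin n))) [IsProbabilityMeasure μ]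
    {R s C : ℝ}, μ (ball 0 R)ᶜ = 0 → (k : ℝ) - 1 < s →
    (∀ x r, 0 < r → μ (ball x r) ≤ ENNReal.ofReal (C * r ^ s)) →
    (∀ V : AffineSubspace ℝ (EuclideanSpace ℝ (Fin n)),
      Module.finrank ℝ V.direction ≤ k → μ V = 0) → ∀ {p : ℝ}, 0 ≤ p → p < s → p < k →
    ∃ (G : Set (EuclideanSpace ℝ (Fin n) × EuclideanSpace ℝ (Fin n))) (C' : ℝ),
      MeasurableSet G ∧ (μ.prod μ) G ≠ 0 ∧ ∀ x y, (x, y) ∈ G → ∀ δ : ℝ, 0 < δ →
        μ {z | ∃ t : ℝ, dist z (x + t • (y - x)) < δ} ≤ ENNReal.ofReal (C' * δ ^ p)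

theorem tube_trivial {N : ℕ} (μ : Measure (EuclideanSpace ℝ (Fin N))) [IsProbabilityMeasure μ]
    {R s C : ℝ} (hR0 : 0 < R) (hR : μ (ball 0 R)ᶜ = 0) (hs : 1 ≤ s) (hC : 0 ≤ C)
    (hF : ∀ x r, 0 < r → μ (ball x r) ≤ ENNReal.ofReal (C * r ^ s)) :
    ∃ C' : ℝ, 1 ≤ C' ∧ ∀ (x y : EuclideanSpace ℝ (Fin N)) (δ : ℝ), 0 < δ →
      μ {z | ∃ t : ℝ, dist z (x + t • (y - x)) < δ} ≤ ENNReal.ofReal (C' * δ ^ (s - 1)) := by
  refine ⟨1 + (4 * R + 9) * C * 2 ^ s, le_add_of_nonneg_right (by positivity), ?_⟩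
  intro x y δ hδ
  have hC1 : (1 : ℝ) ≤ 1 + (4 * R + 9) * C * 2 ^ s := le_add_of_nonneg_right (by positivity)
  rcases le_or_gt 1 δ with h1 | h1
  · refine prob_le_one.trans ?_
    rw [ENNReal.one_le_ofReal]
    exact one_le_mul_of_one_le_of_one_le hC1 (Real.one_le_rpow h1 (by linarith))
  set T := {z : EuclideanSpace ℝ (Fin N) | ∃ t : ℝ, dist z (x + t • (y - x)) < δ} with hT
  have hTle : μ T ≤ μ (T ∩ ball 0 R) := by
    calc μ T ≤ μ (T ∩ ball 0 R ∪ (ball 0 R)ᶜ) := measure_mono fun z hz => by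
          by_cases h : z ∈ ball (0 : EuclideanSpace ℝ (Fin N)) R
          · exact Or.inl ⟨hz, h⟩
          · exact Or.inr h
      _ ≤ μ (T ∩ ball 0 R) + μ (ball 0 R)ᶜ := measure_union_le _ _
      _ = _ := by rw [hR, add_zero]
  refine hTle.trans ?_
  rcases (T ∩ ball 0 R).eq_empty_or_nonempty with he | ⟨z₀, ⟨t₀, ht₀⟩, hz₀⟩
  · rw [he, measure_empty]; exact zero_le
  set u : EuclideanSpace ℝ (Fin N) := ‖y - x‖⁻¹ • (y - x) with hu
  have hu1 : ‖u‖ ≤ 1 := by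
    rw [hu, norm_smul, norm_inv, norm_norm]
    exact inv_mul_le_one_of_le₀ le_rfl (norm_nonneg _)
  have hyx : y - x = ‖y - x‖ • u := by
    rw [hu, smul_smul]
    by_cases h : y - x = 0
    · simp [h]
    · rw [mul_inv_cancel₀ (norm_ne_zero_iff.2 h), one_smul]
  set q := x + t₀ • (y - x) with hq
  set M : ℤ := ⌈(2 * R + 2) / δ⌉ + 1 with hM
  have hcov : T ∩ ball 0 R ⊆ ⋃ i ∈ Finset.Icc (-M) M, ball (q + ((i : ℝ) * δ) • u) (2 * δ) := by
    rintro z ⟨⟨t, ht⟩, hz⟩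
    set τ := (t - t₀) * ‖y - x‖ with hτ
    have hp : x + t • (y - x) = q + τ • u := by
      rw [hq, hτ, mul_smul, ← hyx, sub_smul]; abel
    have hτb : |τ| ≤ 2 * R + 2 := by
      have h2 : |τ| = dist (x + t • (y - x)) q := by
        rw [hq, dist_eq_norm, add_sub_add_left_eq_sub, ← sub_smul, norm_smul, hτ, abs_mul,
          abs_norm, Real.norm_eq_abs]
      have h3 := dist_triangle4 (x + t • (y - x)) z z₀ q
      have h4 := dist_triangle_right z z₀ 0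
      rw [mem_ball] at hz hz₀
      rw [dist_comm] at ht
      linarith
    simp only [mem_iUnion, Finset.mem_Icc, exists_prop]
    have hf1 := Int.floor_le (τ / δ)
    have hf2 := Int.lt_floor_add_one (τ / δ)
    have hc := Int.le_ceil ((2 * R + 2) / δ)
    have hτ1 : τ / δ ≤ (2 * R + 2) / δ := by
      gcongr; exact (le_abs_self _).trans hτb
    have hτ2 : -((2 * R + 2) / δ) ≤ τ / δ := by
      rw [← neg_div]; gcongr; exact neg_le_of_abs_le hτb
    refine ⟨⌊τ / δ⌋, ⟨?_, ?_⟩, ?_⟩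
    · have : (-(M : ℝ)) ≤ (⌊τ / δ⌋ : ℝ) := by rw [hM]; push_cast; linarith
      exact_mod_cast this
    · have : (⌊τ / δ⌋ : ℝ) ≤ (M : ℝ) := by rw [hM]; push_cast; linarith
      exact_mod_cast this
    · rw [mem_ball]
      have h5 : dist (q + τ • u) (q + ((⌊τ / δ⌋ : ℝ) * δ) • u) ≤ δ := by
        rw [dist_eq_norm, add_sub_add_left_eq_sub, ← sub_smul, norm_smul, Real.norm_eq_abs]
        have h6 : |τ - ⌊τ / δ⌋ * δ| ≤ δ := by
          rw [le_div_iff₀ hδ] at hf1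
          rw [div_lt_iff₀ hδ] at hf2
          rw [abs_le]; constructor <;> nlinarith
        calc _ ≤ δ * 1 := mul_le_mul h6 hu1 (norm_nonneg _) hδ.le
          _ = δ := mul_one δ
      have h7 := dist_triangle z (q + τ • u) (q + ((⌊τ / δ⌋ : ℝ) * δ) • u)
      rw [hp] at ht
      linarith
  have hMpos : 0 ≤ M := by
    have : (0 : ℤ) ≤ ⌈(2 * R + 2) / δ⌉ := Int.ceil_nonneg (by positivity)
    omega
  have hcard : (((Finset.Icc (-M) M).card : ℕ) : ℝ) ≤ (4 * R + 9) / δ := by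
    have h2 : (((Finset.Icc (-M) M).card : ℕ) : ℤ) = 2 * M + 1 := by
      rw [Int.card_Icc, Int.toNat_of_nonneg (by omega)]; ring
    have h3 : (((Finset.Icc (-M) M).card : ℕ) : ℝ) = 2 * (M : ℝ) + 1 := by exact_mod_cast h2
    have hc := Int.ceil_lt_add_one ((2 * R + 2) / δ)
    have h4 : (5 : ℝ) ≤ 5 / δ := by rw [le_div_iff₀ hδ]; linarith
    have h5 : (4 * R + 9) / δ = 2 * ((2 * R + 2) / δ) + 5 / δ := by field_simp; ring
    rw [h3, hM, h5]; push_cast; linarith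
  calc μ (T ∩ ball 0 R) ≤ ∑ i ∈ Finset.Icc (-M) M, μ (ball (q + ((i : ℝ) * δ) • u) (2 * δ)) :=
        (measure_mono hcov).trans (measure_biUnion_finset_le _ _)
    _ ≤ ∑ i ∈ Finset.Icc (-M) M, ENNReal.ofReal (C * (2 * δ) ^ s) :=
        Finset.sum_le_sum fun i _ => hF _ _ (by positivity)
    _ = ENNReal.ofReal (((Finset.Icc (-M) M).card : ℕ) * (C * (2 * δ) ^ s)) := by
        rw [Finset.sum_const, nsmul_eq_mul, ENNReal.ofReal_mul (Nat.cast_nonneg _),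
          ENNReal.ofReal_natCast]
    _ ≤ _ := by
        refine ENNReal.ofReal_le_ofReal ?_
        have h2 : (4 * R + 9) / δ * (C * (2 * δ) ^ s) = (4 * R + 9) * C * 2 ^ s * δ ^ (s - 1) := by
          rw [Real.mul_rpow (by norm_num) hδ.le, Real.rpow_sub_one hδ.ne']; field_simp
        have h3 : 0 ≤ δ ^ (s - 1) := by positivity
        calc _ ≤ (4 * R + 9) / δ * (C * (2 * δ) ^ s) := by gcongr
          _ ≤ _ := by rw [h2]; nlinarith

theorem flat_case (hkey : KeyStmt) {n : ℕ} (μ : Measure (EuclideanSpace ℝ (Fin n)))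
    [IsProbabilityMeasure μ] {K : Set (EuclideanSpace ℝ (Fin n))} (hK : IsCompact K)
    (hμK : μ Kᶜ = 0) {s C : ℝ} (hs : 1 < s) (hC : 0 ≤ C)
    (hF : ∀ x r, 0 < r → μ (ball x r) ≤ ENNReal.ofReal (C * r ^ s))
    (V : AffineSubspace ℝ (EuclideanSpace ℝ (Fin n))) (hV : μ V ≠ 0)
    (hdim : (Module.finrank ℝ V.direction : ℝ) < 2 * s - 1) :
    ∃ x ∈ K, ∃ y ∈ K, ∃ z ∈ K, x ≠ y ∧ y ≠ z ∧ x ≠ z ∧ inner ℝ (x - y) (z - y) = 0 := by
  obtain ⟨p, hp⟩ : (V : Set (EuclideanSpace ℝ (Fin n))).Nonempty := nonempty_of_measure_ne_zero hV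
  set b := stdOrthonormalBasis ℝ V.direction
  set L : EuclideanSpace ℝ (Fin (Module.finrank ℝ V.direction)) →ₗᵢ[ℝ] EuclideanSpace ℝ (Fin n) :=
    V.direction.subtypeₗᵢ.comp b.repr.symm.toLinearIsometry with hL
  set j : EuclideanSpace ℝ (Fin (Module.finrank ℝ V.direction)) → EuclideanSpace ℝ (Fin n) :=
    fun a => p + L a with hj
  have hjsub : ∀ a a', j a - j a' = L (a - a') := fun a a' => by simp [hj]
  have hiso : Isometry j := Isometry.of_dist_eq fun a a' => by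
    rw [dist_eq_norm, dist_eq_norm, hjsub, L.norm_map]
  have hcl := hiso.isClosedEmbedding
  have hme : MeasurableEmbedding j := hcl.measurableEmbedding
  have hrange : (V : Set (EuclideanSpace ℝ (Fin n))) ⊆ range j := by
    intro z hz
    refine ⟨b.repr ⟨z - p, AffineSubspace.vsub_mem_direction hz hp⟩, ?_⟩
    simp [hj, hL]
  set c := μ (range j) with hc
  have hc0 : c ≠ 0 := fun h => hV (measure_mono_null hrange h)
  have hct : c ≠ ∞ := measure_ne_top _ _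
  set ν : Measure (EuclideanSpace ℝ (Fin (Module.finrank ℝ V.direction))) :=
    c⁻¹ • μ.comap j with hν
  have hνa : ∀ A, ν A = c⁻¹ * μ (j '' A) := fun A => by
    rw [hν, Measure.smul_apply, hme.comap_apply, smul_eq_mul]
  have : IsProbabilityMeasure ν := ⟨by
    rw [hνa, image_univ, ← hc, ENNReal.inv_mul_cancel hc0 hct]⟩
  have hK' : IsCompact (j ⁻¹' K) := hcl.isCompact_preimage hK
  have hνK : ν (j ⁻¹' K)ᶜ = 0 := by
    rw [hνa, measure_mono_null (fun z hz => ?_) hμK, mul_zero]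
    obtain ⟨a, ha, rfl⟩ := hz
    exact ha
  set C₁ := c⁻¹.toReal * C with hC₁
  have hC₁0 : 0 ≤ C₁ := mul_nonneg ENNReal.toReal_nonneg hC
  have hF' : ∀ x r, 0 < r → ν (ball x r) ≤ ENNReal.ofReal (C₁ * r ^ s) := by
    intro x r hr
    rw [hνa, hC₁, mul_assoc, ENNReal.ofReal_mul ENNReal.toReal_nonneg,
      ENNReal.ofReal_toReal (ENNReal.inv_ne_top.2 hc0)]
    refine mul_le_mul_right (le_trans (measure_mono ?_) (hF (j x) r hr)) _
    rintro _ ⟨a, ha, rfl⟩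
    rw [mem_ball, hiso.dist_eq]
    exact ha
  obtain ⟨R, hR0, hR⟩ := hK'.isBounded.subset_ball_lt 0 0
  obtain ⟨C', hC', hthin⟩ := tube_trivial ν hR0
    (measure_mono_null (compl_subset_compl.2 hR) hνK) hs.le hC₁0 hF'
  obtain ⟨x, hx, y, hy, z, hz, hxy, hyz, hxz, hin⟩ := hkey ν hK' hνK (s := s) (c := s - 1)
    (C := max C₁ C') hs (by linarith)
    (fun x r hr => (hF' x r hr).trans (ENNReal.ofReal_le_ofReal (by
      gcongr; exact le_max_left _ _)))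
    (G := univ) MeasurableSet.univ (by simp)
    (fun x y _ δ hδ => by
      refine le_trans (measure_mono fun z hz => hz.2) ((hthin x y δ hδ).trans
        (ENNReal.ofReal_le_ofReal ?_))
      gcongr; exact le_max_right _ _)
  refine ⟨j x, hx, j y, hy, j z, hz, hiso.injective.ne hxy, hiso.injective.ne hyz,
    hiso.injective.ne hxz, ?_⟩
  rw [hjsub, hjsub, L.inner_map_map, hin]

theorem final (hkey : KeyStmt) (hthin : ThinStmt) (n : ℕ) (hn : 3 ≤ n)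
    (E : Set (EuclideanSpace ℝ (Fin n))) (hE : MeasurableSet E)
    (hdim : (n : ℝ≥0∞) / 2 < dimH E) :
    ∃ x ∈ E, ∃ y ∈ E, ∃ z ∈ E, x ≠ y ∧ y ≠ z ∧ x ≠ z ∧ inner ℝ (x - y) (z - y) = 0 := by
  obtain ⟨s, hs0, hs1, hs2⟩ := ENNReal.lt_iff_exists_real_btwn.1 hdim
  have hns : (n : ℝ) / 2 < s := by
    have h2 : (n : ℝ≥0∞) / 2 = ENNReal.ofReal ((n : ℝ) / 2) := by
      rw [ENNReal.ofReal_div_of_pos two_pos, ENNReal.ofReal_natCast, ENNReal.ofReal_ofNat]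
    rw [h2] at hs1
    exact (ENNReal.ofReal_lt_ofReal_iff_of_nonneg (by positivity)).1 hs1
  have hn' : (3 : ℝ) ≤ n := by exact_mod_cast hn
  obtain ⟨μ, K, C, hμ, hK, hKE, hμK, hC, hF⟩ :=
    Pool.Agent.Lib.Helper82.frostman hE (s := s) (by linarith) hs2
  suffices h : ∃ x ∈ K, ∃ y ∈ K, ∃ z ∈ K, x ≠ y ∧ y ≠ z ∧ x ≠ z ∧ inner ℝ (x - y) (z - y) = 0 by
    obtain ⟨x, hx, y, hy, z, hz, h⟩ := h
    exact ⟨x, hKE hx, y, hKE hy, z, hKE hz, h⟩
  set k := (n + 1) / 2 with hk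
  have hk1 : n ≤ 2 * k := by omega
  have hk2 : 2 * k ≤ n + 1 := by omega
  have hk3 : 2 ≤ k := by omega
  have hk1' : (n : ℝ) ≤ 2 * k := by exact_mod_cast hk1
  have hk2' : 2 * (k : ℝ) ≤ n + 1 := by exact_mod_cast hk2
  have hk3' : (2 : ℝ) ≤ k := by exact_mod_cast hk3
  by_cases hnull : ∀ V : AffineSubspace ℝ (EuclideanSpace ℝ (Fin n)),
      Module.finrank ℝ V.direction ≤ k → μ V = 0
  · obtain ⟨R, -, hR⟩ := hK.isBounded.subset_ball_lt 0 0
    obtain ⟨p, hp1, hp2⟩ := exists_between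
      (show max 0 ((n : ℝ) - s) < min s k by
        rw [max_lt_iff, lt_min_iff, lt_min_iff]
        refine ⟨⟨?_, ?_⟩, ?_, ?_⟩ <;> linarith)
    rw [max_lt_iff] at hp1
    rw [lt_min_iff] at hp2
    obtain ⟨G, C', hG, hpos, hth⟩ := hthin (k := k) (by omega) μ
      (measure_mono_null (compl_subset_compl.2 hR) hμK) (s := s) (by linarith) hF hnull
      hp1.1.le hp2.1 hp2.2
    refine hkey μ hK hμK (s := s) (c := p) (C := max C C') (by linarith) (by linarith [hp1.2])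
      (fun x r hr => (hF x r hr).trans (ENNReal.ofReal_le_ofReal (by
        gcongr; exact le_max_left _ _))) hG hpos fun x y hxy δ hδ => ?_
    refine le_trans (measure_mono fun z hz => hz.2) ((hth x y hxy δ hδ).trans
      (ENNReal.ofReal_le_ofReal ?_))
    gcongr; exact le_max_right _ _
  · push Not at hnull
    obtain ⟨V, hV, hV0⟩ := hnull
    refine flat_case hkey μ hK hμK (by linarith) (by linarith) hF V hV0 ?_
    have : (Module.finrank ℝ V.direction : ℝ) ≤ k := by exact_mod_cast hV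
    linarith

end Pool.Agent.P.MP_bf60a1_an.RA
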