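import Pool.Agent.P.MP_bf60a1_an.RA.Ent2

/-! Regularised point–line configurations. -/

namespace Pool.Agent.P.MP_bf60a1_an.RA

open Finset Real

/-- the `B^(-j)` grid cell of a point -/
noncomputable def cell {d : ℕ} (B j : ℕ) (X : (Fin d → ℝ) × ℝ) : (Fin d → ℤ) × ℤ :=
  (fl (((B : ℝ) ^ j) • X.1), ⌊(B : ℝ) ^ j * X.2⌋)

/-- a regularised random point `X` with a random line `(a, b)` through it -/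
structure Good {Ω : Type*} [Fintype Ω] {d : ℕ} (P : FP Ω) (X : Ω → (Fin d → ℝ) × ℝ)
    (a b : Ω → Fin d → ℝ) (q : (Fin d → ℝ) × (Fin d → ℝ) → ℝ) (B N : ℕ) (Nn : ℕ → ℝ)
    (v K : ℝ) : Prop where
  geo : ∀ ω, 0 < P.p ω → ‖X ω‖ ≤ 1 ∧ ‖a ω‖ ≤ 1 ∧
    ‖(X ω).1 - b ω - (X ω).2 • a ω‖ ≤ ((B : ℝ) ^ N)⁻¹
  cnt : ∀ j ≤ N, ∃ F : Finset ((Fin d → ℤ) × ℤ), (F.card : ℝ) ≤ Nn j ∧
    ∀ ω, 0 < P.p ω → cell B j (X ω) ∈ F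
  sup : ∀ j ≤ N, ∀ c, (P.pr fun ω => cell B j (X ω) = c) ≤ K / Nn j
  slope : ∀ x a₀ r, ((B : ℝ) ^ N)⁻¹ ≤ r →
    (P.pr fun ω => X ω = x ∧ ‖a ω - a₀‖ ≤ r) ≤ K * r ^ v * P.pr fun ω => X ω = x
  line : ∀ x l, (P.pr fun ω => X ω = x ∧ (a ω, b ω) = l) ≤
    K * ((B : ℝ) ^ N) ^ v * q l * P.pr fun ω => X ω = x

theorem Good.mp {Ω Ω' : Type*} [Fintype Ω] [Fintype Ω'] {d : ℕ} {P : FP Ω}
    {X : Ω → (Fin d → ℝ) × ℝ} {a b : Ω → Fin d → ℝ} {q : (Fin d → ℝ) × (Fin d → ℝ) → ℝ}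
    {B N : ℕ} {Nn : ℕ → ℝ} {v K : ℝ} (h : Good P X a b q B N Nn v K) {P' : FP Ω'} {ϖ : Ω' → Ω}
    (hϖ : FP.MP P' P ϖ) :
    Good P' (fun ω => X (ϖ ω)) (fun ω => a (ϖ ω)) (fun ω => b (ϖ ω)) q B N Nn v K where
  geo ω hω := h.geo _ (hϖ.pos hω)
  cnt j hj := by
    obtain ⟨F, hF, hF'⟩ := h.cnt j hj
    exact ⟨F, hF, fun ω hω => hF' _ (hϖ.pos hω)⟩
  sup j hj c := by rw [hϖ.pr fun ω => cell B j (X ω) = c]; exact h.sup j hj c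
  slope x a₀ r hr := by
    rw [hϖ.pr fun ω => X ω = x ∧ ‖a ω - a₀‖ ≤ r, hϖ.pr fun ω => X ω = x]
    exact h.slope x a₀ r hr
  line x l := by
    rw [hϖ.pr fun ω => X ω = x ∧ (a ω, b ω) = l, hϖ.pr fun ω => X ω = x]
    exact h.line x l

end Pool.Agent.P.MP_bf60a1_an.RA
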