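import Pool.Agent.P.MP_bf60a1_an.RA.Kauf

/-! Information between the random line and the cells of the random point. -/

namespace Pool.Agent.P.MP_bf60a1_an.RA

open Finset Real RA.FP

theorem FP.info_mono {Ω α β γ ζ : Type*} [Fintype Ω] (P : FP Ω) {T : Ω → α} {L : Ω → β}
    {Q : Ω → γ} {Q₀ : Ω → ζ} (h : P.Det Q Q₀) (h' : P.Det (fun ω => (L ω, Q₀ ω)) T) :
    P.Hc T Q₀ - P.Hc T Q ≤ P.Hc L Q₀ - P.Hc L Q := by
  have h1 := P.Hc_symm T Q Q₀
  have h2 := P.Hc_symm L Q Q₀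
  have h3 : P.Hc T (fun ω => (Q ω, Q₀ ω)) ≤ P.Hc T Q :=
    P.Hc_mono_right _ fun _ _ _ _ h => congrArg Prod.fst h
  have h4 : P.Hc L Q ≤ P.Hc L fun ω => (Q ω, Q₀ ω) :=
    P.Hc_mono_right _ fun x y hx hy e => Prod.ext e (h x y hx hy e)
  have h5 : P.Hc Q (fun ω => (L ω, Q₀ ω)) ≤ P.Hc Q fun ω => (T ω, Q₀ ω) :=
    P.Hc_mono_right _ fun x y hx hy e => Prod.ext (h' x y hx hy e) (congrArg Prod.snd e :)
  have h6 : P.Hc T Q ≤ P.Hc T fun ω => (Q ω, Q₀ ω) :=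
    P.Hc_mono_right _ fun x y hx hy e => Prod.ext e (h x y hx hy e)
  have h7 : P.Hc L (fun ω => (Q ω, Q₀ ω)) ≤ P.Hc L Q :=
    P.Hc_mono_right _ fun _ _ _ _ h => congrArg Prod.fst h
  linarith

theorem FP.info_eq {Ω β γ ζ : Type*} [Fintype Ω] (P : FP Ω) (L : Ω → β)
    {Q : Ω → γ} {Q₀ : Ω → ζ} (h : P.Det Q Q₀) :
    P.Hc Q Q₀ - P.Hc Q (fun ω => (L ω, Q₀ ω)) = P.Hc L Q₀ - P.Hc L Q := by
  have h2 := P.Hc_symm L Q Q₀
  have h4 : P.Hc L Q ≤ P.Hc L fun ω => (Q ω, Q₀ ω) :=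
    P.Hc_mono_right _ fun x y hx hy e => Prod.ext e (h x y hx hy e)
  have h7 : P.Hc L (fun ω => (Q ω, Q₀ ω)) ≤ P.Hc L Q :=
    P.Hc_mono_right _ fun _ _ _ _ h => congrArg Prod.fst h
  linarith

/-- the standing numerical assumptions -/
structure Num {d : ℕ} (q : (Fin d → ℝ) × (Fin d → ℝ) → ℝ) (B N : ℕ) (Nn : ℕ → ℝ)
    (v K Ξ E : ℝ) : Prop where
  hB : 100 ≤ B
  hN : N + 2 ≤ B
  hK : 1 ≤ K
  hv : 0 ≤ v
  hNn : ∀ j, 1 ≤ Nn j
  hΞ : 1 ≤ Ξ
  eK : log K ≤ E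
  eΞ : log Ξ ≤ E
  eB : 4 * (d + v + 1) * log B ≤ E
  q0 : ∀ l, 0 ≤ q l
  q1 : ∀ T : Finset ((Fin d → ℝ) × (Fin d → ℝ)), ∑ l ∈ T, q l ≤ 1

/-- superlinear growth of the cell counts from level `j` -/
def Sl (B N : ℕ) (Nn : ℕ → ℝ) (v Ξ : ℝ) (j : ℕ) : Prop :=
  ∀ t, j + t ≤ N → Nn j * ((B : ℝ) ^ t) ^ v ≤ Ξ * Nn (j + t)

variable {Ω : Type*} [Fintype Ω] {d : ℕ} {P : FP Ω} {X : Ω → (Fin d → ℝ) × ℝ}
  {a b : Ω → Fin d → ℝ} {q : (Fin d → ℝ) × (Fin d → ℝ) → ℝ} {B N : ℕ} {Nn : ℕ → ℝ}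
  {v K Ξ E : ℝ}

theorem Num.pos (n : Num q B N Nn v K Ξ E) : 0 < B := by have := n.hB; omega
theorem Num.one_le (n : Num q B N Nn v K Ξ E) : (1 : ℝ) ≤ B := by exact_mod_cast n.pos
theorem Num.log_le (n : Num q B N Nn v K Ξ E) {x : ℝ} (h0 : 0 < x) (h : x ≤ 100) :
    d * log x ≤ E := by
  have h1 : log x ≤ log B := log_le_log h0 (h.trans (by exact_mod_cast n.hB))
  have h2 : 0 ≤ log (B : ℝ) := log_nonneg n.one_le
  have := n.eB
  have := n.hv
  have : (0 : ℝ) ≤ d := Nat.cast_nonneg _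
  nlinarith

theorem det_cell (P : FP Ω) (X : Ω → (Fin d → ℝ) × ℝ) (hB : 0 < B) {j l : ℕ} (h : j ≤ l) :
    P.Det (fun ω => cell B l (X ω)) fun ω => cell B j (X ω) :=
  fun _ _ _ _ e => cell_eq_of_le hB h e

theorem tube_lower (h : Good P X a b q B N Nn v K) (n : Num q B N Nn v K Ξ E) {j m : ℕ}
    (hm : j + m ≤ N) (hs : Sl B N Nn v Ξ j) : v * m * log B - 4 * E ≤
      P.Hc (fun ω => tub B j m ((a ω, b ω), cell B j (X ω))) (fun ω => cell B j (X ω)) -
        P.Hc (fun ω => tub B j m ((a ω, b ω), cell B j (X ω))) fun ω => cell B (j + m) (X ω) := by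
  have := kaufman h n.hB n.hN n.hK n.hv n.hNn hm le_rfl zero_le_one n.hΞ
    fun t ht => by simpa using hs t (by omega)
  linarith [n.eK, n.eΞ, n.eB]

theorem tube_le (P : FP Ω) (hB : 0 < B) (j m : ℕ) :
    P.Hc (fun ω => tub B j m ((a ω, b ω), cell B j (X ω))) (fun ω => cell B j (X ω)) -
        P.Hc (fun ω => tub B j m ((a ω, b ω), cell B j (X ω))) (fun ω => cell B (j + m) (X ω)) ≤
      P.Hc (fun ω => (a ω, b ω)) (fun ω => cell B j (X ω)) -
        P.Hc (fun ω => (a ω, b ω)) fun ω => cell B (j + m) (X ω) :=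
  P.info_mono (det_cell P X hB (Nat.le_add_right j m)) fun _ _ _ _ e => congrArg (tub B j m) e

theorem info_total (h : Good P X a b q B N Nn v K) (n : Num q B N Nn v K Ξ E) :
    P.Hc (fun ω => (a ω, b ω)) (fun ω => cell B 0 (X ω)) -
      P.Hc (fun ω => (a ω, b ω)) (fun ω => cell B N (X ω)) ≤ v * N * log B + E := by
  classical
  have hB := n.one_le
  have hK := n.hK
  have hl : ∀ ω, P.cl (fun x => ((a x, b x), X x)) ω ≤
      K * ((B : ℝ) ^ N) ^ v * q (a ω, b ω) * P.cl X ω := fun ω =>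
    (P.pr_congr fun x _ => by rw [Prod.mk.injEq, and_comm]).trans_le (h.line (X ω) (a ω, b ω))
  have hq : ∀ ω, 0 < P.p ω → 0 < q (a ω, b ω) := fun ω hω => (n.q0 _).lt_of_ne fun h0 => by
    have := (P.cl_pos _ hω).trans_le (hl ω)
    rw [← h0] at this; simp at this
  have h1 := P.gibbs (fun ω => (a ω, b ω)) (S := 1) hq
    ((P.E_div_cl_le _ (univ.image fun ω => (a ω, b ω)) (fun l _ => n.q0 l)
      fun ω _ => Or.inr ⟨mem_image_of_mem _ (mem_univ ω), le_rfl⟩).trans (n.q1 _))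
  have h2 : - (log K + v * N * log B) - (P.E fun ω => log (q (a ω, b ω))) ≤
      P.Hc (fun ω => (a ω, b ω)) X := by
    rw [Hc_eq, ← P.E_const (- (log K + v * N * log B)), ← E_sub]
    refine P.E_mono fun ω hω => ?_
    have := log_le_log (div_pos (P.cl_pos _ hω) (P.cl_pos X hω))
      ((div_le_iff₀ (P.cl_pos X hω)).2 (hl ω))
    rw [log_mul (by positivity) (hq ω hω).ne', log_mul (by positivity) (by positivity),
      log_rpow (by positivity), log_pow] at this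
    linarith
  have h3 := P.Hc_le_H (fun ω => (a ω, b ω)) fun ω => cell B 0 (X ω)
  have h4 : P.Hc (fun ω => (a ω, b ω)) X ≤ _ :=
    P.Hc_mono_right _ (C := fun ω => cell B N (X ω)) fun _ _ _ _ e => congrArg (cell B N) e
  rw [log_one] at h1
  linarith [n.eK]

theorem info_upper (h : Good P X a b q B N Nn v K) (n : Num q B N Nn v K Ξ E) {j m : ℕ}
    (hm : j + m ≤ N) (h0 : Sl B N Nn v Ξ 0) (hs : Sl B N Nn v Ξ (j + m)) :
    P.Hc (fun ω => (a ω, b ω)) (fun ω => cell B j (X ω)) -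
      P.Hc (fun ω => (a ω, b ω)) (fun ω => cell B (j + m) (X ω)) ≤ v * m * log B + 9 * E := by
  obtain ⟨t, rfl⟩ := Nat.exists_eq_add_of_le hm
  have h1 := (tube_lower h n (j := 0) (m := j) (by omega) h0).trans (tube_le P n.pos 0 j)
  have h2 := (tube_lower h n (m := t) le_rfl hs).trans (tube_le P n.pos _ t)
  have h3 := info_total h n
  rw [zero_add] at h1
  push_cast at h3
  linarith

theorem pos_close (h : Good P X a b q B N Nn v K) {x y : Ω} (hx : 0 < P.p x) (hy : 0 < P.p y)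
    {t r : ℝ} (h1 : ‖X y - X x‖ ≤ r) (h2 : |(X x).2 - t| * ‖a y - a x‖ ≤ r)
    (h3 : ((B : ℝ) ^ N)⁻¹ ≤ r) : ‖b y + t • a y - (b x + t • a x)‖ ≤ 5 * r := by
  obtain ⟨-, -, x3⟩ := h.geo x hx
  obtain ⟨-, y2, y3⟩ := h.geo y hy
  have e1 := (norm_fst_le (X y - X x)).trans h1
  have e2 : ‖((X y).2 - (X x).2) • a y‖ ≤ r := by
    rw [norm_smul]
    exact (mul_le_of_le_one_right (norm_nonneg _) y2).trans ((norm_snd_le (X y - X x)).trans h1)
  have e3 : ‖((X x).2 - t) • (a y - a x)‖ ≤ r := by rwa [norm_smul]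
  refine le_trans (le_of_eq (congrArg _ ?_)) ((norm_sub_le_of_le (norm_sub_le_of_le
    (norm_add_le_of_le (norm_sub_le_of_le (x3.trans h3) (y3.trans h3)) e1) e2) e3).trans
    (by linarith))
  simp only [Prod.fst_sub, sub_smul, smul_sub]; abel

theorem norm_fl_smul {x y : Fin d → ℝ} {c M : ℝ} (hc : 0 < c) (h : ‖x - y‖ ≤ M * c⁻¹) :
    ‖cz (fl (c • x)) - cz (fl (c • y))‖ ≤ M + 1 := by
  refine norm_fl_sub ?_
  rwa [← smul_sub, norm_smul, norm_of_nonneg hc.le, ← le_div_iff₀' hc]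
theorem norm_le_of_fl_smul {x y : Fin d → ℝ} {c : ℝ} (hc : 0 < c)
    (h : fl (c • x) = fl (c • y)) : ‖x - y‖ ≤ c⁻¹ := by
  have := norm_sub_of_fl h
  rwa [← smul_sub, norm_smul, norm_of_nonneg hc.le, ← le_div_iff₀' hc, one_div] at this
theorem abs_sub_corner (hB : 0 < B) (j : ℕ) (x : (Fin d → ℝ) × ℝ) :
    |x.2 - ((cell B j x).2 : ℝ) / (B : ℝ) ^ j| ≤ ((B : ℝ) ^ j)⁻¹ := by
  have h0 : 0 < (B : ℝ) ^ j := by positivity
  rw [show x.2 - ((cell B j x).2 : ℝ) / (B : ℝ) ^ j =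
    ((B : ℝ) ^ j * x.2 - (cell B j x).2) / (B : ℝ) ^ j by field_simp, abs_div, abs_of_pos h0,
    inv_eq_one_div]
  refine div_le_div_of_nonneg_right (abs_le.2 ?_) h0.le
  simp only [cell]
  constructor <;> linarith [Int.floor_le ((B : ℝ) ^ j * x.2), Int.lt_floor_add_one ((B : ℝ) ^ j * x.2)]
theorem inv_pow_le (hB : 0 < B) {j l : ℕ} (h : j ≤ l) : ((B : ℝ) ^ l)⁻¹ ≤ ((B : ℝ) ^ j)⁻¹ :=
  inv_anti₀ (by positivity) (pow_le_pow_right₀ (by exact_mod_cast hB) h)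

theorem slope_ent (h : Good P X a b q B N Nn v K) (n : Num q B N Nn v K Ξ E) {m : ℕ}
    (hm : m ≤ N) : v * m * log B - E ≤ P.Hc (fun ω => fl (((B : ℝ) ^ m) • a ω)) X := by
  have hB := n.one_le
  have hK := n.hK
  have := P.le_Hc (Z := fun ω => fl (((B : ℝ) ^ m) • a ω)) (V := X)
    (c := K * (((B : ℝ) ^ m)⁻¹) ^ v) fun ω _ => (P.pr_mono fun x _ hx =>
      ⟨hx.2, norm_le_of_fl_smul (by positivity) hx.1⟩).trans
      (h.slope (X ω) (a ω) _ (inv_pow_le n.pos hm))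
  rw [log_mul (by positivity) (by positivity), log_rpow (by positivity), log_inv, log_pow] at this
  linarith [n.eK]

theorem spread_ent (h : Good P X a b q B N Nn v K) (n : Num q B N Nn v K Ξ E) {j J : ℕ} {κ : ℝ}
    (hm : j + J ≤ N) (h0 : Sl B N Nn v Ξ 0) (hs : Sl B N Nn v Ξ (j + J))
    (hκ : Nn j * ((B : ℝ) ^ J) ^ (v + κ) ≤ Ξ * Nn (j + J)) :
    κ * J * log B - 12 * E ≤ P.Hc (fun ω => (cell B (j + J) (X ω)).2)
      fun ω => ((a ω, b ω), cell B j (X ω)) := by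
  have hB := n.one_le
  have hK := n.hK
  have hΞ := n.hΞ
  have hN1 := n.hNn j
  have hN2 := n.hNn (j + J)
  have h1 := info_upper h n hm h0 hs
  have h2 := P.info_eq (fun ω => (a ω, b ω)) (det_cell P X n.pos (Nat.le_add_right j J))
  have h3 := P.le_H (Z := fun ω => cell B (j + J) (X ω)) fun ω _ => h.sup _ hm _
  obtain ⟨F, hF, hF'⟩ := h.cnt j (by omega)
  have h4 := P.H_le_log F hF' hF
  have h5 : (P.H fun ω => cell B (j + J) (X ω)) ≤
      P.H fun ω => (cell B (j + J) (X ω), cell B j (X ω)) :=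
    P.H_mono fun _ _ _ _ e => congrArg Prod.fst e
  have h6 := log_le_log (by positivity) hκ
  rw [log_mul (by positivity) (by positivity), log_mul (by positivity) (by positivity),
    log_rpow (by positivity), log_pow] at h6
  rw [log_div (by positivity) (by positivity)] at h3
  have h7 := P.Hc_le_add (fun ω => cell B (j + J) (X ω)) (fun ω => (cell B (j + J) (X ω)).2)
    fun ω => ((a ω, b ω), cell B j (X ω))
  have h8 : P.Hc (fun ω => cell B (j + J) (X ω))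
      (fun ω => ((cell B (j + J) (X ω)).2, (a ω, b ω), cell B j (X ω))) ≤
      P.Hc (fun ω => (cell B (j + J) (X ω)).1)
      (fun ω => ((cell B (j + J) (X ω)).2, (a ω, b ω), cell B j (X ω))) :=
    P.Hc_mono_left fun _ _ _ _ e => by
      simp only [Prod.mk.injEq] at e
      exact Prod.ext e.1 e.2.1
  have h8' : P.Hc (fun ω => (cell B (j + J) (X ω)).1)
      (fun ω => ((cell B (j + J) (X ω)).2, (a ω, b ω), cell B j (X ω))) ≤
      d * log (2 * (3 + 1) + 1) := by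
    refine P.Hc_le_close' fun x y hx hy e => ?_
    simp only [Prod.mk.injEq] at e
    obtain ⟨e1, ⟨e2, e3⟩, -⟩ := e
    obtain ⟨-, x2, x3⟩ := h.geo x hx
    obtain ⟨-, -, y3⟩ := h.geo y hy
    have t1 := inv_pow_le n.pos hm
    have t2 : ‖((X y).2 - (X x).2) • a x‖ ≤ ((B : ℝ) ^ (j + J))⁻¹ := by
      have := cell_near n.pos (x := ((X x).1, (X y).2)) (y := X x) (j := j + J)
        (Prod.ext rfl e1)
      rw [norm_smul]
      exact (mul_le_of_le_one_right (norm_nonneg _) x2).trans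
        ((norm_snd_le (((X x).1, (X y).2) - X x)).trans this)
    rw [e2, e3] at y3
    simp only [cell]
    refine norm_fl_smul (by positivity) ?_
    refine le_trans (le_of_eq (congrArg _ ?_)) ((norm_add_le_of_le (norm_sub_le_of_le
      (y3.trans t1) (x3.trans t1)) t2).trans (by linarith))
    rw [sub_smul]; abel
  have h9 := n.log_le (x := 2 * (3 + 1) + 1) (by norm_num) (by norm_num)
  have h10 : P.Hc (fun ω => cell B (j + J) (X ω)) (fun ω => cell B j (X ω)) =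
      (P.H fun ω => (cell B (j + J) (X ω), cell B j (X ω))) - P.H fun ω => cell B j (X ω) := rfl
  linarith only [n.eK, n.eΞ, h1, h2, h3, h4, h5, h6, h7, h8, h8', h9, h10]

theorem exists_spread (h : Good P X a b q B N Nn v K) (n : Num q B N Nn v (36 * K) Ξ E)
    {j J : ℕ} {κ : ℝ}
    (hm : j + J ≤ N) (h0 : Sl B N Nn v Ξ 0) (hs : Sl B N Nn v Ξ (j + J))
    (hκ : Nn j * ((B : ℝ) ^ J) ^ (v + κ) ≤ Ξ * Nn (j + J)) (hE : 24 * E < κ * J * log B) :
    ∃ P' : FP Ω, Good P' X a b q B N Nn v (36 * K) ∧ ∀ ω, 0 < P'.p ω → ∀ y : ℤ,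
      (P'.pr fun x => (cell B (j + J) (X x)).2 = y ∧
        ((a x, b x), cell B j (X x)) = ((a ω, b ω), cell B j (X ω))) ≤
      36 * ((B : ℝ) ^ J) ^ (-(κ / 2)) * P'.cl (fun x => ((a x, b x), cell B j (X x))) ω := by
  classical
  have hB := n.one_le
  have hK : 0 ≤ K := by linarith [n.hK]
  have hNn : ∀ j, 0 ≤ Nn j := fun j => zero_le_one.trans (n.hNn j)
  set Y := fun x => (cell B (j + J) (X x)).2 with hY
  set L := fun x => ((a x, b x), cell B j (X x)) with hL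
  set p := ((B : ℝ) ^ J) ^ (-(κ / 2)) with hp
  have hp0 : 0 < p := by positivity
  let s : Ω → Prop := fun ω => (P.pr fun x => Y x = Y ω ∧ L x = L ω) ≤ p * P.cl L ω
  have e36 : 9 / (1 / 2 : ℝ) ^ 2 * K = 36 * K := by norm_num
  have hs' : 1 / 2 ≤ P.pr s := by
    by_contra hc
    obtain ⟨P', hP', h1, -⟩ := h.restrict n.pos hK hNn n.q0 (fun ω => ¬ s ω) (ε := 1 / 2)
      (by norm_num) (by rw [pr_not]; linarith) L
    rw [e36] at hP'
    have h2 := spread_ent hP' n hm h0 hs hκ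
    have h4 : ∀ ω, 0 < P'.p ω → 0 < P.p ω ∧ ¬ s ω := fun ω hω => by
      have := hω.trans_le (h1 ω)
      refine ⟨(P.nn ω).lt_of_ne fun h => ?_, fun h => ?_⟩
      · rw [← h] at this; simp at this
      · rw [ind_neg (not_not.2 h)] at this; simp at this
    have h3 := P'.Hc_le_E (Z := Y) (V := L) (N := fun _ => p⁻¹) fun ω hω => by
      refine ⟨(univ.filter fun x => 0 < P'.p x ∧ L x = L ω).image Y, ?_,
        fun x hx e => mem_image_of_mem _ (by simp [hx, e])⟩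
      have t1 := (P.cv L (L ω)).sum_pr_le Y ((univ.filter fun x => 0 < P'.p x ∧ L x = L ω).image Y)
      rw [inv_eq_one_div, le_div_iff₀ hp0, ← nsmul_eq_mul, ← sum_const]
      refine le_trans (sum_le_sum fun y hy => ?_) t1
      obtain ⟨x, hx, rfl⟩ := mem_image.1 hy
      obtain ⟨x1, x2⟩ := (mem_filter.1 hx).2
      have := (not_le.1 (h4 x x1).2).le
      rw [P.pr_cv (h4 ω hω).1, le_div_iff₀ (P.cl_pos L (h4 ω hω).1)]
      unfold cl at this ⊢
      rwa [x2] at this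
    rw [E_const, log_inv, hp, log_rpow (by positivity), log_pow] at h3
    linarith
  obtain ⟨P', hP', h1, h2⟩ := h.restrict n.pos hK hNn n.q0 s (ε := 1 / 2) (by norm_num) hs' L
  rw [e36] at hP'
  refine ⟨P', hP', fun ω hω y => ?_⟩
  have h3 : (P'.pr fun x => Y x = y ∧ L x = L ω) ≤
      6 * P.pr fun x => s x ∧ Y x = y ∧ L x = L ω := by
    simp only [pr, FP.E, mul_sum]
    refine sum_le_sum fun x _ => ?_
    rw [ind_and (s x)]
    have := mul_le_mul_of_nonneg_right (h1 x) (ind_nonneg (Y x = y ∧ L x = L ω))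
    linarith
  have h4 : (P.pr fun x => s x ∧ Y x = y ∧ L x = L ω) ≤ p * P.cl L ω := by
    rcases (P.pr_nonneg fun x => s x ∧ Y x = y ∧ L x = L ω).eq_or_lt with h0 | h0
    · rw [← h0]; exact mul_nonneg hp0.le (P.cl_nonneg _ _)
    · obtain ⟨x, -, x1, x2, x3⟩ := P.exists_of_pr_pos h0
      simp only [s, cl, x2, x3] at x1
      exact (P.pr_mono fun _ _ h => h.2).trans x1
  have h5 := mul_le_mul_of_nonneg_left (h2 ω hω) hp0.le
  change (P'.pr fun x => Y x = y ∧ L x = L ω) ≤ _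
  linarith

end Pool.Agent.P.MP_bf60a1_an.RA
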