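import Pool.Agent.P.MP_bf60a1_an.RA.Tube

/-! A weighted entropy form of the Kaufman incidence estimate. -/

namespace Pool.Agent.P.MP_bf60a1_an.RA

open Finset Real RA.FP

theorem Kf.cl_eq {Ω α : Type*} [Fintype Ω] (P : FP Ω) (Z : Ω → α) {ω ω' : Ω} (h : Z ω = Z ω') :
    P.cl Z ω = P.cl Z ω' := by
  unfold FP.cl; rw [h]

theorem Kf.weighted {Ω α β γ : Type*} [Fintype Ω] (P : FP Ω) {T : Ω → α} {Q : Ω → β}
    {Q0 : Ω → γ} (hT : P.Det T Q0) (hQ : P.Det Q Q0) {f : Ω → ℝ}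
    (hf : ∀ ω, 0 < P.p ω → 0 < f ω) {S : ℝ}
    (hS : (P.E fun y => (P.E fun x => f x * ind (∃ w, 0 < P.p w ∧ T w = T x ∧ Q w = Q y)) /
      P.cl Q0 y) ≤ S) :
    (P.E fun ω => log (f ω)) - (P.Hc T Q0 - P.Hc T Q) ≤ log S := by
  set W : Ω → ℝ := fun ω => P.E fun x => ind (T x = T ω) * f x with hW
  have hWp : ∀ ω, 0 < P.p ω → 0 < W ω := fun ω hω => by
    refine lt_of_lt_of_le ?_ (P.single_le_E
      (fun x hx => mul_nonneg (ind_nonneg _) (hf x hx).le) ω)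
    rw [ind_pos rfl, one_mul]
    exact mul_pos hω (hf ω hω)
  have hA : (P.E fun ω => log (f ω * (P.cl T ω / W ω))) ≤ log 1 := by
    refine P.E_log_le (fun ω hω => mul_pos (hf ω hω) (div_pos (P.cl_pos T hω) (hWp ω hω))) ?_
    have := P.tower T fun t ω => f ω *
      ((P.pr fun x => T x = t) / P.E fun x => ind (T x = t) * f x)
    refine le_trans (le_of_eq this.symm) (P.E_le fun ω hω => ?_)
    rw [E_mul_right, P.E_cv hω]
    change W ω / P.cl T ω * (P.cl T ω / W ω) ≤ 1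
    have h1 := hWp ω hω
    have h2 := P.cl_pos T hω
    field_simp
    exact le_rfl
  have hB : (P.E fun ω => log (W ω * (P.cl Q ω /
      (P.cl Q0 ω * P.cl (fun x => (T x, Q x)) ω)))) ≤ log S := by
    refine P.E_log_le (fun ω hω => mul_pos (hWp ω hω) (div_pos (P.cl_pos Q hω)
      (mul_pos (P.cl_pos _ hω) (P.cl_pos _ hω)))) (le_trans ?_ hS)
    simp only [hW, ← E_mul_right, ← E_div]
    rw [P.E_comm P, P.E_comm P fun y x =>
      f x * ind (∃ w, 0 < P.p w ∧ T w = T x ∧ Q w = Q y) / P.cl Q0 y]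
    refine P.E_mono fun x hx => ?_
    have h1 := P.E_cross P (fun ω => (T ω, Q ω)) (fun y => (T x, Q y))
      (f := fun y => f x * ind (∃ w, 0 < P.p w ∧ T w = T x ∧ Q w = Q y) / P.cl Q0 y)
      fun y _ => div_nonneg (mul_nonneg (hf x hx).le (ind_nonneg _)) (P.cl_nonneg _ _)
    refine le_trans (P.E_mono fun ω hω => ?_) h1
    by_cases h : T x = T ω
    · have e : (P.E fun y => ind ((T x, Q y) = (T ω, Q ω)) *
          (f x * ind (∃ w, 0 < P.p w ∧ T w = T x ∧ Q w = Q y) / P.cl Q0 y)) =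
          P.cl Q ω * (f x / P.cl Q0 ω) := by
        rw [FP.cl, pr, ← E_mul_right]
        refine P.E_congr fun y hy => ?_
        by_cases h' : Q y = Q ω
        · rw [ind_pos (Prod.ext h h'), ind_pos h', ind_pos ⟨ω, hω, h.symm, h'.symm⟩,
            Kf.cl_eq P Q0 (hQ y ω hy hω h'), mul_one]
        · rw [ind_neg h', ind_neg (fun hh => h' (congrArg Prod.snd hh)), zero_mul, zero_mul]
      rw [e, ind_pos h]
      apply le_of_eq
      ring
    · rw [ind_neg h, zero_mul, zero_mul]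
      exact div_nonneg (P.E_nonneg fun y _ => mul_nonneg (ind_nonneg _)
        (div_nonneg (mul_nonneg (hf x hx).le (ind_nonneg _)) (P.cl_nonneg _ _))) (P.cl_nonneg _ _)
  have e1 : (P.H fun ω => (T ω, Q0 ω)) = P.H T :=
    P.H_congr (fun ω ω' h h' e => Prod.ext e (hT ω ω' h h' e))
      fun _ _ _ _ e => congrArg Prod.fst e
  have e2 : (P.E fun ω => log (f ω * (P.cl T ω / W ω))) + (P.E fun ω => log (W ω * (P.cl Q ω /
      (P.cl Q0 ω * P.cl (fun x => (T x, Q x)) ω)))) =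
      (P.E fun ω => log (f ω)) - P.H T - P.H Q + P.H Q0 + P.H fun x => (T x, Q x) := by
    simp only [FP.H, ← E_add, ← E_sub]
    refine P.E_congr fun ω hω => ?_
    have h1 := (hWp ω hω).ne'
    have h2 := (P.cl_pos T hω).ne'
    have h3 := (P.cl_pos Q hω).ne'
    have h4 := (P.cl_pos Q0 hω).ne'
    have h5 := (P.cl_pos (fun x => (T x, Q x)) hω).ne'
    rw [log_mul (hf ω hω).ne' (div_ne_zero h2 h1), log_div h2 h1,
      log_mul h1 (div_ne_zero h3 (mul_ne_zero h4 h5)), log_div h3 (mul_ne_zero h4 h5),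
      log_mul h4 h5]
    ring
  rw [log_one] at hA
  simp only [FP.Hc]
  rw [e1]
  linarith

theorem Kf.pow_le {φ c θ : ℝ} (hφ : 0 < φ) (hc : 0 < c) (hθ0 : 0 ≤ θ) (hθ1 : θ ≤ 1) :
    φ ^ (-θ) ≤ c ^ (-θ) * (1 + c / φ) := by
  have h1 : (c / φ) ^ θ ≤ 1 + c / φ := by
    have h0 : 0 < c / φ := div_pos hc hφ
    rcases le_total (c / φ) 1 with h | h
    · linarith [rpow_le_one h0.le h hθ0]
    · have := rpow_le_rpow_of_exponent_le h hθ1
      rw [rpow_one] at this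
      linarith
  have h2 : φ ^ (-θ) = c ^ (-θ) * (c / φ) ^ θ := by
    rw [div_rpow hc.le hφ.le, rpow_neg hc.le, rpow_neg hφ.le]
    have := rpow_pos_of_pos hc θ
    field_simp
  rw [h2]
  exact mul_le_mul_of_nonneg_left h1 (rpow_nonneg hc.le _)

variable {Ω : Type*} [Fintype Ω] {d : ℕ} {P : FP Ω} {X : Ω → (Fin d → ℝ) × ℝ}
  {a b : Ω → Fin d → ℝ} {q : (Fin d → ℝ) × (Fin d → ℝ) → ℝ} {B N : ℕ} {Nn : ℕ → ℝ} {v K : ℝ}

theorem Kf.move {x y : (Fin d → ℝ) × ℝ} {a b : Fin d → ℝ} {r s : ℝ} (ha : ‖a‖ ≤ 1)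
    (hx : ‖x.1 - b - x.2 • a‖ ≤ s) (hxy : ‖y - x‖ ≤ r) : ‖y.1 - b - y.2 • a‖ ≤ s + 2 * r := by
  have e : y.1 - b - y.2 • a = (x.1 - b - x.2 • a) + ((y - x).1 - (y - x).2 • a) := by
    simp only [Prod.fst_sub, Prod.snd_sub, sub_smul]; abel
  have h1 := (norm_fst_le (y - x)).trans hxy
  have h2 := (norm_snd_le (y - x)).trans hxy
  have h3 : ‖(y - x).2 • a‖ ≤ r := by
    rw [norm_smul]
    exact (mul_le_of_le_one_right (norm_nonneg _) ha).trans h2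
  rw [e]
  linarith [norm_add_le (x.1 - b - x.2 • a) ((y - x).1 - (y - x).2 • a),
    norm_sub_le (y - x).1 ((y - x).2 • a)]

theorem Kf.geo (h : Good P X a b q B N Nn v K) (hB : 0 < B) {k m : ℕ} (hm : k + m ≤ N)
    {w x y z : Ω} (hx : 0 < P.p x) (hz : 0 < P.p z)
    (h1 : cell B (k + m) (X x) = cell B (k + m) (X w))
    (h2 : tub B k m ((a z, b z), cell B k (X z)) = tub B k m ((a x, b x), cell B k (X x)))
    (h3 : cell B (k + m) (X z) = cell B (k + m) (X y)) :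
    ‖(X y - X w).1 - (X y - X w).2 • a x‖ ≤ 8 * ((B : ℝ) ^ (k + m))⁻¹ := by
  have hB1 : (1 : ℝ) ≤ B := by exact_mod_cast hB
  set r := ((B : ℝ) ^ (k + m))⁻¹ with hr
  have hN : ((B : ℝ) ^ N)⁻¹ ≤ r := inv_anti₀ (by positivity) (pow_le_pow_right₀ hB1 hm)
  obtain ⟨-, ax, gx⟩ := h.geo x hx
  obtain ⟨-, -, gz⟩ := h.geo z hz
  have g1 := Kf.move ax (gx.trans hN) (norm_le_of_cell hB h1.symm)
  simp only [tub, Prod.mk.injEq] at h2
  obtain ⟨e0, e1, e2⟩ := h2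
  rw [← e0] at e2
  set t : ℝ := ((cell B k (X z)).2 : ℝ) / (B : ℝ) ^ k with ht
  have n1 := norm_sub_of_fl e1
  have n2 := norm_sub_of_fl e2
  rw [← smul_sub, norm_smul, norm_of_nonneg (by positivity), ← le_div_iff₀' (by positivity),
    one_div] at n1 n2
  have n3 : |(X z).2 - t| ≤ ((B : ℝ) ^ k)⁻¹ := by
    have hk : (0 : ℝ) < (B : ℝ) ^ k := by positivity
    have e : (X z).2 - t = ((B : ℝ) ^ k * (X z).2 - ⌊(B : ℝ) ^ k * (X z).2⌋) * ((B : ℝ) ^ k)⁻¹ := by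
      simp only [ht, cell]; field_simp
    rw [e, abs_mul, abs_of_pos (inv_pos.2 hk)]
    refine mul_le_of_le_one_left (by positivity) (abs_le.2 ⟨?_, ?_⟩) <;>
      linarith [Int.floor_le ((B : ℝ) ^ k * (X z).2), Int.lt_floor_add_one ((B : ℝ) ^ k * (X z).2)]
  have n4 : ‖((X z).2 - t) • (a z - a x)‖ ≤ r := by
    rw [norm_smul, norm_eq_abs, hr, pow_add, mul_inv]
    exact mul_le_mul n3 n1 (norm_nonneg _) (by positivity)
  have g2 : ‖(X z).1 - b x - (X z).2 • a x‖ ≤ 3 * r := by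
    have e : (X z).1 - b x - (X z).2 • a x = ((X z).1 - b z - (X z).2 • a z) +
        ((b z + t • a z - (b x + t • a x)) + ((X z).2 - t) • (a z - a x)) := by
      simp only [sub_smul, smul_sub]; abel
    rw [e]
    linarith [norm_add_le ((X z).1 - b z - (X z).2 • a z)
      ((b z + t • a z - (b x + t • a x)) + ((X z).2 - t) • (a z - a x)),
      norm_add_le (b z + t • a z - (b x + t • a x)) (((X z).2 - t) • (a z - a x))]
  have g3 := Kf.move ax g2 (norm_le_of_cell hB h3.symm)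
  have e : (X y - X w).1 - (X y - X w).2 • a x =
      ((X y).1 - b x - (X y).2 • a x) - ((X w).1 - b x - (X w).2 • a x) := by
    simp only [Prod.fst_sub, Prod.snd_sub, sub_smul]; abel
  rw [e]
  linarith [norm_sub_le ((X y).1 - b x - (X y).2 • a x) ((X w).1 - b x - (X w).2 • a x)]

theorem Kf.alg {Δ ρ v θ : ℝ} (d : ℕ) (hΔ : 0 < Δ) (hρ : 0 < ρ) (hρ1 : ρ ≤ 1) (hv : 0 ≤ v)
    (hθ0 : 0 ≤ θ) : ((Δ / ρ) ^ v * ρ ^ d) ^ (-θ) * (Δ / ρ) ^ v ≤
      Δ ^ (v * (1 - θ)) * ρ ^ (-(v + θ * d)) := by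
  have h0 := div_pos hΔ hρ
  rw [← log_le_log_iff (by positivity) (by positivity), log_mul (by positivity) (by positivity),
    log_mul (by positivity) (by positivity), log_rpow (by positivity), log_rpow hΔ, log_rpow hρ,
    log_mul (by positivity) (by positivity), log_rpow h0, log_pow, log_div hΔ.ne' hρ.ne']
  have h1 := log_nonpos hρ.le hρ1
  nlinarith [mul_nonneg (mul_nonneg hv hθ0) (neg_nonneg.2 h1)]

theorem Kf.cls (h : Good P X a b q B N Nn v K) (hB : 0 < B) (hK : 0 ≤ K) (hv : 0 ≤ v)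
    {k m : ℕ} (hm : k + m ≤ N) {θ : ℝ} (hθ0 : 0 ≤ θ) (hθ1 : θ ≤ 1) {w y : Ω} (hw : 0 < P.p w)
    (hwy : cell B k (X w) = cell B k (X y)) :
    ((P.cv (fun ω => cell B (k + m) (X ω)) (cell B (k + m) (X w))).E fun x =>
      (P.cl (fun ω => (fl (((B : ℝ) ^ m) • a ω), cell B (k + m) (X ω))) x /
        P.cl (fun ω => cell B (k + m) (X ω)) x) ^ (-θ) *
      ind (∃ z, 0 < P.p z ∧ tub B k m ((a z, b z), cell B k (X z)) =
        tub B k m ((a x, b x), cell B k (X x)) ∧ cell B (k + m) (X z) = cell B (k + m) (X y))) ≤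
      (K * 16 ^ v + 35 ^ d) * (((B : ℝ) ^ m)⁻¹) ^ (v * (1 - θ)) *
        (max ((B : ℝ) ^ m)⁻¹ ((B : ℝ) ^ k * ‖X y - X w‖)) ^ (-(v + θ * d)) := by
  have hB1 : (1 : ℝ) ≤ B := by exact_mod_cast hB
  set Q := fun ω => cell B (k + m) (X ω) with hQ
  set ja := fun ω => fl (((B : ℝ) ^ m) • a ω) with hja
  set Δ := ((B : ℝ) ^ m)⁻¹ with hΔ
  set ρ := max Δ ((B : ℝ) ^ k * ‖X y - X w‖) with hρ
  have hk0 : (0 : ℝ) < (B : ℝ) ^ k := by positivity
  have hm0 : (0 : ℝ) < (B : ℝ) ^ m := by positivity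
  have hΔ0 : 0 < Δ := inv_pos.2 hm0
  have hρ0 : 0 < ρ := lt_max_of_lt_left hΔ0
  have hρ1 : ρ ≤ 1 := by
    refine max_le (inv_le_one_of_one_le₀ (one_le_pow₀ hB1)) ?_
    rw [← le_div_iff₀' hk0, one_div]
    exact norm_le_of_cell hB hwy.symm
  obtain ⟨a₀, ha₀⟩ := slope_ball (X y - X w) (ε := 8 * ((B : ℝ) ^ (k + m))⁻¹)
    (ε' := ((B : ℝ) ^ (k + m))⁻¹) (by positivity)
    (by linarith [(by positivity : (0 : ℝ) < ((B : ℝ) ^ (k + m))⁻¹)])
  have eR : 2 * (8 * ((B : ℝ) ^ (k + m))⁻¹) / max ((B : ℝ) ^ (k + m))⁻¹ ‖X y - X w‖ =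
      16 * (Δ / ρ) := by
    have : ρ = (B : ℝ) ^ k * max ((B : ℝ) ^ (k + m))⁻¹ ‖X y - X w‖ := by
      rw [mul_max_of_nonneg _ _ hk0.le, hρ, hΔ, pow_add]
      congr 1
      field_simp
    have h2 : 0 < max ((B : ℝ) ^ (k + m))⁻¹ ‖X y - X w‖ := lt_max_of_lt_left (by positivity)
    rw [this, hΔ, pow_add]
    field_simp
    norm_num
  rw [eR] at ha₀
  set c := (Δ / ρ) ^ v * ρ ^ d with hc
  have hc0 : 0 < c := by positivity
  set P' := P.cv Q (Q w) with hP'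
  have hR : ((B : ℝ) ^ N)⁻¹ ≤ 16 * (Δ / ρ) := by
    have h1 : ((B : ℝ) ^ N)⁻¹ ≤ Δ := inv_anti₀ hm0 (pow_le_pow_right₀ hB1 (by omega))
    have h2 : Δ ≤ Δ / ρ := le_div_self hΔ0.le hρ0 hρ1
    linarith
  have p1 : (P'.pr fun x => ‖a x - a₀‖ ≤ 16 * (Δ / ρ)) ≤ K * 16 ^ v * (Δ / ρ) ^ v := by
    rw [hP', P.pr_cv hw, div_le_iff₀ (P.cl_pos Q hw), mul_assoc K, ← mul_rpow (by norm_num)
      (by positivity)]
    exact h.slope' (fun x => cell B (k + m) x = Q w) a₀ hR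
  have p2 : (P'.E fun x => ind (‖a x - a₀‖ ≤ 16 * (Δ / ρ)) / P'.cl ja x) ≤ 35 ^ d / ρ ^ d := by
    obtain ⟨F, hF, hF'⟩ := exists_box (((B : ℝ) ^ m) • a₀) (M := 17 / ρ) (by positivity)
    have h1 : 1 ≤ 1 / ρ := (one_le_div hρ0).2 hρ1
    refine (P'.E_div_cl_le ja (g := fun _ => 1) F (fun _ _ => zero_le_one) fun x _ => ?_).trans ?_
    · by_cases hx : ‖a x - a₀‖ ≤ 16 * (Δ / ρ)
      · refine Or.inr ⟨hF' _ ?_, ind_le_one _⟩
        have h2 := norm_cz_fl (((B : ℝ) ^ m) • a x)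
        have h3 : ‖((B : ℝ) ^ m) • a x - ((B : ℝ) ^ m) • a₀‖ ≤ 16 / ρ := by
          rw [← smul_sub, norm_smul, norm_of_nonneg hm0.le]
          refine (mul_le_mul_of_nonneg_left hx hm0.le).trans (le_of_eq ?_)
          rw [hΔ]; field_simp
        have h4 := norm_sub_le_norm_sub_add_norm_sub (cz (ja x)) (((B : ℝ) ^ m) • a x)
          (((B : ℝ) ^ m) • a₀)
        have h5 : 17 / ρ = 16 / ρ + 1 / ρ := by ring
        linarith
      · exact Or.inl (ind_neg hx).le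
    · rw [sum_const, nsmul_eq_mul, mul_one, ← div_pow]
      refine hF.trans (pow_le_pow_left₀ (by positivity) ?_ d)
      have h5 : 35 / ρ = 2 * (17 / ρ) + 1 / ρ := by ring
      linarith
  calc _ ≤ P'.E fun x => c ^ (-θ) * (ind (‖a x - a₀‖ ≤ 16 * (Δ / ρ)) +
        c * (ind (‖a x - a₀‖ ≤ 16 * (Δ / ρ)) / P'.cl ja x)) := by
        refine P'.E_mono fun x hx => ?_
        have hx0 := P.cv_pos hx
        have hxw : Q x = Q w := P.cv_eq hw hx
        have hφ := P'.cl_pos ja hx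
        rw [← P.cl_cv ja hw hxw]
        refine le_trans (mul_le_mul (Kf.pow_le hφ hc0 hθ0 hθ1) (ind_mono
          (t := ‖a x - a₀‖ ≤ 16 * (Δ / ρ)) ?_) (ind_nonneg _) (by positivity)) (le_of_eq ?_)
        · rintro ⟨z, hz, z1, z2⟩
          exact ha₀ _ (h.geo x hx0).2.1 (Kf.geo h hB hm hx0 hz hxw z1 z2)
        · ring
    _ ≤ c ^ (-θ) * (K * 16 ^ v * (Δ / ρ) ^ v + c * (35 ^ d / ρ ^ d)) := by
        rw [E_mul_left, E_add, E_mul_left]
        exact mul_le_mul_of_nonneg_left (add_le_add p1 (mul_le_mul_of_nonneg_left p2 hc0.le))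
          (by positivity)
    _ = (K * 16 ^ v + 35 ^ d) * (c ^ (-θ) * (Δ / ρ) ^ v) := by
        have : c * (35 ^ d / ρ ^ d) = 35 ^ d * (Δ / ρ) ^ v := by rw [hc]; field_simp
        rw [this]; ring
    _ ≤ _ := by
        rw [mul_assoc]
        exact mul_le_mul_of_nonneg_left (Kf.alg d hΔ0 hρ0 hρ1 hv hθ0) (by positivity)

theorem kaufman {Ω : Type*} [Fintype Ω] {d : ℕ} {P : FP Ω} {X : Ω → (Fin d → ℝ) × ℝ}
    {a b : Ω → Fin d → ℝ} {q : (Fin d → ℝ) × (Fin d → ℝ) → ℝ} {B N : ℕ} {Nn : ℕ → ℝ} {v K : ℝ}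
    (h : Good P X a b q B N Nn v K) (hB : 100 ≤ B) (hN : N + 2 ≤ B) (hK : 1 ≤ K) (hv : 0 ≤ v)
    (hNn : ∀ j, 1 ≤ Nn j) {k m : ℕ} (hm : k + m ≤ N) {θ Ξ : ℝ} (hθ0 : 0 ≤ θ) (hθ1 : θ ≤ 1)
    (hΞ1 : 1 ≤ Ξ) (hΞ : ∀ j ≤ m, Nn k * ((B : ℝ) ^ j) ^ (v + θ * d) ≤ Ξ * Nn (k + j)) :
    θ * P.Hc (fun ω => fl (((B : ℝ) ^ m) • a ω)) (fun ω => cell B (k + m) (X ω)) +
        v * (1 - θ) * m * log B - (2 * log K + log Ξ + 4 * (d + v + 1) * log B) ≤
      P.Hc (fun ω => tub B k m ((a ω, b ω), cell B k (X ω))) (fun ω => cell B k (X ω)) -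
        P.Hc (fun ω => tub B k m ((a ω, b ω), cell B k (X ω))) fun ω => cell B (k + m) (X ω) := by
  have hB0 : 0 < B := by omega
  have hB1 : (100 : ℝ) ≤ B := by exact_mod_cast hB
  have hK0 : 0 ≤ K := by linarith
  set Q := fun ω => cell B (k + m) (X ω) with hQ
  set Q0 := fun ω => cell B k (X ω) with hQ0
  set T := fun ω => tub B k m ((a ω, b ω), cell B k (X ω)) with hT
  set ja := fun ω => fl (((B : ℝ) ^ m) • a ω) with hja
  set γ := v + θ * d with hγ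
  have hγ0 : 0 ≤ γ := by positivity
  set C := (K * 16 ^ v + 35 ^ d) * (((B : ℝ) ^ m)⁻¹) ^ (v * (1 - θ)) with hC
  have hC0 : 0 < C := by positivity
  have dT : P.Det T Q0 := fun _ _ _ _ e => congrArg Prod.fst e
  have dQ : P.Det Q Q0 := fun _ _ _ _ e => cell_eq_of_le hB0 (Nat.le_add_right k m) e
  have hφ : ∀ ω, 0 < P.p ω → 0 < P.cl (fun ω => (ja ω, Q ω)) ω / P.cl Q ω := fun ω hω =>
    div_pos (P.cl_pos _ hω) (P.cl_pos _ hω)
  have hL := (P.cpy Q0).E_layer (b := B) (by linarith) m hγ0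
    (fun y => (B : ℝ) ^ k * ‖X y.1 - X y.2‖) (A := 7 ^ (d + 1) * K * Ξ) fun j hj => by
      refine le_trans ((P.cpy Q0).pr_mono fun y _ hy => ?_) (h.pot hB0 hK0 hNn hm hΞ hj)
      rw [← le_div_iff₀' (by positivity)] at hy
      have e : ((B : ℝ) ^ j)⁻¹ / (B : ℝ) ^ k = ((B : ℝ) ^ (k + j))⁻¹ := by
        rw [pow_add]; field_simp
      rw [e] at hy
      linarith [(by positivity : (0 : ℝ) < ((B : ℝ) ^ (k + j))⁻¹)]
  have hW := Kf.weighted P dT dQ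
    (f := fun ω => (P.cl (fun ω => (ja ω, Q ω)) ω / P.cl Q ω) ^ (-θ))
    (fun ω hω => rpow_pos_of_pos (hφ ω hω) _)
    (S := C * (1 + (m + 1) * (7 ^ (d + 1) * K * Ξ) * (B : ℝ) ^ γ)) (by
      refine le_trans ?_ (mul_le_mul_of_nonneg_left hL hC0.le)
      rw [cpy, E_glue, ← E_mul_left]
      refine P.E_mono fun y hy => ?_
      rw [P.E_cv hy, ← mul_div_assoc, ← E_mul_left]
      refine div_le_div_of_nonneg_right ?_ (P.cl_nonneg _ _)
      rw [← P.tower Q fun _ x => (P.cl (fun ω => (ja ω, Q ω)) x / P.cl Q x) ^ (-θ) *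
        ind (∃ z, 0 < P.p z ∧ T z = T x ∧ Q z = Q y)]
      refine P.E_mono fun w hw => ?_
      by_cases hwy : Q0 w = Q0 y
      · rw [ind_pos hwy, one_mul]
        exact Kf.cls h hB0 hK0 hv hm hθ0 hθ1 hw hwy
      · rw [ind_neg hwy, zero_mul, mul_zero]
        refine FP.E_le _ fun x hx => le_of_eq ?_
        rw [ind_neg, mul_zero]
        rintro ⟨z, hz, z1, z2⟩
        have hx0 := P.cv_pos hx
        exact hwy ((dQ x w hx0 hw (P.cv_eq hw hx)).symm.trans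
          ((dT z x hz hx0 z1).symm.trans (dQ z y hz hy z2))))
  have e1 : (P.E fun ω => log ((P.cl (fun ω => (ja ω, Q ω)) ω / P.cl Q ω) ^ (-θ))) =
      θ * P.Hc ja Q := by
    rw [Hc_eq, ← E_mul_left]
    refine P.E_congr fun ω hω => ?_
    rw [log_rpow (hφ ω hω)]; ring
  have hBp : (0 : ℝ) < B := by linarith
  have hB1' : (1 : ℝ) ≤ B := by linarith
  have b1 : K * 16 ^ v + 35 ^ d ≤ K * (B : ℝ) ^ v * (B : ℝ) ^ (d + 1) := by
    have a1 : (16 : ℝ) ^ v ≤ (B : ℝ) ^ v := rpow_le_rpow (by norm_num) (by linarith) hv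
    have a2 : (35 : ℝ) ^ d ≤ (B : ℝ) ^ d := pow_le_pow_left₀ (by norm_num) (by linarith) d
    have a3 : 1 ≤ (B : ℝ) ^ v := one_le_rpow hB1' hv
    have a4 : 1 ≤ (B : ℝ) ^ d := one_le_pow₀ hB1'
    have a5 : 1 ≤ K * (B : ℝ) ^ v := one_le_mul_of_one_le_of_one_le hK a3
    have a6 : K * 16 ^ v ≤ K * (B : ℝ) ^ v * (B : ℝ) ^ d :=
      (mul_le_mul_of_nonneg_left a1 hK0).trans (le_mul_of_one_le_right (by linarith) a4)
    have a7 : (35 : ℝ) ^ d ≤ K * (B : ℝ) ^ v * (B : ℝ) ^ d :=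
      a2.trans (le_mul_of_one_le_left (by linarith) a5)
    have a8 : 0 ≤ K * (B : ℝ) ^ v * (B : ℝ) ^ d := by positivity
    rw [pow_succ, ← mul_assoc]
    nlinarith only [a6, a7, a8, hB1]
  have b2 : 1 + (m + 1) * (7 ^ (d + 1) * K * Ξ) * (B : ℝ) ^ γ ≤
      B * ((B : ℝ) ^ (d + 1) * K * Ξ * (B : ℝ) ^ γ) := by
    have a1 : (7 : ℝ) ^ (d + 1) ≤ (B : ℝ) ^ (d + 1) :=
      pow_le_pow_left₀ (by norm_num) (by linarith) _
    have a2 : (m : ℝ) + 2 ≤ B := by exact_mod_cast (by omega : m + 2 ≤ B)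
    have a3 : 1 ≤ (B : ℝ) ^ (d + 1) * K * Ξ * (B : ℝ) ^ γ :=
      one_le_mul_of_one_le_of_one_le (one_le_mul_of_one_le_of_one_le
        (one_le_mul_of_one_le_of_one_le (one_le_pow₀ hB1') hK) hΞ1) (one_le_rpow hB1' hγ0)
    have a4 : 7 ^ (d + 1) * K * Ξ * (B : ℝ) ^ γ ≤ (B : ℝ) ^ (d + 1) * K * Ξ * (B : ℝ) ^ γ := by
      gcongr
    have a5 : (0 : ℝ) ≤ m := by positivity
    rw [mul_assoc ((m : ℝ) + 1)]
    nlinarith only [a2, a3, a4, a5]
  have hΞ0 : 0 < Ξ := by linarith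
  have hK0' : 0 < K := by linarith
  have b3 : log (C * (1 + (m + 1) * (7 ^ (d + 1) * K * Ξ) * (B : ℝ) ^ γ)) ≤
      log (K * (B : ℝ) ^ v * (B : ℝ) ^ (d + 1) * (((B : ℝ) ^ m)⁻¹) ^ (v * (1 - θ)) *
        (B * ((B : ℝ) ^ (d + 1) * K * Ξ * (B : ℝ) ^ γ))) := by
    refine log_le_log (by positivity) (mul_le_mul ?_ b2 (by positivity) (by positivity))
    exact mul_le_mul_of_nonneg_right b1 (by positivity)
  have e2 : log (K * (B : ℝ) ^ v * (B : ℝ) ^ (d + 1) * (((B : ℝ) ^ m)⁻¹) ^ (v * (1 - θ)) *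
        (B * ((B : ℝ) ^ (d + 1) * K * Ξ * (B : ℝ) ^ γ))) = 2 * log K + log Ξ +
        (v + γ + 2 * d + 3) * log B - v * (1 - θ) * m * log B := by
    simp (disch := positivity) only [log_mul, log_rpow, log_pow, log_inv]
    push_cast
    ring
  have b4 : 0 ≤ log B := log_nonneg hB1'
  have b5 : v + γ + 2 * d + 3 ≤ 4 * (d + v + 1) := by
    have : θ * d ≤ d := mul_le_of_le_one_left (by positivity) hθ1
    have h0 : (0 : ℝ) ≤ d := by positivity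
    linarith only [this, hγ, hv, h0]
  have b6 := mul_le_mul_of_nonneg_right b5 b4
  linarith only [hW, e1, b3, e2, b6]

end Pool.Agent.P.MP_bf60a1_an.RA
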