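import Pool.Agent.P.MP_bf60a1_an.RA.Good

/-! Regularisation by finite pigeonholing. -/

namespace Pool.Agent.P.MP_bf60a1_an.RA

open Finset Real

open Classical in
theorem core_aux {Ω α β : Type*} (w : Ω → ℝ) {c : ℝ} (hc : 0 ≤ c) (X : Ω → α) (L : Ω → β)
    (m : α → ℝ) (n : β → ℝ) (hn0 : ∀ x, 0 ≤ n x) (S : Finset Ω)
    (hS : ∀ S' : Finset Ω, ∑ ω ∈ S', w ω - c * ∑ x ∈ S'.image X, m x - c * ∑ l ∈ S'.image L, n l ≤
      ∑ ω ∈ S, w ω - c * ∑ x ∈ S.image X, m x - c * ∑ l ∈ S.image L, n l) {ω : Ω} (hω : ω ∈ S) :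
    c * m (X ω) ≤ ∑ ω' ∈ S with X ω' = X ω, w ω' := by
  have h := hS (S.filter fun ω' => ¬ X ω' = X ω)
  have e1 := sum_filter_add_sum_filter_not S (fun ω' => X ω' = X ω) w
  have e2 : (S.filter fun ω' => ¬ X ω' = X ω).image X = (S.image X).erase (X ω) := by
    ext x
    simp only [mem_image, mem_filter, mem_erase]
    constructor
    · rintro ⟨y, ⟨h1, h2⟩, rfl⟩
      exact ⟨h2, y, h1, rfl⟩
    · rintro ⟨h2, y, h1, rfl⟩
      exact ⟨y, ⟨h1, h2⟩, rfl⟩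
  have e3 := add_sum_erase (S.image X) m (mem_image_of_mem X hω)
  have e4 := mul_le_mul_of_nonneg_left (sum_le_sum_of_subset_of_nonneg
    (image_subset_image (f := L) (filter_subset (fun ω' => ¬ X ω' = X ω) S))
      fun l _ _ => hn0 l) hc
  rw [e2, ← e3, mul_add] at h
  linarith

theorem core {Ω α β : Type*} [Fintype Ω] (w : Ω → ℝ) (hw : ∀ ω, 0 ≤ w ω) {ε : ℝ} (hε : 0 < ε)
    (h1 : ε ≤ ∑ ω, w ω) (h2 : ∑ ω, w ω ≤ 1) (X : Ω → α) (L : Ω → β) (m : α → ℝ) (n : β → ℝ)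
    (hm0 : ∀ x, 0 ≤ m x) (hm : ∀ T : Finset α, ∑ x ∈ T, m x ≤ 1)
    (hn0 : ∀ x, 0 ≤ n x) (hn : ∀ T : Finset β, ∑ x ∈ T, n x ≤ 1) :
    ∃ P : FP Ω, (∀ ω, P.p ω ≤ 3 / ε * w ω) ∧
      ∀ ω, 0 < P.p ω → m (X ω) ≤ 3 / ε * P.cl X ω ∧ n (L ω) ≤ 3 / ε * P.cl L ω := by
  classical
  have hc : 0 < ε / 3 := by positivity
  obtain ⟨S, -, hS⟩ := exists_max_image (univ : Finset (Finset Ω)) (fun S =>
    ∑ ω ∈ S, w ω - ε / 3 * ∑ x ∈ S.image X, m x - ε / 3 * ∑ l ∈ S.image L, n l) univ_nonempty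
  have hW : ε / 3 ≤ ∑ ω ∈ S, w ω := by
    have := hS univ (mem_univ _)
    have a1 := mul_le_mul_of_nonneg_left (hm (univ.image X)) hc.le
    have a2 := mul_le_mul_of_nonneg_left (hn (univ.image L)) hc.le
    have a3 := mul_nonneg hc.le (sum_nonneg fun x (_ : x ∈ S.image X) => hm0 x)
    have a4 := mul_nonneg hc.le (sum_nonneg fun x (_ : x ∈ S.image L) => hn0 x)
    linarith
  have hW0 := hc.trans_le hW
  have hW1 : ∑ ω ∈ S, w ω ≤ 1 :=
    (sum_le_sum_of_subset_of_nonneg (subset_univ S) fun ω _ _ => hw ω).trans h2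
  let P : FP Ω := ⟨fun ω => if ω ∈ S then w ω / ∑ ω ∈ S, w ω else 0, fun ω => by
    split_ifs
    · exact div_nonneg (hw ω) hW0.le
    · exact le_rfl, by rw [sum_ite_mem, univ_inter, ← sum_div, div_self hW0.ne']⟩
  have key : ∀ (t : Ω → Prop) (y : ℝ), ε / 3 * y ≤ ∑ ω ∈ S with t ω, w ω → y ≤ 3 / ε * P.pr t := by
    intro t y hy
    rw [← inv_div, le_inv_mul_iff₀ hc]
    refine hy.trans ?_
    rw [sum_filter, FP.pr, FP.E]
    refine le_trans (sum_le_sum fun ω hω => ?_) (sum_le_sum_of_subset_of_nonneg (subset_univ S)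
      fun ω _ _ => mul_nonneg (P.nn ω) (ind_nonneg _))
    split_ifs with ht
    · simp only [P, ind_pos ht, mul_one, if_pos hω]
      exact le_div_self (hw ω) hW0 hW1
    · rw [ind_neg ht, mul_zero]
  refine ⟨P, fun ω => ?_, fun ω hω => ?_⟩
  · simp only [P]
    split_ifs
    · rw [← inv_div ε, inv_mul_eq_div]
      exact div_le_div_of_nonneg_left (hw ω) hc hW
    · exact mul_nonneg (by positivity) (hw ω)
  · have hω' : ω ∈ S := by
      by_contra h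
      simp [P, h] at hω
    refine ⟨key _ _ ?_, key _ _ ?_⟩
    · convert core_aux w hc.le X L m n hn0 S (fun S' => by convert hS S' (mem_univ _)) hω'
    · convert core_aux w hc.le L X n m hm0 S (fun S' => by
        have := hS S' (mem_univ _)
        rw [sub_right_comm, sub_right_comm (∑ ω ∈ S, w ω)] at this
        convert this) hω'

theorem core' {Ω α β : Type*} [Fintype Ω] {w : Ω → ℝ} {ε : ℝ} (hε : 0 < ε) {X : Ω → α}
    {L : Ω → β} {m : α → ℝ} {n : β → ℝ} {P : FP Ω} (h1 : ∀ ω, P.p ω ≤ 3 / ε * w ω)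
    (h2 : ∀ ω, 0 < P.p ω → m (X ω) ≤ 3 / ε * P.cl X ω ∧ n (L ω) ≤ 3 / ε * P.cl L ω) :
    (∀ t : Ω → Prop, P.pr t ≤ 3 / ε * ∑ ω, w ω * ind (t ω)) ∧
    ∀ (t : Ω → Prop) x C, 0 ≤ C → ∑ ω, w ω * ind (X ω = x ∧ t ω) ≤ C * m x →
      (P.pr fun ω => X ω = x ∧ t ω) ≤ 9 / ε ^ 2 * C * P.pr fun ω => X ω = x := by
  have a : ∀ t : Ω → Prop, P.pr t ≤ 3 / ε * ∑ ω, w ω * ind (t ω) := fun t => by
    rw [mul_sum]
    exact sum_le_sum fun ω _ => by
      rw [← mul_assoc]; exact mul_le_mul_of_nonneg_right (h1 ω) (ind_nonneg _)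
  refine ⟨a, fun t x C hC h => ?_⟩
  rcases (P.pr_nonneg fun ω => X ω = x ∧ t ω).eq_or_lt with h0 | h0
  · rw [← h0]
    exact mul_nonneg (by positivity) (P.pr_nonneg _)
  obtain ⟨ω, hω, rfl, -⟩ := P.exists_of_pr_pos h0
  refine (a _).trans ((mul_le_mul_of_nonneg_left (h.trans (mul_le_mul_of_nonneg_left
    (h2 ω hω).1 hC)) (by positivity)).trans (le_of_eq ?_))
  unfold FP.cl
  ring

theorem FP.sum_pr_le {Ω α : Type*} [Fintype Ω] (P : FP Ω) (Z : Ω → α) (T : Finset α) :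
    ∑ x ∈ T, (P.pr fun ω => Z ω = x) ≤ 1 := by
  unfold FP.pr
  rw [← P.E_sum]
  refine P.E_le fun ω _ => ?_
  by_cases h : Z ω ∈ T
  · simpa using (sum_ind_eq T (fun _ => 1) h).le
  · rw [sum_eq_zero fun x hx => ind_neg fun e : Z ω = x => h (e ▸ hx)]
    exact zero_le_one

theorem FP.one_le_sum {Ω α : Type*} [Fintype Ω] (P : FP Ω) (Z : Ω → α) (T : Finset α)
    (h : ∀ ω, 0 < P.p ω → Z ω ∈ T) : 1 ≤ ∑ x ∈ T, P.pr fun ω => Z ω = x := by
  rw [← P.pr_eq_one (s := fun ω => ∃ x ∈ T, Z ω = x) fun ω hω => ⟨_, h ω hω, rfl⟩]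
  exact P.pr_exists_le T _

theorem core2 {Ω α β : Type*} [Fintype Ω] (P : FP Ω) (s : Ω → Prop) {ε : ℝ} (hε : 0 < ε)
    (hs : ε ≤ P.pr s) (X : Ω → α) (L : Ω → β) :
    ∃ P' : FP Ω, (∀ ω, P'.p ω ≤ 3 / ε * (P.p ω * ind (s ω))) ∧
      (∀ ω, 0 < P'.p ω → 0 < P.p ω ∧ s ω ∧ P.cl L ω ≤ 3 / ε * P'.cl L ω) ∧
      (∀ t, P'.pr t ≤ 3 / ε * P.pr t) ∧
      ∀ (t : Ω → Prop) x C, 0 ≤ C →
        (P.pr fun ω => X ω = x ∧ t ω) ≤ C * (P.pr fun ω => X ω = x) →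
        (P'.pr fun ω => X ω = x ∧ t ω) ≤ 9 / ε ^ 2 * C * P'.pr fun ω => X ω = x := by
  obtain ⟨P', h1, h2⟩ := core (fun ω => P.p ω * ind (s ω))
    (fun ω => mul_nonneg (P.nn ω) (ind_nonneg _)) hε hs (P.pr_le_one s) X L
    (fun x => P.pr fun ω => X ω = x) (fun x => P.pr fun ω => L ω = x) (fun _ => P.pr_nonneg _)
    (P.sum_pr_le X) (fun _ => P.pr_nonneg _) (P.sum_pr_le L)
  obtain ⟨h3, h4⟩ := core' (m := fun x => P.pr fun ω => X ω = x)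
    (n := fun x => P.pr fun ω => L ω = x) hε h1 h2
  have a : ∀ t : Ω → Prop, ∑ ω, P.p ω * ind (s ω) * ind (t ω) ≤ P.pr t := fun t =>
    sum_le_sum fun ω _ => mul_le_mul_of_nonneg_right
      (mul_le_of_le_one_right (P.nn ω) (ind_le_one _)) (ind_nonneg _)
  refine ⟨P', h1, fun ω hω => ?_, fun t => (h3 t).trans (mul_le_mul_of_nonneg_left (a t)
    (by positivity)), fun t x C hC h => h4 t x C hC ((a _).trans h)⟩
  have h5 := (pos_iff_pos_of_mul_pos (hω.trans_le (h1 ω))).1 (by positivity)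
  refine ⟨(P.nn ω).lt_of_ne fun e => ?_, by_contra fun e => ?_, (h2 ω hω).2⟩
  · simp [← e] at h5
  · simp [ind_neg e] at h5

theorem Good.restrict {Ω β : Type*} [Fintype Ω] {d : ℕ} {P : FP Ω}
    {X : Ω → (Fin d → ℝ) × ℝ} {a b : Ω → Fin d → ℝ} {q : (Fin d → ℝ) × (Fin d → ℝ) → ℝ}
    {B N : ℕ} {Nn : ℕ → ℝ} {v K : ℝ} (h : Good P X a b q B N Nn v K) (hB : 0 < B) (hK : 0 ≤ K)
    (hNn : ∀ j, 0 ≤ Nn j) (hq : ∀ l, 0 ≤ q l) (s : Ω → Prop) {ε : ℝ}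
    (hε : 0 < ε) (hs : ε ≤ P.pr s) (L : Ω → β) :
    ∃ P' : FP Ω, Good P' X a b q B N Nn v (9 / ε ^ 2 * K) ∧
      (∀ ω, P'.p ω ≤ 3 / ε * (P.p ω * ind (s ω))) ∧
      ∀ ω, 0 < P'.p ω → P.cl L ω ≤ 3 / ε * P'.cl L ω := by
  obtain ⟨P', h1, h2, h3, h4⟩ := core2 P s hε hs X L
  refine ⟨P', ⟨fun ω hω => h.geo ω (h2 ω hω).1, fun j hj => ?_, fun j hj c => ?_,
    fun x a₀ r hr => ?_, fun x l => ?_⟩, h1, fun ω hω => (h2 ω hω).2.2⟩
  · obtain ⟨F, hF, hF'⟩ := h.cnt j hj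
    exact ⟨F, hF, fun ω hω => hF' _ (h2 ω hω).1⟩
  · refine (h3 _).trans ((mul_le_mul_of_nonneg_left (h.sup j hj c) (by positivity)).trans ?_)
    rw [mul_div_assoc]
    refine mul_le_mul_of_nonneg_right ?_ (div_nonneg hK (hNn j))
    rw [div_le_div_iff₀ hε (by positivity)]
    nlinarith [hs.trans (P.pr_le_one s)]
  · have : 0 < r := lt_of_lt_of_le (by positivity) hr
    rw [mul_assoc _ K]
    exact h4 _ x _ (by positivity) (h.slope x a₀ r hr)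
  · have := hq l
    rw [mul_assoc _ K, mul_assoc _ (K * _)]
    exact h4 _ x _ (by positivity) (h.line x l)

theorem cell_near {d B j : ℕ} (hB : 0 < B) {x y : (Fin d → ℝ) × ℝ} (h : cell B j x = cell B j y) :
    ‖x - y‖ ≤ ((B : ℝ) ^ j)⁻¹ := by
  have h0 : 0 < (B : ℝ) ^ j := by positivity
  have h1 := norm_sub_of_fl (congrArg Prod.fst h)
  have h2 := norm_sub_of_fl (x := fun _ : Fin 1 => (B : ℝ) ^ j * x.2)
    (y := fun _ : Fin 1 => (B : ℝ) ^ j * y.2) (funext fun _ => congrArg Prod.snd h)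
  have h3 := (norm_le_pi_norm _ 0).trans h2
  rw [Pi.sub_apply, ← mul_sub, norm_mul, norm_of_nonneg h0.le] at h3
  rw [← smul_sub, norm_smul, norm_of_nonneg h0.le] at h1
  rw [Prod.norm_def, max_le_iff, inv_eq_one_div, le_div_iff₀' h0, le_div_iff₀' h0]
  exact ⟨h1, h3⟩

theorem cell_box (d B j : ℕ) : ∃ F : Finset ((Fin d → ℤ) × ℤ),
    F.card = (2 * B ^ j + 1) ^ (d + 1) ∧ ∀ x, ‖x‖ ≤ 1 → cell B j x ∈ F := by
  have k : ∀ t : ℝ, ‖t‖ ≤ 1 → ⌊(B : ℝ) ^ j * t⌋ ∈ Icc (-((B ^ j : ℕ) : ℤ)) (B ^ j : ℕ) := by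
    intro t ht
    have h0 : 0 ≤ (B : ℝ) ^ j := by positivity
    rw [norm_eq_abs, abs_le] at ht
    rw [mem_Icc, Int.le_floor, Int.floor_le_iff]
    push_cast
    constructor <;> nlinarith
  have c : (Icc (-((B ^ j : ℕ) : ℤ)) (B ^ j : ℕ)).card = 2 * B ^ j + 1 := by
    rw [Int.card_Icc]
    omega
  refine ⟨Fintype.piFinset (fun _ => Icc (-((B ^ j : ℕ) : ℤ)) (B ^ j : ℕ)) ×ˢ
    Icc (-((B ^ j : ℕ) : ℤ)) (B ^ j : ℕ), ?_, fun x hx => mem_product.2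
      ⟨Fintype.mem_piFinset.2 fun i => k _ ((norm_le_pi_norm _ i).trans ((norm_fst_le x).trans hx)),
        k _ ((norm_snd_le x).trans hx)⟩⟩
  rw [card_product, Fintype.card_piFinset, prod_const, c, card_univ, Fintype.card_fin, pow_succ]

/-- the parent of a cell -/
def par {d : ℕ} (B : ℕ) (c : (Fin d → ℤ) × ℤ) : (Fin d → ℤ) × ℤ := (fun i => c.1 i / B, c.2 / B)

theorem par_cell {d B : ℕ} (hB : 0 < B) (j : ℕ) (x : (Fin d → ℝ) × ℝ) :
    par B (cell B (j + 1) x) = cell B j x := by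
  have k : ∀ t : ℝ, ⌊(B : ℝ) ^ (j + 1) * t⌋ / B = ⌊(B : ℝ) ^ j * t⌋ := fun t => by
    rw [← Int.floor_div_natCast]
    congr 1
    field_simp
    ring
  exact Prod.ext (funext fun i => k _) (k _)

theorem card_le_par {d B : ℕ} (hB : 0 < B) (F : Finset ((Fin d → ℤ) × ℤ)) :
    F.card ≤ B ^ (d + 1) * (F.image (par B)).card := by
  refine card_le_mul_card_image F _ fun c _ => ?_
  have k : ∀ t u : ℤ, t / B = u → t ∈ Ico (u * B) (u * B + B) := by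
    rintro t _ rfl
    have h0 : (0 : ℤ) < B := by exact_mod_cast hB
    have := Int.lt_ediv_add_one_mul_self t h0
    exact mem_Ico.2 ⟨Int.ediv_mul_le t h0.ne', by linarith⟩
  refine (card_le_card (t := Fintype.piFinset (fun i => Ico (c.1 i * B) (c.1 i * B + B)) ×ˢ
    Ico (c.2 * B) (c.2 * B + B)) fun x hx => ?_).trans (le_of_eq ?_)
  · have := (mem_filter.1 hx).2
    exact mem_product.2 ⟨Fintype.mem_piFinset.2 fun i => k _ _ (congrFun (congrArg Prod.fst this) i),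
      k _ _ (congrArg Prod.snd this)⟩
  · simp [card_product, Fintype.card_piFinset, pow_succ]

open Classical in
theorem reg (d N : ℕ) : ∃ B₀ : ℕ, ∀ B : ℕ, B₀ ≤ B → ∀ v s : ℝ,
    ∀ (Ω : Type) [Fintype Ω] (w : Ω → ℝ) (X : Ω → (Fin d → ℝ) × ℝ) (a b : Ω → Fin d → ℝ)
      (m : (Fin d → ℝ) × ℝ → ℝ) (q : (Fin d → ℝ) × (Fin d → ℝ) → ℝ),
    (∀ ω, 0 ≤ w ω) → (B : ℝ)⁻¹ ≤ ∑ ω, w ω → ∑ ω, w ω ≤ 1 →
    (∀ ω, 0 < w ω → ‖X ω‖ ≤ 1 ∧ ‖a ω‖ ≤ 1 ∧
      ‖(X ω).1 - b ω - (X ω).2 • a ω‖ ≤ ((B : ℝ) ^ N)⁻¹) →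
    (∀ x, 0 ≤ m x) → (∀ T : Finset ((Fin d → ℝ) × ℝ), ∑ x ∈ T, m x ≤ 1) → (∀ l, 0 ≤ q l) →
    (∀ x r, ((B : ℝ) ^ N)⁻¹ ≤ r → ∑ ω with ‖X ω - x‖ ≤ r, w ω ≤ B * r ^ s) →
    (∀ x a₀ r, ((B : ℝ) ^ N)⁻¹ ≤ r →
      ∑ ω with X ω = x ∧ ‖a ω - a₀‖ ≤ r, w ω ≤ B * r ^ v * m x) →
    (∀ x l, ∑ ω with X ω = x ∧ (a ω, b ω) = l, w ω ≤ B * ((B : ℝ) ^ N) ^ v * q l * m x) →
    ∃ (P : FP Ω) (Nn : ℕ → ℝ), Good P X a b q B N Nn v ((B : ℝ) ^ 4) ∧ (∀ j, 1 ≤ Nn j) ∧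
      Nn 0 ≤ 3 ^ (d + 1) ∧ (∀ j, Nn j ≤ Nn (j + 1) ∧ Nn (j + 1) ≤ (B : ℝ) ^ (d + 1) * Nn j) ∧
      ∀ j ≤ N, ((B : ℝ) ^ j) ^ s ≤ (B : ℝ) ^ 4 * Nn j := by
  set cap := (N + 1) * (d + 1) with hcap
  set Λ := Fintype.piFinset fun _ : Fin (N + 1) => range (cap + 1)
  have hΛ : Λ.Nonempty := Fintype.piFinset_nonempty.2 fun _ => nonempty_range_add_one
  set M := Λ.card
  have hM : (1 : ℝ) ≤ M := by exact_mod_cast hΛ.card_pos
  refine ⟨81 * M ^ 2, fun B hB v s Ω _ w X a b m q hw h1 h2 geo hm0 hm hq fr sl li => ?_⟩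
  have hBM : 81 * (M : ℝ) ^ 2 ≤ B := by exact_mod_cast hB
  have hB3 : (3 : ℝ) ≤ B := by nlinarith
  have hB0 : (0 : ℝ) < B := by linarith
  have hBn : 0 < B := by exact_mod_cast hB0
  have si : ∀ t : Ω → Prop, ∑ ω, w ω * ind (t ω) = ∑ ω with t ω, w ω := fun t => by
    rw [sum_filter]
    exact sum_congr rfl fun ω _ => by simp [ind]
  obtain ⟨P, p1, p2⟩ := core w hw (inv_pos.2 hB0) h1 h2 X X m m hm0 hm hm0 hm
  obtain ⟨p3, p4⟩ := core' (inv_pos.2 hB0) p1 p2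
  have geo1 := fun ω (hω : 0 < P.p ω) =>
    geo ω ((pos_iff_pos_of_mul_pos (hω.trans_le (p1 ω))).1 (by positivity))
  set lab : ℕ → Ω → ℕ := fun j ω => Nat.findGreatest
    (fun i => P.cl (fun ω => cell B j (X ω)) ω ≤ ((B : ℝ) ^ i)⁻¹) cap with hlab
  obtain ⟨lam, -, hl⟩ := exists_le_of_sum_le hΛ (f := fun _ => (M : ℝ)⁻¹)
    (g := fun l => P.pr fun ω => (fun j : Fin (N + 1) => lab j ω) = l) (by
      rw [sum_const, nsmul_eq_mul, mul_inv_cancel₀ (by positivity)]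
      exact P.one_le_sum _ _ fun ω _ => Fintype.mem_piFinset.2 fun j =>
        mem_range.2 (Nat.lt_succ_of_le (Nat.findGreatest_le _)))
  obtain ⟨P', q1, q2, q3, q4⟩ := core2 P _ (by positivity) hl X X
  set S := univ.filter fun ω => 0 < P.p ω ∧ (fun j : Fin (N + 1) => lab j ω) = lam
  set F := fun j => S.image fun ω => cell B j (X ω) with hF
  have mem : ∀ j ω, 0 < P'.p ω → cell B j (X ω) ∈ F j := fun j ω hω =>
    mem_image_of_mem _ (mem_filter.2 ⟨mem_univ _, (q2 ω hω).1, (q2 ω hω).2.1⟩)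
  have one : ∀ j, (1 : ℝ) ≤ (F j).card := fun j => by
    obtain ⟨ω, hω⟩ := P'.exists_pos
    exact_mod_cast card_pos.2 ⟨_, mem j ω hω⟩
  have box : ∀ j, (F j).card ≤ (2 * B ^ j + 1) ^ (d + 1) := fun j => by
    obtain ⟨G, hG, hG'⟩ := cell_box d B j
    rw [← hG]
    exact card_le_card (image_subset_iff.2 fun ω hω => hG' _ (geo1 ω (mem_filter.1 hω).2.1).1)
  have pa : ∀ j, (F (j + 1)).image (par B) = F j := fun j => by
    simp only [hF, image_image, Function.comp_def, par_cell hBn]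
  have mass : ∀ j ≤ N, ∀ c ∈ F j, (P.pr fun ω => cell B j (X ω) = c) ≤ B / (F j).card := by
    intro j hj c hc
    set l := lam ⟨j, Nat.lt_succ_of_le hj⟩
    have hl : ∀ ω ∈ S, lab j ω = l := fun ω hω =>
      congrFun (mem_filter.1 hω).2.2 ⟨j, Nat.lt_succ_of_le hj⟩
    obtain ⟨ω, hω, rfl⟩ := mem_image.1 hc
    have u1 : P.cl (fun ω => cell B j (X ω)) ω ≤ ((B : ℝ) ^ l)⁻¹ := by
      rw [← hl ω hω]
      exact Nat.findGreatest_spec (P := fun i => P.cl (fun ω => cell B j (X ω)) ω ≤ ((B : ℝ) ^ i)⁻¹)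
        (Nat.zero_le _) (by simpa using P.cl_le_one _ _)
    have u2 : ((F j).card : ℝ) ≤ B ^ (l + 1) := by
      rcases lt_or_ge l cap with h | h
      · have := (card_nsmul_le_sum (F j) _ ((B : ℝ) ^ (l + 1))⁻¹ fun c hc => ?_).trans
          (P.sum_pr_le (fun ω => cell B j (X ω)) (F j))
        · rwa [nsmul_eq_mul, mul_inv_le_iff₀ (by positivity), one_mul] at this
        obtain ⟨ω, hω, rfl⟩ := mem_image.1 hc
        exact (not_le.1 (Nat.findGreatest_is_greatest (P := fun i =>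
          P.cl (fun ω => cell B j (X ω)) ω ≤ ((B : ℝ) ^ i)⁻¹)
          (Nat.lt_succ_of_le (hl ω hω).le) h)).le
      · have h3 : 3 ≤ B := by exact_mod_cast hB3
        have h4 : 2 * B ^ j + 1 ≤ B ^ (N + 1) := by
          have := Nat.pow_le_pow_right hBn hj
          have := pow_pos hBn N
          rw [pow_succ]
          nlinarith
        have : (F j).card ≤ B ^ (l + 1) := (box j).trans ((Nat.pow_le_pow_left h4 _).trans
          ((pow_mul _ _ _).ge.trans (Nat.pow_le_pow_right hBn (h.trans l.le_succ))))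
        exact_mod_cast this
    refine u1.trans ?_
    rw [le_div_iff₀ (one_pos.trans_le (one j)), inv_mul_le_iff₀ (by positivity), ← pow_succ]
    exact u2
  have k1 : 9 / (M : ℝ)⁻¹ ^ 2 * (9 / (B : ℝ)⁻¹ ^ 2 * B) ≤ B ^ 4 := by
    simp only [inv_pow, div_inv_eq_mul]
    nlinarith [mul_le_mul_of_nonneg_right hBM (pow_pos hB0 3).le]
  have k2 : 3 / (M : ℝ)⁻¹ * (3 / (B : ℝ)⁻¹ * B) ≤ B ^ 4 := by
    simp only [div_inv_eq_mul]
    have : 9 * (M : ℝ) ≤ B ^ 2 := by nlinarith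
    nlinarith [mul_le_mul_of_nonneg_right this (pow_pos hB0 2).le]
  have fin : ∀ (t : Ω → Prop) x C, 0 ≤ C → ∑ ω with X ω = x ∧ t ω, w ω ≤ B * C * m x →
      (P'.pr fun ω => X ω = x ∧ t ω) ≤ B ^ 4 * C * P'.pr fun ω => X ω = x := by
    intro t x C hC h
    refine (q4 t x (9 / (B : ℝ)⁻¹ ^ 2 * (B * C)) (by positivity) (p4 t x (B * C) (by positivity)
      ((si _).trans_le (by convert h)))).trans
      (mul_le_mul_of_nonneg_right ?_ (P'.pr_nonneg _))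
    rw [← mul_assoc _ (B : ℝ), ← mul_assoc]
    exact mul_le_mul_of_nonneg_right k1 hC
  refine ⟨P', fun j => (F j).card, ⟨fun ω hω => geo1 ω (q2 ω hω).1,
    fun j _ => ⟨F j, le_rfl, mem j⟩, fun j hj c => ?_, fun x a₀ r hr => ?_, fun x l => ?_⟩, one,
    by simpa using (Nat.cast_le (α := ℝ)).2 (box 0), fun j => ⟨?_, ?_⟩, fun j hj => ?_⟩
  · have := one j
    by_cases hc : c ∈ F j
    · refine (q3 _).trans ((mul_le_mul_of_nonneg_left (mass j hj c hc) (by positivity)).trans ?_)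
      rw [← mul_div_assoc]
      refine div_le_div_of_nonneg_right (le_trans ?_ k2) (by positivity)
      simp only [div_inv_eq_mul]
      gcongr
      nlinarith
    · rw [P'.pr_eq_zero fun ω hω (e : cell B j (X ω) = c) => hc (e ▸ mem j ω hω)]
      positivity
  · have : 0 < r := lt_of_lt_of_le (by positivity) hr
    exact fin _ x _ (by positivity) (by convert sl x a₀ r hr)
  · have := hq l
    rw [mul_assoc ((B : ℝ) ^ 4)]
    exact fin _ x _ (by positivity) (by rw [← mul_assoc (B : ℝ)]; convert li x l)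
  · beta_reduce
    rw [← pa j]
    exact_mod_cast card_image_le
  · beta_reduce
    rw [← pa j]
    exact_mod_cast card_le_par hBn _
  · have h0 : 0 < (B : ℝ) ^ j := by positivity
    have := (P'.one_le_sum _ _ (mem j)).trans (sum_le_card_nsmul (F j) _
      ((B : ℝ) ^ 4 * (((B : ℝ) ^ j) ^ s)⁻¹) fun c hc => ?_)
    · rwa [nsmul_eq_mul, ← mul_assoc, le_mul_inv_iff₀ (by positivity), one_mul, mul_comm] at this
    obtain ⟨ω, hω, rfl⟩ := mem_image.1 hc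
    have u := fr (X ω) _ (inv_anti₀ h0 (pow_le_pow_right₀ (by linarith) hj))
    refine (q3 _).trans ((mul_le_mul_of_nonneg_left ((P.pr_mono fun _ _ => cell_near hBn).trans
      ((p3 _).trans (mul_le_mul_of_nonneg_left ((si _).trans_le (by convert u))
        (by positivity)))) (by positivity)).trans ?_)
    rw [inv_rpow h0.le, ← mul_assoc _ (B : ℝ), ← mul_assoc]
    exact mul_le_mul_of_nonneg_right k2 (by positivity)

end Pool.Agent.P.MP_bf60a1_an.RA
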