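import Mathlib

/-! Gap / dense dichotomy on the real line. -/

namespace Pool.Agent.P.MP_bf60a1_an.RA

open Finset

theorem ring_sep (a δ : ℝ) (X : Finset ℝ) : (∀ x ∈ X, ∀ y ∈ X, x ≠ y → δ ≤ |x - y|) →
    ∀ b, a - δ ≤ b → (∀ x ∈ X, a ≤ x ∧ x ≤ b) → ((X.card : ℝ) - 1) * δ ≤ b - a := by
  induction X using Finset.induction_on_max with
  | empty => intro _ b hb _; simp; linarith
  | insert x s hx ih =>
    intro hs b _ hab
    have hxs : x ∉ s := fun h => lt_irrefl _ (hx x h)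
    have h1 := hab x (mem_insert_self _ _)
    have h2 := ih (fun y hy z hz => hs y (mem_insert_of_mem hy) z (mem_insert_of_mem hz)) (x - δ)
      (by linarith) (fun y hy => ⟨(hab y (mem_insert_of_mem hy)).1, by
        have h3 := hs x (mem_insert_self _ _) y (mem_insert_of_mem hy) (hx y hy).ne'
        rw [abs_of_pos (sub_pos.2 (hx y hy))] at h3
        linarith⟩)
    rw [card_insert_of_notMem hxs]
    push_cast
    linarith

theorem ring_dense (R : ℝ → Prop) (ρ : ℝ) (hρ : 0 < ρ) (hρ' : ρ ≤ 1 / 9) (h0 : R 0)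
    (h : ∀ b, R b → -(2 * ρ) ≤ b → b ≤ 1 + 2 * ρ →
      (∃ r, R r ∧ |r - b / 2| ≤ ρ) ∧ ∃ r, R r ∧ |r - (b + 1) / 2| ≤ ρ) (m : ℕ) :
    ∀ t : ℝ, 0 ≤ t → t ≤ 1 → ∃ r, R r ∧ -(2 * ρ) ≤ r ∧ r ≤ 1 + 2 * ρ ∧
      |r - t| ≤ 2 * ρ + (1 / 2) ^ m := by
  induction m with
  | zero =>
    intro t h1 h2
    refine ⟨0, h0, by linarith, by linarith, ?_⟩
    rw [abs_le]; constructor <;> simp <;> linarith
  | succ m ih =>
    intro t h1 h2
    rcases le_total t (1 / 2) with ht | ht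
    · obtain ⟨b, hb, hb1, hb2, hb3⟩ := ih (2 * t) (by linarith) (by linarith)
      obtain ⟨r, hr, hr1⟩ := (h b hb hb1 hb2).1
      rw [abs_le] at hr1 hb3
      refine ⟨r, hr, by linarith, by linarith, ?_⟩
      rw [abs_le, pow_succ]; constructor <;> linarith
    · obtain ⟨b, hb, hb1, hb2, hb3⟩ := ih (2 * t - 1) (by linarith) (by linarith)
      obtain ⟨r, hr, hr1⟩ := (h b hb hb1 hb2).2
      rw [abs_le] at hr1 hb3
      refine ⟨r, hr, by linarith, by linarith, ?_⟩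
      rw [abs_le, pow_succ]; constructor <;> linarith

theorem ring (i j : ℕ) (c : ℝ) : ∃ C : ℝ, 0 ≤ C ∧ ∀ (D : ℝ → ℝ) (σ l : ℝ) (X : Finset ℝ),
    0 < l → l ≤ 1 / 3 → 0 ≤ σ → D 1 ≤ σ → (∀ s t, D (s + t) ≤ D s + D t + σ) →
    (∀ s, D (-s) ≤ D s + σ) →
    (∀ (m : ℕ) (s t : ℝ), |s| ≤ (l ^ m)⁻¹ → D (s * t) ≤ D s + D t + (m + 1) * σ) →
    (∀ (m : ℕ) (s : ℝ), l ^ m ≤ |s| → D s⁻¹ ≤ D s + (m + 1) * σ) →
    (∀ x ∈ X, |x| ≤ (l ^ j)⁻¹ ∧ D x ≤ c * σ) →
    (∀ x ∈ X, ∀ y ∈ X, x ≠ y → l ^ j ≤ |x - y|) →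
    2 * (l ^ (2 * j + 4 * i))⁻¹ < ((X.card : ℝ) - 1) ^ (2 ^ i) →
    ∀ t : ℝ, 0 ≤ t → t ≤ 1 → ∃ s, |s - t| ≤ l ∧ D s ≤ C * σ := by
  induction i generalizing j c with
  | zero =>
    refine ⟨0, le_rfl, fun D σ l X hl _ _ _ _ _ _ _ hX hsep hcard => ?_⟩
    exfalso
    have hlj : 0 < l ^ j := by positivity
    have hinv : 0 < (l ^ j)⁻¹ := by positivity
    have h1 := ring_sep (-(l ^ j)⁻¹) (l ^ j) X hsep (l ^ j)⁻¹ (by linarith)
      (fun x hx => abs_le.1 (hX x hx).1)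
    rw [mul_zero, add_zero, pow_zero, pow_one, two_mul j, pow_add, mul_inv, ← mul_assoc,
      ← div_eq_mul_inv, div_lt_iff₀ hlj] at hcard
    linarith
  | succ i ih =>
    obtain ⟨C', hC', hIH⟩ := ih (j + 2) (2 * c + (4 * c + 2 * j + 7) + 11)
    refine ⟨max (4 * c + 2 * j + 7) C', le_max_of_le_right hC',
      fun D σ l X hl hl3 hσ hD1 hadd hneg hmul hinv hX hsep hcard t ht0 ht1 => ?_⟩
    have hlj : 0 < l ^ j := by positivity
    have hl1 : l ≤ 1 := by linarith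
    have hli : 3 ≤ l⁻¹ := by rw [le_inv_comm₀ (by norm_num) hl]; linarith
    have hL : 0 < (l ^ j)⁻¹ := by positivity
    have hcard2 : 1 < X.card := by
      by_contra hc
      have h1 : 1 ≤ (l ^ (2 * j + 4 * (i + 1)))⁻¹ :=
        (one_le_inv₀ (by positivity)).2 (pow_le_one₀ hl.le hl1)
      have h2 : |(X.card : ℝ) - 1| ≤ 1 := by
        have h3 : (X.card : ℝ) ≤ 1 := by exact_mod_cast not_lt.1 hc
        have h4 : (0 : ℝ) ≤ X.card := by positivity
        rw [abs_le]; constructor <;> linarith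
      have h5 := le_abs_self (((X.card : ℝ) - 1) ^ (2 ^ (i + 1)))
      rw [abs_pow] at h5
      have h6 := pow_le_one₀ (n := 2 ^ (i + 1)) (abs_nonneg _) h2
      linarith
    have hsub : ∀ x ∈ X, ∀ y ∈ X, D (x - y) ≤ (2 * c + 2) * σ := by
      intro x hx y hy
      have h1 := hadd x (-y)
      have h2 := hneg y
      rw [sub_eq_add_neg]
      linarith [(hX x hx).2, (hX y hy).2]
    set R : ℝ → Prop := fun r => ∃ x₁ ∈ X, ∃ x₂ ∈ X, ∃ x₃ ∈ X, ∃ x₄ ∈ X, x₃ ≠ x₄ ∧
      r = (x₁ - x₂) * (x₃ - x₄)⁻¹ with hR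
    have hRD : ∀ r, R r → D r ≤ (4 * c + 2 * j + 7) * σ := by
      rintro r ⟨x₁, h₁, x₂, h₂, x₃, h₃, x₄, h₄, hne, rfl⟩
      have a1 := hinv j _ (hsep x₃ h₃ x₄ h₄ hne)
      have a2 := hmul (j + 1) (x₁ - x₂) (x₃ - x₄)⁻¹ (by
        rw [pow_succ, mul_inv]
        have := abs_sub x₁ x₂
        nlinarith [(hX x₁ h₁).1, (hX x₂ h₂).1])
      have a3 := hsub x₁ h₁ x₂ h₂
      have a4 := hsub x₃ h₃ x₄ h₄
      push_cast at a2
      linarith
    have hρ : 0 < l ^ 2 := by positivity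
    have hρ' : l ^ 2 ≤ 1 / 9 := by nlinarith
    by_cases hden : ∀ b, R b → -(2 * l ^ 2) ≤ b → b ≤ 1 + 2 * l ^ 2 →
        (∃ r, R r ∧ |r - b / 2| ≤ l ^ 2) ∧ ∃ r, R r ∧ |r - (b + 1) / 2| ≤ l ^ 2
    · obtain ⟨x, hx, y, hy, hxy⟩ := Finset.one_lt_card.1 hcard2
      obtain ⟨m, hm⟩ := exists_pow_lt_of_lt_one hρ (show (1 / 2 : ℝ) < 1 by norm_num)
      obtain ⟨r, hr, -, -, hr1⟩ := ring_dense R (l ^ 2) hρ hρ'
        ⟨x, hx, x, hx, x, hx, y, hy, hxy, by simp⟩ hden m t ht0 ht1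
      refine ⟨r, by nlinarith, (hRD r hr).trans ?_⟩
      exact mul_le_mul_of_nonneg_right (le_max_left _ _) hσ
    · have hgap : ∃ ξ : ℝ, |ξ| ≤ 2 ∧ D ξ ≤ (4 * c + 2 * j + 7 + 7) * σ ∧
          ∀ r, R r → l ^ 2 < |r - ξ| := by
        have d2 : D 2⁻¹ ≤ 4 * σ := by
          have h1 := hadd 1 1
          have h2 := hinv 0 (1 + 1) (by rw [pow_zero, abs_of_pos (by norm_num)]; norm_num)
          rw [one_add_one_eq_two] at h1 h2
          push_cast at h2
          linarith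
        have d3 : ∀ s, D (s / 2) ≤ D s + 5 * σ := by
          intro s
          have h1 := hmul 0 2⁻¹ s (by rw [pow_zero, abs_of_pos (by norm_num)]; norm_num)
          rw [div_eq_inv_mul]
          push_cast at h1
          linarith
        by_contra hcon
        refine hden fun b hb hb1 hb2 => ⟨?_, ?_⟩
        · by_contra h
          refine hcon ⟨b / 2, by rw [abs_le]; constructor <;> linarith, ?_, fun r hr => ?_⟩
          · linarith [d3 b, hRD b hb]
          · exact not_le.1 fun h' => h ⟨r, hr, h'⟩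
        · by_contra h
          refine hcon ⟨(b + 1) / 2, by rw [abs_le]; constructor <;> linarith, ?_, fun r hr => ?_⟩
          · linarith [d3 (b + 1), hRD b hb, hadd b 1]
          · exact not_le.1 fun h' => h ⟨r, hr, h'⟩
      obtain ⟨ξ, hξ1, hξ2, hξ3⟩ := hgap
      have hsep' : ∀ p ∈ X ×ˢ X, ∀ q ∈ X ×ˢ X, p ≠ q →
          l ^ (j + 2) ≤ |(p.1 - ξ * p.2) - (q.1 - ξ * q.2)| := by
        rintro ⟨x, x'⟩ hp ⟨z, z'⟩ hq hne
        obtain ⟨hx, hx'⟩ := mem_product.1 hp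
        obtain ⟨hz, hz'⟩ := mem_product.1 hq
        simp only at hx hx' hz hz' ⊢
        by_cases h : x' = z'
        · subst h
          have h1 := hsep x hx z hz fun h' => hne (by rw [h'])
          have h2 : x - ξ * x' - (z - ξ * x') = x - z := by ring
          rw [h2, pow_add]
          nlinarith
        · have h1 := hsep x' hx' z' hz' h
          have h2 := hξ3 _ ⟨x, hx, z, hz, x', hx', z', hz', h, rfl⟩
          have h3 : x' - z' ≠ 0 := sub_ne_zero.2 h
          have h4 : x - ξ * x' - (z - ξ * z') = (x' - z') * ((x - z) * (x' - z')⁻¹ - ξ) := by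
            field_simp; ring
          rw [h4, abs_mul, pow_add]
          exact mul_le_mul h1 h2.le hρ.le (abs_nonneg _)
      have hinj : Set.InjOn (fun p : ℝ × ℝ => p.1 - ξ * p.2) (X ×ˢ X : Finset (ℝ × ℝ)) := by
        intro p hp q hq hpq
        by_contra hne
        have h1 := hsep' p hp q hq hne
        simp only at hpq
        rw [hpq, sub_self, abs_zero] at h1
        exact absurd h1 (not_le.2 (by positivity))
      refine (hIH D σ l ((X ×ˢ X).image fun p : ℝ × ℝ => p.1 - ξ * p.2) hl hl3 hσ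
        hD1 hadd hneg hmul hinv ?_ ?_ ?_ t ht0 ht1).imp fun s hs =>
        ⟨hs.1, hs.2.trans (mul_le_mul_of_nonneg_right (le_max_right _ _) hσ)⟩
      · intro y hy
        obtain ⟨⟨x, x'⟩, hp, rfl⟩ := mem_image.1 hy
        obtain ⟨hx, hx'⟩ := mem_product.1 hp
        simp only at hx hx' ⊢
        constructor
        · have h1 := abs_sub x (ξ * x')
          rw [abs_mul] at h1
          have h2 := mul_le_mul hξ1 (hX x' hx').1 (abs_nonneg _) (by norm_num)
          have h3 : 3 ≤ l⁻¹ * l⁻¹ := by nlinarith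
          rw [pow_add, mul_inv, sq, mul_inv]
          nlinarith [(hX x hx).1]
        · have h1 := hadd x (-(ξ * x'))
          have h2 := hneg (ξ * x')
          have h3 := hmul 1 ξ x' (by rw [pow_one]; linarith)
          rw [sub_eq_add_neg]
          push_cast at h3
          linarith [(hX x hx).2, (hX x' hx').2]
      · intro y hy z hz hne
        obtain ⟨p, hp, rfl⟩ := mem_image.1 hy
        obtain ⟨q, hq, rfl⟩ := mem_image.1 hz
        exact hsep' p hp q hq fun h => hne (by rw [h])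
      · rw [card_image_of_injOn hinj, card_product]
        have e : 2 * (j + 2) + 4 * i = 2 * j + 4 * (i + 1) := by ring
        rw [e]
        refine hcard.trans_le ?_
        rw [pow_succ', pow_mul]
        have h1 : (1 : ℝ) < X.card := by exact_mod_cast hcard2
        refine pow_le_pow_left₀ (sq_nonneg _) ?_ _
        push_cast
        nlinarith

end Pool.Agent.P.MP_bf60a1_an.RA
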