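import Pool.Agent.P.MP_bf60a1_an.RA.Ruzsa
import Pool.Agent.P.MP_bf60a1_an.RA.Ring

/-! Entropic Balog–Szemerédi–Gowers step and expansion for a fixed conditioning. -/

namespace Pool.Agent.P.MP_bf60a1_an.RA

open Finset Real

namespace FP

variable {Ω Ω' α β γ : Type*} [Fintype Ω] [Fintype Ω'] {d : ℕ}

theorem Law.D {P : FP Ω} {P' : FP Ω'} {A' : Ω' → Fin d → ℤ} {A : Ω → Fin d → ℤ}
    (h : Law P' A' P A) (s : ℝ) : P'.D A' s = P.D A s := by
  unfold FP.D HS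
  rw [h.H, ((h.prod h).map fun x => fl (cz x.1 - s • cz x.2)).H]

theorem bsg (P : FP Ω) (A B : Ω → Fin d → ℤ) (C : Ω → γ) (O : Ω → β) :
    (P.E fun ω => (P.cv (fun x => (C x, O x)) (C ω, O ω)).D A 1) ≤
      2 * P.Hc A O + 2 * P.Hc B O - 2 * P.Hc (fun x => (A x, B x)) O + P.Hc C O -
        P.Hc A (fun x => (C x, O x)) +
        (P.cpy fun x => (C x, O x)).Hc (fun x => A x.1 - A x.2)
          (fun x => ((B x.1, B x.2), O x.1)) + P.Hc C fun x => ((A x, B x), O x) := by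
  set V := fun x => (C x, O x) with hV
  set Q := P.cpy V
  have e1 : (P.E fun ω => (P.cv V (V ω)).D A 1) =
      Q.Hc (fun x => A x.1 - A x.2) (fun x => V x.1) - P.Hc A V := by
    simp only [D_one, E_sub]
    rw [P.Hc_cpy, E_H_cv]
  have h := Q.sub_c (fun x => ((A x.1, B x.1), (A x.2, B x.2))) (fun x => A x.1 - A x.2)
    (fun x => (A x.1, A x.2)) (fun x => (B x.1, B x.2)) fun x => O x.1
  have hO : ∀ x, 0 < Q.p x → O x.1 = O x.2 := fun x hx => (congrArg Prod.snd (P.cpy_eq hx)).symm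
  have h1 : Q.Hc (fun x => A x.1 - A x.2) (fun x => V x.1) ≤
      Q.Hc (fun x => A x.1 - A x.2) fun x => O x.1 :=
    Q.Hc_mono_right _ fun _ _ _ _ h => congrArg Prod.snd h
  have h2 := Q.Hc_pair_le (fun x => A x.1) (fun x => A x.2) fun x => O x.1
  have h3 := Q.Hc_pair_le (fun x => B x.1) (fun x => B x.2) fun x => O x.1
  have h4 := (P.cpy_fst V).Hc A O
  have h5 := (P.cpy_fst V).Hc B O
  have h6 := (Q.Hc_ae (Z := fun x => A x.2) (fun _ _ => rfl) hO).trans ((P.cpy_snd V).Hc A O)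
  have h7 := (Q.Hc_ae (Z := fun x => B x.2) (fun _ _ => rfl) hO).trans ((P.cpy_snd V).Hc B O)
  have h8 : Q.Hc (fun x => A x.1 - A x.2) (fun x => ((A x.1, A x.2), O x.1)) ≤ 0 :=
    Q.Hc_nonpos fun _ _ _ _ h => by simp_all
  have h9 : Q.Hc (fun x => ((A x.1, B x.1), (A x.2, B x.2)))
      (fun x => ((A x.1, A x.2), (B x.1, B x.2), O x.1)) ≤ 0 :=
    Q.Hc_nonpos fun _ _ _ _ h => by simp_all
  have h10 := P.H_cpy V (fun x => (A x, B x)) fun x => (A x, B x)
  have h11 : (P.H fun x => ((A x, B x), O x)) ≤ P.H fun x => ((A x, B x), V x) :=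
    P.H_mono fun _ _ _ _ h => by simp_all
  have h12 := Q.H_le_add (fun x => ((A x.1, B x.1), (A x.2, B x.2), V x.1))
    fun x => (((A x.1, B x.1), (A x.2, B x.2)), O x.1)
  have h13 : Q.Hc (fun x => ((A x.1, B x.1), (A x.2, B x.2), V x.1))
      (fun x => (((A x.1, B x.1), (A x.2, B x.2)), O x.1)) ≤
      Q.Hc (fun x => C x.1) fun x => ((A x.1, B x.1), O x.1) :=
    Q.Hc_mono (fun _ _ _ _ h => by simp_all) fun _ _ _ _ h => by simp_all
  have h14 := (P.cpy_fst V).Hc C fun x => ((A x, B x), O x)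
  have h15 := (P.cpy_fst V).H O
  change (P.E fun ω => (P.cv V (V ω)).D A 1) ≤ _
  rw [e1]
  unfold Hc at *
  linarith

theorem glue_spread {P : FP Ω} {P' : FP Ω'} {L' : Ω' → β} {L : Ω → β} (h : Law P' L' P L)
    (s : Ω' → Prop) (t : Ω' → Ω → Prop) {p : ℝ}
    (ht : ∀ ω' ω, 0 < P.p ω → (P.pr fun x => t ω' x ∧ L x = L ω) ≤ p * P.cl L ω) :
    ((glue P' L' P L).pr fun x => t x.1 x.2 ∧ s x.1) ≤ p * P'.pr s := by
  rw [pr, pr, E_glue, ← E_mul_left]
  refine P'.E_mono fun ω' hω' => ?_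
  obtain ⟨ω, hω, he⟩ := h.exists hω'
  simp only [ind_and, E_mul_right]
  refine mul_le_mul_of_nonneg_right ?_ (ind_nonneg _)
  rw [← he]
  change (P.cv L (L ω)).pr (t ω') ≤ p
  rw [P.pr_cv hω, div_le_iff₀ (P.cl_pos L hω)]
  exact ht ω' ω hω

theorem exists_sep (P : FP Ω) (y : Ω → ℝ) (G : Ω → Prop) {l p : ℝ} (hl : 0 < l)
    (hG : 1 / 2 ≤ P.pr G) (hp : ∀ t, (P.pr fun ω => |y ω - t| ≤ l) ≤ p) :
    ∃ Y : Finset ℝ, (∀ t ∈ Y, ∃ ω, G ω ∧ 0 < P.p ω ∧ y ω = t) ∧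
      (∀ t ∈ Y, ∀ t' ∈ Y, t ≠ t' → l ≤ |t - t'|) ∧ 1 / 2 ≤ Y.card * p := by
  classical
  set T := (univ.filter fun ω => G ω ∧ 0 < P.p ω).image y
  obtain ⟨Y, hY, hmax⟩ := exists_max_image
    (T.powerset.filter fun Y => ∀ t ∈ Y, ∀ t' ∈ Y, t ≠ t' → l ≤ |t - t'|) card
    ⟨∅, by simp⟩
  rw [mem_filter, mem_powerset] at hY
  refine ⟨Y, fun t ht => ?_, hY.2, hG.trans ?_⟩
  · obtain ⟨ω, hω, rfl⟩ := mem_image.1 (hY.1 ht)
    exact ⟨ω, (mem_filter.1 hω).2.1, (mem_filter.1 hω).2.2, rfl⟩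
  · refine (P.pr_mono (t := fun ω => ∃ t ∈ Y, |y ω - t| ≤ l) fun ω hω hG => ?_).trans
      ((P.pr_exists_le Y fun t ω => |y ω - t| ≤ l).trans ?_)
    · by_contra hc
      push Not at hc
      have hn : y ω ∉ Y := fun hm => by have := hc _ hm; simp at this; linarith
      have := hmax (insert (y ω) Y) (by
        rw [mem_filter, mem_powerset]
        refine ⟨insert_subset (mem_image_of_mem _ (by simp [hG, hω])) hY.1, ?_⟩
        intro t ht t' ht' hne
        rcases mem_insert.1 ht with rfl | ht <;> rcases mem_insert.1 ht' with rfl | ht'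
        · exact absurd rfl hne
        · exact (hc _ ht').le
        · rw [abs_sub_comm]; exact (hc _ ht).le
        · exact hY.2 _ ht _ ht' hne)
      rw [card_insert_of_notMem hn] at this
      omega
    · calc ∑ t ∈ Y, P.pr (fun ω => |y ω - t| ≤ l) ≤ ∑ _t ∈ Y, p := sum_le_sum fun t _ => hp t
        _ = _ := by simp

end FP

/-- three points of a line: the third is determined by the other two -/
theorem line_close {d : ℕ} {a b a' b' : Fin d → ℝ} {y₁ y₂ y₃ l r₁ r₂ : ℝ} (hl : 0 < l)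
    (h12 : l ≤ |y₁ - y₂|) (h1 : |y₃ - y₁| ≤ 1) (h2 : |y₃ - y₂| ≤ 1)
    (e1 : ‖b + y₁ • a - (b' + y₁ • a')‖ ≤ r₁) (e2 : ‖b + y₂ • a - (b' + y₂ • a')‖ ≤ r₂) :
    ‖b + y₃ • a - (b' + y₃ • a')‖ ≤ (r₁ + r₂) / l := by
  have h0 : y₁ - y₂ ≠ 0 := fun h => by rw [h, abs_zero] at h12; linarith
  have e : b + y₃ • a - (b' + y₃ • a') = (y₁ - y₂)⁻¹ • ((y₃ - y₂) • (b + y₁ • a - (b' + y₁ • a')) -
      (y₃ - y₁) • (b + y₂ • a - (b' + y₂ • a'))) := by
    ext i; simp only [Pi.add_apply, Pi.sub_apply, Pi.smul_apply, smul_eq_mul]; field_simp; ring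
  rw [e, norm_smul, norm_inv, norm_eq_abs, inv_mul_eq_div]
  refine div_le_div₀ (add_nonneg ((norm_nonneg _).trans e1) ((norm_nonneg _).trans e2)) ?_ hl h12
  refine norm_sub_le_of_le ?_ ?_ <;> rw [norm_smul, norm_eq_abs]
  · exact (mul_le_of_le_one_left (norm_nonneg _) h2).trans e1
  · exact (mul_le_of_le_one_left (norm_nonneg _) h1).trans e2

theorem line_bdd {d : ℕ} {a b a' b' : Fin d → ℝ} {y M : ℝ} (h0 : 0 ≤ y) (h1 : y ≤ 1)
    (ha : ‖a - a'‖ ≤ M) (hb : ‖b - b'‖ ≤ M) :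
    ‖cz (fl (b + y • a)) - cz (fl (b' + y • a'))‖ ≤ 2 * M + 1 := by
  refine norm_fl_sub ?_
  have := (norm_smul_le y (a - a')).trans ((mul_le_of_le_one_left (norm_nonneg _)
    (by rwa [norm_eq_abs, abs_of_nonneg h0])).trans ha)
  refine le_trans (le_of_eq (congrArg _ ?_)) ((norm_add_le_of_le hb this).trans (by linarith))
  rw [smul_sub]; abel

theorem log_le_mul {d : ℕ} {x y : ℝ} (hx : 0 < x) (h : x ≤ y) : d * log x ≤ d * log y :=
  mul_le_mul_of_nonneg_left (log_le_log hx h) (Nat.cast_nonneg _)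

open RA.FP in
theorem expand (i : ℕ) : ∃ C : ℝ, 1 ≤ C ∧ ∀ {Ω ι : Type} [Fintype Ω] {d : ℕ} (P : FP Ω)
    (a b : Ω → Fin d → ℝ) (A B W : Ω → Fin d → ℤ) (Y : Ω → ι) (η : ι → ℝ) (η₁ η₂ l p M : ℝ),
    0 < l → l ≤ 1 / 3 → 0 < p → p ≤ 1 / 10 → (l ^ 2)⁻¹ ≤ M → 0 ≤ η₁ → η₁ ≤ 1 → 0 ≤ η₂ → η₂ ≤ 1 →
    l ≤ |η₁ - η₂| →
    (∀ ω, 0 < P.p ω → A ω = fl (b ω + η₁ • a ω) ∧ B ω = fl (b ω + η₂ • a ω) ∧
      W ω = fl (b ω + η (Y ω) • a ω) ∧ 0 ≤ η (Y ω) ∧ η (Y ω) ≤ 1) →
    (∀ ω ω', 0 < P.p ω → 0 < P.p ω' → ‖a ω - a ω'‖ ≤ M ∧ ‖b ω - b ω'‖ ≤ M) →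
    (∀ ω t, 0 < P.p ω → (P.pr fun x => |η (Y x) - t| ≤ l ∧ B x = B ω) ≤ p * P.cl B ω) →
    2 * (l ^ (2 * 3 + 4 * i))⁻¹ < (1 / (2 * p) - 1) ^ (2 ^ i) →
    ∀ t : ℝ, 0 ≤ t → t ≤ 1 → ∃ s, |s - t| ≤ l ∧ P.D A s ≤ C * (5 * P.D A 1 + 2 * P.Hc W Y +
      P.H B - 2 * P.Hc (fun ω => (A ω, B ω)) Y + P.H A + 1 + 8 * (d * log (100 / l ^ 2)) +
      6 * (p * (d * log (100 * M)))) := by
  obtain ⟨C, hC0, hC⟩ := ring i 3 8
  refine ⟨C + 1, by linarith, ?_⟩
  intro Ω ι _ d P a b A B W Y η η₁ η₂ l p M hl hl3 hp hp' hM h10 h11 h20 h21 h12 hae hbd hsp hcard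
  classical
  have hl1 : l ≤ 1 := by linarith
  have hl2 : 0 < l ^ 2 := by positivity
  have hli : 1 ≤ l⁻¹ := one_le_inv₀ hl |>.2 hl1
  have hl2i : (l ^ 2)⁻¹ = l⁻¹ * l⁻¹ := by rw [sq, mul_inv]
  have hM1 : 1 ≤ M := le_trans (by rw [hl2i]; nlinarith only [hli]) hM
  set f := d * log (100 / l ^ 2) with hf
  set g := d * log (100 * M) with hg
  have hfx : ∀ x : ℝ, 0 < x → x ≤ 100 * (l⁻¹ * l⁻¹) → d * log x ≤ f := fun x hx h =>
    log_le_mul hx (by rwa [div_eq_mul_inv, hl2i])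
  have hf0 : 0 ≤ f := le_trans (by simp) (hfx 1 one_pos (by nlinarith only [hli]))
  have hg0 : 0 ≤ g := mul_nonneg (Nat.cast_nonneg _) (log_nonneg (by linarith))
  let sep : ℝ → Prop := fun t => l ≤ |t - η₁| ∧ l ≤ |t - η₂|
  let u : ℝ → ℝ := fun t => (η₂ - t) / (t - η₁)
  let σ : ι × ι → ℝ := fun v => if sep (η v.1) ∧ sep (η v.2) then u (η v.2) / u (η v.1) else 0
  have habs : ∀ {s t : ℝ}, 0 ≤ s → s ≤ 1 → 0 ≤ t → t ≤ 1 → |s - t| ≤ 1 := fun h1 h2 h3 h4 =>
    abs_le.2 ⟨by linarith, by linarith⟩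
  have hu : ∀ t, 0 ≤ t → t ≤ 1 → sep t → l ≤ |u t| ∧ |u t| ≤ l⁻¹ := fun t h0 h1 hs => by
    have h2 : 0 < |t - η₁| := hl.trans_le hs.1
    simp only [u, abs_div, abs_sub_comm η₂ t]
    constructor
    · rw [le_div_iff₀ h2]
      exact (mul_le_of_le_one_right hl.le (habs h0 h1 h10 h11)).trans hs.2
    · rw [inv_eq_one_div]
      exact div_le_div₀ zero_le_one (habs h0 h1 h20 h21) hl hs.1
  have hsp' : ∀ (ω : Ω), 0 < P.p ω → ∀ t, ((P.cv B (B ω)).pr fun x => |η (Y x) - t| ≤ l) ≤ p :=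
    fun ω hω t => by
      rw [P.pr_cv hω, div_le_iff₀ (P.cl_pos B hω)]; exact hsp ω t hω
  have hns' : ∀ (ω : Ω), 0 < P.p ω → ((P.cv B (B ω)).pr fun x => ¬ sep (η (Y x))) ≤ 2 * p :=
    fun ω hω => by
      refine (pr_mono _ (t := fun x => |η (Y x) - η₁| ≤ l ∨ |η (Y x) - η₂| ≤ l)
        fun x _ hx => ?_).trans ((pr_or_le _ _ _).trans ?_)
      · simp only [sep, not_and_or, not_le] at hx
        exact hx.imp le_of_lt le_of_lt
      · linarith [hsp' ω hω η₁, hsp' ω hω η₂]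
  have hns : (P.pr fun x => ¬ sep (η (Y x))) ≤ 2 * p := by
    rw [pr, ← P.tower B fun _ x => ind (¬ sep (η (Y x)))]
    exact P.E_le hns'
  set Q := P.cpy B with hQ
  have m1 := P.cpy_fst B
  have m2 := P.cpy_snd B
  have hws := P.weak_strong A Q (m1.law A) (m2.law A) (fun x => (Y x.1, Y x.2)) σ
  have hsub := Q.sub_c (fun x => (A x.1, A x.2, B x.1))
    (fun x => fl (cz (A x.1) - σ (Y x.1, Y x.2) • cz (A x.2))) (fun x => (W x.1, W x.2))
    (fun x => (A x.1, A x.2)) fun x => (Y x.1, Y x.2)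
  have k1 : Q.Hc (fun x => (W x.1, W x.2)) (fun x => (Y x.1, Y x.2)) ≤ 2 * P.Hc W Y := by
    have e1 := Q.Hc_pair_le (fun x => W x.1) (fun x => W x.2) fun x => (Y x.1, Y x.2)
    have e2 : Q.Hc (fun x => W x.1) (fun x => (Y x.1, Y x.2)) ≤ _ :=
      Q.Hc_mono_right _ (C := fun x => Y x.1) fun _ _ _ _ h => congrArg Prod.fst h
    have e3 : Q.Hc (fun x => W x.2) (fun x => (Y x.1, Y x.2)) ≤ _ :=
      Q.Hc_mono_right _ (C := fun x => Y x.2) fun _ _ _ _ h => congrArg Prod.snd h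
    rw [m1.Hc W Y] at e2
    rw [m2.Hc W Y] at e3
    linarith
  have k2 : 2 * P.Hc (fun ω => (A ω, B ω)) Y - P.H B ≤
      Q.Hc (fun x => (A x.1, A x.2, B x.1)) fun x => (Y x.1, Y x.2) := by
    have e1 := P.H_cpy B (fun x => (A x, Y x)) fun x => (A x, Y x)
    have e2 : (Q.H fun x => ((A x.1, Y x.1), (A x.2, Y x.2), B x.1)) ≤
        Q.H fun x => ((A x.1, A x.2, B x.1), (Y x.1, Y x.2)) :=
      Q.H_mono fun _ _ _ _ h => by clear * - h; simp_all
    have e3 := Q.H_pair_le (fun x => Y x.1) fun x => Y x.2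
    have e4 : (P.H fun x => ((A x, B x), Y x)) ≤ P.H fun x => ((A x, Y x), B x) :=
      P.H_mono fun _ _ _ _ h => by clear * - h; simp_all
    rw [m1.H Y, m2.H Y] at e3
    unfold Hc; linarith
  have k3 : Q.Hc (fun x => fl (cz (A x.1) - σ (Y x.1, Y x.2) • cz (A x.2)))
      (fun x => ((A x.1, A x.2), (Y x.1, Y x.2))) ≤ 0 :=
    Q.Hc_nonpos fun _ _ _ _ h => by clear * - h; simp_all
  have k4 : Q.Hc (fun x => (A x.1, A x.2, B x.1))
      (fun x => ((W x.1, W x.2), (A x.1, A x.2), (Y x.1, Y x.2))) ≤ f + 2 * (p * g) := by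
    have e1 : Q.Hc (fun x => (A x.1, A x.2, B x.1))
        (fun x => ((W x.1, W x.2), (A x.1, A x.2), (Y x.1, Y x.2))) ≤
        Q.Hc (fun x => B x.1) fun x => (A x.1, W x.1, Y x.1) :=
      Q.Hc_mono (fun _ _ _ _ h => by clear * - h; simp_all) fun _ _ _ _ h => by clear * - h; simp_all
    rw [m1.Hc B fun x => (A x, W x, Y x)] at e1
    have e2 := P.Hc_le_close₂ (Z := B) (V := fun x => (A x, W x, Y x)) (M := (1 + 1) / l + 1)
      (M' := 2 * M + 1) (by positivity) (fun x => sep (η (Y x))) fun x y hx hy h => by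
        obtain ⟨a1, a2, a3, a4, a5⟩ := hae x hx
        obtain ⟨b1, b2, b3, -, -⟩ := hae y hy
        simp only [Prod.mk.injEq] at h
        rw [a1, a3, b1, b3, h.2.2] at h
        rw [a2, b2]
        exact ⟨line_bdd h20 h21 (hbd y x hy hx).1 (hbd y x hy hx).2, fun hs => norm_fl_sub
          (line_close hl (by rw [abs_sub_comm]; exact hs.1) (habs h20 h21 h10 h11)
            (habs h20 h21 a4 a5) (norm_sub_of_fl h.1) (norm_sub_of_fl h.2.1))⟩
    have e3 := hfx (2 * ((1 + 1) / l + 1) + 1) (by positivity) (by rw [div_eq_mul_inv]; nlinarith only [hli])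
    have e4 : d * log (2 * (2 * M + 1) + 1) ≤ g := log_le_mul (by positivity) (by linarith)
    have e5 : 0 ≤ d * log (2 * (2 * M + 1) + 1) :=
      mul_nonneg (Nat.cast_nonneg _) (log_nonneg (by linarith))
    linarith only [mul_le_mul hns e4 e5 (by positivity), e1, e2, e3]
  have k5 : Q.Hc (fun x => fl (cz (A x.1) - σ (Y x.1, Y x.2) • cz (A x.2)))
      (fun x => ((W x.1, W x.2), (Y x.1, Y x.2))) ≤ f + 4 * (p * g) := by
    have e2 := Q.Hc_le_close₂ (Z := fun x => fl (cz (A x.1) - σ (Y x.1, Y x.2) • cz (A x.2)))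
      (V := fun x => ((W x.1, W x.2), (Y x.1, Y x.2))) (M := 20 * (l⁻¹ * l⁻¹) + 1)
      (M' := 20 * M + 1) (by positivity) (fun x => sep (η (Y x.1)) ∧ sep (η (Y x.2)))
      fun x y hx hy h => by
        simp only [Prod.mk.injEq] at h
        obtain ⟨⟨w1, w2⟩, y1, y2⟩ := h
        obtain ⟨a1, a2, a3, a4, a5⟩ := hae _ (m1.pos hx)
        obtain ⟨b1, b2, b3, -, -⟩ := hae _ (m1.pos hy)
        obtain ⟨c1, c2, c3, c4, c5⟩ := hae _ (m2.pos hx)
        obtain ⟨d1, d2, d3, -, -⟩ := hae _ (m2.pos hy)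
        have hx' := P.cpy_eq hx
        have hy' := P.cpy_eq hy
        have key : sep (η (Y x.1)) ∧ sep (η (Y x.2)) →
            ‖cz (fl (cz (A y.1) - σ (Y y.1, Y y.2) • cz (A y.2))) -
              cz (fl (cz (A x.1) - σ (Y x.1, Y x.2) • cz (A x.2)))‖ ≤ 20 * (l⁻¹ * l⁻¹) + 1 := by
          intro hs
          refine norm_fl_sub ?_
          rw [y1, y2]
          simp only [σ, if_pos hs]
          set s := η (Y x.1)
          set t := η (Y x.2)
          obtain ⟨u1, u2⟩ := hu s a4 a5 hs.1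
          obtain ⟨u3, u4⟩ := hu t c4 c5 hs.2
          have n1 : s - η₁ ≠ 0 := fun h => by have := hs.1.1; rw [h, abs_zero] at this; linarith
          have n2 : t - η₁ ≠ 0 := fun h => by have := hs.2.1; rw [h, abs_zero] at this; linarith
          have n3 : u s ≠ 0 := fun h => by rw [h, abs_zero] at u1; linarith
          rw [a3, b3, y1] at w1
          rw [c3, d3, y2] at w2
          rw [a2, c2] at hx'
          rw [b2, d2] at hy'
          have z1 := norm_sub_of_fl w1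
          have z2 := norm_sub_of_fl w2
          have z3 := norm_sub_of_fl hx'
          have z4 := norm_sub_of_fl hy'
          have z5 := a1 ▸ norm_cz_fl (b x.1 + η₁ • a x.1)
          have z6 := b1 ▸ norm_cz_fl (b y.1 + η₁ • a y.1)
          have z7 := c1 ▸ norm_cz_fl (b x.2 + η₁ • a x.2)
          have z8 := d1 ▸ norm_cz_fl (b y.2 + η₁ • a y.2)
          have k1 : |(η₂ - η₁) / (s - η₁)| ≤ l⁻¹ := by
            rw [abs_div, inv_eq_one_div]
            exact div_le_div₀ zero_le_one (habs h20 h21 h10 h11) hl hs.1.1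
          have k2 : |(η₂ - η₁) / (t - η₁)| ≤ l⁻¹ := by
            rw [abs_div, inv_eq_one_div]
            exact div_le_div₀ zero_le_one (habs h20 h21 h10 h11) hl hs.2.1
          have k3 : |(u s)⁻¹| ≤ l⁻¹ := by rw [abs_inv]; exact inv_anti₀ hl u1
          refine (pi_norm_le_iff_of_nonneg (by positivity)).2 fun j => ?_
          replace z1 := (norm_le_pi_norm _ j).trans z1
          replace z2 := (norm_le_pi_norm _ j).trans z2
          replace z3 := (norm_le_pi_norm _ j).trans z3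
          replace z4 := (norm_le_pi_norm _ j).trans z4
          replace z5 := (norm_le_pi_norm _ j).trans z5
          replace z6 := (norm_le_pi_norm _ j).trans z6
          replace z7 := (norm_le_pi_norm _ j).trans z7
          replace z8 := (norm_le_pi_norm _ j).trans z8
          simp only [Pi.add_apply, Pi.sub_apply, Pi.smul_apply, smul_eq_mul, norm_eq_abs]
            at z1 z2 z3 z4 z5 z6 z7 z8 ⊢
          have id1 : cz (A y.1) j - u t / u s * cz (A y.2) j -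
              (cz (A x.1) j - u t / u s * cz (A x.2) j) =
              (cz (A y.1) j - (b y.1 j + η₁ * a y.1 j)) - (cz (A x.1) j - (b x.1 j + η₁ * a x.1 j)) +
              (u s)⁻¹ * (u t * ((cz (A x.2) j - (b x.2 j + η₁ * a x.2 j)) -
                  (cz (A y.2) j - (b y.2 j + η₁ * a y.2 j))) +
                (η₂ - η₁) / (s - η₁) * (b y.1 j + s * a y.1 j - (b x.1 j + s * a x.1 j)) -
                (η₂ - η₁) / (t - η₁) * (b y.2 j + t * a y.2 j - (b x.2 j + t * a x.2 j)) +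
                (b y.2 j + η₂ * a y.2 j - (b y.1 j + η₂ * a y.1 j)) -
                (b x.2 j + η₂ * a x.2 j - (b x.1 j + η₂ * a x.1 j))) := by
            have n4 : η₂ - s ≠ 0 := fun h => n3 (by simp only [u, h, zero_div])
            simp only [u]; field_simp; ring
          rw [id1]
          refine (abs_add_le _ _).trans ?_
          have t1 := (abs_sub _ _).trans (add_le_add z6 z5)
          have t2 := mul_le_mul u4 ((abs_sub _ _).trans (add_le_add z7 z8)) (abs_nonneg _)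
            (by positivity)
          have t3 := mul_le_mul k1 z1 (abs_nonneg _) (by positivity)
          have t4 := mul_le_mul k2 z2 (abs_nonneg _) (by positivity)
          rw [← abs_mul] at t2 t3 t4
          have t5 := (abs_sub _ _).trans (add_le_add ((abs_add_le _ _).trans (add_le_add
            ((abs_sub _ _).trans (add_le_add ((abs_add_le _ _).trans (add_le_add t2 t3)) t4)) z4)) z3)
          have t6 := mul_le_mul k3 t5 (abs_nonneg _) (by positivity)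
          rw [← abs_mul] at t6
          nlinarith only [t1, t6, hli]
        refine ⟨?_, key⟩
        by_cases hs : sep (η (Y x.1)) ∧ sep (η (Y x.2))
        · exact (key hs).trans (by rw [← hl2i]; linarith)
        · rw [y1, y2]
          simp only [σ, if_neg hs, zero_smul, sub_zero, fl_cz]
          rw [a1, b1]
          exact (line_bdd h10 h11 (hbd _ _ (m1.pos hy) (m1.pos hx)).1
            (hbd _ _ (m1.pos hy) (m1.pos hx)).2).trans (by linarith)
    have e1 : (Q.pr fun x => ¬ (sep (η (Y x.1)) ∧ sep (η (Y x.2)))) ≤ 4 * p := by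
      refine (Q.pr_mono (t := fun x => ¬ sep (η (Y x.1)) ∨ ¬ sep (η (Y x.2)))
        fun x _ hx => not_and_or.1 hx).trans ((Q.pr_or_le _ _).trans ?_)
      rw [m1.pr fun x => ¬ sep (η (Y x)), m2.pr fun x => ¬ sep (η (Y x))]
      linarith
    have e3 := hfx (2 * (20 * (l⁻¹ * l⁻¹) + 1) + 1) (by positivity) (by nlinarith only [hli])
    have e4 : d * log (2 * (20 * M + 1) + 1) ≤ g := log_le_mul (by positivity) (by linarith)
    have e5 : 0 ≤ d * log (2 * (20 * M + 1) + 1) :=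
      mul_nonneg (Nat.cast_nonneg _) (log_nonneg (by linarith))
    linarith only [mul_le_mul e1 e4 e5 (by positivity), e2, e3]
  have k6 := hfx 5 (by norm_num) (by nlinarith only [hli])
  set Φ := 2 * P.D A 1 + 2 * P.Hc W Y + P.H B - 2 * P.Hc (fun ω => (A ω, B ω)) Y + P.H A +
    3 * f + 6 * (p * g) with hΦ
  have hE : (P.E fun ω => (P.cv B (B ω)).E fun x => P.D A (σ (Y ω, Y x))) ≤ Φ := by
    have := E_glue (P' := P) (V' := B) (P := P) (V := B) fun x => P.D A (σ (Y x.1, Y x.2))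
    rw [← this]
    change Q.E _ ≤ _
    linarith
  have hD := P.D_nonneg A
  have hΦ0 : 0 ≤ Φ := le_trans (P.E_nonneg fun _ _ => E_nonneg _ fun _ _ => hD _) hE
  obtain ⟨ω₀, hω₀, hs₀, hg₀⟩ : ∃ ω, 0 < P.p ω ∧ sep (η (Y ω)) ∧
      ((P.cv B (B ω)).E fun x => P.D A (σ (Y ω, Y x))) < 2 * (Φ + 1) := by
    refine P.exists_of_pr_pos ?_
    have e1 := P.markov (f := fun ω => (P.cv B (B ω)).E fun x => P.D A (σ (Y ω, Y x)))
      (c := 2 * (Φ + 1)) (fun _ _ => E_nonneg _ fun _ _ => hD _) (by positivity)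
    have e2 : (P.E fun ω => (P.cv B (B ω)).E fun x => P.D A (σ (Y ω, Y x))) / (2 * (Φ + 1)) ≤
        1 / 2 := by rw [div_le_iff₀ (by positivity)]; linarith
    have e3 := P.pr_not fun ω => sep (η (Y ω)) ∧
      ((P.cv B (B ω)).E fun x => P.D A (σ (Y ω, Y x))) < 2 * (Φ + 1)
    have e4 := (P.pr_mono (s := fun ω => ¬ (sep (η (Y ω)) ∧
      ((P.cv B (B ω)).E fun x => P.D A (σ (Y ω, Y x))) < 2 * (Φ + 1)))
      fun ω _ h => (not_and_or.1 h).imp_right not_lt.1).trans (P.pr_or_le _ _)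
    linarith
  set P₀ := P.cv B (B ω₀)
  obtain ⟨Y₀, hY1, hY2, hY3⟩ := P₀.exists_sep (fun x => η (Y x))
    (fun x => sep (η (Y x)) ∧ P.D A (σ (Y ω₀, Y x)) < 8 * (Φ + 1)) hl (by
      have e1 := P₀.markov (f := fun x => P.D A (σ (Y ω₀, Y x))) (c := 8 * (Φ + 1))
        (fun _ _ => hD _) (by positivity)
      have e2 : (P₀.E fun x => P.D A (σ (Y ω₀, Y x))) / (8 * (Φ + 1)) ≤ 1 / 4 := by
        rw [div_le_iff₀ (by positivity)]; linarith
      have e3 := P₀.pr_not fun x => sep (η (Y x)) ∧ P.D A (σ (Y ω₀, Y x)) < 8 * (Φ + 1)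
      have e4 := (P₀.pr_mono (s := fun x => ¬ (sep (η (Y x)) ∧
        P.D A (σ (Y ω₀, Y x)) < 8 * (Φ + 1)))
        fun ω _ h => (not_and_or.1 h).imp_right not_lt.1).trans (P₀.pr_or_le _ _)
      have e5 := hns' ω₀ hω₀
      linarith) (hsp' ω₀ hω₀)
  obtain ⟨-, -, -, s0, s1⟩ := hae ω₀ hω₀
  obtain ⟨u1, u2⟩ := hu _ s0 s1 hs₀
  have hY4 : ∀ t ∈ Y₀, 0 ≤ t ∧ t ≤ 1 ∧ sep t ∧ P.D A (u t / u (η (Y ω₀))) < 8 * (Φ + 1) := by
    intro t ht
    obtain ⟨ω, ⟨h1, h2⟩, h3, rfl⟩ := hY1 t ht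
    obtain ⟨-, -, -, h4, h5⟩ := hae ω (P.cv_pos h3)
    refine ⟨h4, h5, h1, ?_⟩
    simpa only [σ, if_pos (And.intro hs₀ h1)] using h2
  have hsepu : ∀ t ∈ Y₀, ∀ t' ∈ Y₀, t ≠ t' →
      l ^ 3 ≤ |u t / u (η (Y ω₀)) - u t' / u (η (Y ω₀))| := by
    intro t ht t' ht' hne
    obtain ⟨a0, a1, a2, -⟩ := hY4 t ht
    obtain ⟨b0, b1, b2, -⟩ := hY4 t' ht'
    have n1 : 0 < |t - η₁| := hl.trans_le a2.1
    have n2 : 0 < |t' - η₁| := hl.trans_le b2.1
    have e : u t - u t' = (η₁ - η₂) * (t - t') / ((t - η₁) * (t' - η₁)) := by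
      have := abs_pos.1 n1
      have := abs_pos.1 n2
      simp only [u]; field_simp; ring
    rw [← sub_div, abs_div, e, abs_div, abs_mul, abs_mul, le_div_iff₀ (hl.trans_le u1),
      le_div_iff₀ (mul_pos n1 n2)]
    have e1 := mul_le_mul h12 (hY2 t ht t' ht' hne) hl.le (abs_nonneg _)
    have e2 : |t - η₁| * |t' - η₁| ≤ 1 :=
      mul_le_one₀ (habs a0 a1 h10 h11) n2.le (habs b0 b1 h10 h11)
    have e3 : l ^ 3 * |u (η (Y ω₀))| ≤ l * l := by
      calc l ^ 3 * |u (η (Y ω₀))| ≤ l ^ 3 * l⁻¹ := by gcongr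
        _ = l * l := by field_simp
    calc _ ≤ l * l * 1 := mul_le_mul e3 e2 (by positivity) (by positivity)
      _ ≤ _ := by linarith
  have hinj : Set.InjOn (fun t => u t / u (η (Y ω₀))) Y₀ := fun t ht t' ht' h => by
    by_contra hne
    have := hsepu t ht t' ht' hne
    simp only at h
    rw [h, sub_self, abs_zero] at this
    exact absurd this (not_le.2 (by positivity))
  have hlog : ∀ (m : ℕ) (x : ℝ), 0 < x → x ≤ 7 * (l ^ m)⁻¹ → d * log x ≤ (m + 1) * f := by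
    intro m x hx h
    have e1 : x ≤ (100 / l ^ 2) ^ (m + 1) := by
      have e2 : l⁻¹ ≤ 100 / l ^ 2 := by rw [div_eq_mul_inv, hl2i]; nlinarith only [hli]
      have e3 : (7 : ℝ) ≤ 100 / l ^ 2 := by rw [div_eq_mul_inv, hl2i]; nlinarith only [hli]
      rw [pow_succ, mul_comm]
      refine h.trans (mul_le_mul e3 ?_ (by positivity) (by positivity))
      rw [← inv_pow]; gcongr
    have := log_le_mul (d := d) hx e1
    rw [log_pow] at this
    push_cast at this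
    rw [hf]; linarith
  have k7 := hfx 7 (by norm_num) (by nlinarith only [hli])
  have hD1 := hD 1
  intro t ht0 ht1
  obtain ⟨s, hs, hs'⟩ := hC (P.D A) (Φ + 1 + 3 * P.D A 1 + 5 * f) l
    (Y₀.image fun t => u t / u (η (Y ω₀))) hl hl3 (by positivity) (by linarith)
    (fun s t => by linarith [P.D_add A s t])
    (fun s => by
      have e1 := P.D_mul A (-1) s
      have e2 := P.D_neg_one A
      norm_num at e1
      linarith)
    (fun m s t hs => by
      have e1 := P.D_mul A s t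
      have e2 : 1 ≤ (l ^ m)⁻¹ := (one_le_inv₀ (by positivity)).2 (pow_le_one₀ hl.le hl1)
      have e3 := hlog m (2 * |s| + 5) (by positivity) (by linarith)
      have e4 : (m + 1 : ℝ) * f ≤ (m + 1) * (Φ + 1 + 3 * P.D A 1 + 5 * f) :=
        mul_le_mul_of_nonneg_left (by linarith) (by positivity)
      linarith)
    (fun m s hs => by
      have e0 : 0 < |s| := lt_of_lt_of_le (by positivity) hs
      have e1 := P.D_inv A (abs_pos.1 e0)
      have e2 : 1 ≤ (l ^ m)⁻¹ := (one_le_inv₀ (by positivity)).2 (pow_le_one₀ hl.le hl1)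
      have e2' : |s|⁻¹ ≤ (l ^ m)⁻¹ := inv_anti₀ (by positivity) hs
      have e3 := hlog m (2 * |s|⁻¹ + 3) (by positivity) (by linarith)
      have e4 : (m + 1 : ℝ) * f ≤ (m + 1) * (Φ + 1 + 3 * P.D A 1 + 5 * f) :=
        mul_le_mul_of_nonneg_left (by linarith) (by positivity)
      linarith)
    (fun x hx => by
      obtain ⟨t, ht, rfl⟩ := mem_image.1 hx
      obtain ⟨a0, a1, a2, a3⟩ := hY4 t ht
      refine ⟨?_, by linarith⟩
      rw [abs_div, div_le_iff₀ (hl.trans_le u1)]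
      calc |u t| ≤ l⁻¹ := (hu t a0 a1 a2).2
        _ ≤ l⁻¹ * l⁻¹ := by nlinarith only [hli]
        _ = (l ^ 3)⁻¹ * l := by field_simp
        _ ≤ _ := by gcongr)
    (fun x hx y hy hne => by
      obtain ⟨t, ht, rfl⟩ := mem_image.1 hx
      obtain ⟨t', ht', rfl⟩ := mem_image.1 hy
      exact hsepu t ht t' ht' fun h => hne (by rw [h]))
    (by
      rw [card_image_of_injOn hinj]
      refine hcard.trans_le (pow_le_pow_left₀ ?_ ?_ _)
      · rw [sub_nonneg, le_div_iff₀ (by positivity)]; linarith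
      · rw [sub_le_sub_iff_right, div_le_iff₀ (by positivity)]; linarith) t ht0 ht1
  refine ⟨s, hs, hs'.trans ?_⟩
  have : 0 ≤ Φ + 1 + 3 * P.D A 1 + 5 * f := by positivity
  rw [show 5 * P.D A 1 + 2 * P.Hc W Y + P.H B - 2 * P.Hc (fun ω => (A ω, B ω)) Y + P.H A + 1 +
    8 * f + 6 * (p * g) = Φ + 1 + 3 * P.D A 1 + 5 * f by rw [hΦ]; ring]
  linarith only [this]

end Pool.Agent.P.MP_bf60a1_an.RA
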