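import Pool.Agent.P.MP_bf60a1_an.RA.Reg
import Pool.Agent.P.MP_bf60a1_an.RA.Coll

/-! Coarse tubes, potentials and slope balls. -/

namespace Pool.Agent.P.MP_bf60a1_an.RA

open Finset Real RA.FP

/-- the coarse tube of the line `l.1 = (a, b)` inside the level `k` cell `l.2`, at relative
resolution `B^(-m)` -/
noncomputable def tub {d : ℕ} (B k m : ℕ)
    (l : ((Fin d → ℝ) × (Fin d → ℝ)) × (Fin d → ℤ) × ℤ) :
    ((Fin d → ℤ) × ℤ) × (Fin d → ℤ) × (Fin d → ℤ) :=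
  (l.2, fl (((B : ℝ) ^ m) • l.1.1),
    fl (((B : ℝ) ^ (k + m)) • (l.1.2 + ((l.2.2 : ℝ) / (B : ℝ) ^ k) • l.1.1)))

theorem cell_eq_of_le {d B j k : ℕ} (hB : 0 < B) (hjk : j ≤ k) {x y : (Fin d → ℝ) × ℝ}
    (h : cell B k x = cell B k y) : cell B j x = cell B j y := by
  induction k, hjk using Nat.le_induction with
  | base => exact h
  | succ k _ ih => exact ih (by rw [← par_cell hB, ← par_cell hB k y, h])

theorem norm_le_of_cell {d B j : ℕ} (hB : 0 < B) {x y : (Fin d → ℝ) × ℝ}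
    (h : cell B j x = cell B j y) : ‖x - y‖ ≤ ((B : ℝ) ^ j)⁻¹ := cell_near hB h

theorem slope_ball {d : ℕ} (ξ : (Fin d → ℝ) × ℝ) {ε ε' : ℝ} (hε' : 0 < ε') (h : ε' ≤ 2 * ε) :
    ∃ a₀ : Fin d → ℝ, ∀ a, ‖a‖ ≤ 1 → ‖ξ.1 - ξ.2 • a‖ ≤ ε → ‖a - a₀‖ ≤ 2 * ε / max ε' ‖ξ‖ := by
  by_cases h1 : 2 * ε ≤ ‖ξ‖
  · have h0 : 0 < ‖ξ‖ := by linarith
    refine ⟨ξ.2⁻¹ • ξ.1, fun a ha h2 => ?_⟩
    have h3 : ‖ξ.1‖ ≤ |ξ.2| + ε := by
      have := norm_add_le (ξ.1 - ξ.2 • a) (ξ.2 • a)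
      rw [sub_add_cancel, norm_smul, norm_eq_abs] at this
      nlinarith [abs_nonneg ξ.2]
    have h4 : ‖ξ‖ ≤ 2 * |ξ.2| := by
      have : ‖ξ‖ ≤ |ξ.2| + ε := by
        rw [Prod.norm_def]; exact max_le h3 (by rw [norm_eq_abs]; linarith)
      linarith
    have h5 : ξ.2 ≠ 0 := abs_pos.1 (by linarith)
    have e : a - ξ.2⁻¹ • ξ.1 = (-ξ.2⁻¹) • (ξ.1 - ξ.2 • a) := by
      rw [neg_smul, smul_sub, smul_smul, inv_mul_cancel₀ h5, one_smul]; abel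
    rw [max_eq_right (by linarith), e, norm_smul, norm_neg, norm_inv, norm_eq_abs, inv_mul_eq_div,
      div_le_div_iff₀ (by linarith) h0]
    nlinarith [norm_nonneg (ξ.1 - ξ.2 • a)]
  · refine ⟨0, fun a ha _ => ?_⟩
    rw [sub_zero, le_div_iff₀ (lt_max_of_lt_left hε')]
    exact (mul_le_of_le_one_left (le_max_of_le_left hε'.le) ha).trans (max_le h (by linarith))

variable {Ω β : Type*} [Fintype Ω] {d : ℕ} {P : FP Ω} {X : Ω → (Fin d → ℝ) × ℝ}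
  {a b : Ω → Fin d → ℝ} {q : (Fin d → ℝ) × (Fin d → ℝ) → ℝ} {B N : ℕ} {Nn : ℕ → ℝ} {v K : ℝ}

theorem Good.slope' (h : Good P X a b q B N Nn v K) (s : (Fin d → ℝ) × ℝ → Prop)
    (a₀ : Fin d → ℝ) {r : ℝ} (hr : ((B : ℝ) ^ N)⁻¹ ≤ r) :
    (P.pr fun ω => ‖a ω - a₀‖ ≤ r ∧ s (X ω)) ≤ K * r ^ v * P.pr fun ω => s (X ω) := by
  rw [pr, pr, ← P.tower X fun x ω => ind (‖a ω - a₀‖ ≤ r ∧ s x), ← E_mul_left]
  refine P.E_mono fun ω hω => ?_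
  simp only [ind_and, E_mul_right]
  refine mul_le_mul_of_nonneg_right ?_ (ind_nonneg _)
  change (P.cv X (X ω)).pr _ ≤ _
  rw [P.pr_cv hω, div_le_iff₀ (P.cl_pos X hω)]
  exact (P.pr_congr fun _ _ => and_comm).trans_le (h.slope (X ω) a₀ r hr)

theorem Good.ball (h : Good P X a b q B N Nn v K) (hB : 0 < B) (hK : 0 ≤ K)
    (hNn : ∀ j, 0 ≤ Nn j) {j : ℕ} (hj : j ≤ N)
    (x : (Fin d → ℝ) × ℝ) : (P.pr fun ω => ‖X ω - x‖ ≤ 2 * ((B : ℝ) ^ j)⁻¹) ≤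
      7 ^ (d + 1) * (K / Nn j) := by
  have h0 : 0 < (B : ℝ) ^ j := by positivity
  obtain ⟨F, hF, hF'⟩ := exists_box (cz (cell B j x).1) (M := 3) (by norm_num)
  obtain ⟨G, hG, hG'⟩ := exists_int_box ((cell B j x).2 : ℝ) (M := 3) (by norm_num)
  refine (P.pr_mono (t := fun ω => ∃ c ∈ F ×ˢ G, cell B j (X ω) = c) fun ω _ hω =>
    ⟨_, mem_product.2 ⟨hF' _ ?_, hG' _ ?_⟩, rfl⟩).trans ((P.pr_exists_le _ _).trans ?_)
  · refine (norm_fl_sub (M := 2) ?_).trans (by norm_num)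
    rw [← smul_sub, norm_smul, norm_of_nonneg h0.le, ← le_div_iff₀' h0]
    exact (norm_fst_le (X ω - x)).trans hω
  · have h1 := (norm_snd_le (X ω - x)).trans hω
    rw [← div_eq_mul_inv, le_div_iff₀' h0, Prod.snd_sub, norm_eq_abs, ← abs_of_pos h0, ← abs_mul,
      abs_le, mul_sub] at h1
    simp only [cell, abs_le]
    constructor <;> linarith [Int.floor_le ((B : ℝ) ^ j * (X ω).2), h1.1, h1.2,
      Int.lt_floor_add_one ((B : ℝ) ^ j * (X ω).2), Int.floor_le ((B : ℝ) ^ j * x.2),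
      Int.lt_floor_add_one ((B : ℝ) ^ j * x.2)]
  · refine (sum_le_sum fun c _ => h.sup j hj c).trans ?_
    rw [sum_const, nsmul_eq_mul, card_product]
    refine mul_le_mul_of_nonneg_right ?_ (div_nonneg hK (hNn j))
    push_cast
    norm_num at hF hG
    rw [pow_succ]
    exact mul_le_mul hF (by exact_mod_cast hG) (by positivity) (by positivity)

theorem Good.pot (h : Good P X a b q B N Nn v K) (hB : 0 < B) (hK : 0 ≤ K)
    (hNn : ∀ j, 1 ≤ Nn j) {k m : ℕ} (hm : k + m ≤ N) {γ Ξ : ℝ}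
    (hΞ : ∀ j ≤ m, Nn k * ((B : ℝ) ^ j) ^ γ ≤ Ξ * Nn (k + j)) {j : ℕ} (hj : j ≤ m) :
    ((P.cpy fun ω => cell B k (X ω)).pr fun y => ‖X y.1 - X y.2‖ ≤ 2 * ((B : ℝ) ^ (k + j))⁻¹) ≤
      7 ^ (d + 1) * K * Ξ * (((B : ℝ) ^ j)⁻¹) ^ γ := by
  have hN : ∀ j, 0 < Nn j := fun j => one_pos.trans_le (hNn j)
  have hc : 0 ≤ 7 ^ (d + 1) * (K / Nn (k + j)) := mul_nonneg (by positivity)
    (div_nonneg hK (hN _).le)
  obtain ⟨F, hF, hF'⟩ := h.cnt k (by omega)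
  have h1 := P.E_div_cl_le (fun ω => cell B k (X ω))
    (g := fun _ => 7 ^ (d + 1) * (K / Nn (k + j))) F (fun _ _ => hc)
    (f := fun _ => 7 ^ (d + 1) * (K / Nn (k + j))) fun ω hω => Or.inr ⟨hF' ω hω, le_rfl⟩
  rw [pr, cpy, E_glue]
  refine (P.E_mono fun ω hω => ?_).trans (h1.trans ?_)
  · change (P.cv (fun ω => cell B k (X ω)) (cell B k (X ω))).pr _ ≤ _
    rw [P.pr_cv (V := fun ω => cell B k (X ω)) hω]
    refine div_le_div_of_nonneg_right ((P.pr_mono fun x _ hx => ?_).trans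
      (h.ball hB hK (fun j => (hN j).le) (j := k + j) (by omega) (X ω))) (P.cl_nonneg _ _)
    rw [norm_sub_rev]; exact hx.1
  · have h2 : 0 < ((B : ℝ) ^ j) ^ γ := by positivity
    rw [sum_const, nsmul_eq_mul, inv_rpow (by positivity)]
    refine (mul_le_mul_of_nonneg_right hF hc).trans ?_
    have h3 : Nn k / Nn (k + j) ≤ Ξ * (((B : ℝ) ^ j) ^ γ)⁻¹ := by
      rw [← div_eq_mul_inv, div_le_div_iff₀ (hN _) h2]; exact hΞ j hj
    calc Nn k * (7 ^ (d + 1) * (K / Nn (k + j))) = 7 ^ (d + 1) * K * (Nn k / Nn (k + j)) := by ring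
      _ ≤ 7 ^ (d + 1) * K * (Ξ * (((B : ℝ) ^ j) ^ γ)⁻¹) :=
        mul_le_mul_of_nonneg_left h3 (by positivity)
      _ = _ := by ring

end Pool.Agent.P.MP_bf60a1_an.RA
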