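import Pool.Agent.P.MP_bf60a1_an.RA.Defs

/-! Shared lemmas on tuples, spans, neighbourhoods and small scales. -/

namespace Pool.Agent.P.MP_bf60a1_an.RA

open MeasureTheory Set Filter Topology

section geom
variable {F : Type*} [NormedAddCommGroup F] [NormedSpace ℝ F]

lemma nb_mono {V W : Submodule ℝ F} {r s : ℝ} (h : V ≤ W) (hr : r ≤ s) : nb V r ⊆ nb W s :=
  fun _ ⟨v, hv, h1⟩ => ⟨v, h hv, h1.trans_le hr⟩

lemma isOpen_nb (V : Submodule ℝ F) (r : ℝ) : IsOpen (nb V r) := by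
  have : nb V r = ⋃ v ∈ V, {z | ‖z - v‖ < r} := by
    ext z
    simp [nb]
  rw [this]
  exact isOpen_biUnion fun v _ => isOpen_lt (by fun_prop) continuous_const

lemma mem_nb_sp {m : ℕ} {u : Fin m → F} {z : F} {r : ℝ} :
    z ∈ nb (sp u) r ↔ ∃ c : Fin m → ℝ, ‖z - ∑ i, c i • u i‖ < r := by
  constructor
  · rintro ⟨v, hv, h⟩
    obtain ⟨c, rfl⟩ := (Submodule.mem_span_range_iff_exists_fun ℝ).1 hv
    exact ⟨c, h⟩
  · rintro ⟨c, h⟩
    exact ⟨_, (Submodule.mem_span_range_iff_exists_fun ℝ).2 ⟨c, rfl⟩, h⟩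

lemma isOpen_nb_sp (m : ℕ) (r : ℝ) : IsOpen {q : (Fin m → F) × F | q.2 ∈ nb (sp q.1) r} := by
  have : {q : (Fin m → F) × F | q.2 ∈ nb (sp q.1) r} =
      ⋃ c : Fin m → ℝ, {q | ‖q.2 - ∑ i, c i • q.1 i‖ < r} := by
    ext q
    simp [mem_nb_sp]
  rw [this]
  exact isOpen_iUnion fun c => isOpen_lt (by fun_prop) continuous_const

lemma mem_sp_insertNth {m : ℕ} {i : Fin (m + 1)} {y z : F} {t : Fin m → F} :
    z ∈ sp (Fin.insertNth i y t : Fin (m + 1) → F) ↔ ∃ b : ℝ, ∃ v ∈ sp t, z = b • y + v := by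
  rw [sp, Fin.range_insertNth]
  exact Submodule.mem_span_insert

lemma mem_sp_cons {m : ℕ} {y z : F} {t : Fin m → F} :
    z ∈ sp (Fin.cons y t : Fin (m + 1) → F) ↔ ∃ b : ℝ, ∃ v ∈ sp t, z = b • y + v := by
  rw [sp, Fin.range_cons, Submodule.mem_span_insert, sp]

lemma mem_nb_insertNth {m : ℕ} {i : Fin (m + 1)} {y z : F} {t : Fin m → F} {r : ℝ} :
    z ∈ nb (sp (Fin.insertNth i y t : Fin (m + 1) → F)) r ↔
      ∃ b : ℝ, ∃ v ∈ sp t, ‖z - (b • y + v)‖ < r := by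
  constructor
  · rintro ⟨_, hv, h⟩
    obtain ⟨b, v, hv', rfl⟩ := mem_sp_insertNth.1 hv
    exact ⟨b, v, hv', h⟩
  · rintro ⟨b, v, hv, h⟩
    exact ⟨_, mem_sp_insertNth.2 ⟨b, v, hv, rfl⟩, h⟩

lemma mem_nb_cons {m : ℕ} {y z : F} {t : Fin m → F} {r : ℝ} :
    z ∈ nb (sp (Fin.cons y t : Fin (m + 1) → F)) r ↔
      ∃ b : ℝ, ∃ v ∈ sp t, ‖z - (b • y + v)‖ < r := by
  rw [← Fin.insertNth_zero', mem_nb_insertNth]

/-- a point far from `V` but near `ℝ y + V` has a large coefficient -/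
lemma coef_ge {V : Submodule ℝ F} {y z v : F} {b δ ρ : ℝ} (hy : ‖y‖ ≤ 1) (hv : v ∈ V)
    (h : ‖z - (b • y + v)‖ < δ) (hz : z ∉ nb V ρ) (hρ : 2 * δ ≤ ρ) : ρ / 2 < |b| := by
  have h1 : ρ ≤ ‖z - v‖ := not_lt.1 fun k => hz ⟨v, hv, k⟩
  have h2 : ‖z - v‖ ≤ ‖z - (b • y + v)‖ + ‖b • y‖ := by
    refine le_trans (le_of_eq ?_) (norm_add_le _ _)
    congr 1
    abel
  have h3 : ‖b • y‖ ≤ |b| := by
    rw [norm_smul, Real.norm_eq_abs]
    exact mul_le_of_le_one_right (abs_nonneg _) hy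
  linarith

/-- exchange: if `z` is far from `V`, near `ℝ y + V` and near `W ≥ V`, then `y` is near `W` -/
lemma exchange {V W : Submodule ℝ F} {y z v : F} {b δ ρ : ℝ} (hy : ‖y‖ ≤ 1) (hv : v ∈ V)
    (h : ‖z - (b • y + v)‖ < δ) (hz : z ∉ nb V ρ) (hρ : 2 * δ ≤ ρ) (hVW : V ≤ W)
    (hW : z ∈ nb W δ) : y ∈ nb W (4 * δ / ρ) := by
  have hb := coef_ge hy hv h hz hρ
  have hδ : 0 < δ := (norm_nonneg _).trans_lt h
  have hb0 : 0 < |b| := by linarith
  obtain ⟨w, hw, h1⟩ := hW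
  refine ⟨b⁻¹ • (w - v), W.smul_mem _ (W.sub_mem hw (hVW hv)), ?_⟩
  have e : y - b⁻¹ • (w - v) = b⁻¹ • ((z - w) - (z - (b • y + v))) := by
    have : y = b⁻¹ • b • y := by rw [smul_smul, inv_mul_cancel₀ (abs_pos.1 hb0), one_smul]
    nth_rewrite 1 [this]
    rw [← smul_sub]
    congr 1
    abel
  have h2 := norm_sub_le (z - w) (z - (b • y + v))
  rw [e, norm_smul, norm_inv, Real.norm_eq_abs, inv_mul_lt_iff₀ hb0, ← mul_div_assoc,
    lt_div_iff₀ (by linarith)]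
  nlinarith [norm_nonneg ((z - w) - (z - (b • y + v)))]

end geom

section admissible
variable {F : Type*} {G : Set (F × F)}

lemma adm_cons {j : ℕ} {x : F} {t : Fin (j + 1) → F} :
    adm G (Fin.cons x t : Fin (j + 2) → F) ↔ (t (Fin.last j), x) ∈ G ∧ adm G t := by
  simp only [adm, Fin.forall_fin_succ, ← Fin.succ_last, Fin.cons_succ, Fin.castSucc_zero,
    Fin.cons_zero, ← Fin.succ_castSucc]

lemma adm_tail {j : ℕ} {u : Fin (j + 2) → F} (h : adm G u) : adm G (Fin.tail u) := by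
  rw [← Fin.cons_self_tail u] at h
  exact (adm_cons.1 h).2

lemma adm_removeNth_one {j : ℕ} {u : Fin (j + 2) → F} (h : adm G u) :
    adm G (Fin.removeNth 1 u) := by
  cases j with
  | zero => exact fun i => i.elim0
  | succ j =>
    have e : (Fin.removeNth 1 u : Fin (j + 2) → F) = Fin.cons (u 0) (Fin.tail (Fin.tail u)) := by
      ext i
      refine Fin.cases ?_ (fun i => ?_) i
      · rfl
      · simp [Fin.removeNth, Fin.tail]
    rw [e, adm_cons]
    exact ⟨h 0, adm_tail (adm_tail h)⟩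

lemma adm_cons_cons {j : ℕ} {x x' : F} {t : Fin (j + 1) → F}
    (h : adm G (Fin.cons x t : Fin (j + 2) → F)) (h' : adm G (Fin.cons x' t : Fin (j + 2) → F)) :
    adm G (Fin.cons x' (Fin.cons x t : Fin (j + 2) → F) : Fin (j + 3) → F) :=
  adm_cons.2 ⟨(adm_cons.1 h').1, h⟩

lemma insertNth_one {m : ℕ} (x y : F) (w : Fin m → F) :
    (Fin.insertNth 1 y (Fin.cons x w : Fin (m + 1) → F) : Fin (m + 2) → F) =
      Fin.cons x (Fin.cons y w) := by
  rw [Fin.insertNth_eq_iff]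
  refine ⟨rfl, ?_⟩
  ext i
  refine Fin.cases ?_ (fun i => ?_) i
  · rfl
  · simp [Fin.removeNth]

lemma removeNth_one_cons {m : ℕ} (x y : F) (w : Fin m → F) :
    (Fin.removeNth 1 (Fin.cons x (Fin.cons y w) : Fin (m + 2) → F) : Fin (m + 1) → F) =
      Fin.cons x w := by
  rw [← insertNth_one, Fin.removeNth_insertNth]

lemma measurableSet_adm [MeasurableSpace F] (hG : MeasurableSet G) (j : ℕ) :
    MeasurableSet {u : Fin (j + 1) → F | adm G u} := by
  simp only [adm, ofPred_forall]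
  exact MeasurableSet.iInter fun i =>
    ((measurable_pi_apply _).prodMk (measurable_pi_apply _)) hG

end admissible

section tuples
variable {F : Type*} [MeasurableSpace F] (μ : Measure F) [IsProbabilityMeasure μ]

lemma mp_insertNth {m : ℕ} (i : Fin (m + 1)) :
    MeasurePreserving (fun q : F × (Fin m → F) => (Fin.insertNth i q.1 q.2 : Fin (m + 1) → F))
      (μ.prod (Measure.pi fun _ => μ)) (Measure.pi fun _ => μ) :=
  (measurePreserving_piFinSuccAbove (fun _ : Fin (m + 1) => μ) i).symm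

lemma mp_cons {m : ℕ} :
    MeasurePreserving (fun q : F × (Fin m → F) => (Fin.cons q.1 q.2 : Fin (m + 1) → F))
      (μ.prod (Measure.pi fun _ => μ)) (Measure.pi fun _ => μ) := by
  simpa only [Fin.insertNth_zero'] using mp_insertNth μ (m := m) 0

lemma mp_removeNth {m : ℕ} (i : Fin (m + 1)) :
    MeasurePreserving (fun u : Fin (m + 1) → F => (Fin.removeNth i u : Fin m → F))
      (Measure.pi fun _ => μ) (Measure.pi fun _ => μ) :=
  measurePreserving_snd.comp (measurePreserving_piFinSuccAbove (fun _ : Fin (m + 1) => μ) i)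

lemma mp_tail {m : ℕ} :
    MeasurePreserving (fun u : Fin (m + 1) → F => (Fin.tail u : Fin m → F))
      (Measure.pi fun _ => μ) (Measure.pi fun _ => μ) :=
  mp_removeNth μ 0

lemma pi_insertNth {m : ℕ} (i : Fin (m + 1)) {A : Set (Fin (m + 1) → F)} (hA : MeasurableSet A) :
    Measure.pi (fun _ => μ) A =
      ∫⁻ t, μ {y | (Fin.insertNth i y t : Fin (m + 1) → F) ∈ A} ∂Measure.pi fun _ => μ := by
  rw [← (mp_insertNth μ i).measure_preimage hA.nullMeasurableSet,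
    Measure.prod_apply_symm ((mp_insertNth μ i).measurable hA)]
  rfl

lemma pi_cons {m : ℕ} {A : Set (Fin (m + 1) → F)} (hA : MeasurableSet A) :
    Measure.pi (fun _ => μ) A =
      ∫⁻ t, μ {y | (Fin.cons y t : Fin (m + 1) → F) ∈ A} ∂Measure.pi fun _ => μ := by
  simpa only [Fin.insertNth_zero'] using pi_insertNth μ 0 hA

lemma ae_pi {m : ℕ} {p : F → Prop} (h : ∀ᵐ z ∂μ, p z) :
    ∀ᵐ u ∂Measure.pi (fun _ : Fin m => μ), ∀ i, p (u i) :=
  Measure.ae_pi_le_pi (eventually_pi fun _ => h)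

end tuples

section meas
variable {D : ℕ} {α : Type*} [MeasurableSpace α]

lemma measurableSet_nb {m : ℕ} {f : α → Fin m → EuclideanSpace ℝ (Fin D)}
    {g : α → EuclideanSpace ℝ (Fin D)} (hf : Measurable f) (hg : Measurable g) (r : ℝ) :
    MeasurableSet {a | g a ∈ nb (sp (f a)) r} :=
  (hf.prodMk hg) (isOpen_nb_sp m r).measurableSet

lemma measurable_nb (μ : Measure (EuclideanSpace ℝ (Fin D))) [IsProbabilityMeasure μ] {m : ℕ}
    {f : α → Fin m → EuclideanSpace ℝ (Fin D)} (hf : Measurable f) (r : ℝ) :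
    Measurable fun a => μ (nb (sp (f a)) r) :=
  measurable_measure_prodMk_left (ν := μ)
    (measurableSet_nb (hf.comp measurable_fst) measurable_snd r)

lemma measurable_nb_inter (μ : Measure (EuclideanSpace ℝ (Fin D))) [IsProbabilityMeasure μ]
    {m m' : ℕ} {f : α → Fin m → EuclideanSpace ℝ (Fin D)}
    {f' : α → Fin m' → EuclideanSpace ℝ (Fin D)} (hf : Measurable f) (hf' : Measurable f')
    (r r' : ℝ) : Measurable fun a => μ (nb (sp (f a)) r ∩ nb (sp (f' a)) r') :=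
  measurable_measure_prodMk_left (ν := μ)
    ((measurableSet_nb (hf.comp measurable_fst) measurable_snd r).inter
      (measurableSet_nb (hf'.comp measurable_fst) measurable_snd r'))

lemma measurable_nb_diff (μ : Measure (EuclideanSpace ℝ (Fin D))) [IsProbabilityMeasure μ]
    {m m' : ℕ} {f : α → Fin m → EuclideanSpace ℝ (Fin D)}
    {f' : α → Fin m' → EuclideanSpace ℝ (Fin D)} (hf : Measurable f) (hf' : Measurable f')
    (r r' : ℝ) : Measurable fun a => μ (nb (sp (f a)) r \ nb (sp (f' a)) r') :=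
  measurable_measure_prodMk_left (ν := μ)
    ((measurableSet_nb (hf.comp measurable_fst) measurable_snd r).diff
      (measurableSet_nb (hf'.comp measurable_fst) measurable_snd r'))

end meas

/-- small scales as a filter statement -/
lemma small_iff {P : ℝ → Prop} :
    (∃ δ₀ > (0 : ℝ), ∀ δ : ℝ, 0 < δ → δ < δ₀ → P δ) ↔ ∀ᶠ δ in 𝓝[>] (0 : ℝ), P δ := by
  rw [(nhdsGT_basis (0 : ℝ)).eventually_iff]
  exact exists_congr fun δ₀ => and_congr_right fun _ =>
    ⟨fun h _ k => h _ k.1 k.2, fun h _ k1 k2 => h ⟨k1, k2⟩⟩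

lemma tendsto_rpow_small {a : ℝ} (ha : 0 < a) :
    Tendsto (fun δ : ℝ => δ ^ a) (𝓝[>] 0) (𝓝[>] 0) := by
  refine tendsto_nhdsWithin_iff.2 ⟨?_, eventually_mem_nhdsWithin.mono fun δ h =>
    Real.rpow_pos_of_pos h a⟩
  have := (Real.continuousAt_rpow_const 0 a (Or.inr ha.le)).tendsto
  rw [Real.zero_rpow ha.ne'] at this
  exact this.mono_left nhdsWithin_le_nhds

lemma small_pos_lt_one : ∀ᶠ δ in 𝓝[>] (0 : ℝ), 0 < δ ∧ δ < 1 :=
  small_iff.1 ⟨1, one_pos, fun _ h k => ⟨h, k⟩⟩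

/-- constants are absorbed by a loss in the exponent -/
lemma small_const (C : ℝ) {a b : ℝ} (h : b < a) :
    ∀ᶠ δ in 𝓝[>] (0 : ℝ), C * δ ^ a ≤ δ ^ b := by
  have := ((tendsto_rpow_small (sub_pos.2 h)).mono_right nhdsWithin_le_nhds).const_mul C
  rw [mul_zero] at this
  filter_upwards [this.eventually (ge_mem_nhds one_pos), small_pos_lt_one] with δ h1 h2
  have e : δ ^ a = δ ^ (a - b) * δ ^ b := by rw [← Real.rpow_add h2.1, sub_add_cancel]
  rw [e, ← mul_assoc]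
  exact mul_le_of_le_one_left (Real.rpow_nonneg h2.1.le _) h1

end Pool.Agent.P.MP_bf60a1_an.RA
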